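import Pool.Agent.APX.Defs

set_option autoImplicit false

/-!
# Students for surjections with refutable values, collisions, bipartite Ramsey
-/

namespace Pool.Agent.APX

open Pool.Agent.Helper22 N487b59b3 N68a2faeb

/-- A student with `K` rounds for `Q`. The points are the words `v` of length `K (n + 1)`. After the
refutations `Z = [z_1, ..., z_i]` (oldest first, `i < K`) the student claims that `v` is the value of
a (partial) function `e` at the word `cand (x, (v, Z))` of length `n`; `ref` recognises the
refutations of this claim (of polynomial length); from two different points `v`, `v'` with the same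
candidate `clash` computes a refutation of one of the two claims (the first one if the flag is
`true`); and after `K` refutations `sol` computes a solution of `Q`. -/
structure Student (Q : Problem) where
  K : List Bool → List Bool
  K_poly : IsPolyTime K
  n : List Bool → List Bool
  n_poly : IsPolyTime n
  n_pos : ∀ x, 0 < (n x).length
  p : Polynomial ℕ
  cand : OracleProc (List Bool × (List Bool × List (List Bool))) (List Bool)
  ref : OracleProc (List Bool × (List Bool × (List (List Bool) × List Bool))) Bool
  clash : OracleProc (List Bool × ((List Bool × List (List Bool)) ×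
    (List Bool × List (List Bool)))) (Bool × List Bool)
  sol : OracleProc (List Bool × (List Bool × List (List Bool))) (List Bool)
  cand_length : ∀ (X : Oracle) (x v : List Bool) (Z : List (List Bool)),
    (cand.run X (x, (v, Z))).length = (n x).length
  ref_length : ∀ (X : Oracle) (x v z : List Bool) (Z : List (List Bool)),
    ref.run X (x, (v, (Z, z))) = true → z.length ≤ p.eval x.length
  clash_ok : ∀ (X : Oracle) (x v v' : List Bool) (Z Z' : List (List Bool)),
    v.length = (K x).length * ((n x).length + 1) → v'.length = (K x).length * ((n x).length + 1) →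
    v ≠ v' → Z.length < (K x).length → Z'.length < (K x).length →
    (∀ j < Z.length, ref.run X (x, (v, (Z.take j, Z.getD j []))) = true) →
    (∀ j < Z'.length, ref.run X (x, (v', (Z'.take j, Z'.getD j []))) = true) →
    cand.run X (x, (v, Z)) = cand.run X (x, (v', Z')) →
    if (clash.run X (x, ((v, Z), (v', Z')))).1 then
      ref.run X (x, (v, (Z, (clash.run X (x, ((v, Z), (v', Z')))).2))) = true
    else ref.run X (x, (v', (Z', (clash.run X (x, ((v, Z), (v', Z')))).2))) = true
  sol_ok : ∀ (X : Oracle) (x v : List Bool) (Z : List (List Bool)),
    v.length = (K x).length * ((n x).length + 1) → Z.length = (K x).length →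
    (∀ j < Z.length, ref.run X (x, (v, (Z.take j, Z.getD j []))) = true) →
      Q X x (sol.run X (x, (v, Z)))

/-- `Q` is solved by `t`-fold collisions of a function with values of length `n` on the words of
length `⌈log₂ t⌉ (n + 1)`. -/
structure Fold (Q : Problem) where
  t : List Bool → List Bool
  t_poly : IsPolyTime t
  n : List Bool → List Bool
  n_poly : IsPolyTime n
  n_pos : ∀ x, 0 < (n x).length
  f : OracleProc (List Bool × List Bool) (List Bool)
  sol : OracleProc (List Bool × List (List Bool)) (List Bool)
  f_length : ∀ (X : Oracle) (x v : List Bool), (f.run X (x, v)).length = (n x).length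
  sol_ok : ∀ (X : Oracle) (x : List Bool) (l : List (List Bool)), l.length = (t x).length →
    l.Nodup → (∀ v ∈ l, v.length = dig (t x).length * ((n x).length + 1)) →
    (∀ v ∈ l, ∀ w ∈ l, f.run X (x, v) = f.run X (x, w)) → Q X x (sol.run X (x, l))

/-! ## Collisions -/

/-- the function given by the oracle: the digits of the value at `v` are the answers to the
queries `cd v 1^j`, `j < n` -/
def orf (X : Oracle) (n : ℕ) (v : List Bool) : List Bool :=
  (List.range n).map fun j => X (cd v (un j))

/-- the list `l` is a `t`-fold collision of the function given by the oracle on the words of length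
`⌈log₂ t⌉ (n + 1)` -/
def IsColl (X : Oracle) (t n : ℕ) (l : List (List Bool)) : Prop :=
  l.length = t ∧ l.Nodup ∧ (∀ v ∈ l, v.length = dig t * (n + 1)) ∧
    ∀ v ∈ l, ∀ w ∈ l, orf X n v = orf X n w

/-! ## Bipartite Ramsey -/

/-- The lists `A`, `B` of words of length `n` span a monochromatic complete bipartite graph with
sides of size at least `⌈(⌊n / ⌈log₂ t⌉⌋ - 1) / 2⌉` and equal to `t`, in the colouring of the pairs of
words of length `n` given by the oracle. -/
def IsMono (X : Oracle) (t n : ℕ) (A B : List (List Bool)) : Prop :=
  (n / dig t - 1 + 1) / 2 ≤ A.length ∧ B.length = t ∧ A.Nodup ∧ B.Nodup ∧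
    (∀ a ∈ A, a.length = n) ∧ (∀ b ∈ B, b.length = n) ∧
    ∃ c : Bool, ∀ a ∈ A, ∀ b ∈ B, X (cd a b) = c

end Pool.Agent.APX
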