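import Pool.Agent.APX.Defs

set_option autoImplicit false

/-!
# APX-Bits: binary words and numbers
-/

namespace Pool.Agent.APX

open Pool.Agent.Helper22

private theorem bits_foldl (w : List Bool) (a : ℕ) :
    w.foldl (fun n b => 2 * n + b.toNat) a = a * 2 ^ w.length + val w := by
  induction w generalizing a with
  | nil => simp [val]
  | cons b w ih =>
    have e : val (b :: w) = (2 * 0 + b.toNat) * 2 ^ w.length + val w := by
      conv_lhs => rw [val, List.foldl_cons, ih]
    rw [List.foldl_cons, ih, List.length_cons, e]
    ring

private theorem bits_nil : val [] = 0 := rfl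

private theorem bits_single (b : Bool) : val [b] = b.toNat := by
  simp [val]

private theorem bits_cons (b : Bool) (w : List Bool) : val (b :: w) = b.toNat * 2 ^ w.length + val w := by
  rw [val, List.foldl_cons, bits_foldl]
  ring

@[simp] theorem length_bin (l n : ℕ) : (bin l n).length = l := by
  induction l generalizing n with
  | zero => rfl
  | succ l ih => rw [bin, List.length_append, ih]; rfl

theorem val_append (u v : List Bool) : val (u ++ v) = val u * 2 ^ v.length + val v := by
  rw [val, List.foldl_append, bits_foldl]
  rfl

theorem val_lt (w : List Bool) : val w < 2 ^ w.length := by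
  induction w with
  | nil => simp [val]
  | cons b w ih =>
    rw [bits_cons, List.length_cons, pow_succ]
    have h : b.toNat ≤ 1 := Bool.toNat_le b
    have h2 : b.toNat * 2 ^ w.length ≤ 1 * 2 ^ w.length := Nat.mul_le_mul_right _ h
    omega

theorem val_bin (l n : ℕ) : val (bin l n) = n % 2 ^ l := by
  induction l generalizing n with
  | zero => rw [bin, bits_nil, pow_zero, Nat.mod_one]
  | succ l ih =>
    rw [bin, val_append, ih, bits_single, List.length_singleton, pow_one, pow_succ']
    have h1 : (decide (n % 2 = 1)).toNat = n % 2 := by
      rcases Nat.mod_two_eq_zero_or_one n with h | h <;> simp [h]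
    rw [h1, Nat.mod_mul]
    ring

theorem bin_val (w : List Bool) : bin w.length (val w) = w := by
  induction w using List.reverseRecOn with
  | nil => rfl
  | append_singleton u b ih =>
    rw [List.length_append, List.length_singleton, bin, val_append, bits_single, List.length_singleton,
      pow_one]
    have h1 : (val u * 2 + b.toNat) / 2 = val u := by
      have := Bool.toNat_lt b
      omega
    have h2 : decide ((val u * 2 + b.toNat) % 2 = 1) = b := by
      cases b <;> simp
    rw [h1, h2, ih]

theorem val_inj {u v : List Bool} (h : u.length = v.length) (e : val u = val v) : u = v := by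
  rw [← bin_val u, ← bin_val v, h, e]

theorem val_ones (l : ℕ) : val (List.replicate l true) + 1 = 2 ^ l := by
  induction l with
  | zero => rfl
  | succ l ih =>
    rw [List.replicate_succ, bits_cons, List.length_replicate, pow_succ, Bool.toNat_true]
    omega

theorem val_zeros (l : ℕ) : val (List.replicate l false) = 0 := by
  induction l with
  | zero => rfl
  | succ l ih =>
    rw [List.replicate_succ, bits_cons, ih]
    simp

theorem dig_two_pow (l : ℕ) : dig (2 ^ l) = l := by
  rw [dig]
  have h := Nat.two_pow_pos l
  apply le_antisymm
  · rw [Nat.size_le]
    omega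
  · rcases Nat.eq_zero_or_pos l with rfl | hl
    · exact Nat.zero_le _
    · obtain ⟨m, rfl⟩ : ∃ m, l = m + 1 := ⟨l - 1, by omega⟩
      rw [Nat.succ_le_iff, Nat.lt_size]
      have h2 := Nat.two_pow_pos m
      rw [pow_succ]
      omega

/-- reading a number whose digits are those of the word `w` -/
theorem rdn_eq (X : Oracle) (w : List Bool) (q : List Bool → List Bool)
    (h : ∀ j < w.length, X (q (un j)) = w.getD j false) : rdn X w.length q = val w := by
  rw [rdn]
  congr 1
  apply List.ext_getElem
  · simp
  · intro j h1 h2
    rw [List.getElem_map, List.getElem_range, h j h2, List.getD_eq_getElem _ _ h2]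

end Pool.Agent.APX
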