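import Pool.Agent.APX.Lib

set_option autoImplicit false

/-!
# APX-Tw: lists of words as words
-/

namespace Pool.Agent.APX

open Pool.Agent.Helper22 N487b59b3

variable {α : Type} [N487b59b3 α]

/-- a list of words as a word -/
def tw (l : List (List Bool)) : List Bool := l.flatMap delimit

/-- one step of the decoding -/
def wtStep (p : List (List Bool) × List Bool) : List (List Bool) × List Bool :=
  if p.2.isEmpty then p else (p.1 ++ [cf p.2], cs p.2)

/-- the list of words coded by a word -/
def wt (w : List Bool) : List (List Bool) := (wtStep^[w.length] ([], w)).1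

@[simp] theorem tw_nil : tw [] = [] := rfl

theorem tw_cons (a : List Bool) (l : List (List Bool)) : tw (a :: l) = cd a (tw l) := rfl

theorem tw_append (l l' : List (List Bool)) : tw (l ++ l') = tw l ++ tw l' := by
  simp [tw]

private lemma cfcs_le (w : List Bool) : 2 * (cf w).length + (cs w).length ≤ w.length := by
  fun_induction cf w with
  | case1 b l ih =>
    have h1 : cs (true :: b :: l) = cs l := rfl
    rw [h1, List.length_cons, List.length_cons, List.length_cons]
    omega
  | case2 w h =>
    match w, h with
    | [], _ => simp [cs]
    | [true], _ => simp [cs]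
    | false :: l, _ => simp [cs]
    | true :: b :: l, h => exact absurd rfl (h b l)

private lemma cs_lt (w : List Bool) (hw : w ≠ []) : (cs w).length + 1 ≤ w.length := by
  match w, hw with
  | [], hw => exact absurd rfl hw
  | [true], _ => simp [cs]
  | false :: l, _ => simp [cs]
  | true :: b :: l, _ =>
    have h1 : cs (true :: b :: l) = cs l := rfl
    rw [h1, List.length_cons, List.length_cons]
    have h2 := cfcs_le l
    omega

private lemma wtStep_nil (acc : List (List Bool)) : wtStep (acc, []) = (acc, []) := rfl

private lemma wtStep_cons (acc : List (List Bool)) (w : List Bool) (hw : w ≠ []) :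
    wtStep (acc, w) = (acc ++ [cf w], cs w) := by
  have h1 : w.isEmpty = false := by
    cases w with
    | nil => exact absurd rfl hw
    | cons x w => rfl
  simp only [wtStep, h1, Bool.false_eq_true, if_false]

private lemma cd_ne (a b : List Bool) : cd a b ≠ [] := by
  intro h
  have h1 := cd_length a b
  rw [h, List.length_nil] at h1
  omega

private lemma iter_tw (l acc : List (List Bool)) (n : ℕ) (hn : l.length ≤ n) :
    wtStep^[n] (acc, tw l) = (acc ++ l, []) := by
  induction l generalizing acc n with
  | nil =>
    rw [tw_nil, Function.iterate_fixed (wtStep_nil acc), List.append_nil]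
  | cons a l ih =>
    cases n with
    | zero => simp at hn
    | succ n =>
      rw [Function.iterate_succ_apply, tw_cons, wtStep_cons _ _ (cd_ne _ _), cf_cd, cs_cd,
        ih _ _ (by simpa using hn), List.append_assoc, List.singleton_append]

private lemma length_le_tw (l : List (List Bool)) : l.length ≤ (tw l).length := by
  induction l with
  | nil => simp
  | cons a l ih =>
    rw [tw_cons, cd_length, List.length_cons]
    omega

theorem wt_tw (l : List (List Bool)) : wt (tw l) = l := by
  unfold wt
  rw [iter_tw l [] _ (length_le_tw l)]
  rfl

theorem length_tw (l : List (List Bool)) :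
    (tw l).length = (l.map fun w => 2 * w.length + 1).sum := by
  induction l with
  | nil => rfl
  | cons a l ih => rw [tw_cons, cd_length, ih, List.map_cons, List.sum_cons]

theorem length_tw_le (l : List (List Bool)) (C D : ℕ) (h : l.length ≤ D)
    (h' : ∀ w ∈ l, w.length ≤ C) : (tw l).length ≤ D * (2 * C + 1) := by
  rw [length_tw]
  have h1 : (l.map fun w => 2 * w.length + 1).sum ≤ l.length * (2 * C + 1) := by
    clear h
    induction l with
    | nil => simp
    | cons a l ih =>
      have h2 := ih fun w hw => h' w (List.mem_cons_of_mem _ hw)
      have h3 := h' a List.mem_cons_self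
      rw [List.map_cons, List.sum_cons, List.length_cons]
      have h4 : (l.length + 1) * (2 * C + 1) = l.length * (2 * C + 1) + (2 * C + 1) := by ring
      omega
  exact h1.trans (Nat.mul_le_mul_right _ h)

private def twAux (acc w : List Bool) : List Bool := acc ++ cd w []

private lemma twAux_foldl (l : List (List Bool)) (acc : List Bool) :
    l.foldl twAux acc = acc ++ tw l := by
  induction l generalizing acc with
  | nil => simp
  | cons a l ih =>
    rw [List.foldl_cons, ih, tw_cons]
    simp [twAux, cd]

private lemma sz_tw_le (l : List (List Bool)) : 3 * (tw l).length ≤ 3 * sz l := by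
  induction l with
  | nil => simp
  | cons a l ih =>
    rw [tw_cons, cd_length, sz_cons, sz_bits]
    omega

private lemma twFP : FP tw := by
  have h1 : FP fun p : List (List Bool) × List Bool => p.1.foldl twAux p.2 := by
    refine FP.foldl (g := twAux) ?_ (B := fun n => 3 * n) (by fun_prop) ?_
    · unfold twAux
      have h2 : FP fun p : List Bool × List Bool => cd p.2 [] := FP.cd FP.snd (FP.const [])
      exact FP.append FP.fst h2
    · intro l a
      rw [twAux_foldl, sz_append]
      have h2 := sz_tw_le l
      have h3 := sz_bits (tw l)
      omega
  have h2 := h1.comp (FP.pair (FP.id (α := List (List Bool))) (FP.const ([] : List Bool)))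
  refine (congrArg FP (funext fun l => ?_)).mp h2
  exact (twAux_foldl l []).trans (List.nil_append _)

theorem FP.tw {f : α → List (List Bool)} (hf : FP f) : FP fun a => tw (f a) := by
  exact twFP.comp hf

private lemma step_meas (p : List (List Bool) × List Bool) :
    sz (wtStep p).1 + 4 * (wtStep p).2.length ≤ sz p.1 + 4 * p.2.length := by
  obtain ⟨acc, w⟩ := p
  by_cases hw : w = []
  · subst hw
    rw [wtStep_nil]
  · rw [wtStep_cons _ _ hw]
    have h1 := cfcs_le w
    have h2 := cs_lt w hw
    simp only [sz_append, sz_cons, sz_nil, sz_bits]
    omega

private lemma iter_meas (p : List (List Bool) × List Bool) (i : ℕ) :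
    sz (wtStep^[i] p).1 + 4 * (wtStep^[i] p).2.length ≤ sz p.1 + 4 * p.2.length := by
  induction i with
  | zero => exact le_rfl
  | succ i ih =>
    rw [Function.iterate_succ_apply']
    exact (step_meas _).trans ih

private lemma wtFP : FP wt := by
  have h0 : FP wtStep := by
    unfold wtStep
    have h1 : FP fun p : List (List Bool) × List Bool => [cf p.2] :=
      (FP.cf FP.snd).cons (FP.const [])
    have h2 : FP fun p : List (List Bool) × List Bool => (p.1 ++ [cf p.2], cs p.2) :=
      FP.pair (FP.append FP.fst h1) (FP.cs FP.snd)
    exact FP.ite (FP.isEmpty FP.snd) FP.id h2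
  have h1 : FP fun q : List Bool × (List (List Bool) × List Bool) => wtStep^[q.1.length] q.2 := by
    refine FP.iterate (β := Bool) h0 (B := fun n => 3 * n) (by fun_prop) ?_
    intro l p i _
    have h2 := iter_meas p i
    have h3 : sz p = 2 * sz p.1 + 1 + sz p.2 := sz_pair p.1 p.2
    have h4 : sz (wtStep^[i] p) = 2 * sz (wtStep^[i] p).1 + 1 + sz (wtStep^[i] p).2 :=
      sz_pair (wtStep^[i] p).1 (wtStep^[i] p).2
    rw [sz_bits] at h3 h4
    show sz (wtStep^[i] p) ≤ 3 * (sz l + sz p)
    omega
  have h2 : FP fun w : List Bool => (w, (([] : List (List Bool)), w)) :=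
    FP.pair FP.id (FP.pair (FP.const []) FP.id)
  exact FP.fst.comp (h1.comp h2)

theorem FP.wt {f : α → List Bool} (hf : FP f) : FP fun a => wt (f a) := by
  exact wtFP.comp hf

/-- every word of `wt w` is short -/
theorem length_wt_le (w : List Bool) : ((wt w).map List.length).sum ≤ w.length ∧
    (wt w).length ≤ w.length := by
  have key : ∀ (i : ℕ) (p : List (List Bool) × List Bool),
      ((wtStep^[i] p).1.map List.length).sum + (wtStep^[i] p).2.length ≤
        (p.1.map List.length).sum + p.2.length ∧
      (wtStep^[i] p).1.length + (wtStep^[i] p).2.length ≤ p.1.length + p.2.length := by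
    intro i p
    induction i generalizing p with
    | zero => exact ⟨le_rfl, le_rfl⟩
    | succ i ih =>
      rw [Function.iterate_succ_apply]
      obtain ⟨h1, h2⟩ := ih (wtStep p)
      refine ⟨h1.trans ?_, h2.trans ?_⟩
      · obtain ⟨acc, w⟩ := p
        by_cases hw : w = []
        · subst hw
          rw [wtStep_nil]
        · rw [wtStep_cons _ _ hw]
          have h3 := cfcs_le w
          simp only [List.map_append, List.map_cons, List.map_nil, List.sum_append, List.sum_cons,
            List.sum_nil]
          omega
      · obtain ⟨acc, w⟩ := p
        by_cases hw : w = []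
        · subst hw
          rw [wtStep_nil]
        · rw [wtStep_cons _ _ hw]
          have h3 := cs_lt w hw
          simp only [List.length_append, List.length_cons, List.length_nil]
          omega
  have h := key w.length ([], w)
  simp only [List.map_nil, List.sum_nil, List.length_nil, zero_add] at h
  constructor
  · show ((wtStep^[w.length] ([], w)).1.map List.length).sum ≤ w.length
    omega
  · show (wtStep^[w.length] ([], w)).1.length ≤ w.length
    omega

end Pool.Agent.APX
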