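import Pool.Agent.APX.WordsFP
import Pool.Agent.APX.Tw

set_option autoImplicit false

/-!
# Certificates for the halving argument

Fix a scheme, an oracle and an input; let `N` be the length of the codes and `i < K` a level, `P` a
prefix. An object of level `i` in the subcube `P c` (`c` of length `N + 1`) is a value of the
multifunction `R` at the cell `c`: its code has length `N`. `runF` evaluates
`F(a, bs) = R(... R(R(a b_1) b_2) ... b_N)` with a list of objects, and `runC` a chain of such
evaluations controlled by a list of entries (an entry is a flag and a word of length `N`).
-/

namespace Pool.Agent.APX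

open Pool.Agent.Helper22 N487b59b3

namespace Scheme

variable {Q : Problem} (S : Scheme Q)

/-- `O` is an object of level `i` in the subcube `P` -/
def okU (X : Oracle) (x : List Bool) (i : ℕ) (P O : List Bool) : Bool :=
  S.ok.run X (x, (un i, (P, O)))

/-- the code of an object -/
def cod (X : Oracle) (x O : List Bool) : List Bool := S.code.run X (x, O)

/-- one application of the multifunction; the state is `(correct?, (u, bs))` -/
def stF (X : Oracle) (x : List Bool) (i : ℕ) (P : List Bool) (st : Bool × (List Bool × List Bool))
    (O : List Bool) : Bool × (List Bool × List Bool) :=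
  (st.1 && (!st.2.2.isEmpty && S.okU X x i (P ++ (st.2.1 ++ [st.2.2.headD false])) O),
    (S.cod X x O, st.2.2.tail))

/-- the evaluation of `F(a, bs)` with the objects `Os` -/
def runF (X : Oracle) (x : List Bool) (i : ℕ) (P a bs : List Bool) (Os : List (List Bool)) :
    Bool × (List Bool × List Bool) :=
  Os.foldl (S.stF X x i P) (true, (a, bs))

/-- one level of a chain; the state is `(correct?, (point, entries))`, the item codes the list
`y :: Os`. If the flag of the entry `e` is `true` the next point is `F(point, e.tail)`, otherwise it
is `F(y, point)`. -/
def stC (X : Oracle) (x : List Bool) (i : ℕ) (P : List Bool)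
    (st : Bool × (List Bool × List (List Bool))) (it : List Bool) :
    Bool × (List Bool × List (List Bool)) :=
  let a := if (st.2.2.headD []).headD false then st.2.1 else (wt it).headD []
  let bs := if (st.2.2.headD []).headD false then (st.2.2.headD []).tail else st.2.1
  let r := S.runF X x i P a bs (wt it).tail
  (st.1 && (!st.2.2.isEmpty && (Helper22.weq (zr a) (zr (S.n x)) && (r.1 && r.2.2.isEmpty))),
    (r.2.1, st.2.2.tail))

/-- the evaluation of a chain: entries `es`, first point `p`, items `cs` -/
def runC (X : Oracle) (x : List Bool) (i : ℕ) (P : List Bool) (es : List (List Bool))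
    (p : List Bool) (cs : List (List Bool)) : Bool × (List Bool × List (List Bool)) :=
  cs.foldl (S.stC X x i P) (true, (p, es))

/-- the chain is correct -/
def okC (X : Oracle) (x : List Bool) (i : ℕ) (P : List Bool) (es : List (List Bool))
    (p : List Bool) (cs : List (List Bool)) : Bool :=
  (S.runC X x i P es p cs).1 && (S.runC X x i P es p cs).2.2.isEmpty

/-- the last point of a chain -/
def vaC (X : Oracle) (x : List Bool) (i : ℕ) (P : List Bool) (es : List (List Bool))
    (p : List Bool) (cs : List (List Bool)) : List Bool :=
  (S.runC X x i P es p cs).2.1

/-- the triples (cell, (object, code)) used in an evaluation of `F` -/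
def steF (X : Oracle) (x a bs : List Bool) (Os : List (List Bool)) :
    List (List Bool × (List Bool × List Bool)) × (List Bool × List Bool) :=
  Os.foldl (fun st O => (st.1 ++ [(st.2.1 ++ [st.2.2.headD false], (O, S.cod X x O))],
    (S.cod X x O, st.2.2.tail))) ([], (a, bs))

/-- the triples (cell, (object, code)) used in a chain -/
def steC (X : Oracle) (x : List Bool) (es : List (List Bool)) (p : List Bool)
    (cs : List (List Bool)) :
    List (List Bool × (List Bool × List Bool)) × (List Bool × List (List Bool)) :=
  cs.foldl (fun st it =>
    let a := if (st.2.2.headD []).headD false then st.2.1 else (wt it).headD []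
    let bs := if (st.2.2.headD []).headD false then (st.2.2.headD []).tail else st.2.1
    let r := S.steF X x a bs (wt it).tail
    (st.1 ++ r.1, (r.2.1, st.2.2.tail))) ([], (p, es))

/-- the first pair of different cells with the same code -/
def findP (L L' : List (List Bool × (List Bool × List Bool))) : Bool × (List Bool × List Bool) :=
  L.foldl (fun b q => L'.foldl (fun b q' =>
    if b.1 then b
    else if !Helper22.weq q.1 q'.1 && Helper22.weq q.2.2 q'.2.2 then (true, (q.2.1, q'.2.1))
    else b) b) (false, ([], []))

end Scheme

end Pool.Agent.APX
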