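import Pool.Agent.APX.State

set_option autoImplicit false

/-!
# APX-StateA: well formed states
-/

namespace Pool.Agent.APX

open Pool.Agent.Helper22 N487b59b3

namespace Scheme

variable {Q : Problem} (S : Scheme Q)

theorem wfS_iff (x s : List Bool) : S.wfS (x, s) = true ↔
    ∃ (j : ℕ) (P : List Bool) (es : List (List Bool)), s = mkS (un j) P es ∧ j ≤ S.k x ∧
      P.length = j * (S.N x + 1) ∧ es.length = S.N x ∧ ∀ e ∈ es, e.length = S.N x + 1 := by
  unfold wfS
  simp only [Bool.and_eq_true, decide_eq_true_eq, weq_iff, List.all_eq_true]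
  constructor
  · rintro ⟨h1, h2, h3, h4, h5, h6⟩
    refine ⟨(sJ s).length, sP s, sE s, ?_, h2, h4, h5, h6⟩
    rw [← h3]
    exact h1
  · rintro ⟨j, P, es, rfl, h1, h2, h3, h4⟩
    simp only [sJ_mkS, sP_mkS, sE_mkS, un_length]
    exact ⟨trivial, h1, trivial, h2, h3, h4⟩

theorem length_rkS (x s : List Bool) :
    (S.rkS (x, s)).length = S.k x + S.N x * (S.N x + 1) := by
  unfold rkS
  rw [List.length_append, length_fit, length_fit, un_length]

theorem wfS_length {x s : List Bool} (h : S.wfS (x, s) = true) : s.length ≤ S.lsb x := by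
  obtain ⟨j, P, es, rfl, h1, h2, h3, h4⟩ := (S.wfS_iff x s).1 h
  unfold mkS lsb
  rw [cd_length, cd_length, un_length, h2]
  have h5 := length_tw_le es (S.N x + 1) (S.N x) h3.le fun w hw => (h4 w hw).le
  have h6 : j * (S.N x + 1) ≤ S.k x * (S.N x + 1) := Nat.mul_le_mul_right _ h1
  omega

private theorem length_e0 (x : List Bool) : (S.e0 x).length = S.N x + 1 := by
  unfold e0 zr
  rw [List.length_cons, List.length_replicate]

theorem st0_wf (x : List Bool) : S.wfS (x, S.st0 x) = true := by
  refine (S.wfS_iff x _).2 ⟨0, [], List.replicate (S.N x) (S.e0 x), rfl, Nat.zero_le _, ?_, ?_, ?_⟩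
  · simp
  · exact List.length_replicate
  · intro e he
    rw [List.eq_of_mem_replicate he]
    exact S.length_e0 x

private theorem flg_getD (x : List Bool) (n i : ℕ) : flg ((List.replicate n (S.e0 x)).getD i []) = false := by
  by_cases hi : i < n
  · have h1 : (List.replicate n (S.e0 x)).getD i [] = S.e0 x := by
      rw [List.getD_eq_getElem _ _ (by rw [List.length_replicate]; exact hi), List.getElem_replicate]
    rw [h1]
    rfl
  · have h1 : (List.replicate n (S.e0 x)).getD i [] = [] := by
      rw [List.getD_eq_default]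
      rw [List.length_replicate]
      omega
    rw [h1]
    rfl

theorem vio_st0 (X : Oracle) (x y : List Bool) : S.vio X (x, (S.st0 x, y)) = false := by
  have h1 : sJ (S.st0 x) = [] := sJ_mkS _ _ _
  have h2 : sE (S.st0 x) = List.replicate (S.N x) (S.e0 x) := sE_mkS _ _ _
  unfold vio
  simp only [h1, h2, flg_getD]
  simp

/-- PLAN. `wfS_iff`. -/
theorem cellR_wf {x s c : List Bool} (h : S.wfS (x, s) = true) (hj : (sJ s).length < S.k x)
    (hc : c.length = S.N x + 1) : S.wfS (x, S.cellR x s c) = true := by
  obtain ⟨j, P, es, rfl, h1, h2, h3, h4⟩ := (S.wfS_iff x s).1 h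
  rw [sJ_mkS, un_length] at hj
  refine (S.wfS_iff x _).2 ⟨j + 1, P ++ c, List.replicate (S.N x) (S.e0 x), ?_, hj, ?_, ?_, ?_⟩
  · unfold cellR
    rw [sJ_mkS, sP_mkS, un_add]
    rfl
  · rw [List.length_append, h2, hc]
    ring
  · exact List.length_replicate
  · intro e he
    rw [List.eq_of_mem_replicate he]
    exact S.length_e0 x

theorem entR_wf {x s l p : List Bool} (h : S.wfS (x, s) = true) (hl : l ≠ [])
    (hl' : l.length ≤ S.N x) (hp : p.length = S.N x) : S.wfS (x, S.entR x s l p) = true := by
  obtain ⟨j, P, es, rfl, h1, h2, h3, h4⟩ := (S.wfS_iff x s).1 h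
  have hpos : 0 < l.length := List.length_pos_iff.2 hl
  refine (S.wfS_iff x _).2 ⟨j, P, es.take l.tail.length ++ ((true :: p) ::
    List.replicate (S.N x - l.length) (S.e0 x)), ?_, h1, h2, ?_, ?_⟩
  · unfold entR
    rw [sJ_mkS, sP_mkS, sE_mkS]
  · rw [List.length_append, List.length_take, List.length_cons, List.length_replicate, List.length_tail, h3]
    omega
  · intro e he
    rw [List.mem_append, List.mem_cons] at he
    rcases he with he | rfl | he
    · exact h4 e (List.mem_of_mem_take he)
    · rw [List.length_cons, hp]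
    · rw [List.eq_of_mem_replicate he]
      exact S.length_e0 x

end Scheme

end Pool.Agent.APX
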