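import Pool.Agent.APX.Proc
import Pool.Agent.APX.StateA

set_option autoImplicit false

/-!
# APX-ChainA: the run of entries with flag `true` at the top
-/

namespace Pool.Agent.APX

open Pool.Agent.Helper22 N487b59b3

namespace Scheme

variable {Q : Problem} (S : Scheme Q)

theorem length_pt (x : List Bool) (b : Bool) : (S.pt x b).length = S.N x := by
  have h := S.n_pos x
  simp only [pt, zr, List.length_cons, List.length_replicate, List.length_tail, N]
  omega

private theorem ChainA_flatMap (l : List (List Bool)) (n : ℕ) (h : ∀ e ∈ l, e.length = n + 1) :
    (l.flatMap List.tail).length = l.length * n := by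
  induction l with
  | nil => simp
  | cons a l ih =>
    rw [List.flatMap_cons, List.length_append, ih fun e he => h e (List.mem_cons_of_mem _ he), List.length_tail,
      h a List.mem_cons_self, List.length_cons]
    simp only [Nat.add_sub_cancel]
    ring

theorem topE_spec {x s : List Bool} (h : S.wfS (x, s) = true) :
    (topE s).length ≤ S.N x ∧ (∀ e ∈ topE s, flg e = true ∧ e.length = S.N x + 1) ∧
    (sE s).reverse = topE s ++ ((sE s).take (S.lv1 x s).length).reverse ∧
    (S.lv1 x s ≠ [] → flg ((sE s).getD (S.lv1 x s).tail.length []) = false) ∧
    (Yb s).length = (topE s).length * S.N x := by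
  obtain ⟨j, P, es, hs, hj, hP, hes, he⟩ := (S.wfS_iff x s).1 h
  have hE : sE s = es := by rw [hs, sE_mkS]
  have ht : topE s = es.reverse.takeWhile flg := by rw [topE, hE]
  have hr : (topE s).length ≤ S.N x := by
    have h0 := (List.takeWhile_prefix flg (l := es.reverse)).length_le
    rw [List.length_reverse, hes] at h0
    rw [ht]
    exact h0
  have hm : ∀ e ∈ topE s, flg e = true ∧ e.length = S.N x + 1 := by
    intro e hmem
    rw [ht] at hmem
    refine ⟨List.mem_takeWhile_imp hmem, he e ?_⟩
    have := (List.takeWhile_prefix flg).subset hmem
    exact List.mem_reverse.1 this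
  have hl : (S.lv1 x s).length = S.N x - (topE s).length := S.length_lv1 x s
  have hdrop : es.reverse.dropWhile flg = ((es.take (S.N x - (topE s).length))).reverse := by
    have h1 : es.reverse.drop (topE s).length = es.reverse.dropWhile flg := by
      have h2 := List.takeWhile_append_dropWhile (p := flg) (l := es.reverse)
      conv_lhs => rw [← h2, ht]
      rw [List.drop_append_of_le_length le_rfl, List.drop_length, List.nil_append]
    rw [← h1, List.drop_reverse, hes]
  refine ⟨hr, hm, ?_, ?_, ?_⟩
  · rw [hE, hl, ← hdrop, ht, List.takeWhile_append_dropWhile]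
  · intro hne
    have hpos : 0 < S.N x - (topE s).length := by
      rw [← hl]
      exact List.length_pos_iff.2 hne
    rw [hE, List.length_tail, hl]
    set m := S.N x - (topE s).length with hmdef
    have hlt : m - 1 < es.length := by rw [hes]; omega
    have hne2 : es.reverse.dropWhile flg ≠ [] := by
      rw [hdrop]
      intro h0
      have h1 := congrArg List.length h0
      rw [List.length_reverse, List.length_take, hes, List.length_nil] at h1
      omega
    have h3 := List.head_dropWhile_not flg hne2
    have h4 : (es.reverse.dropWhile flg).head hne2 = es.getD (m - 1) [] := by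
      have h5 : (es.reverse.dropWhile flg).head? = some (es.getD (m - 1) []) := by
        rw [hdrop, List.head?_reverse, List.getLast?_take, if_neg (by omega), List.getElem?_eq_getElem hlt,
          List.getD_eq_getElem?_getD, List.getElem?_eq_getElem hlt]
        rfl
      rw [List.head?_eq_some_head hne2] at h5
      exact Option.some.inj h5
    rw [h4] at h3
    exact h3
  · exact ChainA_flatMap _ _ fun e h => (hm e h).2

private theorem ChainA_flg (n : List Bool) (m k : ℕ) (l : List Bool) (hl : flg l = false) :
    flg ((List.replicate m l).getD k []) = false := by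
  rw [List.getD_eq_getElem?_getD, List.getElem?_replicate]
  split_ifs
  · exact hl
  · rfl

/-- an answer to a request for an object -/
theorem vio_cellR {X : Oracle} {x s c y : List Bool} (h : S.wfS (x, s) = true)
    (hj : (sJ s).length < S.k x) (hv : S.vio X (x, (S.cellR x s c, y)) = true) :
    S.okU X x (S.lo x s) (sP s ++ c) (yo y) = true := by
  rw [vio] at hv
  simp only [cellR, sJ_mkS, sP_mkS, sE_mkS, Bool.and_eq_true] at hv
  obtain ⟨-, hv⟩ := hv
  split_ifs at hv with h1
  · simp only [Bool.and_eq_true] at hv
    have h2 := hv.2.2.2.1
    rw [ChainA_flg [] _ _ (S.e0 x) rfl] at h2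
    exact absurd h2 (by decide)
  · simp only [Bool.and_eq_true] at hv
    have h2 := hv.2
    have h3 : S.k x - (sJ s ++ [true]).length = S.lo x s := by
      rw [lo, List.length_append, List.length_singleton]
      omega
    rw [h3] at h2
    exact h2

end Scheme

end Pool.Agent.APX
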