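import Pool.Agent.APX.ChainA

set_option autoImplicit false

/-!
# APX-ChainR: the top part of a chain
-/

namespace Pool.Agent.APX

open Pool.Agent.Helper22 N487b59b3

namespace Scheme

variable {Q : Problem} (S : Scheme Q)

private theorem take_snoc {T : List (List Bool)} {t : ℕ} (ht : t < T.length) :
    T.take (t + 1) = T.take t ++ [T.getD t []] := by
  rw [List.take_succ_eq_append_getElem ht]
  simp [List.getD_eq_getElem?_getD, List.getElem?_eq_getElem ht]

private theorem cur_succ (X : Oracle) (x z : List Bool) {T : List (List Bool)} {t : ℕ}
    (ht : t < T.length) :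
    S.cur X x z (T.take (t + 1)) = S.cod X x (yo (T.getD t [])) := by
  rw [take_snoc ht]
  simp [cur]

private theorem okU_succ {X : Oracle} {x s z : List Bool} {T : List (List Bool)}
    (h : S.wfS (x, s) = true) (hj : (sJ s).length < S.k x)
    (hT : S.GoodC X x s z T) {t : ℕ} (ht : t < T.length) (ht' : t < (Yb s).length) :
    S.okU X x (S.lo x s) (sP s ++ (S.cur X x z (T.take t) ++ [(Yb s).getD t false]))
      (yo (T.getD t [])) = true := by
  have h1 := hT t ht
  have hl : (T.take t).length = t := by
    rw [List.length_take]
    omega
  unfold askC at h1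
  rw [hl, if_pos ht'] at h1
  exact S.vio_cellR h hj h1

/-- PLAN. `t = 0`: `cur = z`. `t + 1`: `vio_cellR` and `code_length`. -/
theorem length_cur {X : Oracle} {x s z : List Bool} {T : List (List Bool)}
    (h : S.wfS (x, s) = true) (hj : (sJ s).length < S.k x) (hz : z.length = S.N x)
    (hT : S.GoodC X x s z T) {t : ℕ} (ht : t ≤ T.length) (ht' : t ≤ (Yb s).length) :
    (S.cur X x z (T.take t)).length = S.N x := by
  cases t with
  | zero => simpa [cur] using hz
  | succ t =>
    rw [S.cur_succ X x z (by omega)]
    have h1 := S.okU_succ h hj hT (t := t) (by omega) (by omega)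
    exact S.code_length X x _ _ _ h1

/-- PLAN. Induction on `t` (snoc): the fold `runF` over `((T.take t).map yo)` started with
`(true, (z, Yb))` is `(true, (cur z (T.take t), Yb.drop t))`. -/
theorem runF_cur {X : Oracle} {x s z : List Bool} {T : List (List Bool)}
    (h : S.wfS (x, s) = true) (hj : (sJ s).length < S.k x) (hz : z.length = S.N x)
    (hT : S.GoodC X x s z T) {t : ℕ} (ht : t ≤ T.length) (ht' : t ≤ (Yb s).length) :
    S.runF X x (S.lo x s) (sP s) z (Yb s) ((T.take t).map yo) =
      (true, (S.cur X x z (T.take t), (Yb s).drop t)) := by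
  induction t with
  | zero => simp [runF, cur]
  | succ t ih =>
    have h1 := S.okU_succ h hj hT (t := t) (by omega) (by omega)
    have hd : (Yb s).drop t = (Yb s).getD t false :: (Yb s).drop (t + 1) := by
      rw [List.drop_eq_getElem_cons (show t < (Yb s).length by omega)]
      simp [List.getD_eq_getElem?_getD,
        List.getElem?_eq_getElem (show t < (Yb s).length by omega)]
    rw [S.cur_succ X x z (by omega)]
    rw [take_snoc (show t < T.length by omega), List.map_append]
    have ih' := ih (by omega) (by omega)
    unfold runF at ih' ⊢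
    rw [List.foldl_append, ih', hd]
    simp only [List.map_cons, List.map_nil, List.foldl_cons, List.foldl_nil, stF,
      List.isEmpty_cons, Bool.not_false, Bool.true_and, List.headD_cons, List.tail_cons]
    rw [h1]

end Scheme

end Pool.Agent.APX
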