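import Pool.Agent.APX.CollCA
import Pool.Agent.APX.ChainA

set_option autoImplicit false

/-!
# APX-CnvA: the lower part of a chain
-/

namespace Pool.Agent.APX

open Pool.Agent.Helper22 N487b59b3

namespace Scheme

variable {Q : Problem} (S : Scheme Q)

private theorem wt_nrm (n it : List Bool) :
    wt (nrm n it) = ((wt it).headD []).take n.length :: (wt it).tail := by
  simp only [nrm, wt_tw]

private theorem stC_nrm {X : Oracle} {x : List Bool} {i : ℕ} {P p : List Bool}
    {es : List (List Bool)} {it : List Bool}
    (h : (S.stC X x i P (true, (p, es)) it).1 = true) :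
    S.stC X x i P (true, (p, es)) (nrm (S.n x) it) = S.stC X x i P (true, (p, es)) it := by
  by_cases hf : (es.headD []).headD false = true
  · simp only [stC, hf, if_true, wt_nrm, List.tail_cons]
  · have hw : ((wt it).headD []).take (S.n x).length = (wt it).headD [] := by
      simp only [stC, hf, Bool.and_eq_true, weq_iff] at h
      have h2 := congrArg List.length h.2.2.1
      simp [zr] at h2
      exact List.take_of_length_le (by simpa using h2.le)
    simp only [stC, hf, wt_nrm, List.tail_cons, List.headD_cons, hw]

/-- cutting the first words of the items does not change a correct chain -/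
theorem okC_nrm {X : Oracle} {x : List Bool} {i : ℕ} {P p : List Bool} {es cs : List (List Bool)}
    (h : S.okC X x i P es p cs = true) :
    S.okC X x i P es p (cs.map (nrm (S.n x))) = true ∧
      S.vaC X x i P es p (cs.map (nrm (S.n x))) = S.vaC X x i P es p cs := by
  induction cs generalizing p es with
  | nil => exact ⟨h, rfl⟩
  | cons it cs ih =>
    obtain ⟨h1, h2⟩ := (S.okC_cons X x i P p it es cs).1.1 h
    obtain ⟨h3, h4⟩ := ih h2
    have e := S.stC_nrm h1
    rw [List.map_cons]
    refine ⟨(S.okC_cons X x i P p _ es _).1.2 ⟨by rw [e]; exact h1, by rw [e]; exact h3⟩, ?_⟩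
    rw [(S.okC_cons X x i P p _ es _).2, (S.okC_cons X x i P p it es cs).2, e, h4]

/-- PLAN. The chain of the violation `y` of `entR x s l p` starts at the point `yo y` with the entry
`true :: p`, so its first level evaluates `F(yo y, p)`; the entry `e_l` of `s` has flag `false`, and
with the first word `yo y` the first level of the new chain, started at `p`, evaluates the same
`F(yo y, p)`. The other entries `e_{l-1}, ..., e_1` agree. -/
theorem cnv_ok {X : Oracle} {x s l p y : List Bool} (h : S.wfS (x, s) = true)
    (hj : (sJ s).length < S.k x) (hl : l ≠ []) (hl' : l.length ≤ S.N x) (hp : p.length = S.N x)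
    (hf : flg ((sE s).getD l.tail.length []) = false)
    (hv : S.vio X (x, (S.entR x s l p, y)) = true) (hk : yk y = true)
    (hy : (yl y).length = l.length) :
    S.okC X x (S.lo x s) (sP s) ((sE s).take l.length).reverse p (cnv (S.n x) y) = true ∧
      (S.vaC X x (S.lo x s) (sP s) ((sE s).take l.length).reverse p (cnv (S.n x) y)).take l.length =
        ((sE s).map flg).take l.length ∧
      ∀ it ∈ cnv (S.n x) y, it.length ≤ S.itb x := by
  obtain ⟨j, P, E, rfl, hjk, hP, hE, hEl⟩ := (S.wfS_iff x s).1 h
  simp only [sJ_mkS, sP_mkS, sE_mkS, lo] at *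
  obtain ⟨m, hm⟩ : ∃ m, l.length = m + 1 := by
    cases l with
    | nil => exact absurd rfl hl
    | cons a l => exact ⟨l.length, rfl⟩
  have hlt : l.tail.length = m := by simp [hm]
  have hyt : (yl y).tail.length = m := by simp [hy, hm]
  have hmE : m < E.length := by omega
  rw [hlt] at hf
  simp only [vio, hk, if_true, entR, sJ_mkS, sP_mkS, sE_mkS, Bool.and_eq_true, hlt, hyt, hy, hm,
    decide_eq_true_eq] at hv
  obtain ⟨-, -, -, -, -, hyo, hok, hlow⟩ := hv
  have hT : (E.take m).length = m := by simp; omega
  have hE1 : (E.take m ++ ((true :: p) :: List.replicate (S.N x - (m + 1)) (S.e0 x))).take (m + 1)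
      = E.take m ++ [true :: p] := by
    rw [List.take_append, hT, List.take_of_length_le (by omega)]
    simp
  have hE2 : E.take (m + 1) = E.take m ++ [E.getD m []] := by
    rw [List.take_add_one, List.getD_eq_getElem?_getD, List.getElem?_eq_getElem hmE]
    simp
  rw [hE1] at hok hlow
  rw [List.reverse_append, List.reverse_singleton, List.singleton_append] at hok hlow
  rw [hm, hE2, List.reverse_append, List.reverse_singleton, List.singleton_append]
  set R := (E.take m).reverse with hR
  have hlen := (S.okC_length hok).1
  have hyc : yc y ≠ [] := by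
    intro h0
    rw [h0] at hlen
    simp at hlen
  obtain ⟨it, cs, hcs⟩ := List.exists_cons_of_ne_nil hyc
  have hcnv : cnv (S.n x) y = tw (yo y :: (wt it).tail) :: cs.map (nrm (S.n x)) := by
    simp [cnv, hcs]
  rw [hcs] at hok hlow
  obtain ⟨h1, h2⟩ := (S.okC_cons X x _ P (yo y) it _ cs).1.1 hok
  have e1 : S.stC X x (S.k x - (un j).length - 1) P (true, (p, E.getD m [] :: R))
      (tw (yo y :: (wt it).tail)) =
      S.stC X x (S.k x - (un j).length - 1) P (true, (yo y, (true :: p) :: R)) it := by
    have hf' : (E.getD m []).headD false = false := hf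
    simp only [stC, List.headD_cons, hf', wt_tw, List.tail_cons, if_true, Bool.false_eq_true,
      if_false, List.isEmpty_cons]
  have hnil : ((true :: p) :: R).tail = R := rfl
  have hnil' : (E.getD m [] :: R).tail = R := rfl
  rw [hnil] at h2
  obtain ⟨h3, h4⟩ := S.okC_nrm h2
  have hok' : S.okC X x (S.k x - (un j).length - 1) P (E.getD m [] :: R) p (cnv (S.n x) y)
      = true := by
    rw [hcnv]
    exact (S.okC_cons X x _ P p _ _ _).1.2 ⟨by rw [e1]; exact h1, by rw [e1, hnil']; exact h3⟩
  have hva : S.vaC X x (S.k x - (un j).length - 1) P (E.getD m [] :: R) p (cnv (S.n x) y) =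
      S.vaC X x (S.k x - (un j).length - 1) P ((true :: p) :: R) (yo y) (it :: cs) := by
    rw [hcnv, (S.okC_cons X x _ P p _ _ _).2, (S.okC_cons X x _ P (yo y) it _ cs).2, e1, hnil',
      hnil, h4]
  refine ⟨hok', ?_, ?_⟩
  · rw [hva]
    set v := S.vaC X x (S.k x - (un j).length - 1) P ((true :: p) :: R) (yo y) (it :: cs)
    simp only [low, hyt, Bool.and_eq_true, weq_iff, Bool.not_eq_true'] at hlow
    obtain ⟨hl1, hl2⟩ := hlow
    have hl3 : ((E.take m ++ ((true :: p) :: List.replicate (S.N x - (m + 1)) (S.e0 x))).map
        flg).take m = (E.map flg).take m := by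
      rw [List.map_append, List.take_append_of_le_length (by simp; omega), List.map_take,
        List.take_take, min_self]
    rw [hl3] at hl1
    have hmv : m < v.length := by
      by_contra hc
      rw [List.getD_eq_default _ _ (by omega)] at hl2
      exact absurd hl2 (by simp)
    rw [List.take_add_one, List.take_add_one, hl1]
    congr 1
    rw [List.getElem?_map, List.getElem?_eq_getElem hmv, List.getElem?_eq_getElem hmE]
    rw [List.getD_eq_getElem _ _ hmv] at hl2
    rw [List.getD_eq_getElem _ _ hmE] at hf
    simp [hl2, hf]
  · have hall := S.okC_items hok' hp (by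
      intro e he
      rcases List.mem_cons.1 he with rfl | he
      · rw [List.getD_eq_getElem _ _ hmE]
        exact hEl _ (List.getElem_mem _)
      · rw [hR, List.mem_reverse] at he
        exact hEl _ (List.mem_of_mem_take he))
    have key : ∀ (w : List Bool) (Os : List (List Bool)), w.length ≤ S.N x →
        Os.length = S.N x → (∀ O ∈ Os, O.length ≤ S.L x) → (tw (w :: Os)).length ≤ S.itb x := by
      intro w Os hw hO hO'
      have h5 := length_tw_le Os (S.L x) (S.N x) hO.le hO'
      have h6 : (tw (w :: Os)).length = 2 * w.length + 1 + (tw Os).length := by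
        simp [length_tw]
      rw [h6, itb]
      omega
    intro c hc
    have hc' := hall c hc
    rw [hcnv] at hc
    rcases List.mem_cons.1 hc with rfl | hc
    · rw [wt_tw, List.tail_cons] at hc'
      exact key _ _ hyo.le hc'.1 hc'.2
    · obtain ⟨c, -, rfl⟩ := List.mem_map.1 hc
      rw [wt_nrm, List.tail_cons] at hc'
      exact key _ _ (by simp) hc'.1 hc'.2

end Scheme

end Pool.Agent.APX
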