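import Pool.Agent.APX.ChainA

set_option autoImplicit false

/-!
# APX-CnvB: violations of other kinds
-/

namespace Pool.Agent.APX

open Pool.Agent.Helper22 N487b59b3

namespace Scheme

variable {Q : Problem} (S : Scheme Q)

private theorem cnb_take (es t : List (List Bool)) (i j : ℕ) (hi : i ≤ es.length) (hj : j ≤ i) :
    (es.take i ++ t).take j = es.take j := by
  rw [List.take_append_of_le_length (by rw [List.length_take]; omega), List.take_take,
    min_eq_left hj]

private theorem cnb_getD (es t : List (List Bool)) (i j : ℕ) (hi : i ≤ es.length) (hj : j < i) :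
    (es.take i ++ t).getD j [] = es.getD j [] := by
  rw [List.getD_append _ _ _ _ (by rw [List.length_take]; omega), List.getD_eq_getElem?_getD,
    List.getD_eq_getElem?_getD, List.getElem?_take_of_lt hj]

private theorem cnb_getD' (es : List (List Bool)) (a e : List Bool) (i j n : ℕ)
    (hi : i ≤ es.length) (hj : i < j) (hn : j - i - 1 < n) :
    (es.take i ++ (a :: List.replicate n e)).getD j [] = e := by
  have hlen : (es.take i).length = i := by rw [List.length_take]; omega
  rw [List.getD_append_right _ _ _ _ (by omega), hlen]
  obtain ⟨k, rfl⟩ : ∃ k, j = i + (k + 1) := ⟨j - i - 1, by omega⟩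
  rw [show i + (k + 1) - i = k + 1 by omega, List.getD_cons_succ, List.getD_eq_getElem?_getD,
    List.getElem?_replicate, if_pos (by omega)]
  rfl

theorem vio_entR {X : Oracle} {x s l p y : List Bool} (h : S.wfS (x, s) = true)
    (hl : l ≠ []) (hl' : l.length ≤ S.N x)
    (hv : S.vio X (x, (S.entR x s l p, y)) = true)
    (hb : yk y = false ∨ (yl y).length ≠ l.length) : S.vio X (x, (s, y)) = true := by
  obtain ⟨j, P, es, rfl, hj, hP, hes, he⟩ := (S.wfS_iff x s).1 h
  have hlt : l.tail.length + 1 = l.length := by
    cases l with
    | nil => exact absurd rfl hl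
    | cons a l => simp
  unfold vio entR at hv
  unfold vio
  simp only [sJ_mkS, sP_mkS, sE_mkS] at hv ⊢
  cases hk : yk y with
  | false => simpa [hk] using hv
  | true =>
    have hb' : (yl y).length ≠ l.length := by
      rcases hb with hb | hb
      · rw [hk] at hb
        exact absurd hb (by simp)
      · exact hb
    rw [hk] at hv
    simp only [if_true, Bool.and_eq_true, decide_eq_true_eq, Bool.not_eq_true'] at hv ⊢
    obtain ⟨h1, h2, h3, h4, h5, h6, h7, h8⟩ := hv
    have hyt : (yl y).tail.length + 1 = (yl y).length := by
      cases hy : yl y with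
      | nil => rw [hy] at h3; simp at h3
      | cons a t => simp
    have hi : l.tail.length ≤ es.length := by rw [hes]; omega
    rcases lt_or_gt_of_ne hb' with hlt' | hgt
    · have e1 : ∀ t : List (List Bool), (es.take l.tail.length ++ t).getD (yl y).tail.length [] =
          es.getD (yl y).tail.length [] := fun t => cnb_getD es t _ _ hi (by omega)
      have e2 : ∀ t : List (List Bool), (es.take l.tail.length ++ t).take (yl y).length =
          es.take (yl y).length := fun t => cnb_take es t _ _ hi (by omega)
      have e3 : ∀ (t : List (List Bool)) (v : List Bool),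
          low (es.take l.tail.length ++ t) (yl y) v = low es (yl y) v := by
        intro t v
        unfold low
        rw [← List.map_take, ← List.map_take, cnb_take es t _ _ hi (by omega)]
      rw [e1] at h5
      rw [e2] at h7 h8
      rw [e3] at h8
      exact ⟨h1, h2, h3, h4, h5, h6, h7, h8⟩
    · rw [cnb_getD' es (true :: p) (S.e0 x) _ _ _ hi (by omega) (by omega)] at h5
      simp [e0, flg] at h5

end Scheme

end Pool.Agent.APX
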