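import Pool.Agent.APX.State

set_option autoImplicit false

/-!
# The strategy of the game of a combining scheme

In a state `s` with `j < K` blocks two chains are computed, from the points `pt0 = 0^N` and
`pt1 = 1 0^(N-1)` at level `N`. Let `E` be the run of entries with flag `true` at the top
(`e_N, e_{N-1}, ..., e_{l+1}`), `r` its length and `l = N - r`. A chain needs `r N` objects, one
for each digit of `Yb` = the words of these entries, and, if `l > 0`, one violation at level `l`
for the current point.
-/

namespace Pool.Agent.APX

open Pool.Agent.Helper22 N487b59b3

/-- the run of entries with flag `true` at the top -/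
def topE (s : List Bool) : List (List Bool) := (sE s).reverse.takeWhile flg

/-- their words -/
def Yb (s : List Bool) : List Bool := (topE s).flatMap List.tail

/-- the items of the top part of a chain: groups of `n` objects -/
def topI (n : List Bool) (E : List (List Bool)) (Os : List (List Bool)) : List (List Bool) :=
  (E.foldl (fun (st : List (List Bool) × List (List Bool)) (_ : List Bool) =>
    (st.1 ++ [tw ([] :: st.2.take n.length)], st.2.drop n.length)) ([], Os)).1

/-- the item with the first word cut to length `n` -/
def nrm (n it : List Bool) : List Bool := tw (((wt it).headD []).take n.length :: (wt it).tail)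

/-- the items for the levels `l, ..., 1` from the violation `y` at level `l` -/
def cnv (n y : List Bool) : List (List Bool) :=
  if (yc y).isEmpty then []
  else tw (yo y :: (wt ((yc y).headD [])).tail) :: (yc y).tail.map (nrm n)

/-- length of the longest common prefix, in unary -/
def cpf : List Bool → List Bool → List Bool
  | a :: u, b :: v => if a == b then true :: cpf u v else []
  | _, _ => []

namespace Scheme

variable {Q : Problem} (S : Scheme Q)

/-- the first points of the two chains -/
def pt (x : List Bool) (b : Bool) : List Bool := b :: zr (S.n x).tail

/-- the level `l`, in unary -/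
def lv1 (x s : List Bool) : List Bool := (S.n x).drop (topE s).length

/-- the number of answers needed for one chain, in unary -/
def M1 (x s : List Bool) : List Bool := Yb s ++ (S.lv1 x s).take 1

/-- the current point after the answers `T` of a chain -/
def cur (X : Oracle) (x z : List Bool) (T : List (List Bool)) : List Bool :=
  if T.isEmpty then z else S.cod X x (yo (T.reverse.headD []))

/-- the next request in a chain -/
def askC (X : Oracle) (x s z : List Bool) (T : List (List Bool)) : List Bool :=
  if T.length < (Yb s).length then
    S.cellR x s (S.cur X x z T ++ [(Yb s).getD T.length false])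
  else S.entR x s (S.lv1 x s) (S.cur X x z T)

/-- the next request -/
def askS (X : Oracle) (p : List Bool × (List Bool × List (List Bool))) : List Bool :=
  if p.2.2.length < (S.M1 p.1 p.2.1).length then
    S.askC X p.1 p.2.1 (S.pt p.1 false) p.2.2
  else S.askC X p.1 p.2.1 (S.pt p.1 true) (p.2.2.drop (S.M1 p.1 p.2.1).length)

/-- no more requests -/
def dnS (p : List Bool × (List Bool × List (List Bool))) : Bool :=
  decide (S.k p.1 ≤ (sJ p.2.1).length) ||
    decide ((S.M1 p.1 p.2.1 ++ S.M1 p.1 p.2.1).length ≤ p.2.2.length)

/-- the items of the chain computed from the answers `T` -/
def chn (x s : List Bool) (T : List (List Bool)) : List (List Bool) :=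
  topI (S.n x) (topE s) ((T.take (Yb s).length).map yo) ++
    (if (S.lv1 x s).isEmpty then [] else cnv (S.n x) (T.getD (Yb s).length []))

/-- the answer at level `l` is a violation of another kind: it is a violation of `s` -/
def bad (x s : List Bool) (T : List (List Bool)) : Bool :=
  !(S.lv1 x s).isEmpty && (!(yk (T.getD (Yb s).length [])) ||
    !(decide ((yl (T.getD (Yb s).length [])).length = (S.lv1 x s).length)))

/-- the level of the objects used in the state `s` -/
def lo (x s : List Bool) : ℕ := S.k x - (sJ s).length - 1

/-- the last point of the chain -/
def lpt (X : Oracle) (x s z : List Bool) (T : List (List Bool)) : List Bool :=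
  S.vaC X x (S.lo x s) (sP s) (sE s).reverse z (S.chn x s T)

/-- the first level where the last point differs from the flags, in unary -/
def fl (X : Oracle) (x s z : List Bool) (T : List (List Bool)) : List Bool :=
  true :: cpf (S.lpt X x s z T) ((sE s).map flg)

/-- the violation of `s` if the last point differs from the flags at level `k` -/
def vt (X : Oracle) (x s z : List Bool) (T : List (List Bool)) : List Bool :=
  mkY true (S.fl X x s z T)
    (S.vaC X x (S.lo x s) (sP s) ((sE s).reverse.take (S.N x - (S.fl X x s z T).length)) z
      ((S.chn x s T).take (S.N x - (S.fl X x s z T).length)))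
    ((S.chn x s T).drop (S.N x - (S.fl X x s z T).length))

/-- the object obtained from two chains with the same last point -/
def obj (X : Oracle) (x s : List Bool) (T T' : List (List Bool)) : List Bool :=
  let q := findP (S.steC X x (sE s).reverse (S.pt x false) (S.chn x s T)).1
    (S.steC X x (sE s).reverse (S.pt x true) (S.chn x s T')).1
  S.comb.run X (x, (sP s, (q.2.1, q.2.2)))

/-- the result of the strategy from the answers `T`, `T'` for the two chains -/
def res (X : Oracle) (x s : List Bool) (T T' : List (List Bool)) : List Bool :=
  if decide (S.k x ≤ (sJ s).length) then mkY false [] (S.start.run X (x, sP s)) []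
  else if S.bad x s T then T.getD (Yb s).length []
  else if S.bad x s T' then T'.getD (Yb s).length []
  else if !(Helper22.weq (S.lpt X x s (S.pt x false) T) ((sE s).map flg)) then
    S.vt X x s (S.pt x false) T
  else if !(Helper22.weq (S.lpt X x s (S.pt x true) T') ((sE s).map flg)) then
    S.vt X x s (S.pt x true) T'
  else mkY false [] (S.obj X x s T T') []

/-- the result of the strategy -/
def finS (X : Oracle) (p : List Bool × (List Bool × List (List Bool))) : List Bool :=
  S.res X p.1 p.2.1 (p.2.2.take (S.M1 p.1 p.2.1).length) (p.2.2.drop (S.M1 p.1 p.2.1).length)

/-- the solution -/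
def solS (X : Oracle) (p : List Bool × (List Bool × List (List Bool))) : List Bool :=
  S.sol.run X (p.1, yo (S.finS X p))

/-- the answers of one chain are violations of the requests -/
def GoodC (X : Oracle) (x s z : List Bool) (T : List (List Bool)) : Prop :=
  ∀ t < T.length, S.vio X (x, (S.askC X x s z (T.take t), T.getD t [])) = true

theorem length_lv1 (x s : List Bool) : (S.lv1 x s).length = S.N x - (topE s).length := by
  simp [lv1]

end Scheme

end Pool.Agent.APX
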