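import Pool.Agent.APX.CollCA
import Pool.Agent.APX.Proc

set_option autoImplicit false

/-!
# APX-TopI: the items of the top part of a chain
-/

namespace Pool.Agent.APX

open Pool.Agent.Helper22 N487b59b3

namespace Scheme

variable {Q : Problem} (S : Scheme Q)

private theorem topI_acc (n : List Bool) (E : List (List Bool)) :
    ∀ (acc : List (List Bool)) (Os : List (List Bool)),
      (E.foldl (fun (st : List (List Bool) × List (List Bool)) (_ : List Bool) =>
        (st.1 ++ [tw ([] :: st.2.take n.length)], st.2.drop n.length)) (acc, Os)).1 =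
        acc ++ topI n E Os := by
  induction E with
  | nil => intro acc Os; simp [topI]
  | cons e E ih =>
    intro acc Os
    have h1 : topI n (e :: E) Os = [tw ([] :: Os.take n.length)] ++ topI n E (Os.drop n.length) :=
      ih ([] ++ [tw ([] :: Os.take n.length)]) (Os.drop n.length)
    rw [h1, List.foldl_cons, ih, List.append_assoc]

private theorem topI_cons (n e : List Bool) (E Os : List (List Bool)) :
    topI n (e :: E) Os = tw ([] :: Os.take n.length) :: topI n E (Os.drop n.length) :=
  topI_acc n E ([] ++ [tw ([] :: Os.take n.length)]) (Os.drop n.length)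

private theorem topI_nil (n : List Bool) (Os : List (List Bool)) : topI n [] Os = [] := rfl

/-- splitting of an evaluation -/
private theorem topI_split {X : Oracle} {x : List Bool} {i : ℕ} {P : List Bool} :
    ∀ (bs bs' : List Bool) (a : List Bool) (Os Os' : List (List Bool)), Os.length = bs.length →
      ((S.runF X x i P a (bs ++ bs') (Os ++ Os')).1 = true ↔
        (S.runF X x i P a bs Os).1 = true ∧
          (S.runF X x i P (S.runF X x i P a bs Os).2.1 bs' Os').1 = true) ∧
      (S.runF X x i P a (bs ++ bs') (Os ++ Os')).2 =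
        (S.runF X x i P (S.runF X x i P a bs Os).2.1 bs' Os').2 ∧
      (S.runF X x i P a bs Os).2.2 = [] := by
  intro bs
  induction bs with
  | nil =>
    intro bs' a Os Os' hl
    have hO : Os = [] := List.length_eq_zero_iff.1 hl
    subst hO
    have h1 : S.runF X x i P a [] [] = (true, (a, [])) := rfl
    rw [h1]
    simp
  | cons b bs ih =>
    intro bs' a Os Os' hl
    cases Os with
    | nil => simp at hl
    | cons O Os =>
      have hl' : Os.length = bs.length := by simpa using hl
      obtain ⟨i1, i2, i3⟩ := ih bs' (S.cod X x O) Os Os' hl'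
      obtain ⟨c1, c2⟩ := S.runF_cons X x i P a (b :: (bs ++ bs')) O (Os ++ Os')
      obtain ⟨d1, d2⟩ := S.runF_cons X x i P a (b :: bs) O Os
      have e1 : (b :: bs ++ bs') = b :: (bs ++ bs') := rfl
      have e2 : (O :: Os ++ Os') = O :: (Os ++ Os') := rfl
      rw [e1, e2, c1, c2, d1, d2]
      simp only [List.tail_cons, List.headD_cons, ne_eq, reduceCtorEq, not_false_eq_true, true_and]
      refine ⟨?_, i2, i3⟩
      rw [i1, and_assoc]

/-- PLAN. Induction on `E`: `runF` along `e.tail ++ rest` with `Os.take N ++ Os.drop N` splits into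
`runF` along `e.tail` with `Os.take N` and `runF` along `rest` with `Os.drop N` (`foldl_append`);
`wt (tw l) = l`. -/
theorem topI_ok {X : Oracle} {x : List Bool} {i : ℕ} {P z : List Bool} {E Os : List (List Bool)}
    (hE : ∀ e ∈ E, flg e = true ∧ e.length = S.N x + 1) (hz : z.length = S.N x)
    (h : (S.runF X x i P z (E.flatMap List.tail) Os).1 = true)
    (h' : (S.runF X x i P z (E.flatMap List.tail) Os).2.2.isEmpty = true) :
    S.okC X x i P E z (topI (S.n x) E Os) = true ∧
      S.vaC X x i P E z (topI (S.n x) E Os) = (S.runF X x i P z (E.flatMap List.tail) Os).2.1 := by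
  induction E generalizing z Os with
  | nil =>
    obtain ⟨n1, n2⟩ := S.okC_nil X x i P z []
    obtain ⟨l1, -, -⟩ := S.runF_length h h'
    have hO : Os = [] := List.length_eq_zero_iff.1 (by simpa using l1)
    subst hO
    rw [topI_nil, n1, n2]
    exact ⟨rfl, rfl⟩
  | cons e E ih =>
    obtain ⟨hf, hel⟩ := hE e (List.mem_cons_self ..)
    have hE' : ∀ e ∈ E, flg e = true ∧ e.length = S.N x + 1 := fun e' he' =>
      hE e' (List.mem_cons_of_mem _ he')
    obtain ⟨l1, -, -⟩ := S.runF_length h h'
    have hbs : (e :: E).flatMap List.tail = e.tail ++ E.flatMap List.tail := by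
      rw [List.flatMap_cons]
    have htl : e.tail.length = S.N x := by rw [List.length_tail, hel]; rfl
    have hlt : (Os.take (S.N x)).length = e.tail.length := by
      rw [hbs, List.length_append, htl] at l1
      rw [List.length_take, htl]
      omega
    have hOs : Os = Os.take (S.N x) ++ Os.drop (S.N x) := (List.take_append_drop _ _).symm
    obtain ⟨s1, s2, s3⟩ := S.topI_split (X := X) (x := x) (i := i) (P := P) e.tail
      (E.flatMap List.tail) z (Os.take (S.N x)) (Os.drop (S.N x)) hlt
    rw [← hOs, ← hbs] at s1 s2
    obtain ⟨h1, h2⟩ := s1.1 h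
    rw [s2] at h'
    have hval := (S.runF_length h1 (by rw [s3]; rfl)).2.1 hz
    obtain ⟨j1, j2⟩ := ih hE' hval h2 h'
    obtain ⟨c1, c2⟩ := S.okC_cons X x i P z (tw ([] :: Os.take (S.N x))) (e :: E)
      (topI (S.n x) E (Os.drop (S.N x)))
    have hst : (S.stC X x i P (true, (z, e :: E)) (tw ([] :: Os.take (S.N x)))).1 = true ∧
        (S.stC X x i P (true, (z, e :: E)) (tw ([] :: Os.take (S.N x)))).2.1 =
          (S.runF X x i P z e.tail (Os.take (S.N x))).2.1 := by
      have hf' : e.headD false = true := hf
      have hzr : Helper22.weq (zr z) (zr (S.n x)) = true := by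
        rw [Helper22.weq_iff, zr, zr, hz]
      unfold Scheme.stC
      simp only [List.headD_cons, hf', if_true, wt_tw, List.tail_cons, hzr, h1, s3]
      exact ⟨rfl, trivial⟩
    rw [topI_cons]
    constructor
    · rw [c1, hst.2]
      exact ⟨hst.1, j1⟩
    · rw [c2, hst.2, s2]
      exact j2

/-- lengths of the items of the top part -/
theorem topI_length {x : List Bool} {E Os : List (List Bool)}
    (hO : ∀ O ∈ Os, O.length ≤ S.L x) : ∀ it ∈ topI (S.n x) E Os, it.length ≤ S.itb x := by
  induction E generalizing Os with
  | nil => intro it hit; rw [topI_nil] at hit; exact absurd hit List.not_mem_nil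
  | cons e E ih =>
    intro it hit
    rw [topI_cons] at hit
    rcases List.mem_cons.1 hit with rfl | hit
    · have h1 := length_tw_le (Os.take (S.N x)) (S.L x) (S.N x) (List.length_take_le _ _)
        (fun w hw => hO w (List.mem_of_mem_take hw))
      have h2 : (tw ([] :: Os.take (S.N x))).length = 1 + (tw (Os.take (S.N x))).length := by
        rw [length_tw, length_tw, List.map_cons, List.sum_cons]
        rfl
      show (tw ([] :: Os.take (S.N x))).length ≤ _
      rw [h2]
      unfold Scheme.itb
      omega
    · exact ih (fun O hOm => hO O (List.mem_of_mem_drop hOm)) it hit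

end Scheme

end Pool.Agent.APX
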