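import Pool.Agent.APX.ChainR
import Pool.Agent.APX.TopI
import Pool.Agent.APX.CnvA
import Pool.Agent.APX.CnvB

set_option autoImplicit false

/-!
# APX-Chn: complete chains
-/

namespace Pool.Agent.APX

open Pool.Agent.Helper22 N487b59b3

namespace Scheme

variable {Q : Problem} (S : Scheme Q)

private theorem askC_last {X : Oracle} {x s z : List Bool} {T : List (List Bool)}
    (hT : S.GoodC X x s z T) (hY : (Yb s).length < T.length) :
    S.vio X (x, (S.entR x s (S.lv1 x s) (S.cur X x z (T.take (Yb s).length)),
      T.getD (Yb s).length [])) = true := by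
  have h1 := hT (Yb s).length hY
  have hl : (T.take (Yb s).length).length = (Yb s).length := by
    rw [List.length_take]
    omega
  unfold askC at h1
  rw [hl, if_neg (lt_irrefl _)] at h1
  exact h1

private theorem length_M1 (x s : List Bool) :
    (S.M1 x s).length = (Yb s).length + ((S.lv1 x s).take 1).length := by
  rw [M1, List.length_append]

private theorem Yb_le {x s : List Bool} {T : List (List Bool)}
    (hl : T.length = (S.M1 x s).length) : (Yb s).length ≤ T.length := by
  rw [hl, S.length_M1]
  omega

private theorem Yb_lt {x s : List Bool} {T : List (List Bool)}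
    (hl : T.length = (S.M1 x s).length) (hne : S.lv1 x s ≠ []) : (Yb s).length < T.length := by
  rw [hl, S.length_M1, List.length_take]
  have := List.length_pos_iff.2 hne
  omega

private theorem lv1_le (x s : List Bool) : (S.lv1 x s).length ≤ S.N x := by
  rw [S.length_lv1]
  omega

/-- the top part -/
private theorem top_ok {X : Oracle} {x s z : List Bool} {T : List (List Bool)}
    (h : S.wfS (x, s) = true) (hj : (sJ s).length < S.k x) (hz : z.length = S.N x)
    (hT : S.GoodC X x s z T) (hl : T.length = (S.M1 x s).length) :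
    S.okC X x (S.lo x s) (sP s) (topE s) z
        (topI (S.n x) (topE s) ((T.take (Yb s).length).map yo)) = true ∧
      S.vaC X x (S.lo x s) (sP s) (topE s) z
        (topI (S.n x) (topE s) ((T.take (Yb s).length).map yo)) =
          S.cur X x z (T.take (Yb s).length) ∧
      ∀ it ∈ topI (S.n x) (topE s) ((T.take (Yb s).length).map yo), it.length ≤ S.itb x := by
  have hr := S.runF_cur h hj hz hT (S.Yb_le hl) le_rfl
  have hY : Yb s = (topE s).flatMap List.tail := rfl
  have h1 : (S.runF X x (S.lo x s) (sP s) z ((topE s).flatMap List.tail)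
      ((T.take (Yb s).length).map yo)).1 = true := by
    rw [← hY, hr]
  have h2 : (S.runF X x (S.lo x s) (sP s) z ((topE s).flatMap List.tail)
      ((T.take (Yb s).length).map yo)).2.2.isEmpty = true := by
    rw [← hY, hr, List.drop_length]
    rfl
  obtain ⟨t1, t2⟩ := S.topI_ok (S.topE_spec h).2.1 hz h1 h2
  obtain ⟨-, -, hO⟩ := S.runF_length h1 h2
  refine ⟨t1, ?_, S.topI_length hO⟩
  rw [t2, ← hY, hr]

/-- PLAN. `runF_cur`, `topI_ok`, and if `lv1 ≠ []` `cnv_ok`, glued by `okC_append`
(`topE_spec`). -/
theorem chn_ok {X : Oracle} {x s z : List Bool} {T : List (List Bool)}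
    (h : S.wfS (x, s) = true) (hj : (sJ s).length < S.k x) (hz : z.length = S.N x)
    (hT : S.GoodC X x s z T) (hl : T.length = (S.M1 x s).length) (hb : S.bad x s T = false) :
    S.okC X x (S.lo x s) (sP s) (sE s).reverse z (S.chn x s T) = true ∧
      (S.lpt X x s z T).take (S.lv1 x s).length = ((sE s).map flg).take (S.lv1 x s).length ∧
      (S.lpt X x s z T).length = S.N x ∧ ∀ it ∈ S.chn x s T, it.length ≤ S.itb x := by
  obtain ⟨t1, t2, t3⟩ := S.top_ok h hj hz hT hl
  obtain ⟨-, -, e3, e4, -⟩ := S.topE_spec h
  have hc := S.length_cur h hj hz hT (S.Yb_le hl) le_rfl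
  have hlen : (topE s).length =
      (topI (S.n x) (topE s) ((T.take (Yb s).length).map yo)).length := (S.okC_length t1).1.symm
  by_cases hne : S.lv1 x s = []
  · have hchn : S.chn x s T = topI (S.n x) (topE s) ((T.take (Yb s).length).map yo) := by
      unfold chn
      rw [hne]
      simp
    have hrev : (sE s).reverse = topE s := by
      rw [e3, hne]
      simp
    have hl0 : (S.lv1 x s).length = 0 := by rw [hne]; rfl
    refine ⟨?_, ?_, ?_, ?_⟩
    · rw [hchn, hrev]
      exact t1
    · rw [hl0, List.take_zero, List.take_zero]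
    · unfold lpt
      rw [hchn, hrev, t2]
      exact hc
    · rw [hchn]
      exact t3
  · have hv := S.askC_last hT (S.Yb_lt hl hne)
    have hb' : yk (T.getD (Yb s).length []) = true ∧
        (yl (T.getD (Yb s).length [])).length = (S.lv1 x s).length := by
      have hem : (S.lv1 x s).isEmpty = false := by
        rw [List.isEmpty_eq_false_iff]
        exact hne
      unfold bad at hb
      rw [hem] at hb
      simpa using hb
    obtain ⟨c1, c2, c3⟩ := S.cnv_ok h hj hne (S.lv1_le x s) hc (e4 hne) hv hb'.1 hb'.2
    have hchn : S.chn x s T = topI (S.n x) (topE s) ((T.take (Yb s).length).map yo) ++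
        cnv (S.n x) (T.getD (Yb s).length []) := by
      have hem : (S.lv1 x s).isEmpty = false := by
        rw [List.isEmpty_eq_false_iff]
        exact hne
      unfold chn
      rw [hem]
      rfl
    obtain ⟨a1, a2⟩ := S.okC_append X x (S.lo x s) (sP s) z (topE s)
      ((sE s).take (S.lv1 x s).length).reverse
      (topI (S.n x) (topE s) ((T.take (Yb s).length).map yo))
      (cnv (S.n x) (T.getD (Yb s).length [])) hlen
    rw [← e3, ← hchn, t2] at a1 a2
    have hok := a1.2 ⟨t1, c1⟩
    refine ⟨hok, ?_, (S.okC_length hok).2 hz, ?_⟩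
    · unfold lpt
      rw [a2]
      exact c2
    · intro it hit
      rw [hchn] at hit
      rcases List.mem_append.1 hit with hit | hit
      · exact t3 it hit
      · exact c3 it hit

/-- PLAN. `vio_entR`. -/
theorem bad_vio {X : Oracle} {x s z : List Bool} {T : List (List Bool)}
    (h : S.wfS (x, s) = true) (hj : (sJ s).length < S.k x) (hz : z.length = S.N x)
    (hT : S.GoodC X x s z T) (hl : T.length = (S.M1 x s).length) (hb : S.bad x s T = true) :
    S.vio X (x, (s, T.getD (Yb s).length [])) = true := by
  have hb' : S.lv1 x s ≠ [] ∧ (yk (T.getD (Yb s).length []) = false ∨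
      (yl (T.getD (Yb s).length [])).length ≠ (S.lv1 x s).length) := by
    unfold bad at hb
    simpa using hb
  obtain ⟨hne, hb2⟩ := hb'
  exact S.vio_entR h hne (S.lv1_le x s) (S.askC_last hT (S.Yb_lt hl hne)) hb2

end Scheme

end Pool.Agent.APX
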