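import Pool.Agent.APX.Cert

set_option autoImplicit false

/-!
# APX-Coll: two chains with different first points and the same last point give a collision
-/

namespace Pool.Agent.APX

open Pool.Agent.Helper22 N487b59b3

namespace Scheme

variable {Q : Problem} (S : Scheme Q)

private theorem coll_foldF (X : Oracle) (x : List Bool) (i : ℕ) (P : List Bool) (Os : List (List Bool)) :
    ∀ (f : Bool) (st : List Bool × List Bool),
      Os.foldl (S.stF X x i P) (f, st) =
        (f && (Os.foldl (S.stF X x i P) (true, st)).1, (Os.foldl (S.stF X x i P) (true, st)).2) := by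
  induction Os with
  | nil => intro f st; simp
  | cons O Os ih =>
    intro f st
    simp only [List.foldl_cons]
    have e1 : S.stF X x i P (f, st) O = (f && (!st.2.isEmpty && S.okU X x i (P ++ (st.1 ++ [st.2.headD false])) O),
      (S.cod X x O, st.2.tail)) := rfl
    have e2 : S.stF X x i P (true, st) O = (true && (!st.2.isEmpty && S.okU X x i (P ++ (st.1 ++ [st.2.headD false])) O),
      (S.cod X x O, st.2.tail)) := rfl
    rw [e1, e2, ih (f && _), ih (true && _)]
    simp only [Bool.true_and, Bool.and_assoc]

private theorem coll_foldS (X : Oracle) (x : List Bool) (Os : List (List Bool)) :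
    ∀ (L : List (List Bool × (List Bool × List Bool))) (st : List Bool × List Bool),
      Os.foldl (fun (st : List (List Bool × (List Bool × List Bool)) × (List Bool × List Bool)) O =>
        (st.1 ++ [(st.2.1 ++ [st.2.2.headD false], (O, S.cod X x O))], (S.cod X x O, st.2.2.tail))) (L, st) =
      (L ++ (Os.foldl (fun (st : List (List Bool × (List Bool × List Bool)) × (List Bool × List Bool)) O =>
        (st.1 ++ [(st.2.1 ++ [st.2.2.headD false], (O, S.cod X x O))], (S.cod X x O, st.2.2.tail))) ([], st)).1,
      (Os.foldl (fun (st : List (List Bool × (List Bool × List Bool)) × (List Bool × List Bool)) O =>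
        (st.1 ++ [(st.2.1 ++ [st.2.2.headD false], (O, S.cod X x O))], (S.cod X x O, st.2.2.tail))) ([], st)).2) := by
  induction Os with
  | nil => intro L st; simp
  | cons O Os ih =>
    intro L st
    simp only [List.foldl_cons]
    rw [ih (L ++ _), ih ([] ++ _)]
    simp only [List.nil_append, List.append_assoc]

/-- PLAN. Induction on `Os` (generalise the state `(true, (a, bs))`; if the flag is false it stays
false): `runF` is correct iff `bs` and `Os` have the same length and every step is correct. -/
theorem runF_cons (X : Oracle) (x : List Bool) (i : ℕ) (P a bs : List Bool) (O : List Bool)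
    (Os : List (List Bool)) :
    ((S.runF X x i P a bs (O :: Os)).1 = true ↔
      bs ≠ [] ∧ S.okU X x i (P ++ (a ++ [bs.headD false])) O = true ∧
        (S.runF X x i P (S.cod X x O) bs.tail Os).1 = true) ∧
    (S.runF X x i P a bs (O :: Os)).2 = (S.runF X x i P (S.cod X x O) bs.tail Os).2 := by
  have e : S.runF X x i P a bs (O :: Os) =
      ((!bs.isEmpty && S.okU X x i (P ++ (a ++ [bs.headD false])) O) &&
        (S.runF X x i P (S.cod X x O) bs.tail Os).1, (S.runF X x i P (S.cod X x O) bs.tail Os).2) := by
    unfold runF
    simp only [List.foldl_cons]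
    have e1 : S.stF X x i P (true, (a, bs)) O =
      ((!bs.isEmpty && S.okU X x i (P ++ (a ++ [bs.headD false])) O), (S.cod X x O, bs.tail)) := by
      unfold stF
      simp
    rw [e1, S.coll_foldF X x i P Os _ (S.cod X x O, bs.tail)]
  rw [e]
  refine ⟨?_, rfl⟩
  simp only [Bool.and_eq_true, Bool.not_eq_true', List.isEmpty_eq_false_iff]
  tauto

theorem steF_cons (X : Oracle) (x a bs : List Bool) (O : List Bool) (Os : List (List Bool)) :
    (S.steF X x a bs (O :: Os)).1 =
      (a ++ [bs.headD false], (O, S.cod X x O)) :: (S.steF X x (S.cod X x O) bs.tail Os).1 ∧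
    (S.steF X x a bs (O :: Os)).2 = (S.steF X x (S.cod X x O) bs.tail Os).2 := by
  unfold steF
  simp only [List.foldl_cons]
  rw [S.coll_foldS X x Os ([] ++ _)]
  simp

/-- lengths and the last point of an evaluation of `F` -/
theorem runF_length {X : Oracle} {x : List Bool} {i : ℕ} {P a bs : List Bool}
    {Os : List (List Bool)} (h : (S.runF X x i P a bs Os).1 = true)
    (h' : (S.runF X x i P a bs Os).2.2.isEmpty = true) :
    Os.length = bs.length ∧ (a.length = (S.n x).length →
      (S.runF X x i P a bs Os).2.1.length = (S.n x).length) ∧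
      ∀ O ∈ Os, O.length ≤ S.p.eval x.length := by
  induction Os generalizing a bs with
  | nil =>
    have h1 : bs = [] := by simpa [runF] using h'
    subst h1
    refine ⟨rfl, fun ha => ha, by simp⟩
  | cons O Os ih =>
    obtain ⟨c1, c2⟩ := S.runF_cons X x i P a bs O Os
    obtain ⟨hb, hO, hr⟩ := c1.1 h
    rw [c2] at h' ⊢
    obtain ⟨i1, i2, i3⟩ := ih hr h'
    have hO' : S.ok.run X (x, (un i, (P ++ (a ++ [bs.headD false]), O))) = true := hO
    refine ⟨?_, fun _ => ?_, ?_⟩
    · obtain ⟨b, bs', rfl⟩ := List.exists_cons_of_ne_nil hb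
      simp only [List.length_cons, List.tail_cons] at i1 ⊢
      omega
    · exact i2 (S.code_length X x _ O i hO')
    · intro O' hO''
      rcases List.mem_cons.1 hO'' with rfl | h3
      · exact S.ok_length X x _ _ i hO'
      · exact i3 O' h3

theorem steF_ok {X : Oracle} {x : List Bool} {i : ℕ} {P a bs : List Bool}
    {Os : List (List Bool)} (h : (S.runF X x i P a bs Os).1 = true)
    (ha : a.length = (S.n x).length) :
    ∀ q ∈ (S.steF X x a bs Os).1, q.1.length = (S.n x).length + 1 ∧
      S.okU X x i (P ++ q.1) q.2.1 = true ∧ q.2.2 = S.cod X x q.2.1 := by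
  induction Os generalizing a bs with
  | nil =>
    intro q hq
    simp [steF] at hq
  | cons O Os ih =>
    obtain ⟨c1, -⟩ := S.runF_cons X x i P a bs O Os
    obtain ⟨hb, hO, hr⟩ := c1.1 h
    have hO' : S.ok.run X (x, (un i, (P ++ (a ++ [bs.headD false]), O))) = true := hO
    intro q hq
    rw [(S.steF_cons X x a bs O Os).1] at hq
    rcases List.mem_cons.1 hq with rfl | h3
    · refine ⟨by simp [ha], hO, rfl⟩
    · exact ih hr (S.code_length X x _ O i hO') q h3

/-- PLAN. Induction on `Os` (both evaluations have `bs.length` steps). After the first step the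
states are `(cod O, bs.tail)` and `(cod O', bs'.tail)`. If they differ use the induction
hypothesis; if they are equal, then the two first triples have the same code and different cells
(`a ++ [b] ≠ a' ++ [b']` because `(a, bs) ≠ (a', bs')`, `bs = b :: bs.tail`). If `bs = []` then the
last points are `a` and `a'`. -/
theorem collF {X : Oracle} {x : List Bool} {i : ℕ} {P a a' bs bs' : List Bool}
    {Os Os' : List (List Bool)}
    (h : (S.runF X x i P a bs Os).1 = true) (he : (S.runF X x i P a bs Os).2.2.isEmpty = true)
    (h' : (S.runF X x i P a' bs' Os').1 = true)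
    (he' : (S.runF X x i P a' bs' Os').2.2.isEmpty = true)
    (hl : bs.length = bs'.length) (ha : a.length = a'.length) (hne : (a, bs) ≠ (a', bs'))
    (hv : (S.runF X x i P a bs Os).2.1 = (S.runF X x i P a' bs' Os').2.1) :
    ∃ q ∈ (S.steF X x a bs Os).1, ∃ q' ∈ (S.steF X x a' bs' Os').1, q.1 ≠ q'.1 ∧ q.2.2 = q'.2.2 := by
  induction Os generalizing a bs a' bs' Os' with
  | nil =>
    exfalso
    have h1 : bs = [] := by simpa [runF] using he
    subst h1
    have h2 : bs' = [] := List.eq_nil_of_length_eq_zero (by simpa using hl.symm)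
    subst h2
    have h3 := (S.runF_length h' he').1
    have h4 : Os' = [] := List.eq_nil_of_length_eq_zero (by simpa using h3)
    subst h4
    apply hne
    have h5 : a = a' := hv
    rw [h5]
  | cons O Os ih =>
    have l1 := (S.runF_length h he).1
    have l2 := (S.runF_length h' he').1
    obtain ⟨O', Os'', rfl⟩ : ∃ O' Os'', Os' = O' :: Os'' := by
      apply List.exists_cons_of_ne_nil
      intro h5
      rw [h5] at l2
      simp only [List.length_cons, List.length_nil] at l1 l2
      omega
    obtain ⟨c1, c2⟩ := S.runF_cons X x i P a bs O Os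
    obtain ⟨hb, hO, hr⟩ := c1.1 h
    obtain ⟨c1', c2'⟩ := S.runF_cons X x i P a' bs' O' Os''
    obtain ⟨hb', hO', hr'⟩ := c1'.1 h'
    rw [c2] at he hv
    rw [c2'] at he' hv
    rw [(S.steF_cons X x a bs O Os).1, (S.steF_cons X x a' bs' O' Os'').1]
    obtain ⟨b, t, rfl⟩ := List.exists_cons_of_ne_nil hb
    obtain ⟨b', t', rfl⟩ := List.exists_cons_of_ne_nil hb'
    have k1 : (S.cod X x O).length = (S.n x).length := S.code_length X x _ O i hO
    have k2 : (S.cod X x O').length = (S.n x).length := S.code_length X x _ O' i hO'
    by_cases hc : (S.cod X x O, t) = (S.cod X x O', t')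
    · refine ⟨_, List.mem_cons_self, _, List.mem_cons_self, ?_, ?_⟩
      · intro h6
        apply hne
        have h7 : a ++ [b] = a' ++ [b'] := h6
        have h8 := List.append_inj' h7 rfl
        have h9 : b = b' := by simpa using h8.2
        rw [h8.1, h9, (Prod.mk.inj hc).2]
      · exact (Prod.mk.inj hc).1
    · have hl' : t.length = t'.length := by
        simp only [List.length_cons] at hl
        omega
      obtain ⟨q, hq, q', hq', h1, h2⟩ := ih (a := S.cod X x O) (bs := t) (a' := S.cod X x O') (bs' := t')
        (Os' := Os'') hr he hr' he' hl' (k1.trans k2.symm) hc hv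
      exact ⟨q, List.mem_cons_of_mem _ hq, q', List.mem_cons_of_mem _ hq', h1, h2⟩

end Scheme

end Pool.Agent.APX
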