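import Pool.Agent.APX.Coll

set_option autoImplicit false

/-!
# APX-CollCA: chains
-/

namespace Pool.Agent.APX

open Pool.Agent.Helper22 N487b59b3

namespace Scheme

variable {Q : Problem} (S : Scheme Q)

private theorem foldC_flag (X : Oracle) (x : List Bool) (i : ℕ) (P : List Bool)
    (cs : List (List Bool)) : ∀ (f : Bool) (st : List Bool × List (List Bool)),
    cs.foldl (S.stC X x i P) (f, st) =
      (f && (cs.foldl (S.stC X x i P) (true, st)).1,
        (cs.foldl (S.stC X x i P) (true, st)).2) := by
  induction cs with
  | nil => intro f st; simp
  | cons it cs ih =>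
    intro f st
    have h1 : S.stC X x i P (f, st) it =
        (f && (S.stC X x i P (true, st) it).1, (S.stC X x i P (true, st) it).2) := by
      simp [stC]
    rw [List.foldl_cons, List.foldl_cons, h1, ih, ih (S.stC X x i P (true, st) it).1]
    simp [Bool.and_assoc]

theorem okC_nil (X : Oracle) (x : List Bool) (i : ℕ) (P p : List Bool) (es : List (List Bool)) :
    S.okC X x i P es p [] = es.isEmpty ∧ S.vaC X x i P es p [] = p := by
  constructor
  · simp [okC, runC]
  · simp [vaC, runC]

/-- one level of a chain -/
theorem okC_cons (X : Oracle) (x : List Bool) (i : ℕ) (P p it : List Bool)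
    (es cs : List (List Bool)) :
    (S.okC X x i P es p (it :: cs) = true ↔
      (S.stC X x i P (true, (p, es)) it).1 = true ∧
        S.okC X x i P es.tail (S.stC X x i P (true, (p, es)) it).2.1 cs = true) ∧
    S.vaC X x i P es p (it :: cs) =
      S.vaC X x i P es.tail (S.stC X x i P (true, (p, es)) it).2.1 cs := by
  have h2 : (S.stC X x i P (true, (p, es)) it).2 =
      ((S.stC X x i P (true, (p, es)) it).2.1, es.tail) := rfl
  have key : S.runC X x i P es p (it :: cs) =
      ((S.stC X x i P (true, (p, es)) it).1 &&
        (S.runC X x i P es.tail (S.stC X x i P (true, (p, es)) it).2.1 cs).1,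
        (S.runC X x i P es.tail (S.stC X x i P (true, (p, es)) it).2.1 cs).2) := by
    unfold runC
    rw [List.foldl_cons]
    have := foldC_flag S X x i P cs (S.stC X x i P (true, (p, es)) it).1
      (S.stC X x i P (true, (p, es)) it).2
    rw [← h2]
    exact this
  constructor
  · unfold okC
    rw [key]
    simp only [Bool.and_eq_true]
    tauto
  · unfold vaC
    rw [key]

/-- chains can be glued -/
theorem okC_append (X : Oracle) (x : List Bool) (i : ℕ) (P p : List Bool)
    (es es' cs cs' : List (List Bool)) (hl : es.length = cs.length) :
    (S.okC X x i P (es ++ es') p (cs ++ cs') = true ↔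
      S.okC X x i P es p cs = true ∧
        S.okC X x i P es' (S.vaC X x i P es p cs) cs' = true) ∧
    S.vaC X x i P (es ++ es') p (cs ++ cs') =
      S.vaC X x i P es' (S.vaC X x i P es p cs) cs' := by
  induction cs generalizing es p with
  | nil =>
    have he : es = [] := List.length_eq_zero_iff.mp (by simpa using hl)
    subst he
    simp [(okC_nil S X x i P p []).1, (okC_nil S X x i P p []).2]
  | cons it cs ih =>
    cases es with
    | nil => simp at hl
    | cons e es =>
      have hl' : es.length = cs.length := by simpa using hl
      have hc1 := okC_cons S X x i P p it (e :: es) cs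
      have hc2 := okC_cons S X x i P p it (e :: es ++ es') (cs ++ cs')
      have hs1 : (S.stC X x i P (true, (p, e :: es ++ es')) it).1 =
          (S.stC X x i P (true, (p, e :: es)) it).1 := rfl
      have hs2 : (S.stC X x i P (true, (p, e :: es ++ es')) it).2.1 =
          (S.stC X x i P (true, (p, e :: es)) it).2.1 := rfl
      have ih' := ih (S.stC X x i P (true, (p, e :: es)) it).2.1 es hl'
      have ht : (e :: es ++ es').tail = es ++ es' := rfl
      have ht' : (e :: es).tail = es := rfl
      rw [hs1, hs2, ht] at hc2
      rw [ht'] at hc1
      rw [show (it :: cs) ++ cs' = it :: (cs ++ cs') from rfl]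
      constructor
      · rw [hc2.1, hc1.1, hc1.2, ih'.1]
        tauto
      · rw [hc2.2, hc1.2, ih'.2]

private theorem zr_len {β γ : Type} (a : List β) (b : List γ)
    (h : Helper22.weq (zr a) (zr b) = true) : a.length = b.length := by
  have h1 := (weq_iff _ _).mp h
  have h2 := congrArg List.length h1
  simpa [zr] using h2

private theorem stC_spec {X : Oracle} {x : List Bool} {i : ℕ} {P p it : List Bool}
    {es : List (List Bool)} (h : (S.stC X x i P (true, (p, es)) it).1 = true) :
    es ≠ [] ∧ (S.stC X x i P (true, (p, es)) it).2.1.length = (S.n x).length ∧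
    (wt it).tail.length =
      (if (es.headD []).headD false then (es.headD []).tail else p).length ∧
    ∀ O ∈ (wt it).tail, O.length ≤ S.p.eval x.length := by
  simp only [stC, Bool.true_and, Bool.and_eq_true] at h
  obtain ⟨h1, h2, h3, h4⟩ := h
  have hl := runF_length S h3 h4
  refine ⟨?_, ?_, hl.1, hl.2.2⟩
  · rintro rfl
    simp at h1
  · exact hl.2.1 (zr_len _ _ h2)

theorem okC_length {X : Oracle} {x : List Bool} {i : ℕ} {P p : List Bool}
    {es cs : List (List Bool)} (h : S.okC X x i P es p cs = true) :
    cs.length = es.length ∧ (p.length = (S.n x).length →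
      (S.vaC X x i P es p cs).length = (S.n x).length) := by
  induction cs generalizing es p with
  | nil =>
    rw [(okC_nil S X x i P p es).1] at h
    have he : es = [] := by simpa using h
    subst he
    exact ⟨rfl, fun hp => by rw [(okC_nil S X x i P p []).2]; exact hp⟩
  | cons it cs ih =>
    have hc := okC_cons S X x i P p it es cs
    obtain ⟨h1, h2⟩ := hc.1.mp h
    obtain ⟨hne, hv, -, -⟩ := stC_spec S h1
    have hi := ih h2
    cases es with
    | nil => exact absurd rfl hne
    | cons e es =>
      refine ⟨?_, fun _ => ?_⟩
      · have := hi.1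
        simp only [List.tail_cons] at this
        simp [this]
      · rw [hc.2]
        exact hi.2 hv

/-- the items of a correct chain: the number and the lengths of the objects -/
theorem okC_items {X : Oracle} {x : List Bool} {i : ℕ} {P p : List Bool}
    {es cs : List (List Bool)} (h : S.okC X x i P es p cs = true)
    (hp : p.length = (S.n x).length) (he : ∀ e ∈ es, e.length = (S.n x).length + 1) :
    ∀ it ∈ cs, (wt it).tail.length = (S.n x).length ∧
      ∀ O ∈ (wt it).tail, O.length ≤ S.p.eval x.length := by
  induction cs generalizing es p with
  | nil => intro it hit; simp at hit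
  | cons it cs ih =>
    have hc := okC_cons S X x i P p it es cs
    obtain ⟨h1, h2⟩ := hc.1.mp h
    obtain ⟨hne, hv, hl, hO⟩ := stC_spec S h1
    cases es with
    | nil => exact absurd rfl hne
    | cons e es =>
      intro it' hit'
      rcases List.mem_cons.mp hit' with rfl | hm
      · refine ⟨?_, hO⟩
        rw [hl]
        simp only [List.headD_cons]
        split_ifs
        · have := he e (by simp)
          simp [this]
        · exact hp
      · exact ih h2 hv (fun e' h' => he e' (by simp only [List.tail_cons] at h'; simp [h'])) it' hm

end Scheme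

end Pool.Agent.APX
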