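import Pool.Agent.APX.CollCA

set_option autoImplicit false

/-!
# APX-CollCB: two chains with the same last point
-/

namespace Pool.Agent.APX

open Pool.Agent.Helper22 N487b59b3

namespace Scheme

variable {Q : Problem} (S : Scheme Q)

/-- one step of `steC` -/
private def gC (X : Oracle) (x : List Bool)
    (st : List (List Bool × (List Bool × List Bool)) × (List Bool × List (List Bool)))
    (it : List Bool) :
    List (List Bool × (List Bool × List Bool)) × (List Bool × List (List Bool)) :=
  (st.1 ++ (S.steF X x (if (st.2.2.headD []).headD false then st.2.1 else (wt it).headD [])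
        (if (st.2.2.headD []).headD false then (st.2.2.headD []).tail else st.2.1) (wt it).tail).1,
    ((S.steF X x (if (st.2.2.headD []).headD false then st.2.1 else (wt it).headD [])
        (if (st.2.2.headD []).headD false then (st.2.2.headD []).tail else st.2.1)
          (wt it).tail).2.1, st.2.2.tail))

private theorem steC_eq (X : Oracle) (x p : List Bool) (es cs : List (List Bool)) :
    S.steC X x es p cs = cs.foldl (S.gC X x) ([], (p, es)) := rfl

private theorem gC_acc (X : Oracle) (x : List Bool) (cs : List (List Bool)) :
    ∀ (acc : List (List Bool × (List Bool × List Bool))) (s : List Bool × List (List Bool)),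
      (cs.foldl (S.gC X x) (acc, s)).1 = acc ++ (cs.foldl (S.gC X x) ([], s)).1 := by
  induction cs with
  | nil => intro acc s; simp
  | cons it cs ih =>
    intro acc s
    rw [List.foldl_cons, List.foldl_cons]
    have e1 : S.gC X x (acc, s) it =
        (acc ++ (S.gC X x ([], s) it).1, (S.gC X x ([], s) it).2) := by
      simp [gC]
    have e2 : S.gC X x ([], s) it = ((S.gC X x ([], s) it).1, (S.gC X x ([], s) it).2) := rfl
    rw [e1, ih (acc ++ (S.gC X x ([], s) it).1), e2, ih ((S.gC X x ([], s) it).1)]
    rw [List.append_assoc]

theorem steC_cons (X : Oracle) (x p it : List Bool) (es cs : List (List Bool)) :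
    (S.steC X x es p (it :: cs)).1 =
      (S.steF X x (if (es.headD []).headD false then p else (wt it).headD [])
        (if (es.headD []).headD false then (es.headD []).tail else p) (wt it).tail).1 ++
      (S.steC X x es.tail (S.steF X x (if (es.headD []).headD false then p else (wt it).headD [])
        (if (es.headD []).headD false then (es.headD []).tail else p) (wt it).tail).2.1 cs).1 := by
  rw [steC_eq, steC_eq, List.foldl_cons]
  have e1 : S.gC X x ([], (p, es)) it =
      ((S.steF X x (if (es.headD []).headD false then p else (wt it).headD [])
        (if (es.headD []).headD false then (es.headD []).tail else p) (wt it).tail).1,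
        ((S.steF X x (if (es.headD []).headD false then p else (wt it).headD [])
        (if (es.headD []).headD false then (es.headD []).tail else p) (wt it).tail).2.1,
          es.tail)) := by
    simp [gC]
  rw [e1, gC_acc]

private theorem ste_run (X : Oracle) (x : List Bool) (i : ℕ) (P : List Bool)
    (Os : List (List Bool)) :
    ∀ a bs : List Bool, (S.steF X x a bs Os).2 = (S.runF X x i P a bs Os).2 := by
  induction Os with
  | nil => intro a bs; rfl
  | cons O Os ih =>
    intro a bs
    rw [(S.steF_cons X x a bs O Os).2, (S.runF_cons X x i P a bs O Os).2, ih]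

/-- the start point of the evaluation -/
private def aC (e p it : List Bool) : List Bool := if e.headD false then p else (wt it).headD []

/-- the word of the evaluation -/
private def bC (e p : List Bool) : List Bool := if e.headD false then e.tail else p

private theorem stC_iff (X : Oracle) (x : List Bool) (i : ℕ) (P p it e : List Bool)
    (es : List (List Bool)) :
    ((S.stC X x i P (true, (p, e :: es)) it).1 = true ↔
      (aC e p it).length = (S.n x).length ∧
      (S.runF X x i P (aC e p it) (bC e p) (wt it).tail).1 = true ∧
      (S.runF X x i P (aC e p it) (bC e p) (wt it).tail).2.2.isEmpty = true) ∧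
    (S.stC X x i P (true, (p, e :: es)) it).2.1 =
      (S.runF X x i P (aC e p it) (bC e p) (wt it).tail).2.1 := by
  refine ⟨?_, rfl⟩
  have hz : ∀ u v : List Bool, zr u = zr v ↔ u.length = v.length := by
    intro u v
    constructor
    · intro h
      have := congrArg List.length h
      simpa [zr] using this
    · intro h
      simp [zr, h]
  show (true && (!(e :: es).isEmpty && (Helper22.weq (zr (aC e p it)) (zr (S.n x)) &&
      ((S.runF X x i P (aC e p it) (bC e p) (wt it).tail).1 &&
        (S.runF X x i P (aC e p it) (bC e p) (wt it).tail).2.2.isEmpty)))) = true ↔ _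
  rw [Bool.true_and, Bool.and_eq_true, Bool.and_eq_true, Bool.and_eq_true, weq_iff, hz]
  constructor
  · rintro ⟨_, h1, h2, h3⟩
    exact ⟨h1, h2, h3⟩
  · rintro ⟨h1, h2, h3⟩
    exact ⟨rfl, h1, h2, h3⟩

theorem steC_ok {X : Oracle} {x : List Bool} {i : ℕ} {P p : List Bool}
    {es cs : List (List Bool)} (h : S.okC X x i P es p cs = true)
    (hp : p.length = (S.n x).length) :
    ∀ q ∈ (S.steC X x es p cs).1, q.1.length = (S.n x).length + 1 ∧
      S.okU X x i (P ++ q.1) q.2.1 = true ∧ q.2.2 = S.cod X x q.2.1 := by
  induction cs generalizing es p with
  | nil =>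
    intro q hq
    exact absurd hq (by simp [steC])
  | cons it cs ih =>
    cases es with
    | nil =>
      have h1 := (S.okC_length h).1
      simp at h1
    | cons e es =>
      have h1 := (S.okC_cons X x i P p it (e :: es) cs).1.1 h
      have h2 := (S.stC_iff X x i P p it e es).1.1 h1.1
      have h3 := (S.stC_iff X x i P p it e es).2
      intro q hq
      rw [steC_cons] at hq
      rcases List.mem_append.1 hq with hq | hq
      · exact S.steF_ok h2.2.1 h2.1 q hq
      · have h4 : (S.steF X x (aC e p it) (bC e p) (wt it).tail).2.1 =
            (S.stC X x i P (true, (p, e :: es)) it).2.1 := by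
          rw [S.ste_run X x i P, h3]
        have h5 : (S.stC X x i P (true, (p, e :: es)) it).2.1.length = (S.n x).length := by
          rw [h3]
          exact (S.runF_length h2.2.1 h2.2.2).2.1 h2.1
        refine ih h1.2 h5 q ?_
        have hq' : q ∈ (S.steC X x es (S.steF X x (aC e p it) (bC e p) (wt it).tail).2.1 cs).1 := hq
        rw [h4] at hq'
        exact hq'

/-- PLAN. Induction on `es`. For `es = []` the last points are `p ≠ p'`. For `e :: es` let `p₁`,
`p₁'` be the points after the first level. If `p₁ ≠ p₁'`: induction hypothesis. If `p₁ = p₁'`: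
`collF` for `(a, bs)`, `(a', bs')` with `a = p ≠ p' = a'` (flag `true`) resp. `bs = p ≠ p' = bs'`
(flag `false`); the lengths of `a`, `a'` are checked by `stC`. The second components of `steF` and
`runF` agree. -/
theorem collC {X : Oracle} {x : List Bool} {i : ℕ} {P p p' : List Bool}
    {es cs cs' : List (List Bool)}
    (h : S.okC X x i P es p cs = true) (h' : S.okC X x i P es p' cs' = true)
    (hp : p.length = (S.n x).length) (hp' : p'.length = (S.n x).length)
    (he : ∀ e ∈ es, e.length = (S.n x).length + 1) (hne : p ≠ p')
    (hv : S.vaC X x i P es p cs = S.vaC X x i P es p' cs') :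
    ∃ q ∈ (S.steC X x es p cs).1, ∃ q' ∈ (S.steC X x es p' cs').1,
      q.1 ≠ q'.1 ∧ q.2.2 = q'.2.2 := by
  induction es generalizing p p' cs cs' with
  | nil =>
    exfalso
    have h1 := (S.okC_length h).1
    have h1' := (S.okC_length h').1
    have e1 : cs = [] := List.length_eq_zero_iff.1 (by simpa using h1)
    have e1' : cs' = [] := List.length_eq_zero_iff.1 (by simpa using h1')
    subst e1
    subst e1'
    rw [(S.okC_nil X x i P p []).2, (S.okC_nil X x i P p' []).2] at hv
    exact hne hv
  | cons e es ih =>
    cases cs with
    | nil =>
      have h1 := (S.okC_length h).1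
      simp at h1
    | cons it cs =>
    cases cs' with
    | nil =>
      have h1 := (S.okC_length h').1
      simp at h1
    | cons it' cs' =>
      have h1 := (S.okC_cons X x i P p it (e :: es) cs).1.1 h
      have h2 := (S.stC_iff X x i P p it e es).1.1 h1.1
      have h3 := (S.stC_iff X x i P p it e es).2
      have h1' := (S.okC_cons X x i P p' it' (e :: es) cs').1.1 h'
      have h2' := (S.stC_iff X x i P p' it' e es).1.1 h1'.1
      have h3' := (S.stC_iff X x i P p' it' e es).2
      rw [(S.okC_cons X x i P p it (e :: es) cs).2,
        (S.okC_cons X x i P p' it' (e :: es) cs').2] at hv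
      have hE : (S.steC X x (e :: es) p (it :: cs)).1 =
          (S.steF X x (aC e p it) (bC e p) (wt it).tail).1 ++
            (S.steC X x es (S.steF X x (aC e p it) (bC e p) (wt it).tail).2.1 cs).1 :=
        S.steC_cons X x p it (e :: es) cs
      have hE' : (S.steC X x (e :: es) p' (it' :: cs')).1 =
          (S.steF X x (aC e p' it') (bC e p') (wt it').tail).1 ++
            (S.steC X x es (S.steF X x (aC e p' it') (bC e p') (wt it').tail).2.1 cs').1 :=
        S.steC_cons X x p' it' (e :: es) cs'
      rw [hE, hE']
      by_cases hq : (S.stC X x i P (true, (p, e :: es)) it).2.1 =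
          (S.stC X x i P (true, (p', e :: es)) it').2.1
      · have hbl : (bC e p).length = (bC e p').length := by
          unfold bC
          split_ifs
          · rfl
          · rw [hp, hp']
        have hab : (aC e p it, bC e p) ≠ (aC e p' it', bC e p') := by
          intro hh
          rw [Prod.mk.injEq] at hh
          unfold aC bC at hh
          split_ifs at hh with hf
          · exact hne hh.1
          · exact hne hh.2
        rw [h3, h3'] at hq
        obtain ⟨q, hq1, q', hq1', hq2⟩ := S.collF h2.2.1 h2.2.2 h2'.2.1 h2'.2.2 hbl
          (h2.1.trans h2'.1.symm) hab hq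
        exact ⟨q, List.mem_append_left _ hq1, q', List.mem_append_left _ hq1', hq2⟩
      · have h5 : (S.stC X x i P (true, (p, e :: es)) it).2.1.length = (S.n x).length := by
          rw [h3]
          exact (S.runF_length h2.2.1 h2.2.2).2.1 h2.1
        have h5' : (S.stC X x i P (true, (p', e :: es)) it').2.1.length = (S.n x).length := by
          rw [h3']
          exact (S.runF_length h2'.2.1 h2'.2.2).2.1 h2'.1
        have h4 : (S.steF X x (aC e p it) (bC e p) (wt it).tail).2.1 =
            (S.stC X x i P (true, (p, e :: es)) it).2.1 := by
          rw [S.ste_run X x i P, h3]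
        have h4' : (S.steF X x (aC e p' it') (bC e p') (wt it').tail).2.1 =
            (S.stC X x i P (true, (p', e :: es)) it').2.1 := by
          rw [S.ste_run X x i P, h3']
        obtain ⟨q, hq1, q', hq1', hq2⟩ := ih h1.2 h1'.2 h5 h5'
          (fun e' he' => he e' (List.mem_cons_of_mem _ he')) hq hv
        rw [h4, h4']
        exact ⟨q, List.mem_append_right _ hq1, q', List.mem_append_right _ hq1', hq2⟩

end Scheme

end Pool.Agent.APX
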