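import Pool.Agent.APX.OFold
import Pool.Agent.APX.AppDefs

set_option autoImplicit false

/-!
# APX-OTab: tables computed with oracle
-/

namespace Pool.Agent.APX

open Pool.Agent.Helper22 N487b59b3 N68a2faeb

private theorem OTab_fold (g : List Bool → Bool) (l : List Bool) (k : ℕ) :
    l.foldl (fun (b : List Bool × List Bool) (_ : Bool) => (true :: b.1, b.2 ++ [g b.1]))
      (un k, (List.range k).map fun j => g (un j)) =
      (un (k + l.length), (List.range (k + l.length)).map fun j => g (un j)) := by
  induction l generalizing k with
  | nil => simp
  | cons a l ih =>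
    rw [List.foldl_cons]
    have h : (true :: un k, ((List.range k).map fun j => g (un j)) ++ [g (un k)]) =
        (un (k + 1), (List.range (k + 1)).map fun j => g (un j)) := by
      rw [List.range_succ, List.map_append]
      simp [un, List.replicate_succ]
    simp only
    rw [h, ih, List.length_cons, show k + 1 + l.length = k + (l.length + 1) by omega]

private theorem OTab_size (g : List Bool → Bool) (l : List Bool) (b : List Bool × List Bool) :
    sz (l.foldl (fun (b : List Bool × List Bool) (_ : Bool) => (true :: b.1, b.2 ++ [g b.1])) b) ≤
      sz b + 9 * l.length := by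
  induction l generalizing b with
  | nil => simp
  | cons a l ih =>
    rw [List.foldl_cons]
    refine (ih _).trans ?_
    obtain ⟨u, v⟩ := b
    simp only [sz_pair, sz_bits, List.length_cons, List.length_append, List.length_nil]
    omega

/-- PLAN. `OFP.foldl_ctx` over the word `p.2` with context `p.1` and state `(counter, table)`:
`(c, t) ↦ (true :: c, t ++ [g X (p.1, c)])`. -/
theorem OFP.tab {γ : Type} [N487b59b3 γ] {g : Oracle → γ × List Bool → Bool} (hg : OFP g) :
    OFP fun X (p : γ × List Bool) => (List.range p.2.length).map fun j => g X (p.1, un j) := by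
  have hstep : OFP fun X (q : γ × ((List Bool × List Bool) × Bool)) =>
      (true :: q.2.1.1, q.2.1.2 ++ [g X (q.1, q.2.1.1)]) := by
    have h1 : FP fun q : γ × ((List Bool × List Bool) × Bool) => (q.1, q.2.1.1) := by fun_prop
    have h2 : FP fun q : γ × ((List Bool × List Bool) × Bool) => true :: q.2.1.1 := by fun_prop
    have h3 : FP fun q : γ × ((List Bool × List Bool) × Bool) => q.2.1.2 := by fun_prop
    exact (OFP.of_fp h2).pair (OFP.append (OFP.of_fp h3)
      (OFP.cons (hg.on h1) (OFP.of_fp (FP.const []))))
  have h := OFP.foldl_ctx hstep (B := fun n => 3 * n) (by fun_prop) (by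
    intro X c l b
    have h1 := OTab_size (fun y => g X (c, y)) l b
    refine h1.trans ?_
    rw [sz_pair c (l, b), sz_pair l b, sz_bits l]
    omega)
  refine OFP.congr (h.on (f := fun p : γ × List Bool =>
    (p.1, (p.2, (([] : List Bool), ([] : List Bool))))) (by fun_prop)).snd' ?_
  intro X p
  have h2 := OTab_fold (fun y => g X (p.1, y)) p.2 0
  rw [Nat.zero_add] at h2
  exact congrArg Prod.snd h2

/-- the function given by the oracle; the length of the values is the length of `p.1` -/
theorem orf_ofp : OFP fun X (p : List Bool × List Bool) => orf X p.1.length p.2 := by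
  have h := OFP.tab (γ := List Bool) (g := fun X q => X (cd q.1 q.2))
    (OFP.orc.on (by fun_prop))
  exact h.on (f := fun p : List Bool × List Bool => (p.2, p.1)) (by fun_prop)

end Pool.Agent.APX
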