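import Pool.Agent.APX.FoldM
import Pool.Agent.APX.OTab

set_option autoImplicit false

/-!
# APX-CollM: the collision problem is reducible to CPLS
-/

namespace Pool.Agent.APX

open Pool.Agent.Helper22 N487b59b3 N68a2faeb

/-- the collision problem; the input codes `t` and `n - 1` in unary -/
def CollP : Problem := fun X x y => IsColl X (cf x).length ((cs x).length + 1) (wt y)

/-- PLAN. `Fold.reducible` with `t = cf x`, `n = true :: cs x`, `f = orf` (`orf_ofp`), `sol` = the
word `tw l`. -/
theorem coll_reducible : ReducibleToCPLS CollP := by
  have hf0 : OFP fun (X : Oracle) (p : List Bool × List Bool) =>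
      orf X (true :: cs p.1).length p.2 :=
    orf_ofp.on (f := fun p : List Bool × List Bool => (true :: cs p.1, p.2)) (by fun_prop)
  obtain ⟨f, hf⟩ := hf0
  have hs0 : FP fun p : List Bool × List (List Bool) => tw p.2 := FP.tw FP.snd
  obtain ⟨so, hso⟩ := OFP.of_fp hs0
  have ht : FP fun x : List Bool => cf x := by fun_prop
  have hn : FP fun x : List Bool => true :: cs x := by fun_prop
  have T : Fold CollP :=
    { t := fun x => cf x
      t_poly := (isPolyTime_iff _).2 ht
      n := fun x => true :: cs x
      n_poly := (isPolyTime_iff _).2 hn
      n_pos := by
        intro x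
        simp
      f := f
      sol := so
      f_length := by
        intro X x v
        rw [hf]
        simp [orf]
      sol_ok := by
        intro X x l h1 h2 h3 h4
        rw [hso]
        show IsColl X (cf x).length ((cs x).length + 1) (wt (tw l))
        rw [wt_tw]
        refine ⟨h1, h2, h3, ?_⟩
        intro v hv w hw
        have h5 := h4 v hv w hw
        rw [hf, hf] at h5
        exact h5 }
  exact T.reducible

end Pool.Agent.APX
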