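import Pool.Agent.APX.FpDA

set_option autoImplicit false

/-!
# APX-CombA: unary bounds
-/

namespace Pool.Agent.APX

open Pool.Agent.Helper22 N487b59b3

namespace Scheme

variable {Q : Problem} (S : Scheme Q)

theorem rl_fp : FP fun x : List Bool => un (S.k x + S.N x * (S.N x + 1)) := by
  have h1 : FP fun x : List Bool => un (S.K x).length := FP.un_length (S.K_fp FP.id)
  have h2 : FP fun x : List Bool => un ((S.n x).length * (true :: S.n x).length) :=
    FP.unMul (S.n_fp FP.id) (FP.cons (FP.const true) (S.n_fp FP.id))
  have h3 := FP.append h1 h2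
  refine (congrArg FP (funext fun x => ?_)).mp h3
  rw [← un_add, List.length_cons]

theorem rb_fp : FP fun x : List Bool => un (2 * (S.N x * S.N x + 1)) := by
  have h2 : FP fun x : List Bool => un ((S.n x).length * (S.n x).length) :=
    FP.unMul (S.n_fp FP.id) (S.n_fp FP.id)
  have h3 := FP.append h2 (FP.const (un 1))
  have h4 := FP.append h3 h3
  refine (congrArg FP (funext fun x => ?_)).mp h4
  rw [← un_add, ← un_add, two_mul]

end Scheme

end Pool.Agent.APX
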