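import Pool.Agent.APX.FpCA
import Pool.Agent.Helper22.SparseTools

set_option autoImplicit false

/-!
# APX-FpCB: polynomial time functions on entries and items
-/

namespace Pool.Agent.APX

open Pool.Agent.Helper22 N487b59b3

variable {α : Type} [N487b59b3 α]

private theorem flg_fp {β : Type} [N487b59b3 β] {f : β → List Bool} (hf : FP f) : FP fun b => flg (f b) :=
  FP.headD hf false

private theorem getB_fp {β : Type} [N487b59b3 β] {f g : β → List Bool} (hf : FP f) (hg : FP g) (d : Bool) :
    FP fun b => (f b).getD (g b).length d := by
  have h : FP fun b => ((f b).drop (g b).length).headD d := FP.headD (hf.drop hg) d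
  refine (congrArg FP (funext fun b => ?_)).mp h
  rw [List.headD_eq_head?_getD, List.head?_drop, List.getD_eq_getElem?_getD]

/-- a fold with the state `(still in the run?, collected)` -/
theorem topE_fp {f : α → List Bool} (hf : FP f) : FP fun a => topE (f a) := by
  have hP : FP fun p : Bool × List Bool => flg p.2 := flg_fp FP.snd
  have h1 := (FP.takeWhile_ctx (γ := Bool) (β := List Bool) (P := fun p => flg p.2) hP).comp
    (FP.pair (FP.const (α := α) true) (reverse_fp (sE_fp hf)))
  exact h1

private theorem tail_foldl (l : List (List Bool)) (a : List Bool) :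
    l.foldl (fun (s b : List Bool) => s ++ b.tail) a = a ++ l.flatMap List.tail := by
  induction l generalizing a with
  | nil => simp
  | cons b l ih => rw [List.foldl_cons, ih, List.flatMap_cons, List.append_assoc]

private theorem len_tails (l : List (List Bool)) : 3 * (l.flatMap List.tail).length ≤ sz l := by
  induction l with
  | nil => simp
  | cons b l ih =>
    rw [List.flatMap_cons, List.length_append, sz_cons, sz_bits, List.length_tail]
    omega

theorem Yb_fp {f : α → List Bool} (hf : FP f) : FP fun a => Yb (f a) := by
  have h1 : FP fun p : List (List Bool) × List Bool =>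
      p.1.foldl (fun (s b : List Bool) => s ++ b.tail) p.2 := by
    refine FP.foldl (g := fun (s b : List Bool) => s ++ b.tail) (FP.append FP.fst (FP.tail FP.snd))
      (B := fun n => n) (by fun_prop) ?_
    intro l a
    rw [tail_foldl, sz_append]
    have h2 := len_tails l
    have h3 := sz_bits (l.flatMap List.tail)
    omega
  have h2 := h1.comp ((topE_fp hf).pair (FP.const (α := α) ([] : List Bool)))
  refine (congrArg FP (funext fun a => ?_)).mp h2
  rw [tail_foldl, List.nil_append]
  rfl

private def tiStep (s : List Bool × (List (List Bool) × List (List Bool))) (_ : List Bool) :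
    List Bool × (List (List Bool) × List (List Bool)) :=
  (s.1, (s.2.1 ++ [tw ([] :: s.2.2.take s.1.length)], s.2.2.drop s.1.length))

private theorem tiStep_foldl (l : List (List Bool)) (n : List Bool) (st : List (List Bool) × List (List Bool)) :
    l.foldl tiStep (n, st) = (n, l.foldl (fun (st : List (List Bool) × List (List Bool)) (_ : List Bool) =>
      (st.1 ++ [tw ([] :: st.2.take n.length)], st.2.drop n.length)) st) := by
  induction l generalizing st with
  | nil => rfl
  | cons b l ih =>
    rw [List.foldl_cons, List.foldl_cons]
    exact ih _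

private theorem len_tw_le (l : List (List Bool)) : (tw l).length ≤ sz l := by
  induction l with
  | nil => simp
  | cons a l ih =>
    rw [tw_cons, cd_length, sz_cons, sz_bits]
    omega

private theorem sz_take_drop (l : List (List Bool)) (i : ℕ) : sz (l.take i) + sz (l.drop i) = sz l := by
  conv_rhs => rw [← List.take_append_drop i l, sz_append]

private theorem ti_meas (l : List (List Bool)) (n : List Bool) (st : List (List Bool) × List (List Bool)) :
    sz (l.foldl tiStep (n, st)).2.1 + 6 * sz (l.foldl tiStep (n, st)).2.2 ≤
      sz st.1 + 6 * sz st.2 + 7 * l.length ∧ (l.foldl tiStep (n, st)).1 = n := by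
  induction l generalizing st with
  | nil => simp
  | cons b l ih =>
    rw [List.foldl_cons]
    obtain ⟨h1, h2⟩ := ih (st.1 ++ [tw ([] :: st.2.take n.length)], st.2.drop n.length)
    have h3 : tiStep (n, st) b = (n, (st.1 ++ [tw ([] :: st.2.take n.length)], st.2.drop n.length)) := rfl
    rw [h3]
    refine ⟨h1.trans ?_, h2⟩
    have h4 := sz_take_drop st.2 n.length
    have h5 := len_tw_le (st.2.take n.length)
    have h6 : sz (st.1 ++ [tw ([] :: st.2.take n.length)]) = sz st.1 + (2 * (3 * (1 + (tw (st.2.take n.length)).length)) + 1) := by
      rw [sz_append, sz_cons, sz_nil, sz_bits, tw_cons, cd_length, List.length_nil]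
    simp only [List.length_cons]
    rw [h6]
    omega

theorem topI_fp {n : α → List Bool} {E Os : α → List (List Bool)} (hn : FP n) (hE : FP E)
    (hO : FP Os) : FP fun a => topI (n a) (E a) (Os a) := by
  have h1 : FP fun p : List (List Bool) × (List Bool × (List (List Bool) × List (List Bool))) =>
      p.1.foldl tiStep p.2 := by
    refine FP.foldl (g := tiStep) ?_ (B := fun N => 20 * N + 20) (by fun_prop) ?_
    · unfold tiStep
      have e1 : FP fun p : (List Bool × (List (List Bool) × List (List Bool))) × List Bool => p.1.1 :=
        FP.fst.fst'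
      have e2 : FP fun p : (List Bool × (List (List Bool) × List (List Bool))) × List Bool => p.1.2.1 :=
        FP.fst.snd'.fst'
      have e3 : FP fun p : (List Bool × (List (List Bool) × List (List Bool))) × List Bool => p.1.2.2 :=
        FP.fst.snd'.snd'
      have e4 : FP fun p : (List Bool × (List (List Bool) × List (List Bool))) × List Bool =>
          tw ([] :: p.1.2.2.take p.1.1.length) := FP.tw ((FP.const []).cons (e3.take e1))
      exact e1.pair ((e2.append (e4.cons (FP.const []))).pair (e3.drop e1))
    · rintro l ⟨n, A, B⟩
      obtain ⟨h2, h3⟩ := ti_meas l n (A, B)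
      have h4 := length_le_sz l
      generalize l.foldl tiStep (n, (A, B)) = s at h2 h3
      obtain ⟨s1, s2, s3⟩ := s
      simp only [sz_pair] at *
      subst h3
      omega
  have h2 := (h1.comp (hE.pair (hn.pair ((FP.const (α := α) ([] : List (List Bool))).pair hO)))).snd'.fst'
  refine (congrArg FP (funext fun a => ?_)).mp h2
  change ((E a).foldl tiStep (n a, (([] : List (List Bool)), Os a))).2.1 = _
  rw [tiStep_foldl]
  rfl

private theorem nrm_fp : FP fun p : List Bool × List Bool => nrm p.1 p.2 := by
  have h1 : FP fun p : List Bool × List Bool => wt p.2 := FP.wt FP.snd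
  have h2 : FP fun p : List Bool × List Bool => ((wt p.2).headD []).take p.1.length :=
    (FP.headD h1 []).take FP.fst
  exact FP.tw (h2.cons (FP.tail h1))

theorem cnv_fp {n y : α → List Bool} (hn : FP n) (hy : FP y) :
    FP fun a => cnv (n a) (y a) := by
  have hc : FP fun a => yc (y a) := yc_fp hy
  have ho : FP fun a => yo (y a) := yo_fp hy
  have h1 : FP fun a => (yc (y a)).tail.map (nrm (n a)) := by
    have h2 := (FP.map_ctx (γ := List Bool) (β := List Bool) (h := fun p => nrm p.1 p.2) nrm_fp).comp
      (hn.pair (FP.tail hc))
    exact h2
  have h3 : FP fun a => tw (yo (y a) :: (wt ((yc (y a)).headD [])).tail) :=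
    FP.tw (ho.cons (FP.tail (FP.wt (FP.headD hc []))))
  have h4 : FP fun a => (if (yc (y a)).isEmpty then ([] : List (List Bool)) else
      tw (yo (y a) :: (wt ((yc (y a)).headD [])).tail) :: (yc (y a)).tail.map (nrm (n a))) :=
    FP.ite (FP.isEmpty hc) (FP.const []) (h3.cons h1)
  exact h4

private def cpStep (s : Bool × (List Bool × List Bool)) (a : Bool) : Bool × (List Bool × List Bool) :=
  if (s.1 && !s.2.1.isEmpty) && (a == s.2.1.headD false) then (true, (s.2.1.tail, s.2.2 ++ [true]))
  else (false, s.2)

private theorem cpStep_false (u : List Bool) (st : List Bool × List Bool) :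
    u.foldl cpStep (false, st) = (false, st) := by
  induction u with
  | nil => rfl
  | cons a u ih =>
    rw [List.foldl_cons]
    exact ih

private theorem cpStep_true (u v acc : List Bool) :
    (u.foldl cpStep (true, (v, acc))).2.2 = acc ++ cpf u v := by
  induction u generalizing v acc with
  | nil => simp [cpf]
  | cons a u ih =>
    rw [List.foldl_cons]
    cases v with
    | nil =>
      have h1 : cpStep (true, (([] : List Bool), acc)) a = (false, ([], acc)) := rfl
      rw [h1, cpStep_false]
      simp [cpf]
    | cons b v =>
      by_cases hab : (a == b) = true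
      · have h1 : cpStep (true, (b :: v, acc)) a = (true, (v, acc ++ [true])) := by
          simp [cpStep, hab]
        rw [h1, ih]
        simp [cpf, hab]
      · have h1 : cpStep (true, (b :: v, acc)) a = (false, (b :: v, acc)) := by
          simp [cpStep, hab]
        rw [h1, cpStep_false]
        simp [cpf, hab]

private theorem cp_meas (u : List Bool) (s : Bool × (List Bool × List Bool)) :
    (u.foldl cpStep s).2.1.length ≤ s.2.1.length ∧
      (u.foldl cpStep s).2.2.length ≤ s.2.2.length + u.length := by
  induction u generalizing s with
  | nil => simp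
  | cons a u ih =>
    rw [List.foldl_cons]
    obtain ⟨h1, h2⟩ := ih (cpStep s a)
    have h3 : (cpStep s a).2.1.length ≤ s.2.1.length ∧ (cpStep s a).2.2.length ≤ s.2.2.length + 1 := by
      unfold cpStep
      split_ifs
      · simp
      · simp
    simp only [List.length_cons]
    omega

theorem cpf_fp {u v : α → List Bool} (hu : FP u) (hv : FP v) :
    FP fun a => cpf (u a) (v a) := by
  have h1 : FP fun p : List Bool × (Bool × (List Bool × List Bool)) => p.1.foldl cpStep p.2 := by
    refine FP.foldl (g := cpStep) ?_ (B := fun N => 20 * N + 20) (by fun_prop) ?_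
    · unfold cpStep
      have e1 : FP fun p : (Bool × (List Bool × List Bool)) × Bool => p.1.1 := FP.fst.fst'
      have e2 : FP fun p : (Bool × (List Bool × List Bool)) × Bool => p.1.2.1 := FP.fst.snd'.fst'
      have e3 : FP fun p : (Bool × (List Bool × List Bool)) × Bool => p.1.2.2 := FP.fst.snd'.snd'
      have e4 : FP fun p : (Bool × (List Bool × List Bool)) × Bool => p.1.2 := FP.fst.snd'
      have e5 : FP fun p : (Bool × (List Bool × List Bool)) × Bool =>
          ((p.1.1 && !p.1.2.1.isEmpty) && (p.2 == p.1.2.1.headD false)) :=
        (e1.and (FP.isEmpty e2).not).and (FP.snd.beq (FP.headD e2 false))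
      exact FP.ite e5 ((FP.const true).pair ((FP.tail e2).pair (e3.append ((FP.const true).cons (FP.const [])))))
        ((FP.const false).pair e4)
    · rintro l ⟨b, A, B⟩
      obtain ⟨h2, h3⟩ := cp_meas l (b, (A, B))
      generalize l.foldl cpStep (b, (A, B)) = s at h2 h3
      obtain ⟨s1, s2, s3⟩ := s
      simp only [sz_pair, sz_bool, sz_bits] at *
      omega
  have h2 := (h1.comp (hu.pair ((FP.const (α := α) true).pair (hv.pair (FP.const (α := α) ([] : List Bool)))))).snd'.snd'
  refine (congrArg FP (funext fun a => ?_)).mp h2
  change ((u a).foldl cpStep (true, (v a, ([] : List Bool)))).2.2 = _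
  rw [cpStep_true, List.nil_append]

theorem low_fp {es : α → List (List Bool)} {k v : α → List Bool} (he : FP es) (hk : FP k)
    (hv : FP v) : FP fun a => Scheme.low (es a) (k a) (v a) := by
  have hkt : FP fun a => (k a).tail := FP.tail hk
  have h1 : FP fun a => (es a).map flg := FP.map (f := flg) (flg_fp FP.id) he
  exact (FP.weq (hv.take hkt) (h1.take hkt)).and (getB_fp hv hkt true).not

end Pool.Agent.APX
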