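import Pool.Agent.APX.FpDA
import Pool.Agent.APX.FpCB

set_option autoImplicit false

/-!
# APX-FpDB: the requests of a scheme are polynomial time
-/

namespace Pool.Agent.APX

open Pool.Agent.Helper22 N487b59b3

private theorem fdb_len_eq {α β γ : Type} [N487b59b3 α] [N487b59b3 β] [N487b59b3 γ] {f : α → List β}
    {g : α → List γ} (hf : FP f) (hg : FP g) : FP fun a => decide ((f a).length = (g a).length) := by
  have h := (FP.length_le hf hg).and (FP.length_le hg hf)
  refine (congrArg FP (funext fun a => ?_)).mp h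
  rw [Bool.eq_iff_iff]
  simp only [Bool.and_eq_true, decide_eq_true_eq]
  omega

private theorem fdb_replicate {α γ : Type} [N487b59b3 α] [N487b59b3 γ] [Inhabited γ] {f : α → List Bool}
    {g : α → List γ} (hf : FP f) (hg : FP g) :
    FP fun a => List.replicate (g a).length (f a) := by
  have h := (FP.map_ctx (h := fun p : List Bool × γ => p.1) FP.fst).comp (hf.pair hg)
  refine (congrArg FP (funext fun a => ?_)).mp h
  simp

namespace Scheme

variable {Q : Problem} (S : Scheme Q) {α : Type} [N487b59b3 α]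

theorem cellR_fp {x s c : α → List Bool} (hx : FP x) (hs : FP s) (hc : FP c) :
    FP fun a => S.cellR (x a) (s a) (c a) :=
  mkS_fp ((sJ_fp hs).append (FP.const [true])) ((sP_fp hs).append hc)
    (fdb_replicate (S.e0_fp hx) (S.n_fp hx))

theorem entR_fp {x s l p : α → List Bool} (hx : FP x) (hs : FP s) (hl : FP l) (hp : FP p) :
    FP fun a => S.entR (x a) (s a) (l a) (p a) := by
  have h1 : FP fun a => List.replicate (S.N (x a) - (l a).length) (S.e0 (x a)) := by
    have h := fdb_replicate (S.e0_fp hx) ((S.n_fp hx).drop hl)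
    refine (congrArg FP (funext fun a => ?_)).mp h
    rw [List.length_drop]
  exact mkS_fp (sJ_fp hs) (sP_fp hs) (((sE_fp hs).take hl.tail).append
    (((FP.const true).cons hp).cons h1))

theorem pt_fp {f : α → List Bool} (hf : FP f) (b : Bool) : FP fun a => S.pt (f a) b :=
  (FP.const b).cons (FP.zr (S.n_fp hf).tail)

theorem lv1_fp {x s : α → List Bool} (hx : FP x) (hs : FP s) :
    FP fun a => S.lv1 (x a) (s a) :=
  (S.n_fp hx).drop (topE_fp hs)

theorem M1_fp {x s : α → List Bool} (hx : FP x) (hs : FP s) :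
    FP fun a => S.M1 (x a) (s a) :=
  (Yb_fp hs).append ((S.lv1_fp hx hs).take (FP.const [true]))

theorem chn_fp {x s : α → List Bool} {T : α → List (List Bool)} (hx : FP x) (hs : FP s)
    (hT : FP T) : FP fun a => S.chn (x a) (s a) (T a) := by
  have h1 : FP fun a => topI (S.n (x a)) (topE (s a)) (((T a).take (Yb (s a)).length).map yo) :=
    topI_fp (S.n_fp hx) (topE_fp hs) (FP.map (yo_fp FP.id) (hT.take (Yb_fp hs)))
  have h2 : FP fun a => cnv (S.n (x a)) ((T a).getD (Yb (s a)).length []) :=
    cnv_fp (S.n_fp hx) (getL_fp hT (Yb_fp hs))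
  exact h1.append (FP.ite (S.lv1_fp hx hs).isEmpty (FP.const []) h2)

theorem bad_fp {x s : α → List Bool} {T : α → List (List Bool)} (hx : FP x) (hs : FP s)
    (hT : FP T) : FP fun a => S.bad (x a) (s a) (T a) := by
  have h2 : FP fun a => (T a).getD (Yb (s a)).length [] := getL_fp hT (Yb_fp hs)
  exact (S.lv1_fp hx hs).isEmpty.not.and ((yk_fp h2).not.or
    (fdb_len_eq (yl_fp h2) (S.lv1_fp hx hs)).not)

theorem dnS_fp : FP S.dnS := by
  have hM : FP fun p : List Bool × (List Bool × List (List Bool)) => S.M1 p.1 p.2.1 :=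
    S.M1_fp FP.fst (FP.fst'  FP.snd)
  exact (FP.length_le (S.K_fp FP.fst) (sJ_fp (FP.fst' FP.snd))).or
    (FP.length_le (hM.append hM) (FP.snd' FP.snd))

end Scheme

end Pool.Agent.APX
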