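import Pool.Agent.APX.FpBA
import Pool.Agent.APX.FpDB

set_option autoImplicit false

/-!
# APX-FpEA: violations and requests are polynomial time with oracle
-/

namespace Pool.Agent.APX

open Pool.Agent.Helper22 N487b59b3

private theorem fea_getB {β : Type} [N487b59b3 β] {f g : β → List Bool} (hf : FP f) (hg : FP g)
    (d : Bool) : FP fun b => (f b).getD (g b).length d := by
  have h : FP fun b => ((f b).drop (g b).length).headD d := FP.headD (hf.drop hg) d
  refine (congrArg FP (funext fun b => ?_)).mp h
  rw [List.headD_eq_head?_getD, List.head?_drop, List.getD_eq_getElem?_getD]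

private theorem fea_len_eq {α β γ : Type} [N487b59b3 α] [N487b59b3 β] [N487b59b3 γ] {f : α → List β}
    {g : α → List γ} (hf : FP f) (hg : FP g) : FP fun a => decide ((f a).length = (g a).length) := by
  have h := (FP.length_le hf hg).and (FP.length_le hg hf)
  refine (congrArg FP (funext fun a => ?_)).mp h
  rw [Bool.eq_iff_iff]
  simp only [Bool.and_eq_true, decide_eq_true_eq]
  omega

namespace Scheme

variable {Q : Problem} (S : Scheme Q)

theorem vio_ofp : OFP S.vio := by
  have hx : FP fun p : List Bool × (List Bool × List Bool) => p.1 := FP.fst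
  have hs : FP fun p : List Bool × (List Bool × List Bool) => p.2.1 := FP.fst' FP.snd
  have hy : FP fun p : List Bool × (List Bool × List Bool) => p.2.2 := FP.snd' FP.snd
  have hJ := sJ_fp hs
  have hK := S.K_fp hx
  have c0 : FP fun p : List Bool × (List Bool × List Bool) =>
      decide (p.2.2.length ≤ S.lvb p.1) := by
    have h := FP.length_le hy ((S.lvb_fp).comp hx)
    simpa only [Helper22.un_length] using h
  have c1 : FP fun p : List Bool × (List Bool × List Bool) =>
      decide ((sJ p.2.1).length < S.k p.1) := by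
    have h := (FP.length_le hK hJ).not
    refine (congrArg FP (funext fun a => ?_)).mp h
    rw [Bool.eq_iff_iff]
    simp only [Bool.not_eq_true', decide_eq_false_iff_not, decide_eq_true_eq, Scheme.k]
    omega
  have c2 : FP fun p : List Bool × (List Bool × List Bool) => !(yl p.2.2).isEmpty :=
    (yl_fp hy).isEmpty.not
  have c3 : FP fun p : List Bool × (List Bool × List Bool) =>
      decide ((yl p.2.2).length ≤ S.N p.1) := FP.length_le (yl_fp hy) (S.n_fp hx)
  have c4 : FP fun p : List Bool × (List Bool × List Bool) =>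
      flg ((sE p.2.1).getD (yl p.2.2).tail.length []) :=
    FP.headD (getL_fp (sE_fp hs) (yl_fp hy).tail) false
  have c5 : FP fun p : List Bool × (List Bool × List Bool) =>
      decide ((yo p.2.2).length = S.N p.1) := fea_len_eq (yo_fp hy) (S.n_fp hx)
  have hE : FP fun p : List Bool × (List Bool × List Bool) =>
      ((sE p.2.1).take (yl p.2.2).length).reverse :=
    reverse_fp ((sE_fp hs).take (yl_fp hy))
  have hA := hx.pair ((S.lo_fp hx hs).pair ((sP_fp hs).pair (hE.pair ((yo_fp hy).pair
    (yc_fp hy)))))
  have c6 : OFP fun X (p : List Bool × (List Bool × List Bool)) =>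
      S.okC X p.1 (S.lo p.1 p.2.1) (sP p.2.1) ((sE p.2.1).take (yl p.2.2).length).reverse
        (yo p.2.2) (yc p.2.2) :=
    ((S.okC_ofp).on hA).congr fun X p => by simp only [Helper22.un_length]
  have v7 : OFP fun X (p : List Bool × (List Bool × List Bool)) =>
      S.vaC X p.1 (S.lo p.1 p.2.1) (sP p.2.1) ((sE p.2.1).take (yl p.2.2).length).reverse
        (yo p.2.2) (yc p.2.2) :=
    ((S.vaC_ofp).on hA).congr fun X p => by simp only [Helper22.un_length]
  have c7 := OFP.map3 (f := fun q : List (List Bool) × (List Bool × List Bool) =>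
    low q.1 q.2.1 q.2.2) (low_fp FP.fst (FP.fst' FP.snd) (FP.snd' FP.snd))
    (OFP.of_fp (sE_fp hs)) (OFP.of_fp (yl_fp hy)) v7
  have d1 : FP fun p : List Bool × (List Bool × List Bool) => !(sJ p.2.1).isEmpty :=
    hJ.isEmpty.not
  have hD : FP fun p : List Bool × (List Bool × List Bool) =>
      un ((S.K p.1).drop (sJ p.2.1).length).length := FP.un_length (hK.drop hJ)
  have d2 : OFP fun X (p : List Bool × (List Bool × List Bool)) =>
      S.okU X p.1 (S.k p.1 - (sJ p.2.1).length) (sP p.2.1) (yo p.2.2) :=
    ((S.okU_ofp).on (hx.pair (hD.pair ((sP_fp hs).pair (yo_fp hy))))).congr fun X p => by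
      simp only [Helper22.un_length, List.length_drop]
  have h := (OFP.of_fp c0).and (OFP.ite (OFP.of_fp (yk_fp hy))
    ((OFP.of_fp c1).and ((OFP.of_fp c2).and ((OFP.of_fp c3).and ((OFP.of_fp c4).and
      ((OFP.of_fp c5).and (c6.and c7))))))
    ((OFP.of_fp d1).and d2))
  exact h.congr fun X p => rfl

private theorem fea_cur : OFP fun X (p : List Bool × (List Bool × List (List Bool))) =>
    S.cur X p.1 p.2.1 p.2.2 := by
  have hx : FP fun p : List Bool × (List Bool × List (List Bool)) => p.1 := FP.fst
  have hz : FP fun p : List Bool × (List Bool × List (List Bool)) => p.2.1 := FP.fst' FP.snd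
  have hT : FP fun p : List Bool × (List Bool × List (List Bool)) => p.2.2 := FP.snd' FP.snd
  have hr : FP fun p : List Bool × (List Bool × List (List Bool)) =>
      yo (p.2.2.reverse.headD []) := yo_fp (FP.headD (reverse_fp hT) [])
  have h := OFP.ite (OFP.of_fp hT.isEmpty) (OFP.of_fp hz) ((S.cod_ofp).on (hx.pair hr))
  exact h.congr fun X p => rfl

private theorem fea_askC : OFP fun X (p : List Bool × (List Bool × (List Bool ×
    List (List Bool)))) => S.askC X p.1 p.2.1 p.2.2.1 p.2.2.2 := by
  have hx : FP fun p : List Bool × (List Bool × (List Bool × List (List Bool))) => p.1 := FP.fst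
  have hs : FP fun p : List Bool × (List Bool × (List Bool × List (List Bool))) => p.2.1 :=
    FP.fst' FP.snd
  have hz : FP fun p : List Bool × (List Bool × (List Bool × List (List Bool))) => p.2.2.1 :=
    FP.fst' (FP.snd' FP.snd)
  have hT : FP fun p : List Bool × (List Bool × (List Bool × List (List Bool))) => p.2.2.2 :=
    FP.snd' (FP.snd' FP.snd)
  have hc : OFP fun X (p : List Bool × (List Bool × (List Bool × List (List Bool)))) =>
      S.cur X p.1 p.2.2.1 p.2.2.2 := (S.fea_cur).on (hx.pair (hz.pair hT))
  have c1 : FP fun p : List Bool × (List Bool × (List Bool × List (List Bool))) =>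
      !decide ((Yb p.2.1).length ≤ p.2.2.2.length) := (FP.length_le (Yb_fp hs) hT).not
  have hb : FP fun p : List Bool × (List Bool × (List Bool × List (List Bool))) =>
      (Yb p.2.1).getD p.2.2.2.length false := by
    have h := fea_getB (Yb_fp hs) (FP.un_length hT) false
    simpa only [Helper22.un_length] using h
  have h1 : OFP fun X (p : List Bool × (List Bool × (List Bool × List (List Bool)))) =>
      S.cellR p.1 p.2.1 (S.cur X p.1 p.2.2.1 p.2.2.2 ++ [(Yb p.2.1).getD p.2.2.2.length false]) :=
    OFP.map3 (f := fun q : List Bool × (List Bool × List Bool) => S.cellR q.1 q.2.1 q.2.2)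
      (S.cellR_fp FP.fst (FP.fst' FP.snd) (FP.snd' FP.snd)) (OFP.of_fp hx) (OFP.of_fp hs)
      (hc.append (OFP.of_fp (hb.cons (FP.const []))))
  have h2 : OFP fun X (p : List Bool × (List Bool × (List Bool × List (List Bool)))) =>
      S.entR p.1 p.2.1 (S.lv1 p.1 p.2.1) (S.cur X p.1 p.2.2.1 p.2.2.2) :=
    OFP.map3 (f := fun q : List Bool × (List Bool × List Bool) =>
      S.entR q.1 q.2.1 (S.lv1 q.1 q.2.1) q.2.2)
      (S.entR_fp FP.fst (FP.fst' FP.snd) (S.lv1_fp FP.fst (FP.fst' FP.snd)) (FP.snd' FP.snd))
      (OFP.of_fp hx) (OFP.of_fp hs) hc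
  refine (OFP.ite (OFP.of_fp c1) h1 h2).congr fun X p => ?_
  rw [askC]
  by_cases h : p.2.2.2.length < (Yb p.2.1).length
  · simp [h]
  · simp [h, not_lt.1 h]

theorem askS_ofp : OFP S.askS := by
  have hx : FP fun p : List Bool × (List Bool × List (List Bool)) => p.1 := FP.fst
  have hs : FP fun p : List Bool × (List Bool × List (List Bool)) => p.2.1 := FP.fst' FP.snd
  have hT : FP fun p : List Bool × (List Bool × List (List Bool)) => p.2.2 := FP.snd' FP.snd
  have c1 : FP fun p : List Bool × (List Bool × List (List Bool)) =>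
      !decide ((S.M1 p.1 p.2.1).length ≤ p.2.2.length) := (FP.length_le (S.M1_fp hx hs) hT).not
  have h1 := (S.fea_askC).on (hx.pair (hs.pair ((S.pt_fp hx false).pair hT)))
  have h2 := (S.fea_askC).on (hx.pair (hs.pair ((S.pt_fp hx true).pair
    (hT.drop (S.M1_fp hx hs)))))
  refine (OFP.ite (OFP.of_fp c1) h1 h2).congr fun X p => ?_
  rw [askS]
  by_cases h : p.2.2.length < (S.M1 p.1 p.2.1).length
  · simp [h]
  · simp [h, not_lt.1 h]

end Scheme

end Pool.Agent.APX
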