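import Pool.Agent.APX.FpA

set_option autoImplicit false

/-!
# APX-FpBB: the triples of a chain are polynomial time with oracle
-/

namespace Pool.Agent.APX

open Pool.Agent.Helper22 N487b59b3

namespace Scheme

variable {Q : Problem} (S : Scheme Q)

/-- states -/
private abbrev StaB : Type :=
  List (List Bool × (List Bool × List Bool)) × (List Bool × List (List Bool))

/-- the first argument of `F` -/
private def argBA (st : StaB) (it : List Bool) : List Bool :=
  if (st.2.2.headD []).headD false then st.2.1 else (wt it).headD []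

/-- the second argument of `F` -/
private def argBB (st : StaB) (_it : List Bool) : List Bool :=
  if (st.2.2.headD []).headD false then (st.2.2.headD []).tail else st.2.1

private theorem FP.argBA {α : Type} [N487b59b3 α] {f : α → StaB} {g : α → List Bool} (hf : FP f)
    (hg : FP g) : FP fun a => argBA (f a) (g a) := by
  have h1 : FP fun a => wt (g a) := FP.wt hg
  unfold Scheme.argBA
  fun_prop

private theorem FP.argBB {α : Type} [N487b59b3 α] {f : α → StaB} {g : α → List Bool} (hf : FP f)
    (_hg : FP g) : FP fun a => argBB (f a) (g a) := by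
  unfold Scheme.argBB
  fun_prop

/-- one level of a chain -/
private def gB (X : Oracle) (q : List Bool × (StaB × List Bool)) : StaB :=
  (q.2.1.1 ++ (S.steF X q.1 (argBA q.2.1 q.2.2) (argBB q.2.1 q.2.2) (wt q.2.2).tail).1,
    ((S.steF X q.1 (argBA q.2.1 q.2.2) (argBB q.2.1 q.2.2) (wt q.2.2).tail).2.1,
      q.2.1.2.2.tail))

private theorem gB_ofp : OFP S.gB := by
  have hA : FP fun q : List Bool × (StaB × List Bool) => argBA q.2.1 q.2.2 :=
    FP.argBA (by fun_prop) (by fun_prop)
  have hB : FP fun q : List Bool × (StaB × List Bool) => argBB q.2.1 q.2.2 :=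
    FP.argBB (by fun_prop) (by fun_prop)
  have hW : FP fun q : List Bool × (StaB × List Bool) => wt q.2.2 := FP.wt (by fun_prop)
  have hR : OFP fun X (q : List Bool × (StaB × List Bool)) =>
      S.steF X q.1 (argBA q.2.1 q.2.2) (argBB q.2.1 q.2.2) (wt q.2.2).tail :=
    OFP.on (S.steF_ofp) (f := fun q : List Bool × (StaB × List Bool) =>
      (q.1, (argBA q.2.1 q.2.2, (argBB q.2.1 q.2.2, (wt q.2.2).tail)))) (by fun_prop)
  exact (OFP.map2 (f := fun p : (List Bool × (StaB × List Bool)) ×
      (List (List Bool × (List Bool × List Bool)) × (List Bool × List Bool)) =>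
    ((p.1.2.1.1 ++ p.2.1, (p.2.2.1, p.1.2.1.2.2.tail)) : StaB)) (by fun_prop)
      (OFP.of_fp FP.id) hR).congr fun X q => rfl

private theorem sz_tail_leB {β : Type} [N487b59b3 β] (l : List β) : sz l.tail ≤ sz l := by
  have h := sz_drop l 1
  rwa [List.drop_one] at h

private theorem steF_sz (X : Oracle) (x : List Bool) (M : ℕ)
    (l : List (List Bool)) (h1 : ∀ O ∈ l, sz O ≤ M ∧ sz (S.cod X x O) ≤ M)
    (b : List (List Bool × (List Bool × List Bool)) × (List Bool × List Bool))
    (h0 : sz b.2.1 ≤ M) :
    sz (l.foldl (fun st O => (st.1 ++ [(st.2.1 ++ [st.2.2.headD false], (O, S.cod X x O))],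
      (S.cod X x O, st.2.2.tail))) b).1 ≤ sz b.1 + l.length * (2 * (5 * M + 8) + 1) ∧
    sz (l.foldl (fun st O => (st.1 ++ [(st.2.1 ++ [st.2.2.headD false], (O, S.cod X x O))],
      (S.cod X x O, st.2.2.tail))) b).2.1 ≤ M := by
  induction l generalizing b with
  | nil => exact ⟨by simp, h0⟩
  | cons O l ih =>
    rw [List.foldl_cons]
    obtain ⟨hO, hc⟩ := h1 O List.mem_cons_self
    obtain ⟨h3, h4⟩ := ih (fun O' hO' => h1 O' (List.mem_cons_of_mem _ hO'))
      (b.1 ++ [(b.2.1 ++ [b.2.2.headD false], (O, S.cod X x O))], (S.cod X x O, b.2.2.tail)) hc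
    refine ⟨h3.trans ?_, h4⟩
    rw [List.length_cons]
    have e : (l.length + 1) * (2 * (5 * M + 8) + 1) =
        l.length * (2 * (5 * M + 8) + 1) + (2 * (5 * M + 8) + 1) := by ring
    rw [e]
    simp only [sz_append, sz_cons, sz_nil, sz_pair, sz_bool]
    omega

private theorem steC_sz (X : Oracle) (x : List Bool) (C D : ℕ)
    (cs : List (List Bool)) (hc : ∀ it ∈ cs, ∀ O ∈ wt it, sz O ≤ C ∧ sz (S.cod X x O) ≤ C)
    (hD : ∀ it ∈ cs, (wt it).length ≤ D)
    (st : StaB) (hst : sz st.2.1 ≤ C) :
    sz (cs.foldl (fun st it => S.gB X (x, (st, it))) st).1 ≤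
        sz st.1 + cs.length * (D * (2 * (5 * C + 8) + 1)) ∧
      sz (cs.foldl (fun st it => S.gB X (x, (st, it))) st).2.1 ≤ C ∧
      sz (cs.foldl (fun st it => S.gB X (x, (st, it))) st).2.2 ≤ sz st.2.2 := by
  induction cs generalizing st with
  | nil => exact ⟨by simp, hst, le_refl _⟩
  | cons it cs ih =>
    rw [List.foldl_cons]
    have hit := hc it List.mem_cons_self
    have hA : sz (argBA st it) ≤ C := by
      unfold argBA
      split_ifs with h
      · exact hst
      · cases hw : wt it with
        | nil => simp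
        | cons O l =>
          rw [List.headD_cons]
          exact (hit O (by rw [hw]; exact List.mem_cons_self)).1
    have hF := S.steF_sz X x C (wt it).tail (fun O hO => hit O (List.mem_of_mem_tail hO))
      ([], (argBA st it, argBB st it)) hA
    have hl : (wt it).tail.length ≤ D := by
      rw [List.length_tail]
      exact (Nat.sub_le _ _).trans (hD it List.mem_cons_self)
    have hp : sz (S.gB X (x, (st, it))).2.1 ≤ C := hF.2
    have hq : sz (S.gB X (x, (st, it))).1 ≤ sz st.1 + D * (2 * (5 * C + 8) + 1) := by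
      have h1 : sz (S.gB X (x, (st, it))).1 = sz st.1 +
          sz (S.steF X x (argBA st it) (argBB st it) (wt it).tail).1 := sz_append _ _
      rw [h1]
      refine Nat.add_le_add_left ?_ _
      have h2 : sz (S.steF X x (argBA st it) (argBB st it) (wt it).tail).1 ≤
        sz ([] : List (List Bool × (List Bool × List Bool))) +
          (wt it).tail.length * (2 * (5 * C + 8) + 1) := hF.1
      rw [sz_nil, Nat.zero_add] at h2
      exact h2.trans (Nat.mul_le_mul_right _ hl)
    have he : sz (S.gB X (x, (st, it))).2.2 ≤ sz st.2.2 := sz_tail_leB st.2.2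
    obtain ⟨h3, h4, h5⟩ := ih (fun it' h' => hc it' (List.mem_cons_of_mem _ h'))
      (fun it' h' => hD it' (List.mem_cons_of_mem _ h')) (S.gB X (x, (st, it))) hp
    refine ⟨h3.trans ?_, h4, h5.trans he⟩
    rw [List.length_cons]
    have e : (cs.length + 1) * (D * (2 * (5 * C + 8) + 1)) =
        cs.length * (D * (2 * (5 * C + 8) + 1)) + D * (2 * (5 * C + 8) + 1) := by ring
    rw [e]
    omega

private theorem sz_wtB {it O : List Bool} (h : O ∈ wt it) : sz O ≤ sz it := by
  rw [sz_bits, sz_bits]
  have h1 := (length_wt_le it).1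
  have h2 : O.length ≤ ((wt it).map List.length).sum :=
    List.single_le_sum (fun _ _ => Nat.zero_le _) _ (List.mem_map_of_mem h)
  omega

private theorem length_wtB (it : List Bool) : (wt it).length ≤ sz it := by
  have h1 := (length_wt_le it).2
  rw [sz_bits]
  omega

/-- PLAN. As `runC_ofp`; the list of triples grows by at most the number of objects of the item,
and each triple has bounded size. -/
theorem steC_ofp : OFP fun X (p : List Bool × (List (List Bool) ×
    (List Bool × List (List Bool)))) =>
    S.steC X p.1 p.2.1 p.2.2.1 p.2.2.2 := by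
  obtain ⟨B, hB, hm, hb⟩ := OFP.bound S.cod_ofp
  have key := OFP.foldl_ctx (γ := List Bool) (δ := StaB) (β := List Bool) S.gB_ofp
    (B := fun n => 2 * (n + n * (n * (2 * (5 * (n + B (2 * n + 1 + n)) + 8) + 1))) + 1 +
      (2 * (n + B (2 * n + 1 + n)) + 1 + n)) (by fun_prop) (by
      intro X c l b
      have h3 : sz l ≤ sz (c, (l, b)) := by simp only [sz_pair]; omega
      have h4 : sz c ≤ sz (c, (l, b)) := by simp only [sz_pair]; omega
      have h7 : sz b ≤ sz (c, (l, b)) := by simp only [sz_pair c, sz_pair l]; omega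
      have h8 : sz b = 2 * sz b.1 + 1 + sz b.2 := sz_pair b.1 b.2
      have h9 : sz b.2 = 2 * sz b.2.1 + 1 + sz b.2.2 := sz_pair b.2.1 b.2.2
      have h := S.steC_sz X c (sz (c, (l, b)) +
        B (2 * sz (c, (l, b)) + 1 + sz (c, (l, b)))) (sz (c, (l, b))) l (by
          intro it hit O hO
          have h1 := sz_wtB hO
          have h2 := sz_mem_le hit
          refine ⟨by omega, (hb X (c, O)).trans ((hm ?_).trans (Nat.le_add_left _ _))⟩
          simp only [sz_pair c O]
          omega) (by
          intro it hit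
          have h1 := length_wtB it
          have h2 := sz_mem_le hit
          omega) b (by omega)
      have h10 : l.length ≤ sz (c, (l, b)) := (length_le_sz l).trans h3
      change sz (l.foldl (fun st it => S.gB X (c, (st, it))) b) ≤ _
      generalize l.foldl (fun st it => S.gB X (c, (st, it))) b = r at h ⊢
      generalize sz (c, (l, b)) = n at *
      obtain ⟨r1, r2, r3⟩ := r
      simp only at h
      obtain ⟨g1, g2, g3⟩ := h
      have g4 := Nat.mul_le_mul_right
        (n * (2 * (5 * (n + B (2 * n + 1 + n)) + 8) + 1)) h10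
      rw [sz_pair r1, sz_pair r2]
      have g5 : sz b.1 ≤ n := by omega
      have g6 : sz b.2.2 ≤ n := by omega
      have g7 : sz r1 ≤ n + n * (n * (2 * (5 * (n + B (2 * n + 1 + n)) + 8) + 1)) := by omega
      show 2 * sz r1 + 1 + (2 * sz r2 + 1 + sz r3) ≤
        2 * (n + n * (n * (2 * (5 * (n + B (2 * n + 1 + n)) + 8) + 1))) + 1 +
          (2 * (n + B (2 * n + 1 + n)) + 1 + n)
      omega)
  exact (OFP.on key (f := fun p : List Bool × (List (List Bool) ×
    (List Bool × List (List Bool))) =>
      ((p.1, (p.2.2.2, (([] : List (List Bool × (List Bool × List Bool))),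
        (p.2.2.1, p.2.1)))) : List Bool × (List (List Bool) × StaB))) (FP.pair (by fun_prop)
        (FP.pair (by fun_prop) (FP.pair (FP.const []) (by fun_prop))))).congr fun X p => rfl

end Scheme

end Pool.Agent.APX
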