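import Pool.Agent.APX.Proc

set_option autoImplicit false

/-!
# APX-FpCC: the search for a pair with the same code is polynomial time
-/

namespace Pool.Agent.APX

open Pool.Agent.Helper22 N487b59b3

variable {α : Type} [N487b59b3 α]

/-- triples -/
private abbrev T3 : Type := List Bool × (List Bool × List Bool)

/-- results -/
private abbrev Rs : Type := Bool × (List Bool × List Bool)

/-- one step -/
private def stp (q : T3) (b : Rs) (q' : T3) : Rs :=
  if b.1 then b
  else if !Helper22.weq q.1 q'.1 && Helper22.weq q.2.2 q'.2.2 then (true, (q.2.1, q'.2.1))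
  else b

private theorem stp_cases (q : T3) (b : Rs) (q' : T3) :
    stp q b q' = b ∨ stp q b q' = (true, (q.2.1, q'.2.1)) := by
  unfold stp
  split_ifs
  · exact Or.inl rfl
  · exact Or.inr rfl
  · exact Or.inl rfl

private theorem inn_cases (q : T3) (L : List T3) : ∀ b : Rs, L.foldl (stp q) b = b ∨
    ∃ q' ∈ L, L.foldl (stp q) b = (true, (q.2.1, q'.2.1)) := by
  induction L with
  | nil => exact fun b => Or.inl rfl
  | cons a L ih =>
    intro b
    rw [List.foldl_cons]
    rcases ih (stp q b a) with h | ⟨q', h1, h2⟩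
    · rw [h]
      rcases stp_cases q b a with h3 | h3
      · exact Or.inl h3
      · exact Or.inr ⟨a, List.mem_cons_self .., h3⟩
    · exact Or.inr ⟨q', List.mem_cons_of_mem _ h1, h2⟩

private theorem out_cases (L' : List T3) (L : List T3) : ∀ b : Rs,
    L.foldl (fun b q => L'.foldl (stp q) b) b = b ∨
    ∃ q ∈ L, ∃ q' ∈ L', L.foldl (fun b q => L'.foldl (stp q) b) b = (true, (q.2.1, q'.2.1)) := by
  induction L with
  | nil => exact fun b => Or.inl rfl
  | cons a L ih =>
    intro b
    rw [List.foldl_cons]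
    rcases ih (L'.foldl (stp a) b) with h | ⟨q, h1, q', h2, h3⟩
    · rw [h]
      rcases inn_cases a L' b with h3 | ⟨q', h3, h4⟩
      · exact Or.inl h3
      · exact Or.inr ⟨a, List.mem_cons_self .., q', h3, h4⟩
    · exact Or.inr ⟨q, List.mem_cons_of_mem _ h1, q', h2, h3⟩

private theorem inn_ctx (L : List T3) : ∀ (s : T3 × Rs),
    L.foldl (fun (s : T3 × Rs) (q' : T3) => (s.1, stp s.1 s.2 q')) s = (s.1, L.foldl (stp s.1) s.2) := by
  induction L with
  | nil => exact fun s => rfl
  | cons a L ih =>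
    intro s
    rw [List.foldl_cons, ih, List.foldl_cons]

private theorem out_ctx (L : List T3) : ∀ (s : List T3 × Rs),
    L.foldl (fun (s : List T3 × Rs) (q : T3) => (s.1, s.1.foldl (stp q) s.2)) s =
      (s.1, L.foldl (fun b q => s.1.foldl (stp q) b) s.2) := by
  induction L with
  | nil => exact fun s => rfl
  | cons a L ih =>
    intro s
    rw [List.foldl_cons, ih, List.foldl_cons]

private theorem stp_fp : FP fun p : (T3 × Rs) × T3 => (p.1.1, stp p.1.1 p.1.2 p.2) := by
  refine FP.pair (by fun_prop) ?_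
  unfold stp
  refine FP.ite (by fun_prop) (by fun_prop) (FP.ite ?_ (by fun_prop) (by fun_prop))
  refine FP.and (FP.not (FP.weq (by fun_prop) (by fun_prop))) (FP.weq (by fun_prop) (by fun_prop))

private theorem inn_fp : FP fun p : List T3 × (T3 × Rs) =>
    p.1.foldl (fun (s : T3 × Rs) (q' : T3) => (s.1, stp s.1 s.2 q')) p.2 := by
  refine FP.foldl (g := fun (s : T3 × Rs) (q' : T3) => (s.1, stp s.1 s.2 q')) stp_fp
    (B := fun n => 20 * n + 20) (by fun_prop) ?_
  rintro l ⟨q, b⟩
  rw [inn_ctx]
  rcases inn_cases q l b with h | ⟨q', h1, h2⟩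
  · dsimp only
    rw [h]
    omega
  · have h3 := sz_mem_le h1
    dsimp only
    rw [h2]
    obtain ⟨q1, q2, q3⟩ := q
    obtain ⟨r1, r2, r3⟩ := q'
    obtain ⟨b1, b2, b3⟩ := b
    simp only [sz_pair, sz_bool] at h3 ⊢
    omega

private theorem out_fp : FP fun p : List T3 × (List T3 × Rs) =>
    p.1.foldl (fun (s : List T3 × Rs) (q : T3) => (s.1, s.1.foldl (stp q) s.2)) p.2 := by
  have h0 : FP fun p : (List T3 × Rs) × T3 => p.1.1.foldl (stp p.2) p.1.2 := by
    have h1 := (inn_fp.comp (f := fun p : (List T3 × Rs) × T3 => (p.1.1, (p.2, p.1.2)))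
      (by fun_prop)).snd'
    refine (congrArg FP ?_).mp h1
    funext p
    rw [inn_ctx]
  refine FP.foldl (g := fun (s : List T3 × Rs) (q : T3) => (s.1, s.1.foldl (stp q) s.2))
    (FP.pair (by fun_prop) h0) (B := fun n => 20 * n + 20) (by fun_prop) ?_
  rintro l ⟨L', b⟩
  rw [out_ctx]
  rcases out_cases L' l b with h | ⟨q, h1, q', h2, h3⟩
  · dsimp only
    rw [h]
    omega
  · have h4 := sz_mem_le h1
    have h5 := sz_mem_le h2
    dsimp only
    rw [h3]
    obtain ⟨q1, q2, q3⟩ := q
    obtain ⟨r1, r2, r3⟩ := q'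
    obtain ⟨b1, b2, b3⟩ := b
    simp only [sz_pair, sz_bool] at h4 h5 ⊢
    omega

/-- the pair of different cells with the same code -/
theorem findP_fp {L L' : α → List (List Bool × (List Bool × List Bool))} (hL : FP L)
    (hL' : FP L') : FP fun a => Scheme.findP (L a) (L' a) := by
  have h1 := (out_fp.comp (f := fun a : α => (L a, (L' a, ((false, ([], [])) : Rs))))
    (hL.pair (hL'.pair (FP.const _)))).snd'
  refine (congrArg FP ?_).mp h1
  funext a
  rw [out_ctx]
  rfl

end Pool.Agent.APX
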