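import Pool.Agent.APX.FpBA
import Pool.Agent.APX.FpBB
import Pool.Agent.APX.FpDB
import Pool.Agent.APX.FpCC

set_option autoImplicit false

/-!
# APX-FpEB: the result is polynomial time with oracle
-/

namespace Pool.Agent.APX

open Pool.Agent.Helper22 N487b59b3

namespace Scheme

variable {Q : Problem} (S : Scheme Q)

theorem lpt_ofp : OFP fun X (p : List Bool × (List Bool × (List Bool × List (List Bool)))) =>
    S.lpt X p.1 p.2.1 p.2.2.1 p.2.2.2 := by
  have hx : FP fun p : List Bool × (List Bool × (List Bool × List (List Bool))) => p.1 := FP.fst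
  have hs : FP fun p : List Bool × (List Bool × (List Bool × List (List Bool))) => p.2.1 :=
    FP.fst' FP.snd
  have hz : FP fun p : List Bool × (List Bool × (List Bool × List (List Bool))) => p.2.2.1 :=
    FP.fst' (FP.snd' FP.snd)
  have hT : FP fun p : List Bool × (List Bool × (List Bool × List (List Bool))) => p.2.2.2 :=
    FP.snd' (FP.snd' FP.snd)
  have h := (S.vaC_ofp).on (hx.pair ((S.lo_fp hx hs).pair ((sP_fp hs).pair
    ((reverse_fp (sE_fp hs)).pair (hz.pair (S.chn_fp hx hs hT))))))
  exact h.congr fun X p => by simp only [lpt, un_length]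

private theorem FpEB_flags : FP fun s : List Bool => (sE s).map flg := by
  refine FP.map (f := flg) ?_ (sE_fp FP.id)
  exact FP.headD FP.id false

private theorem FpEB_fl : OFP fun X (p : List Bool × (List Bool × (List Bool × List (List Bool)))) =>
    S.fl X p.1 p.2.1 p.2.2.1 p.2.2.2 := by
  have hs : FP fun p : List Bool × (List Bool × (List Bool × List (List Bool))) => p.2.1 :=
    FP.fst' FP.snd
  have h := OFP.cons (OFP.of_fp (FP.const true))
    (OFP.map2 (f := fun q : List Bool × List Bool => cpf q.1 q.2) (cpf_fp FP.fst FP.snd) S.lpt_ofp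
      (OFP.of_fp (FpEB_flags.comp hs)))
  exact h.congr fun X p => by simp only [fl]

theorem vt_ofp : OFP fun X (p : List Bool × (List Bool × (List Bool × List (List Bool)))) =>
    S.vt X p.1 p.2.1 p.2.2.1 p.2.2.2 := by
  have hx : FP fun p : List Bool × (List Bool × (List Bool × List (List Bool))) => p.1 := FP.fst
  have hs : FP fun p : List Bool × (List Bool × (List Bool × List (List Bool))) => p.2.1 :=
    FP.fst' FP.snd
  have hz : FP fun p : List Bool × (List Bool × (List Bool × List (List Bool))) => p.2.2.1 :=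
    FP.fst' (FP.snd' FP.snd)
  have hT : FP fun p : List Bool × (List Bool × (List Bool × List (List Bool))) => p.2.2.2 :=
    FP.snd' (FP.snd' FP.snd)
  have hD : OFP fun X (p : List Bool × (List Bool × (List Bool × List (List Bool)))) =>
      (S.n p.1).drop (S.fl X p.1 p.2.1 p.2.2.1 p.2.2.2).length :=
    OFP.map2 (f := fun q : List Bool × List Bool => q.1.drop q.2.length)
      (FP.drop FP.fst FP.snd) (OFP.of_fp (S.n_fp hx)) (FpEB_fl S)
  have hE := OFP.map2 (f := fun q : List (List Bool) × List Bool => q.1.take q.2.length)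
      (FP.take FP.fst FP.snd) (OFP.of_fp (reverse_fp (sE_fp hs))) hD
  have hC := OFP.map2 (f := fun q : List (List Bool) × List Bool => q.1.take q.2.length)
      (FP.take FP.fst FP.snd) (OFP.of_fp (S.chn_fp hx hs hT)) hD
  have hC' := OFP.map2 (f := fun q : List (List Bool) × List Bool => q.1.drop q.2.length)
      (FP.drop FP.fst FP.snd) (OFP.of_fp (S.chn_fp hx hs hT)) hD
  have hva := OFP.comp S.vaC_ofp ((OFP.of_fp hx).pair ((OFP.of_fp (S.lo_fp hx hs)).pair
    ((OFP.of_fp (sP_fp hs)).pair (hE.pair ((OFP.of_fp hz).pair hC)))))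
  have h := OFP.map3 (f := fun q : List Bool × (List Bool × List (List Bool)) =>
    mkY true q.1 q.2.1 q.2.2) (mkY_fp (FP.const true) FP.fst (FP.fst' FP.snd) (FP.snd' FP.snd))
    (FpEB_fl S) hva hC'
  exact h.congr fun X p => by simp only [vt, un_length, List.length_drop]

theorem obj_ofp : OFP fun X (p : List Bool × (List Bool × (List (List Bool) ×
    List (List Bool)))) => S.obj X p.1 p.2.1 p.2.2.1 p.2.2.2 := by
  have hx : FP fun p : List Bool × (List Bool × (List (List Bool) × List (List Bool))) => p.1 :=
    FP.fst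
  have hs : FP fun p : List Bool × (List Bool × (List (List Bool) × List (List Bool))) => p.2.1 :=
    FP.fst' FP.snd
  have hT : FP fun p : List Bool × (List Bool × (List (List Bool) × List (List Bool))) => p.2.2.1 :=
    FP.fst' (FP.snd' FP.snd)
  have hT' : FP fun p : List Bool × (List Bool × (List (List Bool) × List (List Bool))) =>
    p.2.2.2 := FP.snd' (FP.snd' FP.snd)
  have h1 := OFP.fst' ((S.steC_ofp).on (hx.pair ((reverse_fp (sE_fp hs)).pair
    ((S.pt_fp hx false).pair (S.chn_fp hx hs hT)))))
  have h2 := OFP.fst' ((S.steC_ofp).on (hx.pair ((reverse_fp (sE_fp hs)).pair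
    ((S.pt_fp hx true).pair (S.chn_fp hx hs hT')))))
  have h3 := OFP.map2 (f := fun q : List (List Bool × (List Bool × List Bool)) ×
    List (List Bool × (List Bool × List Bool)) => (Scheme.findP q.1 q.2).2)
    (FP.snd' (findP_fp FP.fst FP.snd)) h1 h2
  have h4 := OFP.comp (OFP.proc S.comb) ((OFP.of_fp hx).pair ((OFP.of_fp (sP_fp hs)).pair h3))
  exact h4.congr fun X p => by simp only [obj]

private theorem FpEB_res : OFP fun X (p : List Bool × (List Bool × (List (List Bool) ×
    List (List Bool)))) => S.res X p.1 p.2.1 p.2.2.1 p.2.2.2 := by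
  have hx : FP fun p : List Bool × (List Bool × (List (List Bool) × List (List Bool))) => p.1 :=
    FP.fst
  have hs : FP fun p : List Bool × (List Bool × (List (List Bool) × List (List Bool))) => p.2.1 :=
    FP.fst' FP.snd
  have hT : FP fun p : List Bool × (List Bool × (List (List Bool) × List (List Bool))) => p.2.2.1 :=
    FP.fst' (FP.snd' FP.snd)
  have hT' : FP fun p : List Bool × (List Bool × (List (List Bool) × List (List Bool))) =>
    p.2.2.2 := FP.snd' (FP.snd' FP.snd)
  have c1 := OFP.of_fp (FP.length_le (S.K_fp hx) (sJ_fp hs))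
  have c2 := OFP.of_fp (S.bad_fp hx hs hT)
  have c3 := OFP.of_fp (S.bad_fp hx hs hT')
  have l1 := (S.lpt_ofp).on (hx.pair (hs.pair ((S.pt_fp hx false).pair hT)))
  have l2 := (S.lpt_ofp).on (hx.pair (hs.pair ((S.pt_fp hx true).pair hT')))
  have f1 := OFP.of_fp (FpEB_flags.comp hs)
  have c4 := OFP.not (OFP.weq l1 f1)
  have c5 := OFP.not (OFP.weq l2 f1)
  have r1 := OFP.map (f := fun o : List Bool => mkY false [] o [])
    (mkY_fp (FP.const false) (FP.const []) FP.id (FP.const []))
    ((OFP.proc S.start).on (hx.pair (sP_fp hs)))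
  have r2 := OFP.of_fp (getL_fp hT (Yb_fp hs))
  have r3 := OFP.of_fp (getL_fp hT' (Yb_fp hs))
  have r4 := (S.vt_ofp).on (hx.pair (hs.pair ((S.pt_fp hx false).pair hT)))
  have r5 := (S.vt_ofp).on (hx.pair (hs.pair ((S.pt_fp hx true).pair hT')))
  have r6 := OFP.map (f := fun o : List Bool => mkY false [] o [])
    (mkY_fp (FP.const false) (FP.const []) FP.id (FP.const [])) S.obj_ofp
  have h := OFP.ite c1 r1 (OFP.ite c2 r2 (OFP.ite c3 r3 (OFP.ite c4 r4 (OFP.ite c5 r5 r6))))
  exact h.congr fun X p => by simp only [res]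

theorem finS_ofp : OFP S.finS := by
  have hx : FP fun p : List Bool × (List Bool × List (List Bool)) => p.1 := FP.fst
  have hs : FP fun p : List Bool × (List Bool × List (List Bool)) => p.2.1 := FP.fst' FP.snd
  have hT : FP fun p : List Bool × (List Bool × List (List Bool)) => p.2.2 := FP.snd' FP.snd
  have h := (FpEB_res S).on (hx.pair (hs.pair ((FP.take hT (S.M1_fp hx hs)).pair
    (FP.drop hT (S.M1_fp hx hs)))))
  exact h.congr fun X p => by simp only [finS]

theorem solS_ofp : OFP S.solS := by
  have hx : FP fun p : List Bool × (List Bool × List (List Bool)) => p.1 := FP.fst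
  have h := OFP.comp (OFP.proc S.sol) ((OFP.of_fp hx).pair (OFP.map (f := yo) (yo_fp FP.id)
    S.finS_ofp))
  exact h.congr fun X p => by simp only [solS]

end Scheme

end Pool.Agent.APX
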