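import Pool.Agent.APX.Cert

set_option autoImplicit false

/-!
# APX-FindP: the pair of different cells with the same code
-/

namespace Pool.Agent.APX

open Pool.Agent.Helper22 N487b59b3

namespace Scheme

variable {Q : Problem} (S : Scheme Q)

omit S in
private theorem fp_in (q : List Bool × (List Bool × List Bool)) (L' : List (List Bool × (List Bool × List Bool)))
    (b : Bool × (List Bool × List Bool)) :
    (b.1 = true ∧ L'.foldl (fun b q' => if b.1 then b
      else if !Helper22.weq q.1 q'.1 && Helper22.weq q.2.2 q'.2.2 then (true, (q.2.1, q'.2.1)) else b) b = b) ∨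
    (b.1 = false ∧ (L'.foldl (fun b q' => if b.1 then b
      else if !Helper22.weq q.1 q'.1 && Helper22.weq q.2.2 q'.2.2 then (true, (q.2.1, q'.2.1)) else b) b).1 = true ∧
      ∃ q' ∈ L', q.1 ≠ q'.1 ∧ q.2.2 = q'.2.2 ∧ (L'.foldl (fun b q' => if b.1 then b
      else if !Helper22.weq q.1 q'.1 && Helper22.weq q.2.2 q'.2.2 then (true, (q.2.1, q'.2.1)) else b) b).2 =
        (q.2.1, q'.2.1)) ∨
    (b.1 = false ∧ L'.foldl (fun b q' => if b.1 then b
      else if !Helper22.weq q.1 q'.1 && Helper22.weq q.2.2 q'.2.2 then (true, (q.2.1, q'.2.1)) else b) b = b ∧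
      ∀ q' ∈ L', ¬ (q.1 ≠ q'.1 ∧ q.2.2 = q'.2.2)) := by
  induction L' generalizing b with
  | nil =>
    rcases hb : b.1 with _ | _
    · exact Or.inr (Or.inr ⟨rfl, rfl, fun q' hq' => absurd hq' (by simp)⟩)
    · exact Or.inl ⟨rfl, rfl⟩
  | cons c L' ih =>
    rw [List.foldl_cons]
    rcases hb : b.1 with _ | _
    · by_cases hc : q.1 ≠ c.1 ∧ q.2.2 = c.2.2
      · have h1 : (!Helper22.weq q.1 c.1 && Helper22.weq q.2.2 c.2.2) = true := by
          rw [Bool.and_eq_true, Bool.not_eq_true', ← Bool.not_eq_true, Helper22.weq_iff, Helper22.weq_iff]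
          exact hc
        rw [if_neg (by simp), if_pos h1]
        rcases ih (true, (q.2.1, c.2.1)) with ⟨h2, h3⟩ | ⟨h2, -⟩ | ⟨h2, -⟩
        · refine Or.inr (Or.inl ⟨rfl, ?_, c, List.mem_cons_self, hc.1, hc.2, ?_⟩)
          · rw [h3]
          · rw [h3]
        · exact absurd h2 (by simp)
        · exact absurd h2 (by simp)
      · have h1 : ¬ (!Helper22.weq q.1 c.1 && Helper22.weq q.2.2 c.2.2) = true := by
          rw [Bool.and_eq_true, Bool.not_eq_true', ← Bool.not_eq_true, Helper22.weq_iff, Helper22.weq_iff]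
          exact hc
        rw [if_neg (by simp), if_neg h1]
        rcases ih b with ⟨h2, -⟩ | ⟨-, h2, q', h3, h4⟩ | ⟨-, h2, h3⟩
        · rw [hb] at h2
          exact absurd h2 (by simp)
        · exact Or.inr (Or.inl ⟨rfl, h2, q', List.mem_cons_of_mem _ h3, h4⟩)
        · refine Or.inr (Or.inr ⟨rfl, h2, fun q' hq' => ?_⟩)
          rcases List.mem_cons.1 hq' with rfl | hq'
          · exact hc
          · exact h3 q' hq'
    · rw [if_pos rfl]
      rcases ih b with ⟨-, h2⟩ | ⟨h2, -⟩ | ⟨h2, -⟩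
      · exact Or.inl ⟨rfl, h2⟩
      · rw [hb] at h2
        exact absurd h2 (by simp)
      · rw [hb] at h2
        exact absurd h2 (by simp)

omit S in
private theorem fp_out (L' L : List (List Bool × (List Bool × List Bool))) (b : Bool × (List Bool × List Bool)) :
    (b.1 = true → L.foldl (fun b q => L'.foldl (fun b q' => if b.1 then b
      else if !Helper22.weq q.1 q'.1 && Helper22.weq q.2.2 q'.2.2 then (true, (q.2.1, q'.2.1)) else b) b) b = b) ∧
    (b.1 = false → (∃ q ∈ L, ∃ q' ∈ L', q.1 ≠ q'.1 ∧ q.2.2 = q'.2.2) →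
      ∃ q ∈ L, ∃ q' ∈ L', q.1 ≠ q'.1 ∧ q.2.2 = q'.2.2 ∧
        (L.foldl (fun b q => L'.foldl (fun b q' => if b.1 then b
      else if !Helper22.weq q.1 q'.1 && Helper22.weq q.2.2 q'.2.2 then (true, (q.2.1, q'.2.1)) else b) b) b).2 =
        (q.2.1, q'.2.1)) := by
  induction L generalizing b with
  | nil =>
    refine ⟨fun _ => rfl, fun _ h => ?_⟩
    obtain ⟨q, hq, -⟩ := h
    simp at hq
  | cons c L ih =>
    rw [List.foldl_cons]
    rcases fp_in c L' b with ⟨h1, h2⟩ | ⟨h1, h2, q', h3, h4, h5, h6⟩ | ⟨h1, h2, h3⟩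
    · rw [h2]
      refine ⟨(ih b).1, fun h3 => ?_⟩
      rw [h1] at h3
      exact absurd h3 (by simp)
    · refine ⟨fun h7 => ?_, fun _ _ => ?_⟩
      · rw [h1] at h7
        exact absurd h7 (by simp)
      · refine ⟨c, List.mem_cons_self, q', h3, h4, h5, ?_⟩
        rw [(ih _).1 h2]
        exact h6
    · rw [h2]
      refine ⟨(ih b).1, fun h4 h5 => ?_⟩
      obtain ⟨q, hq, q', hq', h6, h7⟩ := h5
      rcases List.mem_cons.1 hq with rfl | hq
      · exact absurd ⟨h6, h7⟩ (h3 q' hq')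
      · obtain ⟨r, hr, h8⟩ := (ih b).2 h4 ⟨q, hq, q', hq', h6, h7⟩
        exact ⟨r, List.mem_cons_of_mem _ hr, h8⟩

theorem findP_ok {L L' : List (List Bool × (List Bool × List Bool))}
    (h : ∃ q ∈ L, ∃ q' ∈ L', q.1 ≠ q'.1 ∧ q.2.2 = q'.2.2) :
    ∃ q ∈ L, ∃ q' ∈ L', q.1 ≠ q'.1 ∧ q.2.2 = q'.2.2 ∧ (findP L L').2 = (q.2.1, q'.2.1) := by
  exact (fp_out L' L (false, ([], []))).2 rfl h

end Scheme

end Pool.Agent.APX
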