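import Pool.Agent.APX.Chn
import Pool.Agent.APX.CollCB
import Pool.Agent.APX.FindP

set_option autoImplicit false

/-!
# APX-ObjOk: an object from two chains
-/

namespace Pool.Agent.APX

open Pool.Agent.Helper22 N487b59b3

namespace Scheme

variable {Q : Problem} (S : Scheme Q)

/-- PLAN. `collC`, `findP_ok`, `steC_ok`, `ok_comb` (level `lo < K`, `lo + 1 = K - j`). -/
theorem obj_ok {X : Oracle} {x s : List Bool} {T T' : List (List Bool)}
    (h : S.wfS (x, s) = true) (hj : (sJ s).length < S.k x)
    (hT : S.GoodC X x s (S.pt x false) T) (hl : T.length = (S.M1 x s).length)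
    (hb : S.bad x s T = false) (hm : S.lpt X x s (S.pt x false) T = (sE s).map flg)
    (hT' : S.GoodC X x s (S.pt x true) T') (hl' : T'.length = (S.M1 x s).length)
    (hb' : S.bad x s T' = false) (hm' : S.lpt X x s (S.pt x true) T' = (sE s).map flg) :
    S.okU X x (S.k x - (sJ s).length) (sP s) (S.obj X x s T T') = true := by
  obtain ⟨hc, -, -, -⟩ := S.chn_ok h hj (S.length_pt x false) hT hl hb
  obtain ⟨hc', -, -, -⟩ := S.chn_ok h hj (S.length_pt x true) hT' hl' hb'
  have he : ∀ e ∈ (sE s).reverse, e.length = (S.n x).length + 1 := by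
    intro e hmem
    obtain ⟨j, P, es, rfl, -, -, -, h5⟩ := (S.wfS_iff x s).1 h
    rw [sE_mkS, List.mem_reverse] at hmem
    exact h5 e hmem
  have hne : S.pt x false ≠ S.pt x true := by
    intro hEq
    exact absurd (List.head_eq_of_cons_eq hEq) (by decide)
  have hv : S.vaC X x (S.lo x s) (sP s) (sE s).reverse (S.pt x false) (S.chn x s T) =
      S.vaC X x (S.lo x s) (sP s) (sE s).reverse (S.pt x true) (S.chn x s T') :=
    hm.trans hm'.symm
  have hcoll := S.collC hc hc' (S.length_pt x false) (S.length_pt x true) he hne hv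
  obtain ⟨q, hq, q', hq', h1, h2, h3⟩ := findP_ok hcoll
  obtain ⟨a1, a2, a3⟩ := S.steC_ok hc (S.length_pt x false) q hq
  obtain ⟨b1, b2, b3⟩ := S.steC_ok hc' (S.length_pt x true) q' hq'
  have hlo : S.lo x s < (S.K x).length := by
    have : S.lo x s = (S.K x).length - (sJ s).length - 1 := rfl
    have hj2 : (sJ s).length < (S.K x).length := hj
    omega
  have hlo' : S.lo x s + 1 = S.k x - (sJ s).length := by
    have : S.lo x s = (S.K x).length - (sJ s).length - 1 := rfl
    have hj2 : (sJ s).length < (S.K x).length := hj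
    have hk : S.k x = (S.K x).length := rfl
    omega
  have hcod : S.code.run X (x, q.2.1) = S.code.run X (x, q'.2.1) := by
    have : S.cod X x q.2.1 = S.cod X x q'.2.1 := by rw [← a3, ← b3, h2]
    exact this
  have key := S.ok_comb X x (sP s) q.1 q'.1 q.2.1 q'.2.1 (S.lo x s) hlo a1 b1 h1 a2 b2 hcod
  rw [hlo'] at key
  have hobj : S.obj X x s T T' = S.comb.run X (x, (sP s, (q.2.1, q'.2.1))) := by
    simp only [obj]
    rw [h3]
  rw [hobj]
  exact key

end Scheme

end Pool.Agent.APX
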