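import Pool.Agent.APX.Chn

set_option autoImplicit false

/-!
# APX-VtOk: a violation from a chain
-/

namespace Pool.Agent.APX

open Pool.Agent.Helper22 N487b59b3

namespace Scheme

variable {Q : Problem} (S : Scheme Q)

private theorem cpf_spec : ∀ (u v : List Bool), u.length = v.length → u ≠ v →
    (cpf u v).length < u.length ∧ u.take (cpf u v).length = v.take (cpf u v).length ∧
      u.getD (cpf u v).length true = !(v.getD (cpf u v).length false) := by
  intro u
  induction u with
  | nil =>
    intro v hl hne
    exact absurd (List.eq_nil_of_length_eq_zero hl.symm).symm hne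
  | cons a u ih =>
    intro v hl hne
    cases v with
    | nil => simp at hl
    | cons b v =>
      by_cases hab : a = b
      · subst hab
        have h1 : u ≠ v := fun h => hne (by rw [h])
        obtain ⟨h2, h3, h4⟩ := ih v (by simpa using hl) h1
        have h5 : cpf (a :: u) (a :: v) = true :: cpf u v := by simp [cpf]
        rw [h5]
        refine ⟨by simpa using h2, ?_, ?_⟩
        · simp only [List.length_cons, List.take_succ_cons, h3]
        · simpa using h4
      · have h5 : cpf (a :: u) (b :: v) = [] := by simp [cpf, hab]
        rw [h5]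
        refine ⟨by simp, by simp, ?_⟩
        cases a <;> cases b <;> simp_all

private theorem cpf_ge : ∀ (l : ℕ) (u v : List Bool), l ≤ u.length → l ≤ v.length → u.take l = v.take l →
    l ≤ (cpf u v).length := by
  intro l
  induction l with
  | zero => intro u v _ _ _; exact Nat.zero_le _
  | succ l ih =>
    intro u v hu hv h
    cases u with
    | nil => simp at hu
    | cons a u =>
      cases v with
      | nil => simp at hv
      | cons b v =>
        simp only [List.take_succ_cons, List.cons.injEq] at h
        obtain ⟨rfl, h1⟩ := h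
        have h5 : cpf (a :: u) (a :: v) = true :: cpf u v := by simp [cpf]
        rw [h5, List.length_cons]
        exact Nat.succ_le_succ (ih u v (by simpa using hu) (by simpa using hv) h1)

/-- The violation at the first level where the last point of the chain differs from the flags. -/
theorem vt_ok {X : Oracle} {x s z : List Bool} {T : List (List Bool)}
    (h : S.wfS (x, s) = true) (hj : (sJ s).length < S.k x) (hz : z.length = S.N x)
    (hT : S.GoodC X x s z T) (hl : T.length = (S.M1 x s).length) (hb : S.bad x s T = false)
    (hm : S.lpt X x s z T ≠ (sE s).map flg) : S.vio X (x, (s, S.vt X x s z T)) = true := by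
  obtain ⟨hok, htk, hlen, hit⟩ := S.chn_ok h hj hz hT hl hb
  obtain ⟨hE1, hE2, hE3, -, -⟩ := S.topE_spec h
  obtain ⟨j, P, es, hs, -, -, hes, hes'⟩ := (S.wfS_iff x s).1 h
  have hsE : (sE s).length = S.N x := by rw [hs, sE_mkS, hes]
  have hfl : ((sE s).map flg).length = S.N x := by rw [List.length_map, hsE]
  obtain ⟨c1, c2, c3⟩ := cpf_spec (S.lpt X x s z T) ((sE s).map flg) (by rw [hlen, hfl]) hm
  have hlv : (S.lv1 x s).length ≤ S.N x := by rw [S.length_lv1]; omega
  have hge := cpf_ge (S.lv1 x s).length _ _ (by rw [hlen]; exact hlv) (by rw [hfl]; exact hlv) htk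
  set m := (cpf (S.lpt X x s z T) ((sE s).map flg)).length with hmdef
  rw [hlen] at c1
  have hfll : (S.fl X x s z T).length = m + 1 := by simp [fl, hmdef]
  have hflt : (S.fl X x s z T).tail.length = m := by simp [fl, hmdef]
  -- the flag at level `m + 1`
  have hfm : flg ((sE s).getD m []) = true := by
    have h1 : sE s = (sE s).take (S.lv1 x s).length ++ (topE s).reverse := by
      have h2 := congrArg List.reverse hE3
      rw [List.reverse_reverse, List.reverse_append, List.reverse_reverse] at h2
      exact h2
    have h3 : ((sE s).take (S.lv1 x s).length).length = (S.lv1 x s).length := by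
      rw [List.length_take, hsE]
      omega
    have h4 : m < (sE s).length := by rw [hsE]; exact c1
    rw [List.getD_eq_getElem _ _ h4]
    have h5 : (sE s)[m] ∈ topE s := by
      have h6 : (sE s)[m] = ((sE s).take (S.lv1 x s).length ++ (topE s).reverse)[m]'(by rw [← h1]; exact h4) := by
        congr 1
      rw [h6, List.getElem_append_right (by rw [h3]; exact hge)]
      exact List.mem_reverse.1 (List.getElem_mem _)
    exact (hE2 _ h5).1
  have hdig : (S.lpt X x s z T).getD m true = false := by
    rw [c3]
    have h7 : ((sE s).map flg).getD m false = true := by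
      have h8 : m < ((sE s).map flg).length := by rw [hfl]; exact c1
      have h9 : m < (sE s).length := by rw [hsE]; exact c1
      rw [List.getD_eq_getElem _ _ h8, List.getElem_map]
      rwa [List.getD_eq_getElem _ _ h9] at hfm
    rw [h7]
    rfl
  -- the two parts of the chain
  have hcl : (S.chn x s T).length = S.N x := by
    rw [(S.okC_length hok).1, List.length_reverse, hsE]
  have hd1 : (sE s).reverse.take (S.N x - (m + 1)) ++ ((sE s).take (m + 1)).reverse = (sE s).reverse := by
    have h10 : ((sE s).take (m + 1)).reverse = (sE s).reverse.drop (S.N x - (m + 1)) := by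
      rw [List.drop_reverse, hsE]
      congr 2
      omega
    rw [h10, List.take_append_drop]
  have hd2 : (S.chn x s T).take (S.N x - (m + 1)) ++ (S.chn x s T).drop (S.N x - (m + 1)) = S.chn x s T :=
    List.take_append_drop _ _
  have hap := S.okC_append X x (S.lo x s) (sP s) z ((sE s).reverse.take (S.N x - (m + 1)))
    ((sE s).take (m + 1)).reverse ((S.chn x s T).take (S.N x - (m + 1)))
    ((S.chn x s T).drop (S.N x - (m + 1)))
    (by rw [List.length_take, List.length_take, List.length_reverse, hsE, hcl])
  rw [hd1, hd2] at hap
  obtain ⟨hap1, hap2⟩ := hap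
  obtain ⟨hok1, hok2⟩ := hap1.1 hok
  have hva : (S.vaC X x (S.lo x s) (sP s) ((sE s).reverse.take (S.N x - (m + 1))) z
      ((S.chn x s T).take (S.N x - (m + 1)))).length = S.N x := (S.okC_length hok1).2 hz
  have hlpt : S.vaC X x (S.lo x s) (sP s) ((sE s).take (m + 1)).reverse
      (S.vaC X x (S.lo x s) (sP s) ((sE s).reverse.take (S.N x - (m + 1))) z
        ((S.chn x s T).take (S.N x - (m + 1)))) ((S.chn x s T).drop (S.N x - (m + 1))) =
      S.lpt X x s z T := hap2.symm
  -- the length of the violation
  have htwl : (tw ((S.chn x s T).drop (S.N x - (m + 1)))).length ≤ S.N x * (2 * S.itb x + 1) := by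
    refine length_tw_le _ _ _ ?_ fun w hw => hit w (List.mem_of_mem_drop hw)
    rw [List.length_drop, hcl]
    omega
  have hvt : S.vt X x s z T = mkY true (S.fl X x s z T)
      (S.vaC X x (S.lo x s) (sP s) ((sE s).reverse.take (S.N x - (m + 1))) z
        ((S.chn x s T).take (S.N x - (m + 1)))) ((S.chn x s T).drop (S.N x - (m + 1))) := by
    unfold vt
    rw [hfll]
  rw [hvt]
  unfold vio
  simp only [yk_mkY, yl_mkY, yo_mkY, yc_mkY, if_true]
  rw [hfll, hflt]
  have e1 : S.k x - (sJ s).length - 1 = S.lo x s := rfl
  rw [e1, hlpt]
  have e2 : low (sE s) (S.fl X x s z T) (S.lpt X x s z T) = true := by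
    unfold low
    rw [hflt, Bool.and_eq_true]
    refine ⟨(Helper22.weq_iff _ _).2 c2, ?_⟩
    rw [hdig]
    rfl
  have e3 : (mkY true (S.fl X x s z T)
      (S.vaC X x (S.lo x s) (sP s) ((sE s).reverse.take (S.N x - (m + 1))) z
        ((S.chn x s T).take (S.N x - (m + 1)))) ((S.chn x s T).drop (S.N x - (m + 1)))).length ≤ S.lvb x := by
    unfold mkY
    rw [cd_length, cd_length, cd_length, hfll, hva]
    unfold lvb
    simp only [List.length_singleton]
    omega
  have e4 : (S.fl X x s z T).isEmpty = false := by simp [fl]
  rw [e2, hok2, hfm, e4]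
  simp only [Bool.and_eq_true, decide_eq_true_eq]
  exact ⟨e3, hj, rfl, c1, trivial, hva, trivial, trivial⟩

end Scheme

end Pool.Agent.APX
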