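import Pool.Agent.APX.StratA
import Pool.Agent.APX.VtOk
import Pool.Agent.APX.ObjOk

set_option autoImplicit false

/-!
# APX-StratB: the result is correct
-/

namespace Pool.Agent.APX

open Pool.Agent.Helper22 N487b59b3

namespace Scheme

variable {Q : Problem} (S : Scheme Q)

private theorem stb_obj {X : Oracle} {x s O : List Bool} (hj : sJ s ≠ [])
    (hO : S.okU X x (S.k x - (sJ s).length) (sP s) O = true) :
    S.vio X (x, (s, mkY false [] O [])) = true := by
  have hl : O.length ≤ S.L x := S.ok_length X x (sP s) O _ hO
  have h1 : (mkY false [] O []).length ≤ S.lvb x := by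
    rw [mkY, cd_length, cd_length, cd_length, tw_nil]
    simp only [lvb, List.length_nil, List.length_singleton]
    have h2 := Nat.zero_le (S.N x * (2 * S.itb x + 1))
    have h3 := Nat.zero_le (4 * S.N x)
    omega
  have h2 : (sJ s).isEmpty = false := by
    cases hs : sJ s with
    | nil => exact absurd hs hj
    | cons a l => rfl
  simp only [vio, yk_mkY, yo_mkY, h1, h2, hO, decide_true, Bool.not_false, Bool.and_self,
    Bool.false_eq_true, if_false]

private theorem stb_case {X : Oracle} {x s O : List Bool} {T : List (List Bool)}
    (h : S.wfS (x, s) = true)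
    (hO : S.okU X x (S.k x - (sJ s).length) (sP s) O = true)
    (hf : S.finS X (x, (s, T)) = mkY false [] O []) :
    S.vio X (x, (s, S.finS X (x, (s, T)))) = true ∨ Q X x (S.solS X (x, (s, T))) := by
  by_cases hj : sJ s = []
  · right
    obtain ⟨j, P, es, rfl, h1, h2, h3, h4⟩ := (S.wfS_iff x s).1 h
    rw [sJ_mkS] at hj hO
    rw [sP_mkS] at hO
    have hj0 : j = 0 := by
      have := congrArg List.length hj
      rwa [un_length, List.length_nil] at this
    subst hj0
    rw [Nat.zero_mul] at h2
    have hP : P = [] := List.length_eq_zero_iff.1 h2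
    subst hP
    rw [solS, hf, yo_mkY]
    refine S.ok_sol X x O ?_
    rw [un_length, Nat.sub_zero] at hO
    exact hO
  · left
    rw [hf]
    exact S.stb_obj hj hO

/-- The result of the strategy is a violation of the state or gives a solution. -/
theorem fin_ok (X : Oracle) (x s : List Bool) (T : List (List Bool))
    (h : S.wfS (x, s) = true)
    (hT : ∀ j < T.length, S.dnS (x, (s, T.take j)) = false ∧
      S.vio X (x, (S.askS X (x, (s, T.take j)), T.getD j [])) = true)
    (hd : S.dnS (x, (s, T)) = true) :
    S.vio X (x, (s, S.finS X (x, (s, T)))) = true ∨ Q X x (S.solS X (x, (s, T))) := by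
  by_cases hk : S.k x ≤ (sJ s).length
  · have hf : S.finS X (x, (s, T)) = mkY false [] (S.start.run X (x, sP s)) [] := by
      rw [finS, res, decide_eq_true hk, if_pos rfl]
    refine S.stb_case h ?_ hf
    obtain ⟨j, P, es, rfl, h1, h2, h3, h4⟩ := (S.wfS_iff x s).1 h
    rw [sJ_mkS, un_length] at hk
    have hj : j = S.k x := le_antisymm h1 hk
    rw [sJ_mkS, sP_mkS, un_length, hj, Nat.sub_self]
    refine S.ok_start X x P ?_
    rw [h2, hj]
  · have hj : (sJ s).length < S.k x := not_le.1 hk
    obtain ⟨g1, g2, -, g4⟩ := S.good_split hT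
    have g5 : (S.M1 x s).length + (S.M1 x s).length ≤ T.length := by
      have := hd
      rw [dnS, Bool.or_eq_true, decide_eq_true_eq, decide_eq_true_eq, List.length_append] at this
      exact this.resolve_left hk
    have l1 : (T.take (S.M1 x s).length).length = (S.M1 x s).length := by
      rw [List.length_take]
      omega
    have l2 : (T.drop (S.M1 x s).length).length = (S.M1 x s).length := by
      rw [List.length_drop]
      omega
    have p1 := S.length_pt x false
    have p2 := S.length_pt x true
    by_cases b1 : S.bad x s (T.take (S.M1 x s).length) = true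
    · left
      rw [finS, res, decide_eq_false hk, if_neg Bool.false_ne_true, if_pos b1]
      exact S.bad_vio h hj p1 g1 l1 b1
    by_cases b2 : S.bad x s (T.drop (S.M1 x s).length) = true
    · left
      rw [finS, res, decide_eq_false hk, if_neg Bool.false_ne_true, if_neg b1, if_pos b2]
      exact S.bad_vio h hj p2 g2 l2 b2
    have b1' : S.bad x s (T.take (S.M1 x s).length) = false := Bool.eq_false_iff.2 b1
    have b2' : S.bad x s (T.drop (S.M1 x s).length) = false := Bool.eq_false_iff.2 b2
    by_cases m1 : S.lpt X x s (S.pt x false) (T.take (S.M1 x s).length) = (sE s).map flg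
    swap
    · left
      have hw : (!(Helper22.weq (S.lpt X x s (S.pt x false) (T.take (S.M1 x s).length))
          ((sE s).map flg))) = true := by
        rw [Bool.not_eq_true', Bool.eq_false_iff]
        exact fun hh => m1 ((weq_iff _ _).1 hh)
      rw [finS, res, decide_eq_false hk, if_neg Bool.false_ne_true, if_neg b1, if_neg b2, if_pos hw]
      exact S.vt_ok h hj p1 g1 l1 b1' m1
    have w1 : ¬ (!(Helper22.weq (S.lpt X x s (S.pt x false) (T.take (S.M1 x s).length))
        ((sE s).map flg))) = true := by
      rw [(weq_iff _ _).2 m1]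
      exact Bool.false_ne_true
    by_cases m2 : S.lpt X x s (S.pt x true) (T.drop (S.M1 x s).length) = (sE s).map flg
    swap
    · left
      have hw : (!(Helper22.weq (S.lpt X x s (S.pt x true) (T.drop (S.M1 x s).length))
          ((sE s).map flg))) = true := by
        rw [Bool.not_eq_true', Bool.eq_false_iff]
        exact fun hh => m2 ((weq_iff _ _).1 hh)
      rw [finS, res, decide_eq_false hk, if_neg Bool.false_ne_true, if_neg b1, if_neg b2, if_neg w1,
        if_pos hw]
      exact S.vt_ok h hj p2 g2 l2 b2' m2
    have w2 : ¬ (!(Helper22.weq (S.lpt X x s (S.pt x true) (T.drop (S.M1 x s).length))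
        ((sE s).map flg))) = true := by
      rw [(weq_iff _ _).2 m2]
      exact Bool.false_ne_true
    refine S.stb_case h (S.obj_ok h hj g1 l1 b1' m1 g2 l2 b2' m2) ?_
    rw [finS, res, decide_eq_false hk, if_neg Bool.false_ne_true, if_neg b1, if_neg b2, if_neg w1,
      if_neg w2]

end Scheme

end Pool.Agent.APX
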