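import Pool.Agent.APX.GMain
import Pool.Agent.APX.StratB
import Pool.Agent.APX.FpEA
import Pool.Agent.APX.FpEB
import Pool.Agent.APX.CombA

set_option autoImplicit false

/-!
# A problem with a combining scheme is reducible to CPLS
-/

namespace Pool.Agent.APX

open Pool.Agent.Helper22 N487b59b3

namespace Scheme

variable {Q : Problem} (S : Scheme Q)

theorem vio_length {X : Oracle} {x s y : List Bool} (h : S.vio X (x, (s, y)) = true) :
    y.length ≤ S.lvb x := by
  rw [vio, Bool.and_eq_true] at h
  simpa using h.1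

/-- the game of a combining scheme -/
def game : Game Q where
  ls x := un (S.lsb x)
  ls_fp := S.lsb_fp
  lv x := un (S.lvb x)
  lv_fp := S.lvb_fp
  R x := un (2 * (S.N x * S.N x + 1))
  R_fp := S.rb_fp
  lr x := un (S.k x + S.N x * (S.N x + 1))
  lr_fp := S.rl_fp
  rk := S.rkS
  rk_fp := S.rkS_fp
  rk_length x s := by rw [length_rkS, un_length]
  wf := S.wfS
  wf_fp := S.wfS_fp
  wf_length x s h := by rw [un_length]; exact S.wfS_length h
  s0 := S.st0
  s0_fp := S.st0_fp
  s0_wf := S.st0_wf
  V := S.vio
  V_ofp := S.vio_ofp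
  V_s0 := S.vio_st0
  V_length X x s y h := by rw [un_length]; exact S.vio_length h
  ask := S.askS
  ask_ofp := S.askS_ofp
  dn _ := S.dnS
  dn_ofp := OFP.of_fp S.dnS_fp
  fin := S.finS
  fin_ofp := S.finS_ofp
  sol := S.solS
  sol_ofp := S.solS_ofp
  ask_ok X x s T h h' h'' := by
    rw [un_length]
    exact S.ask_ok X x s T h h' h''
  fin_ok := S.fin_ok

/-- **Combining schemes are in CPLS.** -/
theorem reducible (S : Scheme Q) : ReducibleToCPLS Q := S.game.reducible

end Scheme

end Pool.Agent.APX
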