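import Mathlib
import Pool.Agent.Helper22.Tools
import Pool.Agent.Helper22.OracleTools

set_option autoImplicit false

/-!
# NP search problems with an oracle, CPLS, and combining schemes
-/

namespace Pool.Agent.APX

open Pool.Agent.Helper22 N487b59b3 N68a2faeb

/-! ## Binary numbers -/

/-- the value of a word, most significant digit first -/
def val (w : List Bool) : ℕ := w.foldl (fun n b => 2 * n + b.toNat) 0

/-- the `l` last binary digits of `n`, most significant digit first -/
def bin : ℕ → ℕ → List Bool
  | 0, _ => []
  | l + 1, n => bin l (n / 2) ++ [decide (n % 2 = 1)]

/-- the number of digits needed to write the numbers `< b` -/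
def dig (b : ℕ) : ℕ := Nat.size (b - 1)

/-! ## Search problems -/

/-- A search problem with an oracle (type 2): `Q X x y` says that the word `y` is a solution on the
input `x` with the oracle `X`. (NP search problems are those with a polynomial time relation and
polynomially bounded solutions.) -/
abbrev Problem : Type := Oracle → List Bool → List Bool → Prop

/-! ## CPLS -/

/-- the words asked by an instance of CPLS -/
def qry (tag u v w : List Bool) : List Bool := cd tag (cd u (cd v w))

/-- the number with `l` digits whose digits are given by the oracle -/
def rdn (X : Oracle) (l : ℕ) (q : List Bool → List Bool) : ℕ :=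
  val ((List.range l).map fun j => X (q (un j)))

/-- the node `f_i(x)` of an instance with `a` levels and `b` nodes on each level -/
def nxt (X : Oracle) (a b i x : ℕ) : ℕ :=
  rdn X (dig b) (fun j => qry [false, false] (bin (dig a) i) (bin (dig b) x) j) % b

/-- the colour `u(x)` of an instance with `b` nodes on each level and `c` colours -/
def lst (X : Oracle) (b c x : ℕ) : ℕ :=
  rdn X (dig c) (fun j => qry [false, true] [] (bin (dig b) x) j) % c

/-- `G_i(x, y)`: node `x` on level `i` has colour `y` -/
def clr (X : Oracle) (a b c i x y : ℕ) : Prop :=
  X (qry [true] (bin (dig a) i) (bin (dig b) x) (bin (dig c) y)) = true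

/-- `w` is a solution of CPLS with `a` levels, `b` nodes on each level and `c` colours: it names a
colour of node `0` on level `0`, or a colour of `f_i(x)` which `x` does not have, or a node on the
last level which does not have the colour `u(x)`. -/
def CPLSSol (X : Oracle) (a b c : ℕ) (w : List Bool) : Prop :=
  (∃ y < c, w = qry [false] [] [] (bin (dig c) y) ∧ clr X a b c 0 0 y) ∨
  (∃ i x y, i + 1 < a ∧ x < b ∧ y < c ∧
    w = qry [true] (bin (dig a) i) (bin (dig b) x) (bin (dig c) y) ∧
    clr X a b c (i + 1) (nxt X a b i x) y ∧ ¬ clr X a b c i x y) ∨
  (∃ x < b, w = qry [true, true] [] (bin (dig b) x) [] ∧ ¬ clr X a b c (a - 1) x (lst X b c x))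

/-- `Q` is reducible to CPLS: polynomial time functions `f`, `g` and a polynomial time relation
`P`, all with oracle. The numbers of levels, nodes and colours are positive and are written in
binary by `f`. -/
def ReducibleToCPLS (Q : Problem) : Prop :=
  ∃ (f : OracleProc (List Bool) (List Bool × (List Bool × List Bool)))
    (P : OracleProc (List Bool × List Bool) Bool)
    (g : OracleProc (List Bool × List Bool) (List Bool)),
    ∀ (X : Oracle) (x w : List Bool),
      CPLSSol (fun q => P.run X (x, q)) (val (f.run X x).1 + 1) (val (f.run X x).2.1 + 1)
        (val (f.run X x).2.2 + 1) w → Q X x (g.run X (x, w))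

/-! ## Combining schemes -/

/-- A combining scheme for `Q` with `K` levels and codes of length `n`. The points are the words
of length `K (n + 1)`. An object `O` of level `i` in the subcube of all points with prefix `P` is
recognised by `ok`. Every point is an object of level `0`; two objects of level `i < K` in two
different subcubes `P c`, `P c'` (`c ≠ c'` of length `n + 1`) with the same code give an object of
level `i + 1` in the subcube `P`; and an object of level `K` in the whole cube gives a solution of
`Q`. -/
structure Scheme (Q : Problem) where
  K : List Bool → List Bool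
  K_poly : IsPolyTime K
  n : List Bool → List Bool
  n_poly : IsPolyTime n
  n_pos : ∀ x, 0 < (n x).length
  p : Polynomial ℕ
  ok : OracleProc (List Bool × (List Bool × (List Bool × List Bool))) Bool
  start : OracleProc (List Bool × List Bool) (List Bool)
  code : OracleProc (List Bool × List Bool) (List Bool)
  comb : OracleProc (List Bool × (List Bool × (List Bool × List Bool))) (List Bool)
  sol : OracleProc (List Bool × List Bool) (List Bool)
  ok_length : ∀ (X : Oracle) (x P O : List Bool) (i : ℕ),
    ok.run X (x, (un i, (P, O))) = true → O.length ≤ p.eval x.length
  ok_start : ∀ (X : Oracle) (x v : List Bool),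
    v.length = (K x).length * ((n x).length + 1) →
      ok.run X (x, (un 0, (v, start.run X (x, v)))) = true
  code_length : ∀ (X : Oracle) (x P O : List Bool) (i : ℕ),
    ok.run X (x, (un i, (P, O))) = true → (code.run X (x, O)).length = (n x).length
  ok_comb : ∀ (X : Oracle) (x P c c' O O' : List Bool) (i : ℕ), i < (K x).length →
    c.length = (n x).length + 1 → c'.length = (n x).length + 1 → c ≠ c' →
    ok.run X (x, (un i, (P ++ c, O))) = true → ok.run X (x, (un i, (P ++ c', O'))) = true →
    code.run X (x, O) = code.run X (x, O') →
      ok.run X (x, (un (i + 1), (P, comb.run X (x, (P, (O, O')))))) = true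
  ok_sol : ∀ (X : Oracle) (x O : List Bool),
    ok.run X (x, (un (K x).length, ([], O))) = true → Q X x (sol.run X (x, O))

end Pool.Agent.APX
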