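import Pool.Agent.APX.FoldDefs

set_option autoImplicit false

/-!
# APX-FoldA: powers, logarithms, and lists without repetitions
-/

namespace Pool.Agent.APX

open Pool.Agent.Helper22 N487b59b3 N68a2faeb

private theorem fda_pw (B i w : List Bool) (k : ℕ) (hw : w.length = 2 ^ k)
    (h : 2 ^ (k + i.length) ≤ B.length) :
    (i.foldl (fun (w : List Bool) (_ : Bool) => (w ++ w).take B.length) w).length =
      2 ^ (k + i.length) := by
  induction i generalizing w k with
  | nil => exact hw
  | cons b i ih =>
    rw [List.length_cons] at h ⊢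
    have e : k + (i.length + 1) = (k + 1) + i.length := by ring
    rw [e] at h ⊢
    rw [List.foldl_cons]
    refine ih _ (k + 1) ?_ h
    have h2 : 2 ^ (k + 1) ≤ B.length := (Nat.pow_le_pow_right (by norm_num) (by omega)).trans h
    rw [List.length_take, List.length_append, hw]
    rw [pow_succ] at h2 ⊢
    omega

private theorem fda_dig {t k : ℕ} : dig t ≤ k ↔ t ≤ 2 ^ k := by
  rw [dig, Nat.size_le]
  have := Nat.two_pow_pos k
  omega

private theorem fda_dgU (t L s1 s2 : List Bool) (h1 : s1.length = 2 ^ s2.length)
    (h2 : s2.length ≤ dig t.length) (h3 : ∀ b ∈ s2, b = true) :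
    (L.foldl (fun (s : List Bool × List Bool) (_ : Bool) =>
      if t.length ≤ s.1.length then s else (s.1 ++ s.1, true :: s.2)) (s1, s2)).2.length =
      min (s2.length + L.length) (dig t.length) ∧
    ∀ b ∈ (L.foldl (fun (s : List Bool × List Bool) (_ : Bool) =>
      if t.length ≤ s.1.length then s else (s.1 ++ s.1, true :: s.2)) (s1, s2)).2, b = true := by
  induction L generalizing s1 s2 with
  | nil =>
    refine ⟨?_, h3⟩
    show s2.length = _
    rw [List.length_nil]
    omega
  | cons c L ih =>
    rw [List.foldl_cons]
    by_cases h : t.length ≤ s1.length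
    · have e : (if t.length ≤ (s1, s2).1.length then (s1, s2) else
        ((s1, s2).1 ++ (s1, s2).1, true :: (s1, s2).2)) = (s1, s2) := if_pos h
      rw [e]
      obtain ⟨g1, g2⟩ := ih s1 s2 h1 h2 h3
      refine ⟨?_, g2⟩
      rw [g1, List.length_cons]
      rw [h1, ← fda_dig] at h
      omega
    · have e : (if t.length ≤ (s1, s2).1.length then (s1, s2) else
        ((s1, s2).1 ++ (s1, s2).1, true :: (s1, s2).2)) = (s1 ++ s1, true :: s2) := if_neg h
      rw [e]
      rw [h1, ← fda_dig] at h
      obtain ⟨g1, g2⟩ := ih (s1 ++ s1) (true :: s2)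
        (by rw [List.length_append, h1, List.length_cons, pow_succ]; ring)
        (by rw [List.length_cons]; omega)
        (by
          intro b hb
          rcases List.mem_cons.1 hb with rfl | hb
          · rfl
          · exact h3 b hb)
      refine ⟨?_, g2⟩
      rw [g1, List.length_cons, List.length_cons]
      omega

private theorem fda_dgU' (t : List Bool) : (dgU t).length = dig t.length ∧ ∀ b ∈ dgU t, b = true := by
  obtain ⟨h1, h2⟩ := fda_dgU t t [true] [] rfl (Nat.zero_le _) (by simp)
  refine ⟨h1.trans ?_, h2⟩
  have h3 : dig t.length ≤ t.length := fda_dig.2 (Nat.lt_two_pow_self).le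
  rw [List.length_nil]
  omega

private theorem fda_ndp (l acc : List (List Bool)) (b : Bool) :
    (l.foldl (fun (s : Bool × List (List Bool)) (w : List Bool) => (s.1 && !wmem s.2 w, w :: s.2))
      (b, acc)).1 = true ↔ b = true ∧ l.Nodup ∧ ∀ w ∈ l, w ∉ acc := by
  induction l generalizing acc b with
  | nil => simp
  | cons w l ih =>
    rw [List.foldl_cons, ih]
    have h1 : (!wmem acc w) = true ↔ w ∉ acc := by
      rw [Bool.not_eq_true', Bool.eq_false_iff, ne_eq, wmem_iff]
    rw [Bool.and_eq_true, h1, List.nodup_cons]
    constructor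
    · rintro ⟨⟨h2, h3⟩, h4, h5⟩
      refine ⟨h2, ⟨fun h6 => h5 w h6 List.mem_cons_self, h4⟩, ?_⟩
      intro v hv
      rcases List.mem_cons.1 hv with rfl | hv
      · exact h3
      · exact fun h6 => h5 v hv (List.mem_cons_of_mem _ h6)
    · rintro ⟨h2, ⟨h3, h4⟩, h5⟩
      refine ⟨⟨h2, h5 w List.mem_cons_self⟩, h4, ?_⟩
      intro v hv h6
      rcases List.mem_cons.1 h6 with rfl | h6
      · exact h3 hv
      · exact h5 v (List.mem_cons_of_mem _ hv) h6

private def fda_stP (s : List Bool × List Bool) (_ : Bool) : List Bool × List Bool :=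
  ((s.1 ++ s.1).take s.2.length, s.2)

private theorem fda_stP_fold (i w B : List Bool) : i.foldl fda_stP (w, B) =
    (i.foldl (fun (w : List Bool) (_ : Bool) => (w ++ w).take B.length) w, B) := by
  induction i generalizing w with
  | nil => rfl
  | cons b i ih => rw [List.foldl_cons, List.foldl_cons, fda_stP, ih]

private theorem fda_stP_len (i w B : List Bool) :
    (i.foldl (fun (w : List Bool) (_ : Bool) => (w ++ w).take B.length) w).length ≤
      w.length + B.length := by
  induction i using List.reverseRecOn with
  | nil => exact Nat.le_add_right _ _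
  | append_singleton i b ih =>
    rw [List.foldl_append, List.foldl_cons, List.foldl_nil, List.length_take]
    omega

private theorem fda_stP_fp : FP fun p : List Bool × (List Bool × List Bool) => p.1.foldl fda_stP p.2 := by
  refine FP.foldl (g := fda_stP) ?_ (B := fun n => 3 * n) (by fun_prop) ?_
  · unfold fda_stP
    fun_prop
  · rintro l ⟨w, B⟩
    rw [fda_stP_fold]
    have h := fda_stP_len l w B
    simp only [sz_pair, sz_bits]
    omega

private def fda_stD (s : (List Bool × List Bool) × List Bool) (_ : Bool) :
    (List Bool × List Bool) × List Bool :=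
  if decide (s.2.length ≤ s.1.1.length) then s else ((s.1.1 ++ s.1.1, true :: s.1.2), s.2)

private theorem fda_stD_fold (l : List Bool) (s : List Bool × List Bool) (t : List Bool) :
    l.foldl fda_stD (s, t) =
      (l.foldl (fun (s : List Bool × List Bool) (_ : Bool) =>
        if t.length ≤ s.1.length then s else (s.1 ++ s.1, true :: s.2)) s, t) := by
  induction l generalizing s with
  | nil => rfl
  | cons b l ih =>
    rw [List.foldl_cons, List.foldl_cons]
    by_cases h : t.length ≤ s.1.length
    · have e1 : fda_stD (s, t) b = (s, t) := by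
        rw [fda_stD, if_pos (decide_eq_true h)]
      have e2 : (if t.length ≤ s.1.length then s else (s.1 ++ s.1, true :: s.2)) = s := if_pos h
      rw [e1, e2, ih]
    · have e1 : fda_stD (s, t) b = ((s.1 ++ s.1, true :: s.2), t) := by
        rw [fda_stD, if_neg (by simpa using h)]
      have e2 : (if t.length ≤ s.1.length then s else (s.1 ++ s.1, true :: s.2)) =
        (s.1 ++ s.1, true :: s.2) := if_neg h
      rw [e1, e2, ih]

private theorem fda_stD_len (l : List Bool) (s : List Bool × List Bool) (t : List Bool) :
    (l.foldl (fun (s : List Bool × List Bool) (_ : Bool) =>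
      if t.length ≤ s.1.length then s else (s.1 ++ s.1, true :: s.2)) s).1.length ≤
        s.1.length + 2 * t.length ∧
    (l.foldl (fun (s : List Bool × List Bool) (_ : Bool) =>
      if t.length ≤ s.1.length then s else (s.1 ++ s.1, true :: s.2)) s).2.length ≤
        s.2.length + l.length := by
  induction l using List.reverseRecOn with
  | nil => exact ⟨Nat.le_add_right _ _, Nat.le_add_right _ _⟩
  | append_singleton l b ih =>
    rw [List.foldl_append, List.foldl_cons, List.foldl_nil, List.length_append, List.length_singleton]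
    generalize l.foldl (fun (s : List Bool × List Bool) (_ : Bool) =>
      if t.length ≤ s.1.length then s else (s.1 ++ s.1, true :: s.2)) s = r at ih ⊢
    by_cases h : t.length ≤ r.1.length
    · rw [if_pos h]
      omega
    · rw [if_neg h]
      simp only [List.length_append, List.length_cons]
      omega

private theorem fda_stD_fp :
    FP fun p : List Bool × ((List Bool × List Bool) × List Bool) => p.1.foldl fda_stD p.2 := by
  refine FP.foldl (g := fda_stD) ?_ (B := fun n => 9 * n) (by fun_prop) ?_
  · unfold fda_stD
    fun_prop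
  · rintro l ⟨s, t⟩
    rw [fda_stD_fold]
    obtain ⟨h1, h2⟩ := fda_stD_len l s t
    generalize l.foldl (fun (s : List Bool × List Bool) (_ : Bool) =>
      if t.length ≤ s.1.length then s else (s.1 ++ s.1, true :: s.2)) s = r at h1 h2 ⊢
    obtain ⟨r1, r2⟩ := r
    obtain ⟨s1, s2⟩ := s
    simp only [sz_pair, sz_bits] at h1 h2 ⊢
    omega

private def fda_stN (s : Bool × List (List Bool)) (w : List Bool) : Bool × List (List Bool) :=
  (s.1 && !wmem s.2 w, w :: s.2)

private theorem fda_stN_sz (l : List (List Bool)) (s : Bool × List (List Bool)) :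
    sz (l.foldl fda_stN s).2 = sz l + sz s.2 := by
  induction l generalizing s with
  | nil => simp
  | cons w l ih =>
    rw [List.foldl_cons, ih, fda_stN]
    simp only [sz_cons]
    ring

private theorem fda_stN_fp :
    FP fun p : List (List Bool) × (Bool × List (List Bool)) => p.1.foldl fda_stN p.2 := by
  refine FP.foldl (g := fda_stN) ?_ (B := fun n => n) (by fun_prop) ?_
  · unfold fda_stN
    fun_prop
  · rintro l ⟨b, s⟩
    have h := fda_stN_sz l (b, s)
    generalize l.foldl fda_stN (b, s) = r at h ⊢
    obtain ⟨r1, r2⟩ := r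
    simp only [sz_pair, sz_bool] at h ⊢
    omega

theorem length_pw {B i : List Bool} (h : 2 ^ i.length ≤ B.length) :
    (pw B i).length = 2 ^ i.length := by
  have := fda_pw B i [true] 0 rfl (by rwa [zero_add])
  rwa [zero_add] at this

/-- `⌈log₂ t⌉` in unary has the right length. -/
theorem length_dgU (t : List Bool) : (dgU t).length = dig t.length := by
  exact (fda_dgU' t).1

theorem dgU_eq (t : List Bool) : dgU t = un (dig t.length) := by
  exact List.eq_replicate_iff.2 (fda_dgU' t)

theorem le_two_pow_dig (t : ℕ) : t ≤ 2 ^ dig t := by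
  exact fda_dig.1 le_rfl

theorem two_pow_dig_le (t : ℕ) : 2 ^ dig t ≤ 2 * t + 1 := by
  rcases Nat.eq_zero_or_pos (dig t) with h | h
  · rw [h, pow_zero]
    omega
  · obtain ⟨k, hk⟩ : ∃ k, dig t = k + 1 := ⟨dig t - 1, by omega⟩
    have h2 : ¬ dig t ≤ k := by omega
    rw [fda_dig] at h2
    rw [hk, pow_succ]
    omega

theorem ndp_iff (l : List (List Bool)) : ndp l = true ↔ l.Nodup := by
  rw [ndp, fda_ndp]
  simp

theorem pw_fp {α : Type} [N487b59b3 α] {f g : α → List Bool} (hf : FP f) (hg : FP g) :
    FP fun a => pw (f a) (g a) := by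
  have h := (fda_stP_fp.comp (FP.pair hg (FP.pair (FP.const [true]) hf))).fst'
  simp only [fda_stP_fold] at h
  exact h

theorem dgU_fp {α : Type} [N487b59b3 α] {f : α → List Bool} (hf : FP f) :
    FP fun a => dgU (f a) := by
  have h := (fda_stD_fp.comp (FP.pair hf (FP.pair (FP.pair (FP.const [true])
    (FP.const ([] : List Bool))) hf))).fst'.snd'
  simp only [fda_stD_fold] at h
  exact h

theorem ndp_fp {α : Type} [N487b59b3 α] {f : α → List (List Bool)} (hf : FP f) :
    FP fun a => ndp (f a) := by
  exact (fda_stN_fp.comp (FP.pair hf (FP.pair (FP.const true)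
    (FP.const ([] : List (List Bool)))))).fst'

end Pool.Agent.APX
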