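import Pool.Agent.APX.FoldA

set_option autoImplicit false

/-!
# APX-FoldB: the combining scheme for collisions is correct
-/

namespace Pool.Agent.APX

open Pool.Agent.Helper22 N487b59b3 N68a2faeb

namespace Fold

variable {Q : Problem} (T : Fold Q)

theorem okO_iff (X : Oracle) (x i P O : List Bool) :
    T.okO X (x, (i, (P, O))) = true ↔ ∃ l : List (List Bool),
      O = tw l ∧ i.length ≤ dig (T.t x).length ∧ l.length = 2 ^ i.length ∧ l.Nodup ∧
      ∀ v ∈ l, v.take P.length = P ∧ v.length = dig (T.t x).length * ((T.n x).length + 1) ∧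
        T.f.run X (x, v) = T.f.run X (x, l.headD []) := by
  have hB : (T.t x ++ (T.t x ++ [true])).length = 2 * (T.t x).length + 1 := by
    simp only [List.length_append, List.length_singleton]
    omega
  have hpw : i.length ≤ dig (T.t x).length →
      (pw (T.t x ++ (T.t x ++ [true])) i).length = 2 ^ i.length := by
    intro hi
    refine length_pw ?_
    rw [hB]
    exact (Nat.pow_le_pow_right (by norm_num) hi).trans (two_pow_dig_le _)
  unfold okO
  simp only [Bool.and_eq_true, weq_iff, decide_eq_true_eq, List.all_eq_true, length_dgU, ndp_iff]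
  constructor
  · rintro ⟨h1, h2, h3, h4, h5⟩
    exact ⟨wt O, h1, h2, h3.trans (hpw h2), h4, h5⟩
  · rintro ⟨l, rfl, h2, h3, h4, h5⟩
    rw [wt_tw]
    exact ⟨rfl, h2, h3.trans (hpw h2).symm, h4, h5⟩

theorem okO_start (X : Oracle) (x v : List Bool)
    (h : v.length = dig (T.t x).length * ((T.n x).length + 1)) :
    T.okO X (x, (un 0, (v, staO (x, v)))) = true := by
  rw [okO_iff]
  refine ⟨[v], rfl, by rw [Helper22.un_length]; exact Nat.zero_le _,
    by rw [Helper22.un_length]; rfl, List.nodup_singleton _, ?_⟩
  intro w hw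
  rw [List.mem_singleton] at hw
  subst hw
  exact ⟨List.take_length, h, rfl⟩

theorem okO_length {X : Oracle} {x i P O : List Bool} (h : T.okO X (x, (i, (P, O))) = true) :
    O.length ≤ (2 * (T.t x).length + 1) *
      (2 * (dig (T.t x).length * ((T.n x).length + 1)) + 1) := by
  obtain ⟨l, rfl, h2, h3, h4, h5⟩ := (T.okO_iff X x i P O).1 h
  refine length_tw_le l _ _ ?_ (fun w hw => (h5 w hw).2.1.le)
  rw [h3]
  exact (Nat.pow_le_pow_right (by norm_num) h2).trans (two_pow_dig_le _)

theorem codO_length (X : Oracle) (x O : List Bool) :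
    (T.codO X (x, O)).length = (T.n x).length := T.f_length _ _ _

theorem okO_comb {X : Oracle} {x P c c' O O' : List Bool} {i : ℕ}
    (hi : i < dig (T.t x).length)
    (hc : c.length = (T.n x).length + 1) (hc' : c'.length = (T.n x).length + 1) (hne : c ≠ c')
    (h : T.okO X (x, (un i, (P ++ c, O))) = true)
    (h' : T.okO X (x, (un i, (P ++ c', O'))) = true)
    (he : T.codO X (x, O) = T.codO X (x, O')) :
    T.okO X (x, (un (i + 1), (P, cmbO (x, (P, (O, O')))))) = true := by
  obtain ⟨l, rfl, h2, h3, h4, h5⟩ := (T.okO_iff X x _ _ _).1 h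
  obtain ⟨l', rfl, h2', h3', h4', h5'⟩ := (T.okO_iff X x _ _ _).1 h'
  unfold codO at he
  simp only [wt_tw] at he
  rw [Helper22.un_length] at h2 h3 h2' h3'
  rw [okO_iff]
  have hl : l ≠ [] := by
    rintro rfl
    have := Nat.pow_pos (n := i) (show 0 < 2 by norm_num)
    simp only [List.length_nil] at h3
    omega
  have hhead : (l ++ l').headD [] = l.headD [] := by
    cases l with
    | nil => exact absurd rfl hl
    | cons a l => rfl
  have htk : ∀ (v d : List Bool), v.take (P ++ d).length = P ++ d → v.take P.length = P := by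
    intro v d hv
    have h6 := congrArg (List.take P.length) hv
    rw [List.take_take, List.take_left, List.length_append,
      min_eq_left (Nat.le_add_right _ _)] at h6
    exact h6
  refine ⟨l ++ l', ?_, ?_, ?_, ?_, ?_⟩
  · unfold cmbO
    simp only [wt_tw]
  · rw [Helper22.un_length]
    omega
  · rw [Helper22.un_length, List.length_append, h3, h3', pow_succ]
    ring
  · rw [List.nodup_append']
    refine ⟨h4, h4', ?_⟩
    intro v hv hv'
    have h6 := (h5 v hv).1
    have h7 := (h5' v hv').1
    apply hne
    rw [List.length_append, hc] at h6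
    rw [List.length_append, hc'] at h7
    exact List.append_cancel_left (h6.symm.trans h7)
  · intro v hv
    rw [hhead]
    rcases List.mem_append.1 hv with hv | hv
    · obtain ⟨a1, a2, a3⟩ := h5 v hv
      exact ⟨htk v c a1, a2, a3⟩
    · obtain ⟨a1, a2, a3⟩ := h5' v hv
      exact ⟨htk v c' a1, a2, a3.trans he.symm⟩

theorem okO_sol {X : Oracle} {x O : List Bool}
    (h : T.okO X (x, (un (dig (T.t x).length), ([], O))) = true) : Q X x (T.solO X (x, O)) := by
  obtain ⟨l, rfl, h2, h3, h4, h5⟩ := (T.okO_iff X x _ _ _).1 h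
  rw [Helper22.un_length] at h3
  unfold solO
  simp only [wt_tw]
  have hlen : (T.t x).length ≤ l.length := by
    rw [h3]
    exact le_two_pow_dig _
  refine T.sol_ok X x _ ?_ (h4.sublist (List.take_sublist _ _)) ?_ ?_
  · rw [List.length_take, min_eq_left hlen]
  · intro v hv
    exact (h5 v (List.mem_of_mem_take hv)).2.1
  · intro v hv w hw
    rw [(h5 v (List.mem_of_mem_take hv)).2.2, (h5 w (List.mem_of_mem_take hw)).2.2]

end Fold

end Pool.Agent.APX
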