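import Pool.Agent.APX.OMach

set_option autoImplicit false

/-!
# APX-OIter: iteration of polynomial time functions with oracle
-/

namespace Pool.Agent.APX

open Pool.Agent.Helper22 N487b59b3 N68a2faeb

variable {α : Type} [N487b59b3 α]

private abbrev Cfg (α : Type) : Type := α × (List Bool × (List Bool × List Bool))

private def nx (M : OracleProc α α) (p : Cfg α × Bool) : Cfg α :=
  if p.1.2.2.1.isEmpty then
    (if p.1.2.2.2.isEmpty then p.1
      else (M.out (p.1.1, p.1.2.1), ([], (M.clock (M.out (p.1.1, p.1.2.1)), p.1.2.2.2.tail))))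
  else (p.1.1, (p.2 :: p.1.2.1, (p.1.2.2.1.tail, p.1.2.2.2)))

private def qr (M : OracleProc α α) (c : Cfg α) : List Bool := M.query (c.1, c.2.1)

private def cfg (M : OracleProc α α) (X : Oracle) (n : List Bool) (s : α) (i j : ℕ) : Cfg α :=
  (s, (M.answers X s j, ((M.clock s).drop j, n.drop i)))

private theorem step1 (M : OracleProc α α) (X : Oracle) (n : List Bool) (s : α) (i j : ℕ)
    (hj : j < (M.clock s).length) :
    nx M (cfg M X n s i j, X (qr M (cfg M X n s i j))) = cfg M X n s i (j + 1) := by
  have h1 : ((M.clock s).drop j).isEmpty = false := by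
    rw [List.isEmpty_eq_false_iff]
    intro h
    rw [List.drop_eq_nil_iff] at h
    omega
  unfold nx
  simp only [cfg, h1]
  rw [if_neg (by simp)]
  simp only [List.tail_drop]
  rfl

private theorem step2 (M : OracleProc α α) (X : Oracle) (n : List Bool) (s : α) (i : ℕ)
    (hi : i < n.length) :
    nx M (cfg M X n s i (M.clock s).length, X (qr M (cfg M X n s i (M.clock s).length))) =
      cfg M X n (M.run X s) (i + 1) 0 := by
  have h1 : ((M.clock s).drop (M.clock s).length).isEmpty = true := by
    rw [List.isEmpty_iff, List.drop_eq_nil_iff]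
  have h2 : (n.drop i).isEmpty = false := by
    rw [List.isEmpty_eq_false_iff]
    intro h
    rw [List.drop_eq_nil_iff] at h
    omega
  unfold nx
  simp only [cfg, h1, h2, if_true]
  rw [if_neg (by simp)]
  simp only [List.tail_drop, List.drop_zero]
  rfl

private theorem step3 (M : OracleProc α α) (X : Oracle) (n : List Bool) (s : α) (b : Bool) :
    nx M (cfg M X n s n.length (M.clock s).length, b) =
      cfg M X n s n.length (M.clock s).length := by
  have h1 : ((M.clock s).drop (M.clock s).length).isEmpty = true := by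
    rw [List.isEmpty_iff, List.drop_eq_nil_iff]
  have h2 : (n.drop n.length).isEmpty = true := by
    rw [List.isEmpty_iff, List.drop_eq_nil_iff]
  unfold nx
  simp only [cfg, h1, h2, if_true]

private theorem inv (M : OracleProc α α) (X : Oracle) (n : List Bool) (a : α) (C : ℕ)
    (hC : ∀ i, i ≤ n.length → (M.clock ((M.run X)^[i] a)).length ≤ C) (k : ℕ) :
    ∃ i j, i ≤ n.length ∧ j ≤ (M.clock ((M.run X)^[i] a)).length ∧
      (fun c => nx M (c, X (qr M c)))^[k] (cfg M X n a 0 0) = cfg M X n ((M.run X)^[i] a) i j ∧
      (k ≤ i * (C + 1) + j ∨ (i = n.length ∧ j = (M.clock ((M.run X)^[i] a)).length)) := by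
  induction k with
  | zero => exact ⟨0, 0, Nat.zero_le _, Nat.zero_le _, rfl, Or.inl (Nat.zero_le _)⟩
  | succ k ih =>
    obtain ⟨i, j, hi, hj, e, h⟩ := ih
    rcases Nat.lt_or_ge j (M.clock ((M.run X)^[i] a)).length with hj' | hj'
    · refine ⟨i, j + 1, hi, hj', ?_, ?_⟩
      · rw [Function.iterate_succ_apply', e]
        exact step1 M X n _ i j hj'
      · rcases h with h | h
        · left; omega
        · omega
    · have hje : j = (M.clock ((M.run X)^[i] a)).length := le_antisymm hj hj'
      rcases Nat.lt_or_ge i n.length with hi' | hi'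
      · refine ⟨i + 1, 0, hi', Nat.zero_le _, ?_, ?_⟩
        · rw [Function.iterate_succ_apply', e, Function.iterate_succ_apply' (M.run X), hje]
          exact step2 M X n _ i hi'
        · rcases h with h | h
          · left
            have := hC i hi
            have h3 : (i + 1) * (C + 1) = i * (C + 1) + (C + 1) := by ring
            omega
          · omega
      · have hie : i = n.length := le_antisymm hi hi'
        refine ⟨i, j, hi, hj, ?_, Or.inr ⟨hie, hje⟩⟩
        rw [Function.iterate_succ_apply', e]
        have := step3 M X n ((M.run X)^[i] a)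
          (X (qr M (cfg M X n ((M.run X)^[i] a) i j)))
        rw [← hje, ← hie] at this
        exact this

private def cfgI (M : OracleProc α α) (n : α → List Bool) (a : α) : Cfg α :=
  (a, ([], (M.clock a, n a)))

/-- PLAN. `M` computes `F`. Use `OFP.of_machine` with configurations
`(s, (as, (ri, ro))) : α × (List Bool × (List Bool × List Bool))`: current state `s`, answers `as`
(latest first) of the current inner computation, unary counters `ri` (queries still to be asked) and
`ro` (iterations still to be done). `ini a = (a, ([], (M.clock a, n a)))`. The query is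
`M.query (s, as)`. The step on the answer `b`: if `ri` is not empty: `(s, (b :: as, (ri.tail, ro)))`;
if `ri` is empty and `ro` is not: `(M.out (s, as), ([], (M.clock (M.out (s, as)), ro.tail)))` (the
answer `b` is ignored); if both are empty: no change. The output is `s`. One iteration from the
state `s` takes `(M.clock s).length + 1` steps, and `(M.clock s).length ≤ C (sz a)` for all states
`s = (F X)^[k] a` met (`hb` and `FP.bound`), so after `(n a).length * (C (sz a) + 1)` steps the
machine rests in `s = (F X)^[(n a).length] a`; take for `clk` a unary word of a polynomial length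
(in `sz a`, via `enc_FP` and `FP.un_poly`) at least this. The sizes along the computation are
bounded since `as.length ≤ C (sz a)`. -/
theorem OFP.iter {F : Oracle → α → α} (h : OFP F) {n : α → List Bool} (hn : FP n) {B : ℕ → ℕ}
    (hB : PB B) (hb : ∀ (X : Oracle) (a : α) (k : ℕ), k ≤ (n a).length →
      sz ((F X)^[k] a) ≤ B (sz a)) :
    OFP fun X a => (F X)^[(n a).length] a := by
  obtain ⟨M, hM⟩ := h
  have hF : ∀ X, F X = M.run X := fun X => (funext fun a => hM X a).symm
  have hcl := (isPolyTime_iff _).1 M.clock_poly
  have hqu := (isPolyTime_iff _).1 M.query_poly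
  have hou := (isPolyTime_iff _).1 M.out_poly
  obtain ⟨Bc, hBc, hBcm, hBcb⟩ := hcl.bound
  obtain ⟨Bn, hBn, hBnm, hBnb⟩ := hn.bound
  obtain ⟨q, hq⟩ : PB fun m => Bn m * (Bc (B m) + 1) := by
    exact PB.mul hBn (PB.add (PB.comp hBc hB) (PB.const 1))
  have hlen : ∀ a, (n a).length ≤ Bn (sz a) := fun a => (length_le_sz _).trans (hBnb a)
  have hC : ∀ X a i, i ≤ (n a).length → (M.clock ((M.run X)^[i] a)).length ≤ Bc (B (sz a)) := by
    intro X a i hi
    have h1 := hb X a i hi
    rw [hF] at h1
    exact (length_le_sz _).trans ((hBcb _).trans (hBcm h1))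
  have hini : FP fun a : α => cfgI M n a := by
    unfold cfgI
    exact FP.pair FP.id (FP.pair (FP.const []) (FP.pair hcl hn))
  have hqr : FP (qr M) := by
    unfold qr
    exact hqu.comp (FP.pair FP.fst (FP.fst' FP.snd))
  have hnx : FP (nx M) := by
    have e1 : FP fun p : Cfg α × Bool => p.1.1 := FP.fst' FP.fst
    have e2 : FP fun p : Cfg α × Bool => p.1.2.1 := FP.fst' (FP.snd' FP.fst)
    have e3 : FP fun p : Cfg α × Bool => p.1.2.2.1 := FP.fst' (FP.snd' (FP.snd' FP.fst))
    have e4 : FP fun p : Cfg α × Bool => p.1.2.2.2 := FP.snd' (FP.snd' (FP.snd' FP.fst))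
    have e5 : FP fun p : Cfg α × Bool => M.out (p.1.1, p.1.2.1) := hou.comp (FP.pair e1 e2)
    have e6 : FP fun p : Cfg α × Bool => M.clock (M.out (p.1.1, p.1.2.1)) := hcl.comp e5
    unfold nx
    exact FP.ite (FP.isEmpty e3)
      (FP.ite (FP.isEmpty e4) FP.fst
        (FP.pair e5 (FP.pair (FP.const []) (FP.pair e6 (FP.tail e4)))))
      (FP.pair e1 (FP.pair (FP.cons FP.snd e2) (FP.pair (FP.tail e3) e4)))
  have hck : FP fun a : α => un (q.eval (bitEncode a : List Bool).length) :=
    FP.un_poly enc_FP q
  have hI : ∀ X a, cfgI M n a = cfg M X (n a) a 0 0 := fun X a => rfl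
  have main := OFP.of_machine (ini := fun a => cfgI M n a) (qr := qr M) (nx := nx M)
    (out := fun c : Cfg α => c.1) hini hqr hnx FP.fst hck
    (B := fun m => 2 * B m + 1 + (2 * (3 * Bc (B m)) + 1 + (2 * (3 * Bc (B m)) + 1 + 3 * Bn m)))
    (by
      exact PB.add (PB.add (PB.mul (PB.const 2) hB) (PB.const 1))
        (PB.add (PB.add (PB.mul (PB.const 2) (PB.mul (PB.const 3) (PB.comp hBc hB))) (PB.const 1))
          (PB.add (PB.add (PB.mul (PB.const 2) (PB.mul (PB.const 3) (PB.comp hBc hB)))
            (PB.const 1)) (PB.mul (PB.const 3) hBn))))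
    (by
      intro X a k _
      obtain ⟨i, j, hi, hj, e, -⟩ := inv M X (n a) a _ (hC X a) k
      simp only [hI X a]
      rw [e]
      have h1 := hb X a i hi
      rw [hF] at h1
      have h2 := hC X a i hi
      have h3 := hlen a
      simp only [cfg, sz_pair, sz_bits, OracleProc.answers_length, List.length_drop]
      omega)
  refine main.congr fun X a => ?_
  obtain ⟨i, j, hi, hj, e, h⟩ := inv M X (n a) a _ (hC X a)
    (un (q.eval (bitEncode a : List Bool).length)).length
  show ((fun c => nx M (c, X (qr M c)))^[(un (q.eval (bitEncode a : List Bool).length)).length]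
    (cfgI M n a)).1 = _
  rw [hI X a, e, hF]
  show (M.run X)^[i] a = _
  have hie : i = (n a).length := by
    rcases h with h | h
    · rw [un_length] at h
      have h1 : Bn (sz a) * (Bc (B (sz a)) + 1) ≤ q.eval (sz a) := hq (sz a)
      have h2 : (n a).length * (Bc (B (sz a)) + 1) ≤ i * (Bc (B (sz a)) + 1) + j :=
        (Nat.mul_le_mul_right _ (hlen a)).trans (h1.trans h)
      have h3 := hC X a i hi
      by_contra hne
      have h4 : i + 1 ≤ (n a).length := by omega
      have h5 : (i + 1) * (Bc (B (sz a)) + 1) ≤ (n a).length * (Bc (B (sz a)) + 1) :=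
        Nat.mul_le_mul_right _ h4
      have h6 : (i + 1) * (Bc (B (sz a)) + 1) = i * (Bc (B (sz a)) + 1) + (Bc (B (sz a)) + 1) := by
        ring
      omega
    · exact h.1
  rw [hie]

end Pool.Agent.APX
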