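import Pool.Agent.APX.OPair
import Pool.Agent.APX.OIter

set_option autoImplicit false

/-!
# APX-OFold: folds with oracle
-/

namespace Pool.Agent.APX

open Pool.Agent.Helper22 N487b59b3 N68a2faeb

variable {α β γ δ : Type} [N487b59b3 α] [N487b59b3 β] [N487b59b3 γ] [N487b59b3 δ]

/-- one step of the computation of a fold -/
private def ofoStep [Inhabited β] (g : Oracle → γ × (δ × β) → δ) (X : Oracle)
    (s : γ × (List β × δ)) : γ × (List β × δ) :=
  if s.2.1.isEmpty then s else (s.1, (s.2.1.tail, g X (s.1, (s.2.2, s.2.1.headD default))))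

private theorem ofo_iter [Inhabited β] (g : Oracle → γ × (δ × β) → δ) (X : Oracle) (c : γ)
    (l : List β) (b : δ) (k : ℕ) :
    (ofoStep g X)^[k] (c, (l, b)) =
      (c, (l.drop k, (l.take k).foldl (fun b e => g X (c, (b, e))) b)) := by
  induction k generalizing l b with
  | zero => simp
  | succ k ih =>
    rw [Function.iterate_succ_apply]
    cases l with
    | nil =>
      have h : ofoStep g X (c, (([] : List β), b)) = (c, ([], b)) := by simp [ofoStep]
      rw [h, ih]
      simp
    | cons e l =>
      have h : ofoStep g X (c, (e :: l, b)) = (c, (l, g X (c, (b, e)))) := by simp [ofoStep]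
      rw [h, ih]
      simp

theorem OFP.foldl_ctx [Inhabited β] {g : Oracle → γ × (δ × β) → δ} (hg : OFP g) {B : ℕ → ℕ}
    (hB : PB B) (hb : ∀ (X : Oracle) (c : γ) (l : List β) (b : δ),
      sz (l.foldl (fun b e => g X (c, (b, e))) b) ≤ B (sz (c, (l, b)))) :
    OFP fun X (p : γ × (List β × δ)) => p.2.1.foldl (fun b e => g X (p.1, (b, e))) p.2.2 := by
  obtain ⟨B', hB', hm, hle⟩ := hB.exists_mono
  have hstep : OFP (ofoStep g : Oracle → γ × (List β × δ) → γ × (List β × δ)) := by
    unfold ofoStep
    have h1 : FP fun s : γ × (List β × δ) => s.2.1.isEmpty := by fun_prop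
    have h2 : FP fun s : γ × (List β × δ) => (s.1, (s.2.2, s.2.1.headD default)) :=
      FP.pair (by fun_prop) (FP.pair (by fun_prop) (FP.headD (by fun_prop) _))
    have h3 : FP fun s : γ × (List β × δ) => s.2.1.tail := by fun_prop
    have h4 : FP fun s : γ × (List β × δ) => s.1 := by fun_prop
    exact OFP.ite (OFP.of_fp h1) (OFP.of_fp FP.id)
      ((OFP.of_fp h4).pair ((OFP.of_fp h3).pair (hg.on h2)))
  have hit : OFP fun X (p : γ × (List β × δ)) =>
      (ofoStep g X)^[(un p.2.1.length).length] p := by
    refine OFP.iter hstep (n := fun p : γ × (List β × δ) => un p.2.1.length)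
      (FP.un_length (by fun_prop)) (B := fun n => n + B' n) (by fun_prop) ?_
    rintro X ⟨c, l, b⟩ k -
    rw [ofo_iter]
    have h1 := hb X c (l.take k) b
    have h2 := sz_take l k
    have h3 := sz_drop l k
    have h4 : sz ((l.take k).foldl (fun b e => g X (c, (b, e))) b) ≤ B' (sz (c, (l, b))) := by
      refine h1.trans ((hle _).trans (hm ?_))
      simp only [sz_pair]
      omega
    have h5 : sz (c, (l.drop k, (l.take k).foldl (fun b e => g X (c, (b, e))) b)) =
        2 * sz c + 1 + (2 * sz (l.drop k) + 1 +
          sz ((l.take k).foldl (fun b e => g X (c, (b, e))) b)) := by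
      simp only [sz_pair]
    have h6 : sz (c, (l, b)) = 2 * sz c + 1 + (2 * sz l + 1 + sz b) := by
      simp only [sz_pair]
    rw [h5]
    omega
  refine OFP.congr (OFP.snd' (OFP.snd' hit)) ?_
  rintro X ⟨c, l, b⟩
  simp only [Helper22.un_length]
  rw [ofo_iter]
  simp

private theorem ofo_all {p : β → Bool} (l : List β) (b : Bool) :
    l.foldl (fun b e => b && p e) b = (b && l.all p) := by
  induction l generalizing b with
  | nil => simp
  | cons e l ih => rw [List.foldl_cons, ih, List.all_cons, Bool.and_assoc]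

private theorem ofo_any {p : β → Bool} (l : List β) (b : Bool) :
    l.foldl (fun b e => b || p e) b = (b || l.any p) := by
  induction l generalizing b with
  | nil => simp
  | cons e l ih => rw [List.foldl_cons, ih, List.any_cons, Bool.or_assoc]

theorem OFP.all_ctx [Inhabited β] {g : Oracle → γ × β → Bool} (hg : OFP g) :
    OFP fun X (p : γ × List β) => p.2.all fun e => g X (p.1, e) := by
  have h1 : OFP fun X (q : γ × (Bool × β)) => q.2.1 && g X (q.1, q.2.2) :=
    OFP.and (OFP.of_fp (by fun_prop)) (hg.on (by fun_prop))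
  have h2 := OFP.foldl_ctx (β := β) h1 (B := fun _ => 1) (by fun_prop) (fun X c l b => by simp)
  have h3 : FP fun p : γ × List β => (p.1, (p.2, true)) := by fun_prop
  refine OFP.congr (h2.on h3) ?_
  intro X p
  simp only
  rw [ofo_all (p := fun e => g X (p.1, e)), Bool.true_and]

theorem OFP.any_ctx [Inhabited β] {g : Oracle → γ × β → Bool} (hg : OFP g) :
    OFP fun X (p : γ × List β) => p.2.any fun e => g X (p.1, e) := by
  have h1 : OFP fun X (q : γ × (Bool × β)) => q.2.1 || g X (q.1, q.2.2) :=
    OFP.or (OFP.of_fp (by fun_prop)) (hg.on (by fun_prop))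
  have h2 := OFP.foldl_ctx (β := β) h1 (B := fun _ => 1) (by fun_prop) (fun X c l b => by simp)
  have h3 : FP fun p : γ × List β => (p.1, (p.2, false)) := by fun_prop
  refine OFP.congr (h2.on h3) ?_
  intro X p
  simp only
  rw [ofo_any (p := fun e => g X (p.1, e)), Bool.false_or]

end Pool.Agent.APX
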