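import Pool.Agent.APX.Words

set_option autoImplicit false

/-!
# APX-WordsFP: operations on binary words in polynomial time
-/

namespace Pool.Agent.APX

open Pool.Agent.Helper22 N487b59b3

variable {α : Type} [N487b59b3 α]

/-- one step of the comparison: `(decided, answer, rest of the second word)` -/
private def wordsFP_ls (s : Bool × (Bool × List Bool)) (a : Bool) : Bool × (Bool × List Bool) :=
  if s.1 then s else
    if s.2.2.isEmpty then (true, (false, [])) else
      if a == s.2.2.headD false then (false, (false, s.2.2.tail))
      else (true, (!a && s.2.2.headD false, []))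

private theorem wordsFP_ls_dec (u : List Bool) (t : Bool × List Bool) :
    u.foldl wordsFP_ls (true, t) = (true, t) := by
  induction u with
  | nil => rfl
  | cons a u ih => simp [wordsFP_ls, ih]

private theorem wordsFP_ltb (u v : List Bool) :
    (u.foldl wordsFP_ls (false, (false, v))).2.1 = ltb u v := by
  induction u generalizing v with
  | nil => cases v <;> simp [ltb]
  | cons a u ih =>
    cases v with
    | nil =>
      have h : wordsFP_ls (false, (false, [])) a = (true, (false, [])) := by simp [wordsFP_ls]
      rw [List.foldl_cons, h, wordsFP_ls_dec]
      simp [ltb]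
    | cons b v =>
      by_cases hab : a = b
      · have h : wordsFP_ls (false, (false, b :: v)) a = (false, (false, v)) := by
          simp [wordsFP_ls, hab]
        rw [List.foldl_cons, h, ih]
        subst hab
        cases a <;> simp [ltb]
      · have h : wordsFP_ls (false, (false, b :: v)) a = (true, (!a && b, [])) := by
          simp [wordsFP_ls, hab]
        rw [List.foldl_cons, h, wordsFP_ls_dec]
        cases a <;> cases b <;> simp_all [ltb]

private theorem wordsFP_ls_sz (u : List Bool) (s : Bool × (Bool × List Bool)) :
    sz (u.foldl wordsFP_ls s) ≤ sz s := by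
  induction u generalizing s with
  | nil => exact le_rfl
  | cons a u ih =>
    rw [List.foldl_cons]
    refine (ih _).trans ?_
    obtain ⟨d, e, v⟩ := s
    unfold wordsFP_ls
    split_ifs
    · exact le_rfl
    · simp only [sz_pair, sz_bool, sz_bits, List.length_nil]
      omega
    · simp
    · simp only [sz_pair, sz_bool, sz_bits, List.length_nil]
      omega

/-- PLAN. A fold along the first word, the state being `(answer decided?, answer, rest of the second
word)`. -/
theorem FP.ltb {f g : α → List Bool} (hf : FP f) (hg : FP g) : FP fun a => ltb (f a) (g a) := by
  have h1 : FP fun p : List Bool × (Bool × (Bool × List Bool)) => p.1.foldl wordsFP_ls p.2 := by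
    refine FP.foldl (g := wordsFP_ls) ?_ (B := fun n => n) (by fun_prop) ?_
    · unfold wordsFP_ls
      have h2 : FP fun p : (Bool × (Bool × List Bool)) × Bool => p.1.2.2.headD false :=
        FP.headD (by fun_prop) _
      fun_prop
    · intro l a
      exact (wordsFP_ls_sz l a).trans (by omega)
  have h3 := h1.comp (hf.pair (FP.pair (FP.const false) (FP.pair (FP.const false) hg)))
  have h4 := FP.fst.comp (FP.snd.comp h3)
  refine (congrArg FP (funext fun a => ?_)).mp h4
  exact wordsFP_ltb (f a) (g a)

private theorem FP.wordsFP_rev {f : α → List Bool} (hf : FP f) : FP fun a => (f a).reverse := by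
  have h1 : FP fun p : List Bool × List Bool => p.1.foldl (fun s b => b :: s) p.2 := by
    refine FP.foldl (g := fun (s : List Bool) (b : Bool) => b :: s) (by fun_prop)
      (B := fun n => n) (by fun_prop) ?_
    intro l a
    have h : l.foldl (fun s b => b :: s) a = l.reverse ++ a := by
      clear hf
      induction l generalizing a with
      | nil => rfl
      | cons c l ih => rw [List.foldl_cons, ih]; simp
    rw [h]
    simp only [sz_bits, List.length_append, List.length_reverse]
    omega
  have h3 := h1.comp (hf.pair (FP.const ([] : List Bool)))
  refine (congrArg FP (funext fun a => ?_)).mp h3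
  simp

/-- one step of the increment: `(carry, word so far)` -/
private def wordsFP_is (s : Bool × List Bool) (b : Bool) : Bool × List Bool :=
  (b && s.1, (!(b == s.1)) :: s.2)

private theorem wordsFP_incw_ones (u : List Bool) (h : u.all (fun b => b) = true) :
    incw u = u.map fun _ => false := by
  cases u with
  | nil => rfl
  | cons a u =>
    simp only [List.all_cons, Bool.and_eq_true] at h
    rw [incw, if_pos h.2, h.1]
    simp

private theorem wordsFP_incw (u : List Bool) :
    u.foldr (fun b s => wordsFP_is s b) (true, []) = (u.all (fun b => b), incw u) := by
  induction u with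
  | nil => rfl
  | cons a u ih =>
    rw [List.foldr_cons, ih]
    unfold wordsFP_is
    simp only [List.all_cons]
    rw [incw]
    by_cases h : u.all (fun b => b) = true
    · rw [if_pos h, h, wordsFP_incw_ones u h]
      cases a <;> rfl
    · rw [if_neg h]
      simp only [Bool.not_eq_true] at h
      rw [h]
      cases a <;> rfl

private theorem wordsFP_is_sz (u : List Bool) (s : Bool × List Bool) :
    sz (u.foldl wordsFP_is s) = sz s + 3 * u.length := by
  induction u generalizing s with
  | nil => rfl
  | cons a u ih =>
    rw [List.foldl_cons, ih]
    obtain ⟨d, v⟩ := s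
    simp only [wordsFP_is, sz_pair, sz_bool, sz_bits, List.length_cons]
    ring

/-- PLAN. `incw` is a fold over the reversed word with a carry. -/
theorem FP.incw {f : α → List Bool} (hf : FP f) : FP fun a => incw (f a) := by
  have h1 : FP fun p : List Bool × (Bool × List Bool) => p.1.foldl wordsFP_is p.2 := by
    refine FP.foldl (g := wordsFP_is) ?_ (B := fun n => n) (by fun_prop) ?_
    · unfold wordsFP_is
      fun_prop
    · intro l a
      rw [wordsFP_is_sz]
      simp only [sz_bits]
      omega
  have h3 := h1.comp ((FP.wordsFP_rev hf).pair (FP.pair (FP.const true) (FP.const ([] : List Bool))))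
  have h4 := FP.snd.comp h3
  refine (congrArg FP (funext fun a => ?_)).mp h4
  simp only [List.foldl_reverse, wordsFP_incw]

theorem FP.zr {β : Type} [N487b59b3 β] {f : α → List β} (hf : FP f) :
    FP fun a => zr (f a) := by
  have h1 : FP fun a => (un (f a).length).map fun _ : Bool => false :=
    FP.map (FP.const false) (FP.un_length hf)
  refine (congrArg FP (funext fun a => ?_)).mp h1
  rw [APX.zr]
  simp [un]

theorem FP.fit {f g : α → List Bool} (hf : FP f) (hg : FP g) : FP fun a => fit (f a) (g a) := by
  unfold APX.fit
  exact FP.take (hg.append (FP.zr hf)) hf

/-- `j`-th digit, `j` in unary -/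
theorem FP.getU {f g : α → List Bool} (hf : FP f) (hg : FP g) :
    FP fun a => (f a).getD (g a).length false := by
  have h1 : FP fun a => ((f a).drop (g a).length).headD false := FP.headD (hf.drop hg) false
  refine (congrArg FP (funext fun a => ?_)).mp h1
  generalize f a = u
  generalize (g a).length = n
  induction n generalizing u with
  | zero => cases u <;> simp
  | succ n ih => cases u <;> simp_all

end Pool.Agent.APX
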