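import Pool.Agent.APX.FoldA
import Pool.Agent.APX.WordsFP
import Pool.Agent.APX.OFold

set_option autoImplicit false

/-!
# APX-FoldC: the combining scheme for collisions is polynomial time with oracle
-/

namespace Pool.Agent.APX

open Pool.Agent.Helper22 N487b59b3 N68a2faeb

namespace Fold

variable {Q : Problem} (T : Fold Q)

private theorem t_fp {α : Type} [N487b59b3 α] {f : α → List Bool} (hf : FP f) :
    FP fun a => T.t (f a) := ((isPolyTime_iff _).1 T.t_poly).comp hf

private theorem n_fp {α : Type} [N487b59b3 α] {f : α → List Bool} (hf : FP f) :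
    FP fun a => T.n (f a) := ((isPolyTime_iff _).1 T.n_poly).comp hf

private theorem length_eq_fp {α β γ : Type} [N487b59b3 α] [N487b59b3 β] [N487b59b3 γ]
    {f : α → List β} {g : α → List γ} (hf : FP f) (hg : FP g) :
    FP fun a => decide ((f a).length = (g a).length) := by
  have h := (FP.length_le hf hg).and (FP.length_le hg hf)
  refine (congrArg FP (funext fun a => ?_)).mp h
  rw [Bool.eq_iff_iff]
  simp only [Bool.and_eq_true, decide_eq_true_eq]
  omega

/-- the test for one point -/
private def tst (X : Oracle) (p : (List Bool × (List Bool × List Bool)) × List Bool) : Bool :=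
  Helper22.weq (p.2.take p.1.2.1.length) p.1.2.1 &&
    (decide (p.2.length = (dgU (T.t p.1.1)).length * ((T.n p.1.1).length + 1)) &&
      Helper22.weq (T.f.run X (p.1.1, p.2)) p.1.2.2)

private theorem tst_ofp : OFP T.tst := by
  unfold tst
  have h1 : FP fun p : (List Bool × (List Bool × List Bool)) × List Bool =>
      Helper22.weq (p.2.take p.1.2.1.length) p.1.2.1 := by fun_prop
  have h2 : FP fun p : (List Bool × (List Bool × List Bool)) × List Bool =>
      decide (p.2.length = (dgU (T.t p.1.1)).length * ((T.n p.1.1).length + 1)) := by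
    have h3 : FP fun p : (List Bool × (List Bool × List Bool)) × List Bool =>
        un ((dgU (T.t p.1.1)).length * (true :: T.n p.1.1).length) :=
      FP.unMul (dgU_fp (T.t_fp (by fun_prop))) (FP.cons (FP.const true) (T.n_fp (by fun_prop)))
    have h4 := length_eq_fp (α := (List Bool × (List Bool × List Bool)) × List Bool)
      (f := fun p => p.2) FP.snd h3
    simpa only [un_length, List.length_cons] using h4
  have h5 : OFP fun X (p : (List Bool × (List Bool × List Bool)) × List Bool) =>
      T.f.run X (p.1.1, p.2) := (OFP.proc T.f).on (by fun_prop)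
  exact OFP.and (OFP.of_fp h1) (OFP.and (OFP.of_fp h2) (OFP.weq h5 (OFP.of_fp (by fun_prop))))

/-- PLAN. The tests before `all` are in `FP`; for `all` use `OFP.all_ctx` with the context
`(x, (P, first value))`. -/
theorem okO_ofp : OFP T.okO := by
  have h1 : FP fun p : List Bool × (List Bool × (List Bool × List Bool)) =>
      Helper22.weq p.2.2.2 (tw (wt p.2.2.2)) :=
    FP.weq (by fun_prop) (FP.tw (FP.wt (by fun_prop)))
  have h2 : FP fun p : List Bool × (List Bool × (List Bool × List Bool)) =>
      decide (p.2.1.length ≤ (dgU (T.t p.1)).length) :=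
    FP.length_le (by fun_prop) (dgU_fp (T.t_fp FP.fst))
  have h3 : FP fun p : List Bool × (List Bool × (List Bool × List Bool)) =>
      decide ((wt p.2.2.2).length = (pw (T.t p.1 ++ (T.t p.1 ++ [true])) p.2.1).length) :=
    length_eq_fp (FP.wt (by fun_prop)) (pw_fp (FP.append (T.t_fp FP.fst)
      (FP.append (T.t_fp FP.fst) (FP.const _))) (by fun_prop))
  have h4 : FP fun p : List Bool × (List Bool × (List Bool × List Bool)) => ndp (wt p.2.2.2) :=
    ndp_fp (FP.wt (by fun_prop))
  have h5 : FP fun p : List Bool × (List Bool × (List Bool × List Bool)) =>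
      (p.1, (wt p.2.2.2).headD []) :=
    FP.pair FP.fst (FP.headD (FP.wt (by fun_prop)) _)
  have h6 : OFP fun X (p : List Bool × (List Bool × (List Bool × List Bool))) =>
      ((p.1, (p.2.2.1, T.f.run X (p.1, (wt p.2.2.2).headD []))), wt p.2.2.2) :=
    ((OFP.of_fp FP.fst).pair ((OFP.of_fp (by fun_prop)).pair ((OFP.proc T.f).on h5))).pair
      (OFP.of_fp (FP.wt (by fun_prop)))
  have h7 := (OFP.all_ctx (β := List Bool) T.tst_ofp).comp h6
  exact OFP.congr (OFP.and (OFP.of_fp h1) (OFP.and (OFP.of_fp h2) (OFP.and (OFP.of_fp h3)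
    (OFP.and (OFP.of_fp h4) h7)))) (fun X p => rfl)

theorem staO_fp : FP staO := FP.tw (FP.cons FP.snd (FP.const _))

theorem codO_ofp : OFP T.codO :=
  (OFP.proc T.f).on (FP.pair FP.fst (FP.headD (FP.wt FP.snd) _))

theorem cmbO_fp : FP cmbO :=
  FP.tw (FP.append (FP.wt (by fun_prop)) (FP.wt (by fun_prop)))

theorem solO_ofp : OFP T.solO :=
  (OFP.proc T.sol).on (FP.pair FP.fst (FP.take (FP.wt FP.snd) (T.t_fp FP.fst)))

end Fold

end Pool.Agent.APX
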