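import Pool.Agent.APX.AppDefs
import Pool.Agent.APX.Tw

set_option autoImplicit false

/-!
# The combining scheme for collisions

An object of level `i` in the subcube `P` is a word `tw l`, where `l` is a list of `2 ^ i` different
points with the prefix `P` and with the same value of `f`; its code is this value.
-/

namespace Pool.Agent.APX

open Pool.Agent.Helper22 N487b59b3 N68a2faeb

/-- `2 ^ i` in unary, `i` in unary (correct if this is at most the length of `B`) -/
def pw (B i : List Bool) : List Bool := i.foldl (fun w _ => (w ++ w).take B.length) [true]

/-- `⌈log₂ t⌉` in unary, `t` in unary -/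
def dgU (t : List Bool) : List Bool :=
  (t.foldl (fun (s : List Bool × List Bool) (_ : Bool) =>
    if t.length ≤ s.1.length then s else (s.1 ++ s.1, true :: s.2)) ([true], [])).2

/-- the words of the list are different -/
def ndp (l : List (List Bool)) : Bool :=
  (l.foldl (fun (s : Bool × List (List Bool)) (w : List Bool) => (s.1 && !wmem s.2 w, w :: s.2))
    (true, [])).1

namespace Fold

variable {Q : Problem} (T : Fold Q)

/-- the objects; the level is the length of `p.2.1` -/
def okO (X : Oracle) (p : List Bool × (List Bool × (List Bool × List Bool))) : Bool :=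
  Helper22.weq p.2.2.2 (tw (wt p.2.2.2)) &&
    (decide (p.2.1.length ≤ (dgU (T.t p.1)).length) &&
      (decide ((wt p.2.2.2).length = (pw (T.t p.1 ++ (T.t p.1 ++ [true])) p.2.1).length) &&
        (ndp (wt p.2.2.2) && (wt p.2.2.2).all fun v =>
          Helper22.weq (v.take p.2.2.1.length) p.2.2.1 &&
            (decide (v.length = (dgU (T.t p.1)).length * ((T.n p.1).length + 1)) &&
              Helper22.weq (T.f.run X (p.1, v)) (T.f.run X (p.1, (wt p.2.2.2).headD []))))))

/-- the first object of a point -/
def staO (p : List Bool × List Bool) : List Bool := tw [p.2]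

/-- the code of an object -/
def codO (X : Oracle) (p : List Bool × List Bool) : List Bool :=
  T.f.run X (p.1, (wt p.2).headD [])

/-- the combination of two objects -/
def cmbO (p : List Bool × (List Bool × (List Bool × List Bool))) : List Bool :=
  tw (wt p.2.2.1 ++ wt p.2.2.2)

/-- the solution -/
def solO (X : Oracle) (p : List Bool × List Bool) : List Bool :=
  T.sol.run X (p.1, (wt p.2).take (T.t p.1).length)

end Fold

end Pool.Agent.APX
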