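import Pool.Agent.APX.StudM
import Pool.Agent.APX.FoldB
import Pool.Agent.APX.FoldC

set_option autoImplicit false

/-!
# APX-FoldM: problems solved by collisions are reducible to CPLS
-/

namespace Pool.Agent.APX

open Pool.Agent.Helper22 N487b59b3 N68a2faeb

/-- PLAN. Build a `Scheme Q` with `K := fun x => dgU (T.t x)` (`dgU_fp`, `length_dgU`, `dgU_eq`),
the same `n`, and the procedures of `okO_ofp`, ...; the polynomial is obtained from `okO_length` and
`exists_poly_length`. -/
theorem Fold.reducible {Q : Problem} (T : Fold Q) : ReducibleToCPLS Q := by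
  have hK : IsPolyTime fun x => dgU (T.t x) := (isPolyTime_iff _).2 (dgU_fp ((isPolyTime_iff _).1 T.t_poly))
  obtain ⟨pt, hpt⟩ := exists_poly_length T.t_poly
  obtain ⟨pn, hpn⟩ := exists_poly_length T.n_poly
  obtain ⟨pK, hpK⟩ := exists_poly_length hK
  obtain ⟨okP, hok⟩ := T.okO_ofp
  obtain ⟨stP, hst⟩ := OFP.of_fp staO_fp
  obtain ⟨coP, hco⟩ := T.codO_ofp
  obtain ⟨cmP, hcm⟩ := OFP.of_fp cmbO_fp
  obtain ⟨soP, hso⟩ := T.solO_ofp
  have S : Scheme Q :=
    { K := fun x => dgU (T.t x)
      K_poly := hK
      n := T.n
      n_poly := T.n_poly
      n_pos := T.n_pos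
      p := (2 * pt + 1) * (2 * (pK * (pn + 1)) + 1)
      ok := okP
      start := stP
      code := coP
      comb := cmP
      sol := soP
      ok_length := by
        intro X x P O i h
        rw [hok] at h
        refine (T.okO_length h).trans ?_
        have h1 := hpt x
        have h2 := hpn x
        have h3 := hpK x
        rw [length_dgU] at h3
        simp only [Polynomial.eval_mul, Polynomial.eval_add, Polynomial.eval_one, Polynomial.eval_ofNat]
        exact Nat.mul_le_mul (by omega)
          (Nat.add_le_add_right (Nat.mul_le_mul le_rfl (Nat.mul_le_mul h3 (by omega))) _)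
      ok_start := by
        intro X x v h
        rw [length_dgU] at h
        rw [hok, hst]
        exact T.okO_start X x v h
      code_length := by
        intro X x P O i _
        rw [hco]
        exact T.codO_length X x O
      ok_comb := by
        intro X x P c c' O O' i hi hc hc' hne h h' he
        rw [length_dgU] at hi
        rw [hok] at h h' ⊢
        rw [hco, hco] at he
        rw [hcm]
        exact T.okO_comb hi hc hc' hne h h' he
      ok_sol := by
        intro X x O h
        rw [hok, length_dgU] at h
        rw [hso]
        exact T.okO_sol h }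
  exact S.reducible

end Pool.Agent.APX
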