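import Pool.Agent.APX.Lib

set_option autoImplicit false

/-!
# APX-OBound: size bounds for polynomial time functions with oracle
-/

namespace Pool.Agent.APX

open Pool.Agent.Helper22 N487b59b3 N68a2faeb

variable {α β : Type} [N487b59b3 α] [N487b59b3 β]

private theorem answers_length (M : OracleProc α β) (X : Oracle) (a : α) (n : ℕ) :
    (M.answers X a n).length = n := by
  induction n with
  | zero => rfl
  | succ n ih =>
    show (X (M.query (a, M.answers X a n)) :: M.answers X a n).length = n + 1
    rw [List.length_cons, ih]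

/-- `M.run X a = M.out (a, as)` with `as.length = (M.clock a).length ≤ C (sz a)` (`FP.bound`,
`length_le_sz`), so `sz (a, as) ≤ 2 * sz a + 1 + 3 * C (sz a)`; then the bound of `M.out`. -/
theorem OFP.bound {F : Oracle → α → β} (h : OFP F) :
    ∃ B, PB B ∧ Monotone B ∧ ∀ (X : Oracle) (a : α), sz (F X a) ≤ B (sz a) := by
  obtain ⟨M, hM⟩ := h
  obtain ⟨C, hC, hCm, hCb⟩ := ((isPolyTime_iff _).1 M.clock_poly).bound
  obtain ⟨D, hD, hDm, hDb⟩ := ((isPolyTime_iff _).1 M.out_poly).bound
  refine ⟨fun n => D (2 * n + 1 + 3 * C n), ?_, ?_, fun X a => ?_⟩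
  · exact hD.comp (((((PB.const 2).mul PB.id).add (PB.const 1))).add ((PB.const 3).mul hC))
  · intro m n hmn
    refine hDm ?_
    have h1 := hCm hmn
    omega
  · rw [← hM X a]
    refine (hDb _).trans (hDm ?_)
    have h1 : (M.answers X a (M.clock a).length).length ≤ C (sz a) := by
      rw [answers_length]
      exact (length_le_sz _).trans (hCb a)
    rw [sz_pair, sz_bits]
    omega

end Pool.Agent.APX
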