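import Pool.Agent.APX.Proc
import Pool.Agent.APX.OFold
import Pool.Agent.APX.OBound

set_option autoImplicit false

/-!
# APX-FpA: evaluations of `F` are polynomial time with oracle
-/

namespace Pool.Agent.APX

open Pool.Agent.Helper22 N487b59b3

namespace Scheme

variable {Q : Problem} (S : Scheme Q)

theorem okU_ofp : OFP fun X (p : List Bool × (List Bool × (List Bool × List Bool))) =>
    S.okU X p.1 p.2.1.length p.2.2.1 p.2.2.2 := by
  exact (OFP.proc S.ok).on (f := fun p : List Bool × (List Bool × (List Bool × List Bool)) =>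
    (p.1, (un p.2.1.length, p.2.2)))
    (FP.pair FP.fst (FP.pair (FP.un_length (FP.fst' FP.snd)) (FP.snd' FP.snd)))

theorem cod_ofp : OFP fun X (p : List Bool × List Bool) => S.cod X p.1 p.2 := by
  exact OFP.proc S.code

private lemma stF_ofp : OFP fun X (q : (List Bool × (List Bool × List Bool)) ×
    ((Bool × (List Bool × List Bool)) × List Bool)) =>
    S.stF X q.1.1 q.1.2.1.length q.1.2.2 q.2.1 q.2.2 := by
  have e1 : FP fun q : (List Bool × (List Bool × List Bool)) ×
      ((Bool × (List Bool × List Bool)) × List Bool) => q.2.1.1 := by fun_prop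
  have e2 : FP fun q : (List Bool × (List Bool × List Bool)) ×
      ((Bool × (List Bool × List Bool)) × List Bool) => !q.2.1.2.2.isEmpty :=
    FP.not (FP.isEmpty (by fun_prop))
  have e3 : FP fun q : (List Bool × (List Bool × List Bool)) ×
      ((Bool × (List Bool × List Bool)) × List Bool) => q.2.1.2.2.tail := FP.tail (by fun_prop)
  have e4 : FP fun q : (List Bool × (List Bool × List Bool)) ×
      ((Bool × (List Bool × List Bool)) × List Bool) => [q.2.1.2.2.headD false] :=
    (FP.headD (by fun_prop) false).cons (FP.const [])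
  have e5 : FP fun q : (List Bool × (List Bool × List Bool)) ×
      ((Bool × (List Bool × List Bool)) × List Bool) =>
      q.1.2.2 ++ (q.2.1.2.1 ++ [q.2.1.2.2.headD false]) :=
    FP.append (by fun_prop) (FP.append (by fun_prop) e4)
  have e6 : FP fun q : (List Bool × (List Bool × List Bool)) ×
      ((Bool × (List Bool × List Bool)) × List Bool) =>
      (q.1.1, (q.1.2.1, (q.1.2.2 ++ (q.2.1.2.1 ++ [q.2.1.2.2.headD false]), q.2.2))) :=
    FP.pair (by fun_prop) (FP.pair (by fun_prop) (FP.pair e5 (by fun_prop)))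
  have e7 : FP fun q : (List Bool × (List Bool × List Bool)) ×
      ((Bool × (List Bool × List Bool)) × List Bool) => (q.1.1, q.2.2) :=
    FP.pair (by fun_prop) (by fun_prop)
  exact ((OFP.of_fp e1).and ((OFP.of_fp e2).and (S.okU_ofp.on e6))).pair
    ((S.cod_ofp.on e7).pair (OFP.of_fp e3))

private lemma sz_tail_le (l : List Bool) : sz l.tail ≤ sz l := by
  have h := sz_drop l 1
  rwa [List.drop_one] at h

private lemma fold_size (X : Oracle) (x : List Bool) (i : ℕ) (P : List Bool) (M : ℕ)
    (l : List (List Bool)) (h1 : ∀ O ∈ l, sz (S.cod X x O) ≤ M)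
    (b : Bool × (List Bool × List Bool)) (h0 : sz b.2.1 ≤ M) :
    sz (l.foldl (S.stF X x i P) b).2.1 ≤ M ∧ sz (l.foldl (S.stF X x i P) b).2.2 ≤ sz b.2.2 := by
  induction l generalizing b with
  | nil => exact ⟨h0, le_rfl⟩
  | cons O l ih =>
    rw [List.foldl_cons]
    obtain ⟨h2, h3⟩ := ih (fun O' hO' => h1 O' (List.mem_cons_of_mem _ hO'))
      (S.stF X x i P b O) (h1 O List.mem_cons_self)
    exact ⟨h2, h3.trans (sz_tail_le b.2.2)⟩

private lemma ste_size (X : Oracle) (x : List Bool) (M : ℕ)
    (l : List (List Bool)) (h1 : ∀ O ∈ l, sz (S.cod X x O) ≤ M) (h2 : ∀ O ∈ l, sz O ≤ M)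
    (b : List (List Bool × (List Bool × List Bool)) × (List Bool × List Bool))
    (h0 : sz b.2.1 ≤ M) :
    sz (l.foldl (fun st O => (st.1 ++ [(st.2.1 ++ [st.2.2.headD false], (O, S.cod X x O))],
      (S.cod X x O, st.2.2.tail))) b).1 ≤ sz b.1 + l.length * (2 * (5 * M + 8) + 1) ∧
    sz (l.foldl (fun st O => (st.1 ++ [(st.2.1 ++ [st.2.2.headD false], (O, S.cod X x O))],
      (S.cod X x O, st.2.2.tail))) b).2.1 ≤ M ∧
    sz (l.foldl (fun st O => (st.1 ++ [(st.2.1 ++ [st.2.2.headD false], (O, S.cod X x O))],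
      (S.cod X x O, st.2.2.tail))) b).2.2 ≤ sz b.2.2 := by
  induction l generalizing b with
  | nil => exact ⟨by simp, h0, le_rfl⟩
  | cons O l ih =>
    rw [List.foldl_cons]
    have hc := h1 O List.mem_cons_self
    have hO := h2 O List.mem_cons_self
    obtain ⟨h3, h4, h5⟩ := ih (fun O' hO' => h1 O' (List.mem_cons_of_mem _ hO'))
      (fun O' hO' => h2 O' (List.mem_cons_of_mem _ hO'))
      (b.1 ++ [(b.2.1 ++ [b.2.2.headD false], (O, S.cod X x O))], (S.cod X x O, b.2.2.tail)) hc
    refine ⟨h3.trans ?_, h4, h5.trans (sz_tail_le b.2.2)⟩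
    rw [List.length_cons]
    have e : (l.length + 1) * (2 * (5 * M + 8) + 1) =
        l.length * (2 * (5 * M + 8) + 1) + (2 * (5 * M + 8) + 1) := by ring
    rw [e]
    simp only [sz_append, sz_cons, sz_nil, sz_pair, sz_bool]
    omega

private lemma steg_ofp : OFP fun X (q : List Bool ×
    ((List (List Bool × (List Bool × List Bool)) × (List Bool × List Bool)) × List Bool)) =>
    (q.2.1.1 ++ [(q.2.1.2.1 ++ [q.2.1.2.2.headD false], (q.2.2, S.cod X q.1 q.2.2))],
      (S.cod X q.1 q.2.2, q.2.1.2.2.tail)) := by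
  have e1 : FP fun q : List Bool ×
      ((List (List Bool × (List Bool × List Bool)) × (List Bool × List Bool)) × List Bool) =>
      q.2.1.1 := by fun_prop
  have e2 : FP fun q : List Bool ×
      ((List (List Bool × (List Bool × List Bool)) × (List Bool × List Bool)) × List Bool) =>
      q.2.1.2.1 ++ [q.2.1.2.2.headD false] :=
    FP.append (by fun_prop) ((FP.headD (by fun_prop) false).cons (FP.const []))
  have e3 : FP fun q : List Bool ×
      ((List (List Bool × (List Bool × List Bool)) × (List Bool × List Bool)) × List Bool) =>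
      q.2.2 := by fun_prop
  have e4 : FP fun q : List Bool ×
      ((List (List Bool × (List Bool × List Bool)) × (List Bool × List Bool)) × List Bool) =>
      q.2.1.2.2.tail := FP.tail (by fun_prop)
  have e5 : FP fun q : List Bool ×
      ((List (List Bool × (List Bool × List Bool)) × (List Bool × List Bool)) × List Bool) =>
      (q.1, q.2.2) := FP.pair (by fun_prop) (by fun_prop)
  have hc := S.cod_ofp.on e5
  exact ((OFP.of_fp e1).append (((OFP.of_fp e2).pair ((OFP.of_fp e3).pair hc)).cons
    (OFP.of_fp (FP.const [])))).pair (hc.pair (OFP.of_fp e4))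

theorem runF_ofp : OFP fun X (p : List Bool × (List Bool × (List Bool × (List Bool ×
    (List Bool × List (List Bool)))))) =>
    S.runF X p.1 p.2.1.length p.2.2.1 p.2.2.2.1 p.2.2.2.2.1 p.2.2.2.2.2 := by
  obtain ⟨B, hB, hBm, hBle⟩ := S.cod_ofp.bound
  have h1 := OFP.foldl_ctx (β := List Bool) S.stF_ofp
    (B := fun n => 3 + (2 * (n + B n) + 1 + n)) (by fun_prop) (by
    rintro X ⟨x, I, P⟩ l b
    have h2 := S.fold_size X x I.length P (sz ((x, (I, P)), (l, b)) + B (sz ((x, (I, P)), (l, b)))) l
      (by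
        intro O hO
        have h3 := hBle X (x, O)
        have h4 := sz_mem_le hO
        have h5 : sz (x, O) ≤ sz ((x, (I, P)), (l, b)) := by
          simp only [sz_pair]
          omega
        exact (h3.trans (hBm h5)).trans (Nat.le_add_left _ _)) b (by
        have h6 : sz b = 2 * sz b.1 + 1 + sz b.2 := sz_pair b.1 b.2
        have h7 : sz b.2 = 2 * sz b.2.1 + 1 + sz b.2.2 := sz_pair b.2.1 b.2.2
        have h8 : sz ((x, (I, P)), (l, b)) = 2 * sz (x, (I, P)) + 1 + (2 * sz l + 1 + sz b) := by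
          rw [sz_pair (x, (I, P)) (l, b), sz_pair l b]
        omega)
    have h6 : sz b = 2 * sz b.1 + 1 + sz b.2 := sz_pair b.1 b.2
    have h7 : sz b.2 = 2 * sz b.2.1 + 1 + sz b.2.2 := sz_pair b.2.1 b.2.2
    have h8 : sz ((x, (I, P)), (l, b)) = 2 * sz (x, (I, P)) + 1 + (2 * sz l + 1 + sz b) := by
      rw [sz_pair (x, (I, P)) (l, b), sz_pair l b]
    have h9 := sz_pair (l.foldl (S.stF X x I.length P) b).1 (l.foldl (S.stF X x I.length P) b).2
    have h10 := sz_pair (l.foldl (S.stF X x I.length P) b).2.1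
      (l.foldl (S.stF X x I.length P) b).2.2
    rw [Prod.mk.eta] at h9 h10
    rw [sz_bool] at h9
    show sz (l.foldl (S.stF X x I.length P) b) ≤ _
    obtain ⟨h11, h12⟩ := h2
    rw [h9, h10]
    omega)
  have e : FP fun p : List Bool × (List Bool × (List Bool × (List Bool ×
      (List Bool × List (List Bool))))) =>
      ((p.1, (p.2.1, p.2.2.1)), (p.2.2.2.2.2, (true, (p.2.2.2.1, p.2.2.2.2.1)))) :=
    FP.pair (by fun_prop) (FP.pair (by fun_prop) (FP.pair (FP.const true) (by fun_prop)))
  exact h1.on e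

theorem steF_ofp : OFP fun X (p : List Bool × (List Bool × (List Bool × List (List Bool)))) =>
    S.steF X p.1 p.2.1 p.2.2.1 p.2.2.2 := by
  obtain ⟨B, hB, hBm, hBle⟩ := S.cod_ofp.bound
  have h1 := OFP.foldl_ctx (β := List Bool) S.steg_ofp
    (B := fun n => 2 * (n + n * (2 * (5 * (n + B n) + 8) + 1)) + 1 + (2 * (n + B n) + 1 + n))
    (by fun_prop) (by
    rintro X x l b
    have h6 : sz b = 2 * sz b.1 + 1 + sz b.2 := sz_pair b.1 b.2
    have h7 : sz b.2 = 2 * sz b.2.1 + 1 + sz b.2.2 := sz_pair b.2.1 b.2.2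
    have h8 : sz (x, (l, b)) = 2 * sz x + 1 + (2 * sz l + 1 + sz b) := by
      rw [sz_pair, sz_pair]
    have h2 := S.ste_size X x (sz (x, (l, b)) + B (sz (x, (l, b)))) l
      (by
        intro O hO
        have h3 := hBle X (x, O)
        have h4 := sz_mem_le hO
        have h5 : sz (x, O) ≤ sz (x, (l, b)) := by
          rw [h8, sz_pair]
          omega
        exact (h3.trans (hBm h5)).trans (Nat.le_add_left _ _))
      (by
        intro O hO
        have h4 := sz_mem_le hO
        omega) b (by omega)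
    obtain ⟨h11, h12, h13⟩ := h2
    have h14 : l.length ≤ sz (x, (l, b)) := by
      have h15 := length_le_sz l
      omega
    have h16 := Nat.mul_le_mul_right
      (2 * (5 * (sz (x, (l, b)) + B (sz (x, (l, b)))) + 8) + 1) h14
    have h9 := sz_pair (l.foldl (fun st O => (st.1 ++ [(st.2.1 ++ [st.2.2.headD false],
      (O, S.cod X x O))], (S.cod X x O, st.2.2.tail))) b).1
      (l.foldl (fun st O => (st.1 ++ [(st.2.1 ++ [st.2.2.headD false],
      (O, S.cod X x O))], (S.cod X x O, st.2.2.tail))) b).2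
    have h10 := sz_pair (l.foldl (fun st O => (st.1 ++ [(st.2.1 ++ [st.2.2.headD false],
      (O, S.cod X x O))], (S.cod X x O, st.2.2.tail))) b).2.1
      (l.foldl (fun st O => (st.1 ++ [(st.2.1 ++ [st.2.2.headD false],
      (O, S.cod X x O))], (S.cod X x O, st.2.2.tail))) b).2.2
    rw [Prod.mk.eta] at h9 h10
    show sz (l.foldl (fun st O => (st.1 ++ [(st.2.1 ++ [st.2.2.headD false],
      (O, S.cod X x O))], (S.cod X x O, st.2.2.tail))) b) ≤ _
    rw [h9, h10]
    show _ ≤ 2 * (sz (x, (l, b)) + sz (x, (l, b)) *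
      (2 * (5 * (sz (x, (l, b)) + B (sz (x, (l, b)))) + 8) + 1)) + 1 +
      (2 * (sz (x, (l, b)) + B (sz (x, (l, b)))) + 1 + sz (x, (l, b)))
    omega)
  have e : FP fun p : List Bool × (List Bool × (List Bool × List (List Bool))) =>
      (p.1, (p.2.2.2, (([] : List (List Bool × (List Bool × List Bool))), (p.2.1, p.2.2.1)))) :=
    FP.pair (by fun_prop) (FP.pair (by fun_prop) (FP.pair (FP.const []) (by fun_prop)))
  exact h1.on e

end Scheme

end Pool.Agent.APX
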