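import Pool.Agent.APX.FpA

set_option autoImplicit false

/-!
# APX-FpBA: evaluations of chains are polynomial time with oracle
-/

namespace Pool.Agent.APX

open Pool.Agent.Helper22 N487b59b3

namespace Scheme

variable {Q : Problem} (S : Scheme Q)

/-- contexts -/
private abbrev Ctx : Type := List Bool × (List Bool × List Bool)

/-- states -/
private abbrev Sta : Type := Bool × (List Bool × List (List Bool))

/-- the first argument of `F` -/
private def argA (st : Sta) (it : List Bool) : List Bool :=
  if (st.2.2.headD []).headD false then st.2.1 else (wt it).headD []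

/-- the second argument of `F` -/
private def argB (st : Sta) (_it : List Bool) : List Bool :=
  if (st.2.2.headD []).headD false then (st.2.2.headD []).tail else st.2.1

private theorem FP.argA {α : Type} [N487b59b3 α] {f : α → Sta} {g : α → List Bool} (hf : FP f)
    (hg : FP g) : FP fun a => argA (f a) (g a) := by
  have h1 : FP fun a => wt (g a) := FP.wt hg
  unfold Scheme.argA
  fun_prop

private theorem FP.argB {α : Type} [N487b59b3 α] {f : α → Sta} {g : α → List Bool} (hf : FP f)
    (_hg : FP g) : FP fun a => argB (f a) (g a) := by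
  unfold Scheme.argB
  fun_prop

/-- one level of a chain -/
private def gC (X : Oracle) (q : Ctx × (Sta × List Bool)) : Sta :=
  S.stC X q.1.1 q.1.2.1.length q.1.2.2 q.2.1 q.2.2

private theorem gC_ofp : OFP S.gC := by
  have hA : FP fun q : Ctx × (Sta × List Bool) => argA q.2.1 q.2.2 :=
    FP.argA (by fun_prop) (by fun_prop)
  have hB : FP fun q : Ctx × (Sta × List Bool) => argB q.2.1 q.2.2 :=
    FP.argB (by fun_prop) (by fun_prop)
  have hW : FP fun q : Ctx × (Sta × List Bool) => wt q.2.2 := FP.wt (by fun_prop)
  have hR : OFP fun X (q : Ctx × (Sta × List Bool)) =>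
      S.runF X q.1.1 q.1.2.1.length q.1.2.2 (argA q.2.1 q.2.2) (argB q.2.1 q.2.2)
        (wt q.2.2).tail :=
    OFP.on (S.runF_ofp) (f := fun q : Ctx × (Sta × List Bool) =>
      (q.1.1, (q.1.2.1, (q.1.2.2, (argA q.2.1 q.2.2, (argB q.2.1 q.2.2, (wt q.2.2).tail))))))
      (by fun_prop)
  have hn : FP S.n := (isPolyTime_iff _).1 S.n_poly
  have hz1 : FP fun p : (Ctx × (Sta × List Bool)) × (Bool × (List Bool × List Bool)) =>
      zr (argA p.1.2.1 p.1.2.2) := FP.zr (FP.argA (by fun_prop) (by fun_prop))
  have hz2 : FP fun p : (Ctx × (Sta × List Bool)) × (Bool × (List Bool × List Bool)) =>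
      zr (S.n p.1.1.1) := FP.zr (hn.comp (by fun_prop))
  have hw := FP.weq hz1 hz2
  exact (OFP.map2 (f := fun p : (Ctx × (Sta × List Bool)) × (Bool × (List Bool × List Bool)) =>
    ((p.1.2.1.1 && (!p.1.2.1.2.2.isEmpty &&
      (Helper22.weq (zr (argA p.1.2.1 p.1.2.2)) (zr (S.n p.1.1.1)) &&
        (p.2.1 && p.2.2.2.isEmpty))), (p.2.2.1, p.1.2.1.2.2.tail)) : Sta)) (by fun_prop)
      (OFP.of_fp FP.id) hR).congr fun X q => rfl

private theorem runF_pt (X : Oracle) (x : List Bool) (i : ℕ) (P : List Bool)
    (Os : List (List Bool)) (st : Bool × (List Bool × List Bool)) :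
    (Os.foldl (S.stF X x i P) st).2.1 = st.2.1 ∨
      ∃ O ∈ Os, (Os.foldl (S.stF X x i P) st).2.1 = S.cod X x O := by
  induction Os generalizing st with
  | nil => exact Or.inl rfl
  | cons O Os ih =>
    rw [List.foldl_cons]
    rcases ih (S.stF X x i P st O) with h | ⟨O', hO', h⟩
    · exact Or.inr ⟨O, List.mem_cons_self, h⟩
    · exact Or.inr ⟨O', List.mem_cons_of_mem _ hO', h⟩

private theorem runC_sz (X : Oracle) (x : List Bool) (i : ℕ) (P : List Bool) (C : ℕ)
    (cs : List (List Bool)) (hc : ∀ it ∈ cs, ∀ O ∈ wt it, sz O ≤ C ∧ sz (S.cod X x O) ≤ C)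
    (st : Sta) (hst : sz st.2.1 ≤ C) :
    sz (cs.foldl (S.stC X x i P) st).2.1 ≤ C ∧
      sz (cs.foldl (S.stC X x i P) st).2.2 ≤ sz st.2.2 := by
  induction cs generalizing st with
  | nil => exact ⟨hst, le_refl _⟩
  | cons it cs ih =>
    rw [List.foldl_cons]
    have hit := hc it List.mem_cons_self
    have hA : sz (argA st it) ≤ C := by
      unfold argA
      split_ifs with h
      · exact hst
      · cases hw : wt it with
        | nil => simp
        | cons O l =>
          rw [List.headD_cons]
          exact (hit O (by rw [hw]; exact List.mem_cons_self)).1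
    have hp : sz (S.stC X x i P st it).2.1 ≤ C := by
      have h := S.runF_pt X x i P (wt it).tail (true, (argA st it, argB st it))
      change sz ((wt it).tail.foldl (S.stF X x i P) (true, (argA st it, argB st it))).2.1 ≤ C
      rcases h with h | ⟨O, hO, h⟩
      · rw [h]; exact hA
      · rw [h]; exact (hit O (List.mem_of_mem_tail hO)).2
    have he : sz (S.stC X x i P st it).2.2 ≤ sz st.2.2 := by
      change sz st.2.2.tail ≤ sz st.2.2
      have := sz_drop st.2.2 1
      rwa [List.drop_one] at this
    have h := ih (fun it' h' => hc it' (List.mem_cons_of_mem _ h')) (S.stC X x i P st it) hp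
    exact ⟨h.1, h.2.trans he⟩

private theorem sz_bits (l : List Bool) : sz l = 3 * l.length := by
  induction l with
  | nil => simp
  | cons b l ih => simp [ih]; omega

private theorem sz_wt {it O : List Bool} (h : O ∈ wt it) : sz O ≤ sz it := by
  rw [sz_bits, sz_bits]
  have h1 := (length_wt_le it).1
  have h2 : O.length ≤ ((wt it).map List.length).sum :=
    List.single_le_sum (fun _ _ => Nat.zero_le _) _ (List.mem_map_of_mem h)
  omega

/-- PLAN. `OFP.foldl_ctx` with context `(x, (i, P))` and `runF_ofp`; the point after an item is a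
value of `cod` at an object of the item or one of the words occurring before, so its size is
bounded by a polynomial in the size of the input (`OFP.bound` of `cod_ofp`; the size of an object
of an item is at most three times the length of the item, cf. `length_wt_le`). -/
theorem runC_ofp : OFP fun X (p : List Bool × (List Bool × (List Bool × (List (List Bool) ×
    (List Bool × List (List Bool)))))) =>
    S.runC X p.1 p.2.1.length p.2.2.1 p.2.2.2.1 p.2.2.2.2.1 p.2.2.2.2.2 := by
  obtain ⟨B, hB, hm, hb⟩ := OFP.bound S.cod_ofp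
  have key := OFP.foldl_ctx (γ := Ctx) (δ := Sta) (β := List Bool) S.gC_ofp
    (B := fun n => 2 * 1 + 1 + (2 * (n + B (2 * n + 1 + n)) + 1 + n)) (by fun_prop) (by
      intro X c l b
      have h := S.runC_sz X c.1 c.2.1.length c.2.2 (sz (c, (l, b)) +
        B (2 * sz (c, (l, b)) + 1 + sz (c, (l, b)))) l (by
          intro it hit O hO
          have h1 := sz_wt hO
          have h2 := sz_mem_le hit
          have h3 : sz l ≤ sz (c, (l, b)) := by simp only [sz_pair]; omega
          have h4 : sz c.1 ≤ sz (c, (l, b)) := by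
            obtain ⟨x, c⟩ := c
            simp only [sz_pair]; omega
          refine ⟨by omega, (hb X (c.1, O)).trans ((hm ?_).trans (Nat.le_add_left _ _))⟩
          simp only [sz_pair c.1 O]
          omega) b (by
          obtain ⟨b1, b2, b3⟩ := b
          simp only [sz_pair]; omega)
      have h5 : sz b.2.2 ≤ sz (c, (l, b)) := by
        obtain ⟨b1, b2, b3⟩ := b
        simp only [sz_pair]; omega
      change sz (l.foldl (S.stC X c.1 c.2.1.length c.2.2) b) ≤ _
      generalize l.foldl (S.stC X c.1 c.2.1.length c.2.2) b = r at h ⊢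
      obtain ⟨r1, r2, r3⟩ := r
      have h6 : sz r1 = 1 := by simp
      simp only [sz_pair, h6] at h h5 ⊢
      omega)
  exact (OFP.on key (f := fun p : List Bool × (List Bool × (List Bool × (List (List Bool) ×
    (List Bool × List (List Bool))))) =>
      (((p.1, (p.2.1, p.2.2.1)), (p.2.2.2.2.2, (true, (p.2.2.2.2.1, p.2.2.2.1)))) :
        Ctx × (List (List Bool) × Sta))) (by fun_prop)).congr fun X p => rfl

theorem okC_ofp : OFP fun X (p : List Bool × (List Bool × (List Bool × (List (List Bool) ×
    (List Bool × List (List Bool)))))) =>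
    S.okC X p.1 p.2.1.length p.2.2.1 p.2.2.2.1 p.2.2.2.2.1 p.2.2.2.2.2 :=
  OFP.map (f := fun r : Sta => r.1 && r.2.2.isEmpty) (by fun_prop) S.runC_ofp

theorem vaC_ofp : OFP fun X (p : List Bool × (List Bool × (List Bool × (List (List Bool) ×
    (List Bool × List (List Bool)))))) =>
    S.vaC X p.1 p.2.1.length p.2.2.1 p.2.2.2.1 p.2.2.2.2.1 p.2.2.2.2.2 :=
  OFP.map (f := fun r : Sta => r.2.1) (by fun_prop) S.runC_ofp

end Scheme

end Pool.Agent.APX
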