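import Pool.Agent.APX.Proc

set_option autoImplicit false

/-!
# APX-FpCA: polynomial time functions on states and violations
-/

namespace Pool.Agent.APX

open Pool.Agent.Helper22 N487b59b3

variable {α : Type} [N487b59b3 α]

theorem mkS_fp {J P : α → List Bool} {es : α → List (List Bool)} (hJ : FP J) (hP : FP P)
    (he : FP es) : FP fun a => mkS (J a) (P a) (es a) :=
  hJ.cd (hP.cd (FP.tw he))

theorem sJ_fp {f : α → List Bool} (hf : FP f) : FP fun a => sJ (f a) :=
  hf.cf

theorem sP_fp {f : α → List Bool} (hf : FP f) : FP fun a => sP (f a) :=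
  hf.cs.cf

theorem sE_fp {f : α → List Bool} (hf : FP f) : FP fun a => sE (f a) :=
  FP.wt hf.cs.cs

theorem mkY_fp {kd : α → Bool} {k p : α → List Bool} {c : α → List (List Bool)} (hd : FP kd)
    (hk : FP k) (hp : FP p) (hc : FP c) : FP fun a => mkY (kd a) (k a) (p a) (c a) :=
  (hd.cons (FP.const [])).cd (hk.cd (hp.cd (FP.tw hc)))

theorem yk_fp {f : α → List Bool} (hf : FP f) : FP fun a => yk (f a) :=
  FP.headD hf.cf false

theorem yl_fp {f : α → List Bool} (hf : FP f) : FP fun a => yl (f a) :=
  hf.cs.cf

theorem yo_fp {f : α → List Bool} (hf : FP f) : FP fun a => yo (f a) :=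
  hf.cs.cs.cf

theorem yc_fp {f : α → List Bool} (hf : FP f) : FP fun a => yc (f a) :=
  FP.wt hf.cs.cs.cs

private theorem rev_foldl {β : Type} (l a : List β) :
    l.foldl (fun (s : List β) (b : β) => b :: s) a = l.reverse ++ a := by
  induction l generalizing a with
  | nil => rfl
  | cons b l ih => rw [List.foldl_cons, ih, List.reverse_cons, List.append_assoc,
      List.singleton_append]

private theorem sz_reverse {β : Type} [N487b59b3 β] (l : List β) : sz l.reverse = sz l := by
  induction l with
  | nil => rfl
  | cons b l ih =>
    rw [List.reverse_cons, sz_append, ih, sz_cons, sz_cons, sz_nil]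
    omega

/-- reversal of lists -/
theorem reverse_fp {β : Type} [N487b59b3 β] [Inhabited β] {f : α → List β} (hf : FP f) :
    FP fun a => (f a).reverse := by
  have h : FP fun p : List β × List β => p.1.foldl (fun (s : List β) (b : β) => b :: s) p.2 :=
    FP.foldl (g := fun (s : List β) (b : β) => b :: s) (FP.snd.cons FP.fst) (B := fun n => n)
      (by fun_prop) (by
        intro l a
        rw [rev_foldl, sz_append, sz_reverse])
  have h2 := h.comp (hf.pair (FP.const ([] : List β)))
  simp only [rev_foldl, List.append_nil] at h2
  exact h2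

/-- element with unary index -/
theorem getL_fp {f : α → List (List Bool)} {g : α → List Bool} (hf : FP f) (hg : FP g) :
    FP fun a => (f a).getD (g a).length [] := by
  have h : FP fun a => ((f a).drop (g a).length).headD [] := FP.headD (hf.drop hg) []
  refine (congrArg FP (funext fun a => ?_)).mp h
  rw [List.headD_eq_head?_getD, List.head?_drop, List.getD_eq_getElem?_getD]

end Pool.Agent.APX
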