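import Pool.Agent.APX.FpCA

set_option autoImplicit false

/-!
# APX-FpDA: the states of a scheme are polynomial time
-/

namespace Pool.Agent.APX

open Pool.Agent.Helper22 N487b59b3

private theorem fda_unAdd {α : Type} [N487b59b3 α] {F G : α → ℕ} (hF : FP fun a => un (F a))
    (hG : FP fun a => un (G a)) : FP fun a => un (F a + G a) := by
  have h := hF.append hG
  simpa only [← un_add] using h

private theorem fda_unMul {α : Type} [N487b59b3 α] {F G : α → ℕ} (hF : FP fun a => un (F a))
    (hG : FP fun a => un (G a)) : FP fun a => un (F a * G a) := by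
  have h := FP.unMul hF hG
  simpa only [Helper22.un_length] using h

private theorem fda_len_eq {α β γ : Type} [N487b59b3 α] [N487b59b3 β] [N487b59b3 γ] {f : α → List β}
    {g : α → List γ} (hf : FP f) (hg : FP g) : FP fun a => decide ((f a).length = (g a).length) := by
  have h := (FP.length_le hf hg).and (FP.length_le hg hf)
  refine (congrArg FP (funext fun a => ?_)).mp h
  rw [Bool.eq_iff_iff]
  simp only [Bool.and_eq_true, decide_eq_true_eq]
  omega

private theorem fda_all {β γ : Type} [N487b59b3 β] [N487b59b3 γ] [Inhabited β] {P : γ × β → Bool}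
    (hP : FP P) : FP fun p : γ × List β => p.2.all fun b => P (p.1, b) := by
  have h := (FP.any_ctx (P := fun p => !(P p)) hP.not).not
  refine (congrArg FP (funext fun a => ?_)).mp h
  rw [List.all_eq_not_any_not]

private theorem fda_flatten {α : Type} [N487b59b3 α] {f : α → List (List Bool)} (hf : FP f) :
    FP fun a => (f a).flatten := by
  have key : ∀ (l : List (List Bool)) (acc : List Bool),
      l.foldl (fun (s : List Bool) (b : List Bool) => s ++ b) acc = acc ++ l.flatten := by
    intro l
    induction l with
    | nil => intro acc; simp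
    | cons b l ih => intro acc; rw [List.foldl_cons, ih]; simp
  have hsz : ∀ l : List (List Bool), sz l.flatten ≤ sz l := by
    intro l
    induction l with
    | nil => simp
    | cons b l ih =>
      rw [List.flatten_cons, sz_append, sz_cons]
      omega
  have h1 : FP fun p : List (List Bool) × List Bool =>
      p.1.foldl (fun (s : List Bool) (b : List Bool) => s ++ b) p.2 := by
    refine FP.foldl (g := fun (s : List Bool) (b : List Bool) => s ++ b) (by fun_prop)
      (B := fun n => n) (by fun_prop) ?_
    intro l a
    rw [key, sz_append]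
    have := hsz l
    omega
  have h2 := h1.comp (hf.pair (FP.const ([] : List Bool)))
  refine (congrArg FP (funext fun a => ?_)).mp h2
  rw [key]
  rfl

private theorem fda_replicate {α γ : Type} [N487b59b3 α] [N487b59b3 γ] [Inhabited γ] {f : α → List Bool}
    {g : α → List γ} (hf : FP f) (hg : FP g) :
    FP fun a => List.replicate (g a).length (f a) := by
  have h := (FP.map_ctx (h := fun p : List Bool × γ => p.1) FP.fst).comp (hf.pair hg)
  refine (congrArg FP (funext fun a => ?_)).mp h
  simp

namespace Scheme

variable {Q : Problem} (S : Scheme Q) {α : Type} [N487b59b3 α]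

theorem n_fp {f : α → List Bool} (hf : FP f) : FP fun a => S.n (f a) :=
  ((isPolyTime_iff _).1 S.n_poly).comp hf

theorem K_fp {f : α → List Bool} (hf : FP f) : FP fun a => S.K (f a) :=
  ((isPolyTime_iff _).1 S.K_poly).comp hf

/-- `K - j - 1` in unary -/
theorem lo_fp {f g : α → List Bool} (hf : FP f) (hg : FP g) :
    FP fun a => un (S.lo (f a) (g a)) := by
  have h := FP.un_length ((FP.drop (S.K_fp hf) (sJ_fp hg)).tail)
  refine (congrArg FP (funext fun a => ?_)).mp h
  rw [List.length_tail, List.length_drop]
  rfl

theorem e0_fp {f : α → List Bool} (hf : FP f) : FP fun a => S.e0 (f a) :=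
  (FP.const false).cons (FP.zr (S.n_fp hf))

theorem wfS_fp : FP S.wfS := by
  have hJ : FP fun p : List Bool × List Bool => sJ p.2 := sJ_fp FP.snd
  have hP : FP fun p : List Bool × List Bool => sP p.2 := sP_fp FP.snd
  have hE : FP fun p : List Bool × List Bool => sE p.2 := sE_fp FP.snd
  have hN : FP fun p : List Bool × List Bool => un (S.N p.1) := FP.un_length (S.n_fp FP.fst)
  have hN1 : FP fun p : List Bool × List Bool => un (S.N p.1 + 1) :=
    fda_unAdd hN (FP.const (un 1))
  have h1 : FP fun p : List Bool × List Bool => Helper22.weq p.2 (mkS (sJ p.2) (sP p.2) (sE p.2)) :=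
    FP.weq FP.snd (mkS_fp hJ hP hE)
  have h2 : FP fun p : List Bool × List Bool => decide ((sJ p.2).length ≤ S.k p.1) :=
    FP.length_le hJ (S.K_fp FP.fst)
  have h3 : FP fun p : List Bool × List Bool => Helper22.weq (sJ p.2) (un (sJ p.2).length) :=
    FP.weq hJ (FP.un_length hJ)
  have h4 : FP fun p : List Bool × List Bool =>
      decide ((sP p.2).length = (sJ p.2).length * (S.N p.1 + 1)) := by
    have h := fda_len_eq hP (fda_unMul (FP.un_length hJ) hN1)
    simpa only [Helper22.un_length] using h
  have h5 : FP fun p : List Bool × List Bool => decide ((sE p.2).length = S.N p.1) :=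
    fda_len_eq hE (S.n_fp FP.fst)
  have h6 : FP fun p : List Bool × List Bool =>
      (sE p.2).all fun e => decide (e.length = S.N p.1 + 1) := by
    have h7 : FP fun p : List Bool × List Bool => decide (p.2.length = S.N p.1 + 1) := by
      have h := fda_len_eq (f := fun p : List Bool × List Bool => p.2)
        (g := fun p : List Bool × List Bool => un (S.N p.1 + 1)) FP.snd hN1
      simpa only [Helper22.un_length] using h
    have h8 := (fda_all h7).comp (FP.pair (f := fun p : List Bool × List Bool => p.1) FP.fst hE)
    exact h8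
  exact h1.and (h2.and (h3.and (h4.and (h5.and h6))))

theorem rkS_fp : FP S.rkS := by
  have hJ : FP fun p : List Bool × List Bool => sJ p.2 := sJ_fp FP.snd
  have hE : FP fun p : List Bool × List Bool => sE p.2 := sE_fp FP.snd
  have hN : FP fun p : List Bool × List Bool => un (S.N p.1) := FP.un_length (S.n_fp FP.fst)
  have hN1 : FP fun p : List Bool × List Bool => un (S.N p.1 + 1) :=
    fda_unAdd hN (FP.const (un 1))
  exact (FP.fit (S.K_fp FP.fst) hJ).append (FP.fit (fda_unMul hN hN1) (fda_flatten hE))

theorem st0_fp : FP S.st0 := by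
  exact mkS_fp (FP.const _) (FP.const _) (fda_replicate (S.e0_fp FP.id) (S.n_fp FP.id))

private theorem fda_k : FP fun x : List Bool => un (S.k x) := FP.un_length (S.K_fp FP.id)

private theorem fda_N : FP fun x : List Bool => un (S.N x) := FP.un_length (S.n_fp FP.id)

private theorem fda_L : FP fun x : List Bool => un (S.L x) := FP.un_poly FP.id S.p

private theorem fda_c (n : ℕ) : FP fun _ : List Bool => un n := FP.const _

theorem lsb_fp : FP fun x : List Bool => un (S.lsb x) := by
  have hk := S.fda_k
  have hN := S.fda_N
  exact fda_unAdd (fda_unAdd (fda_unMul (fda_c 2) hk) (fda_c 1))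
    (fda_unAdd (fda_unAdd (fda_unMul (fda_c 2) (fda_unMul hk (fda_unAdd hN (fda_c 1)))) (fda_c 1))
      (fda_unMul hN (fda_unAdd (fda_unMul (fda_c 2) (fda_unAdd hN (fda_c 1))) (fda_c 1))))

theorem lvb_fp : FP fun x : List Bool => un (S.lvb x) := by
  have hN := S.fda_N
  have hL := S.fda_L
  have hI : FP fun x : List Bool => un (S.itb x) :=
    fda_unAdd (fda_unAdd (fda_unMul (fda_c 2) hN) (fda_c 1))
      (fda_unMul hN (fda_unAdd (fda_unMul (fda_c 2) hL) (fda_c 1)))
  exact fda_unAdd (fda_unAdd (fda_unAdd (fda_c 8) (fda_unMul (fda_c 4) hN)) (fda_unMul (fda_c 2) hL))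
    (fda_unMul hN (fda_unAdd (fda_unMul (fda_c 2) hI) (fda_c 1)))

end Scheme

end Pool.Agent.APX
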