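import Pool.Agent.APX.NodeSemB

set_option autoImplicit false

/-!
# APX-NodeSemC: the rank grows
-/

namespace Pool.Agent.APX

open Pool.Agent.Helper22 N487b59b3

namespace Game

variable {Q : Problem} (G : Game Q)

private theorem nodeSemC_cons (w : List Bool) : val (false :: w) = val w := by
  have h := val_append [false] w
  have h1 : val [false] = 0 := rfl
  rw [h1] at h
  simpa using h

private theorem nodeSemC_fit (l : List Bool) (k : ℕ) (hk : k ≤ l.length) :
    val (fit l (un k)) + 2 ^ (l.length - k) = 2 ^ l.length := by
  have hl : (un k).length = k := by simp [un]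
  rw [fit_eq (by rw [hl]; exact hk), val_append, val_zeros, hl, List.length_replicate, add_zero]
  have h1 : val (un k) + 1 = 2 ^ k := val_ones k
  have h2 : 2 ^ k * 2 ^ (l.length - k) = 2 ^ l.length := by
    rw [← pow_add]
    congr 1
    omega
  rw [← h2, ← h1]
  ring

private theorem nodeSemC_fit_lt (l : List Bool) (k : ℕ) (hk : k < l.length) :
    val (fit l (un k)) < val (fit l (un (k + 1))) := by
  have h1 := nodeSemC_fit l k hk.le
  have h2 := nodeSemC_fit l (k + 1) hk
  have h3 : 2 ^ (l.length - (k + 1)) < 2 ^ (l.length - k) := Nat.pow_lt_pow_right (by norm_num) (by omega)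
  omega

private theorem nodeSemC_app {u u' v v' : List Bool} (hl : v.length = v'.length) (h : val u < val u') :
    val (u ++ v) < val (u' ++ v') := by
  rw [val_append, val_append, ← hl]
  have h1 := val_lt v
  have h2 : (val u + 1) * 2 ^ v.length ≤ val u' * 2 ^ v.length := Nat.mul_le_mul_right _ h
  rw [add_mul, one_mul] at h2
  omega

/-- PLAN. The three cases. `(s', [], 0)`: `val (rk s) < val (rk s')`, and the remaining
`R + lam + 1` digits count less than `2 ^ (R + lam + 1)` (`val_append`, `val_lt`).
`(s, T ++ [y], 0)`: `fit R (un (k+1))` has a larger value than `fit R (un k)` for `k < R`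
(`T.length < R` by `ask_ok`); last case: `val_incw`. -/
theorem rank_next {X : Oracle} {x : List Bool} {nd : Nd} (h : G.valid X (x, nd) = true)
    (hd : G.dn X (x, (nd.1, nd.2.1)) = false) :
    val (G.rank (x, nd)) < val (G.rank (x, G.next X (x, nd))) := by
  obtain ⟨s, T, r⟩ := nd
  unfold valid at h
  rw [Bool.and_eq_true, Bool.and_eq_true, weq_iff] at h
  obtain ⟨⟨hwf, hgood⟩, hr⟩ := h
  have hwf' : G.wf (x, s) = true := hwf
  have hgood' : G.Good X x s T := (G.good_iff X x s T).1 hgood
  have hrl : r.length = (G.z0 x).length := by
    have h1 := congrArg List.length hr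
    simpa [zr] using h1
  have hd' : G.dn X (x, (s, T)) = false := hd
  obtain ⟨hask1, hask2, hask3⟩ := G.ask_ok X x s T hwf' hgood' hd'
  unfold next
  have e1 : ¬ (G.dn X (x, (s, T)) = true) := by rw [hd']; exact Bool.false_ne_true
  rw [if_neg e1]
  by_cases h1 : r.headD false = true
  · rw [if_pos h1]
    show val (false :: (G.rk (x, s) ++ (fit (G.R x) (un T.length) ++ r))) <
      val (false :: (G.rk (x, G.ask X (x, (s, T))) ++ (fit (G.R x) (un ([] : List (List Bool)).length) ++ G.z0 x)))
    rw [nodeSemC_cons, nodeSemC_cons]
    refine nodeSemC_app ?_ hask2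
    rw [List.length_append, List.length_append, length_fit, length_fit, hrl]
  · rw [if_neg h1]
    by_cases h2 : G.V X (x, (G.ask X (x, (s, T)), cf r.tail)) = true
    · rw [if_pos h2]
      show val (false :: (G.rk (x, s) ++ (fit (G.R x) (un T.length) ++ r))) <
        val (false :: (G.rk (x, s) ++ (fit (G.R x) (un (T ++ [cf r.tail]).length) ++ G.z0 x)))
      rw [nodeSemC_cons, nodeSemC_cons, List.length_append, List.length_singleton]
      have h3 := nodeSemC_app (v := r) (v' := G.z0 x) hrl (nodeSemC_fit_lt (G.R x) T.length hask3)
      rw [val_append (G.rk (x, s)), val_append (G.rk (x, s))]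
      have h4 : (fit (G.R x) (un T.length) ++ r).length = (fit (G.R x) (un (T.length + 1)) ++ G.z0 x).length := by
        rw [List.length_append, List.length_append, length_fit, length_fit, hrl]
      rw [← h4]
      omega
    · rw [if_neg h2]
      show val (false :: (G.rk (x, s) ++ (fit (G.R x) (un T.length) ++ r))) <
        val (false :: (G.rk (x, s) ++ (fit (G.R x) (un T.length) ++ incw r)))
      rw [nodeSemC_cons, nodeSemC_cons, ← List.append_assoc, ← List.append_assoc, val_append _ r,
        val_append _ (incw r), length_incw]
      have h3 : r.headD true = false := by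
        cases r with
        | nil =>
          simp [z0] at hrl
        | cons a r =>
          cases a
          · rfl
          · exact absurd rfl h1
      rw [val_incw h3]
      omega

end Game

end Pool.Agent.APX
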