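import Pool.Agent.APX.NodeSemB

set_option autoImplicit false

/-!
# APX-NodeSemD: the colours go backwards
-/

namespace Pool.Agent.APX

open Pool.Agent.Helper22 N487b59b3

namespace Game

variable {Q : Problem} (G : Game Q)

private theorem nd_zr {β γ : Type} (a : List β) (b : List γ) : zr a = zr b ↔ a.length = b.length := by
  unfold zr
  constructor
  · intro h
    have := congrArg List.length h
    simpa using this
  · intro h
    rw [h]

private theorem nd_has (X : Oracle) (x : List Bool) (nd : Nd) (c : List Bool × List Bool) :
    G.has X (x, (nd, c)) = true ↔ G.V X (x, (c.1, cf c.2)) = true ∧ c.2.length = (G.lam x).length ∧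
      (c.1 = nd.1 ∨ (G.dn X (x, (nd.1, nd.2.1)) = false ∧ c.1 = G.ask X (x, (nd.1, nd.2.1)) ∧
        ltb (false :: c.2) nd.2.2 = true)) := by
  unfold has
  rw [Bool.and_eq_true, Bool.and_eq_true, Bool.or_eq_true, Bool.and_eq_true, Bool.and_eq_true,
    weq_iff, weq_iff, weq_iff, nd_zr, Bool.not_eq_true', and_assoc, and_assoc]

private theorem nd_len {X : Oracle} {x : List Bool} {nd : Nd} (h : G.valid X (x, nd) = true) :
    nd.2.2.length = (G.lam x).length + 1 := by
  unfold valid at h
  rw [Bool.and_eq_true, weq_iff, nd_zr] at h
  rw [h.2]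
  unfold z0 zr
  simp

private theorem nd_val_false (w : List Bool) : val (false :: w) = val w := by
  have h := val_append [false] w
  have h0 : val [false] = 0 := rfl
  rw [h0, zero_mul, zero_add] at h
  exact h

private theorem nd_val_true (w : List Bool) : val (true :: w) = 2 ^ w.length + val w := by
  have h := val_append [true] w
  have h0 : val [true] = 1 := rfl
  rw [h0, one_mul] at h
  exact h

private theorem nd_z0 (x : List Bool) : val (G.z0 x) = 0 := by
  unfold z0 zr
  rw [nd_val_false, val_zeros]

private theorem nd_z0_len (x : List Bool) : (G.z0 x).length = (G.lam x).length + 1 := by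
  unfold z0 zr
  simp

/-- The three cases of `next`; nothing is below the counter `0`. -/
theorem has_next {X : Oracle} {x : List Bool} {nd : Nd} {c : List Bool × List Bool}
    (h : G.valid X (x, nd) = true) (hc : G.has X (x, (G.next X (x, nd), c)) = true) :
    G.has X (x, (nd, c)) = true := by
  have hlen := G.nd_len h
  rw [nd_has] at hc ⊢
  obtain ⟨hV, hl, hor⟩ := hc
  refine ⟨hV, hl, ?_⟩
  obtain ⟨s, T, r⟩ := nd
  obtain ⟨σ, ρ⟩ := c
  simp only at hlen hV hl hor ⊢
  -- nothing is below the counter zero
  have hzero : ¬ ltb (false :: ρ) (G.z0 x) = true := by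
    rw [ltb_iff (by rw [nd_z0_len, List.length_cons, hl]), nd_z0]
    omega
  unfold next at hor
  simp only at hor
  by_cases h1 : G.dn X (x, (s, T)) = true
  · rw [if_pos h1] at hor
    exact hor
  rw [if_neg h1] at hor
  have h1' : G.dn X (x, (s, T)) = false := by simpa using h1
  by_cases h2 : r.headD false = true
  · rw [if_pos h2] at hor
    rcases hor with h3 | ⟨-, -, h3⟩
    · refine Or.inr ⟨h1', h3, ?_⟩
      rw [ltb_iff (by rw [List.length_cons, hl, hlen]), nd_val_false]
      cases r with
      | nil => simp at h2
      | cons b r' =>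
        have hb : b = true := h2
        subst hb
        rw [nd_val_true]
        have h4 := val_lt ρ
        have h5 : r'.length = (G.lam x).length := by simpa using hlen
        rw [hl] at h4
        rw [h5]
        omega
    · exact absurd h3 hzero
  rw [if_neg h2] at hor
  by_cases h3 : G.V X (x, (G.ask X (x, (s, T)), cf r.tail)) = true
  · rw [if_pos h3] at hor
    rcases hor with h4 | ⟨-, -, h4⟩
    · exact Or.inl h4
    · exact absurd h4 hzero
  rw [if_neg h3] at hor
  rcases hor with h4 | ⟨h4, h5, h6⟩
  · exact Or.inl h4
  · refine Or.inr ⟨h4, h5, ?_⟩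
    have hll : (false :: ρ).length = r.length := by rw [List.length_cons, hl, hlen]
    have hhead : r.headD true = false := by
      cases r with
      | nil => simp at hlen
      | cons b r' =>
        have hb : ¬ b = true := h2
        simpa using hb
    rw [ltb_iff (by rw [length_incw, hll]), val_incw hhead] at h6
    rw [ltb_iff hll]
    rcases Nat.lt_or_ge (val (false :: ρ)) (val r) with h7 | h7
    · exact h7
    · exfalso
      have h8 : val (false :: ρ) = val r := by omega
      have h9 : false :: ρ = r := val_inj hll h8
      apply h3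
      rw [← h9, List.tail_cons, ← h5]
      exact hV

/-- `fin_ok`, `V_length`: the word `cd fin []` fits into `lam = 2 lv + 1` digits and
`cf` of it is `fin`. -/
theorem has_last {X : Oracle} {x : List Bool} {nd : Nd} (h : G.valid X (x, nd) = true)
    (hd : G.dn X (x, (nd.1, nd.2.1)) = true) :
    G.has X (x, (nd, G.last X (x, nd))) = true ∨ Q X x (G.sol X (x, (nd.1, nd.2.1))) := by
  have h0 := h
  unfold valid at h0
  rw [Bool.and_eq_true, Bool.and_eq_true, good_iff] at h0
  obtain ⟨⟨hwf, hG⟩, -⟩ := h0
  rcases G.fin_ok X x nd.1 nd.2.1 hwf hG hd with h1 | h1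
  · left
    rw [nd_has]
    have h2 := G.V_length X x _ _ h1
    have h3 : (cd (G.fin X (x, (nd.1, nd.2.1))) []).length ≤ (G.lam x).length := by
      rw [cd_length]
      unfold lam
      simp only [List.length_cons, List.length_append, List.length_nil]
      omega
    refine ⟨?_, ?_, Or.inl rfl⟩
    · show G.V X (x, (nd.1, cf (fit (G.lam x) (cd (G.fin X (x, (nd.1, nd.2.1))) [])))) = true
      rw [fit_eq h3]
      have h4 : cd (G.fin X (x, (nd.1, nd.2.1))) [] ++ List.replicate
          ((G.lam x).length - (cd (G.fin X (x, (nd.1, nd.2.1))) []).length) false =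
          cd (G.fin X (x, (nd.1, nd.2.1))) (List.replicate
          ((G.lam x).length - (cd (G.fin X (x, (nd.1, nd.2.1))) []).length) false) := by
        unfold cd
        rw [List.append_nil]
      rw [h4, cf_cd]
      exact h1
    · show (fit (G.lam x) (cd (G.fin X (x, (nd.1, nd.2.1))) [])).length = (G.lam x).length
      rw [length_fit]
  · exact Or.inr h1

end Game

end Pool.Agent.APX
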