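import Pool.Agent.APX.GInst
import Pool.Agent.APX.NodeSemC
import Pool.Agent.APX.NodeSemD

set_option autoImplicit false

/-!
# APX-GCore: a solution of the CPLS instance gives a solution of `Q`
-/

namespace Pool.Agent.APX

open Pool.Agent.Helper22 N487b59b3

namespace Game

variable {Q : Problem} (G : Game Q)

private theorem bin_zero' (l : ℕ) : bin l 0 = List.replicate l false := by
  apply val_inj
  · simp
  · rw [val_bin, val_zeros, Nat.zero_mod]

private theorem active_iff {X : Oracle} {x l : List Bool} {nd : Nd}
    (hl : l.length = G.al x) :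
    G.active X (x, (l, nd)) = true ↔ G.valid X (x, nd) = true ∧
      (G.dn X (x, (nd.1, nd.2.1)) = true ∨ val l ≤ val (G.rank (x, nd))) := by
  unfold active
  simp only [Bool.and_eq_true, Bool.or_eq_true, Bool.not_eq_true']
  constructor
  · rintro ⟨h1, h2⟩
    refine ⟨h1, ?_⟩
    rcases h2 with h2 | h2
    · exact Or.inl h2
    · right
      by_contra hlt
      have := (ltb_iff (u := G.rank (x, nd)) (v := l)
        (by rw [G.length_rank h1, hl]; rfl)).2 (not_le.1 hlt)
      rw [this] at h2
      exact absurd h2 (by simp)
  · rintro ⟨h1, h2⟩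
    refine ⟨h1, ?_⟩
    rcases h2 with h2 | h2
    · exact Or.inl h2
    · right
      cases hb : ltb (G.rank (x, nd)) l with
      | false => rfl
      | true =>
        have := (ltb_iff (u := G.rank (x, nd)) (v := l)
          (by rw [G.length_rank h1, hl]; rfl)).1 hb
        omega

private theorem val_rank_lt {X : Oracle} {x : List Bool} {nd : Nd}
    (h : G.valid X (x, nd) = true) : val (G.rank (x, nd)) < 2 ^ G.al x - 1 := by
  have hlen := G.length_rank h
  have e : G.rank (x, nd) = [false] ++ (G.rk (x, nd.1) ++
      (fit (G.R x) (un nd.2.1.length) ++ nd.2.2)) := rfl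
  have hv := val_append [false] (G.rk (x, nd.1) ++ (fit (G.R x) (un nd.2.1.length) ++ nd.2.2))
  rw [← e] at hv
  have h0 : val [false] = 0 := rfl
  rw [h0, zero_mul, zero_add] at hv
  rw [hv]
  have hlt := val_lt (G.rk (x, nd.1) ++ (fit (G.R x) (un nd.2.1.length) ++ nd.2.2))
  have hlen2 : (G.rk (x, nd.1) ++ (fit (G.R x) (un nd.2.1.length) ++ nd.2.2)).length + 1 =
      G.al x := by
    rw [e, List.length_append] at hlen
    have : ([false] : List Bool).length = 1 := rfl
    rw [this] at hlen
    unfold al
    omega
  have hal : 2 ≤ G.al x := by unfold al; omega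
  have hpow : 2 ^ G.al x = 2 * 2 ^ (G.rk (x, nd.1) ++
      (fit (G.R x) (un nd.2.1.length) ++ nd.2.2)).length := by
    rw [← hlen2, pow_succ]; ring
  have hone : 2 ≤ 2 ^ (G.rk (x, nd.1) ++
      (fit (G.R x) (un nd.2.1.length) ++ nd.2.2)).length := by
    calc 2 = 2 ^ 1 := rfl
      _ ≤ _ := Nat.pow_le_pow_right (by norm_num) (by omega)
  omega


/-- PLAN. Three cases of `CPLSSol` (use `nxt_PP`, `lst_PP`, `clr_PP`; `bin_val`, `val_bin`).
(i) a colour `y` of node `0` on level `0`: the node is the first one (`decN_zero`), it is active on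
level `0` (`valid_first`, nothing is smaller than `0`) and has no colour (`has_first`):
contradiction.
(ii) `G_{i+1}(f_i(v), y)` and not `G_i(v, y)`: so the node `nd` of `v` is active on level `i` and does
not have the colour. The word of `f_i(v)` is `encN (next nd)`, and `decN` gives back `next nd`
(`decN_encN`, `valid_next`). `next nd` is active on level `i + 1`: if `dn nd` then `next nd = nd`
and `dn` holds; otherwise `i ≤ val (rank nd) < val (rank (next nd))` (`rank_next`, `ltb_iff`,
`length_rank`, `i + 1 < 2 ^ al`). So `next nd` has the colour, and by `has_next` so has `nd`: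
contradiction.
(iii) not `G_{a-1}(v, u(v))`: the node `nd` is active on the last level and does not have the colour
`last nd`. Its rank starts with the digit `0`, so `val (rank nd) < 2 ^ (al - 1) ≤ 2 ^ al - 1`, hence
`dn nd`. By `has_last` (and `decC_encC`: the state has length `≤ ls` by `wf_length`, and `fit lam _`
has length `lam`) the node has the colour or `sol` is a solution; `gg` computes this `sol`. -/
theorem core (X : Oracle) (x w : List Bool)
    (h : CPLSSol (fun q => G.PP X (x, q)) (2 ^ G.al x) (2 ^ G.be x) (2 ^ G.ga x) w) :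
    Q X x (G.gg X (x, w)) := by
  rcases h with ⟨y, _, _, hc⟩ | ⟨i, v, y, hi, _, _, _, hc, hn⟩ | ⟨v, _, hw, hn⟩
  · exfalso
    rw [G.clr_PP X x 0 0 y, bin_zero' (G.be x), G.decN_zero, G.has_first X x] at hc
    rcases hc with hc | hc
    · have ha := (G.active_iff (X := X) (x := x) (l := bin (G.al x) 0)
        (nd := (G.s0 x, ([], G.z0 x))) (length_bin _ _)).2
        ⟨G.valid_first X x, Or.inr (by rw [val_bin, Nat.zero_mod]; exact Nat.zero_le _)⟩
      rw [ha] at hc
      exact absurd hc (by simp)
    · exact absurd hc (by simp)
  · exfalso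
    rw [G.clr_PP X x i v y] at hn
    rw [G.clr_PP X x (i + 1) _ y, G.nxt_PP X x i v] at hc
    rw [not_or] at hn
    obtain ⟨hn1, hn2⟩ := hn
    rw [Bool.not_eq_false] at hn1
    obtain ⟨hv, hr⟩ := (G.active_iff (length_bin _ _)).1 hn1
    rw [G.decN_encN (G.valid_next hv)] at hc
    rcases hc with hc | hc
    · have ha := (G.active_iff (X := X) (x := x) (l := bin (G.al x) (i + 1))
        (nd := G.next X (x, G.decN (x, bin (G.be x) v))) (length_bin _ _)).2
        ⟨G.valid_next hv, by
          by_cases hd : G.dn X (x, ((G.decN (x, bin (G.be x) v)).1,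
              (G.decN (x, bin (G.be x) v)).2.1)) = true
          · left
            have e : G.next X (x, G.decN (x, bin (G.be x) v)) = G.decN (x, bin (G.be x) v) := by
              unfold next
              rw [if_pos hd]
            rw [e]
            exact hd
          · right
            have hlt := G.rank_next hv (Bool.eq_false_iff.2 hd)
            have hle := hr.resolve_left hd
            rw [val_bin, Nat.mod_eq_of_lt (by omega)] at hle
            rw [val_bin, Nat.mod_eq_of_lt hi]
            omega⟩
      rw [ha] at hc
      exact absurd hc (by simp)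
    · exact hn2 (G.has_next hv hc)
  · rw [G.clr_PP X x _ v _, G.lst_PP X x v] at hn
    rw [not_or] at hn
    obtain ⟨hn1, hn2⟩ := hn
    rw [Bool.not_eq_false] at hn1
    obtain ⟨hv, hr⟩ := (G.active_iff (length_bin _ _)).1 hn1
    have hd : G.dn X (x, ((G.decN (x, bin (G.be x) v)).1,
        (G.decN (x, bin (G.be x) v)).2.1)) = true := by
      rcases hr with hr | hr
      · exact hr
      · exfalso
        have h1 := G.val_rank_lt hv
        rw [val_bin, Nat.mod_eq_of_lt (by omega)] at hr
        omega
    have hwf : G.wf (x, (G.decN (x, bin (G.be x) v)).1) = true := by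
      have := hv
      unfold valid at this
      simp only [Bool.and_eq_true] at this
      exact this.1.1
    have hdec : decC (G.encC (x, G.last X (x, G.decN (x, bin (G.be x) v)))) =
        G.last X (x, G.decN (x, bin (G.be x) v)) :=
      G.decC_encC (G.wf_length x _ hwf) (by rw [length_fit])
    rw [hdec] at hn2
    have hq := (G.has_last hv hd).resolve_left hn2
    have hgg : G.gg X (x, w) = G.sol X (x, ((G.decN (x, bin (G.be x) v)).1,
        (G.decN (x, bin (G.be x) v)).2.1)) := by
      rw [hw]
      unfold gg qry
      simp only [cs_cd, cf_cd, dig_two_pow]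
    rw [hgg]
    exact hq

end Game

end Pool.Agent.APX
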