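import Pool.Agent.APX.NodeCode

set_option autoImplicit false

/-!
# APX-GFPA: the node functions of a game are polynomial time with oracle, I
-/

namespace Pool.Agent.APX

open Pool.Agent.Helper22 N487b59b3

namespace Game

variable {Q : Problem} (G : Game Q)

theorem lam_fp : FP G.lam := by
  have h := G.lv_fp
  exact FP.cons (FP.const true) (FP.append h h)

private theorem GFPA_z0 : FP G.z0 := FP.cons (FP.const false) (FP.zr G.lam_fp)

private theorem GFPA_step : OFP fun X (q : (List Bool × List Bool) ×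
    ((Bool × List (List Bool)) × List Bool)) =>
    ((q.2.1.1 && !G.dn X (q.1.1, (q.1.2, q.2.1.2)) &&
      G.V X (q.1.1, (G.ask X (q.1.1, (q.1.2, q.2.1.2)), q.2.2)), q.2.1.2 ++ [q.2.2]) :
      Bool × List (List Bool)) := by
  have hs : FP fun q : (List Bool × List Bool) × ((Bool × List (List Bool)) × List Bool) =>
      (q.1.1, (q.1.2, q.2.1.2)) := by fun_prop
  have hd := G.dn_ofp.on hs
  have ha := G.ask_ofp.on hs
  have h1 : OFP fun (_ : Oracle) (q : (List Bool × List Bool) ×
      ((Bool × List (List Bool)) × List Bool)) => q.2.1.1 := OFP.of_fp (by fun_prop)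
  have h2 : OFP fun (_ : Oracle) (q : (List Bool × List Bool) ×
      ((Bool × List (List Bool)) × List Bool)) => q.1.1 := OFP.of_fp (by fun_prop)
  have h3 : OFP fun (_ : Oracle) (q : (List Bool × List Bool) ×
      ((Bool × List (List Bool)) × List Bool)) => q.2.2 := OFP.of_fp (by fun_prop)
  have h4 : OFP fun (_ : Oracle) (q : (List Bool × List Bool) ×
      ((Bool × List (List Bool)) × List Bool)) => q.2.1.2 ++ [q.2.2] := OFP.of_fp (by fun_prop)
  exact (OFP.and (OFP.and h1 (OFP.not hd)) (G.V_ofp.comp (h2.pair (ha.pair h3)))).pair h4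

private theorem GFPA_fold (f : (Bool × List (List Bool)) → List Bool → Bool) (l : List (List Bool))
    (b : Bool × List (List Bool)) :
    (l.foldl (fun b y => (f b y, b.2 ++ [y])) b).2 = b.2 ++ l := by
  induction l generalizing b with
  | nil => simp
  | cons a l ih =>
    rw [List.foldl_cons, ih]
    simp

private theorem GFPA_sz (r : Bool × List (List Bool)) : sz r = 3 + sz r.2 := by
  obtain ⟨u, v⟩ := r
  rw [sz_pair, sz_bool]

/-- PLAN. `OFP.foldl_ctx`, the state `(flag, prefix)`, the context `(x, s)`. -/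
theorem good_ofp : OFP G.good := by
  have h := OFP.foldl_ctx (B := fun n => n) (GFPA_step G) (by fun_prop) (by
    intro X c l b
    have h1 := GFPA_fold (fun b y => b.1 && !G.dn X (c.1, (c.2, b.2)) &&
      G.V X (c.1, (G.ask X (c.1, (c.2, b.2)), y))) l b
    have h2 := GFPA_sz b
    rw [GFPA_sz]
    change 3 + sz (List.foldl (fun b y => ((fun (b : Bool × List (List Bool)) (y : List Bool) =>
      b.1 && !G.dn X (c.1, (c.2, b.2)) && G.V X (c.1, (G.ask X (c.1, (c.2, b.2)), y))) b y,
        b.2 ++ [y])) b l).2 ≤ sz (c, (l, b))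
    rw [h1, sz_append, sz_pair c (l, b), sz_pair l b]
    omega)
  exact OFP.fst' (h.on (f := fun p : List Bool × (List Bool × List (List Bool)) =>
    ((p.1, p.2.1), (p.2.2, (true, ([] : List (List Bool)))))) (by fun_prop))

theorem next_ofp : OFP G.next := by
  have hs : FP fun p : List Bool × Nd => (p.1, (p.2.1, p.2.2.1)) := by fun_prop
  have hd := G.dn_ofp.on hs
  have ha := G.ask_ofp.on hs
  have hz : FP fun p : List Bool × Nd => G.z0 p.1 := (GFPA_z0 G).comp FP.fst
  have h1 : OFP fun (_ : Oracle) (p : List Bool × Nd) => p.2 := OFP.of_fp FP.snd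
  have h2 : OFP fun (_ : Oracle) (p : List Bool × Nd) => p.2.2.2.headD false :=
    OFP.of_fp (FP.headD (by fun_prop) _)
  have h3 : OFP fun (_ : Oracle) (p : List Bool × Nd) => (([] : List (List Bool)), G.z0 p.1) :=
    OFP.of_fp (FP.pair (FP.const _) hz)
  have h4 : OFP fun (_ : Oracle) (p : List Bool × Nd) => p.1 := OFP.of_fp FP.fst
  have hcf : FP fun p : List Bool × Nd => Helper22.cf p.2.2.2.tail := by fun_prop
  have h5 : OFP fun (_ : Oracle) (p : List Bool × Nd) => Helper22.cf p.2.2.2.tail := OFP.of_fp hcf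
  have h6 : OFP fun (_ : Oracle) (p : List Bool × Nd) =>
      (p.2.1, (p.2.2.1 ++ [Helper22.cf p.2.2.2.tail], G.z0 p.1)) := by
    refine OFP.of_fp (FP.pair (by fun_prop) (FP.pair ?_ hz))
    exact FP.append (by fun_prop) (FP.cons hcf (FP.const _))
  have h7 : OFP fun (_ : Oracle) (p : List Bool × Nd) => (p.2.1, (p.2.2.1, incw p.2.2.2)) := by
    refine OFP.of_fp (FP.pair (by fun_prop) (FP.pair (by fun_prop) (FP.incw (by fun_prop))))
  exact OFP.ite hd h1 (OFP.ite h2 (ha.pair h3)
    (OFP.ite (G.V_ofp.comp (h4.pair (ha.pair h5))) h6 h7))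

theorem valid_ofp : OFP G.valid := by
  have hz : FP fun p : List Bool × Nd => G.z0 p.1 := (GFPA_z0 G).comp FP.fst
  refine OFP.and (OFP.and (OFP.of_fp (G.wf_fp.comp (f := fun p : List Bool × Nd => (p.1, p.2.1))
    (by fun_prop))) (G.good_ofp.on (f := fun p : List Bool × Nd => (p.1, (p.2.1, p.2.2.1)))
    (by fun_prop))) ?_
  exact OFP.weq (OFP.of_fp (FP.zr (by fun_prop))) (OFP.of_fp (FP.zr hz))

end Game

end Pool.Agent.APX
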