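import Pool.Agent.APX.GFPA

set_option autoImplicit false

/-!
# APX-GFPB: the node functions of a game are polynomial time with oracle, II
-/

namespace Pool.Agent.APX

open Pool.Agent.Helper22 N487b59b3

namespace Game

variable {Q : Problem} (G : Game Q)

theorem rank_fp : FP G.rank := by
  have h1 : FP fun p : List Bool × Nd => G.rk (p.1, p.2.1) :=
    G.rk_fp.comp (FP.pair FP.fst (FP.fst' FP.snd))
  have h2 : FP fun p : List Bool × Nd => fit (G.R p.1) (un p.2.2.1.length) :=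
    FP.fit (G.R_fp.comp FP.fst) (FP.un_length (FP.fst' (FP.snd' FP.snd)))
  have h3 : FP fun p : List Bool × Nd => p.2.2.2 := FP.snd' (FP.snd' FP.snd)
  exact FP.cons (FP.const false) (FP.append h1 (FP.append h2 h3))

theorem active_ofp : OFP G.active := by
  have h1 : OFP fun X (p : List Bool × (List Bool × Nd)) => G.valid X (p.1, p.2.2) :=
    G.valid_ofp.on (FP.pair FP.fst (FP.snd' FP.snd))
  have h2 : OFP fun X (p : List Bool × (List Bool × Nd)) => G.dn X (p.1, (p.2.2.1, p.2.2.2.1)) :=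
    G.dn_ofp.on (FP.pair FP.fst
      (FP.pair (FP.fst' (FP.snd' FP.snd)) (FP.fst' (FP.snd' (FP.snd' FP.snd)))))
  have h3 : OFP fun (_ : Oracle) (p : List Bool × (List Bool × Nd)) =>
      ltb (G.rank (p.1, p.2.2)) p.2.1 :=
    OFP.of_fp (FP.ltb (G.rank_fp.comp (FP.pair FP.fst (FP.snd' FP.snd))) (FP.fst' FP.snd))
  exact h1.and (h2.or h3.not)

theorem has_ofp : OFP G.has := by
  have h1 : OFP fun X (p : List Bool × (Nd × (List Bool × List Bool))) =>
      G.V X (p.1, (p.2.2.1, cf p.2.2.2)) :=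
    G.V_ofp.on (FP.pair FP.fst
      (FP.pair (FP.fst' (FP.snd' FP.snd)) (FP.cf (FP.snd' (FP.snd' FP.snd)))))
  have h2 : OFP fun (_ : Oracle) (p : List Bool × (Nd × (List Bool × List Bool))) =>
      Helper22.weq (zr p.2.2.2) (zr (G.lam p.1)) :=
    OFP.of_fp (FP.weq (FP.zr (FP.snd' (FP.snd' FP.snd))) (FP.zr (G.lam_fp.comp FP.fst)))
  have h3 : OFP fun (_ : Oracle) (p : List Bool × (Nd × (List Bool × List Bool))) =>
      Helper22.weq p.2.2.1 p.2.1.1 :=
    OFP.of_fp (FP.weq (FP.fst' (FP.snd' FP.snd)) (FP.fst' (FP.fst' FP.snd)))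
  have hq : FP fun p : List Bool × (Nd × (List Bool × List Bool)) =>
      (p.1, (p.2.1.1, p.2.1.2.1)) :=
    FP.pair FP.fst (FP.pair (FP.fst' (FP.fst' FP.snd)) (FP.fst' (FP.snd' (FP.fst' FP.snd))))
  have h4 : OFP fun X (p : List Bool × (Nd × (List Bool × List Bool))) =>
      G.dn X (p.1, (p.2.1.1, p.2.1.2.1)) := G.dn_ofp.on hq
  have h5 : OFP fun X (p : List Bool × (Nd × (List Bool × List Bool))) =>
      G.ask X (p.1, (p.2.1.1, p.2.1.2.1)) := G.ask_ofp.on hq
  have h6 : OFP fun (_ : Oracle) (p : List Bool × (Nd × (List Bool × List Bool))) => p.2.2.1 :=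
    OFP.of_fp (FP.fst' (FP.snd' FP.snd))
  have h7 : OFP fun (_ : Oracle) (p : List Bool × (Nd × (List Bool × List Bool))) =>
      ltb (false :: p.2.2.2) p.2.1.2.2 :=
    OFP.of_fp (FP.ltb (FP.cons (FP.const false) (FP.snd' (FP.snd' FP.snd)))
      (FP.snd' (FP.snd' (FP.fst' FP.snd))))
  exact (h1.and h2).and (h3.or ((h4.not.and (h6.weq h5)).and h7))

theorem last_ofp : OFP G.last := by
  have h1 : OFP fun (_ : Oracle) (p : List Bool × Nd) => p.2.1 :=
    OFP.of_fp (FP.fst' FP.snd)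
  have h2 : OFP fun X (p : List Bool × Nd) => G.fin X (p.1, (p.2.1, p.2.2.1)) :=
    G.fin_ofp.on (FP.pair FP.fst (FP.pair (FP.fst' FP.snd) (FP.fst' (FP.snd' FP.snd))))
  have h3 : OFP fun (_ : Oracle) (p : List Bool × Nd) => G.lam p.1 :=
    OFP.of_fp (G.lam_fp.comp FP.fst)
  have h4 : OFP fun X (p : List Bool × Nd) =>
      fit (G.lam p.1) (cd (G.fin X (p.1, (p.2.1, p.2.2.1))) []) :=
    OFP.map2 (f := fun q : List Bool × List Bool => fit q.1 (cd q.2 []))
      (FP.fit FP.fst (FP.cd FP.snd (FP.const []))) h3 h2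
  exact h1.pair h4

end Game

end Pool.Agent.APX
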