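import Pool.Agent.APX.GFPA

set_option autoImplicit false

/-!
# APX-GFPC: the coding of the nodes is polynomial time
-/

namespace Pool.Agent.APX

open Pool.Agent.Helper22 N487b59b3

namespace Game

variable {Q : Problem} (G : Game Q)

private theorem gfpc_add {f g : List Bool → ℕ} (hf : FP fun a => un (f a)) (hg : FP fun a => un (g a)) :
    FP fun a => un (f a + g a) := by
  simp only [un_add]
  exact hf.append hg

private theorem gfpc_mul {f g : List Bool → ℕ} (hf : FP fun a => un (f a)) (hg : FP fun a => un (g a)) :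
    FP fun a => un (f a * g a) := by
  have h := FP.unMul hf hg
  simp only [un_length] at h
  exact h

private theorem gfpc_const (n : ℕ) : FP fun _ : List Bool => un n := FP.const _

theorem be_fp : FP fun x : List Bool => un (G.be x) := by
  have h1 := FP.un_length G.ls_fp
  have h2 := FP.un_length (lam_fp G)
  have h3 := FP.un_length G.R_fp
  have h4 := FP.un_length G.lv_fp
  exact gfpc_add (gfpc_mul (gfpc_const 2) (gfpc_add (gfpc_add (gfpc_add (gfpc_mul (gfpc_const 2) h1)
    (gfpc_const 1)) (gfpc_add (gfpc_mul (gfpc_const 2) h2) (gfpc_const 3)))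
    (gfpc_mul h3 (gfpc_add (gfpc_mul (gfpc_const 2) h4) (gfpc_const 1))))) (gfpc_const 3)

theorem ga_fp : FP fun x : List Bool => un (G.ga x) := by
  have h1 := FP.un_length G.ls_fp
  have h2 := FP.un_length (lam_fp G)
  exact gfpc_add (gfpc_add (gfpc_mul (gfpc_const 2) h1) (gfpc_const 1))
    (gfpc_add (gfpc_mul (gfpc_const 2) h2) (gfpc_const 1))

theorem al_fp : FP fun x : List Bool => un (G.al x) := by
  have h1 := FP.un_length G.lr_fp
  have h2 := FP.un_length (lam_fp G)
  have h3 := FP.un_length G.R_fp
  exact gfpc_add (gfpc_add (gfpc_add h1 h3) h2) (gfpc_const 2)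

theorem encN_fp : FP G.encN := by
  have h1 : FP fun p : List Bool × Nd => un (G.be p.1) := (be_fp G).comp FP.fst
  have h2 : FP fun p : List Bool × Nd => p.2 := FP.snd
  have hs : FP fun p : List Bool × Nd => p.2.1 := FP.fst' h2
  have hT : FP fun p : List Bool × Nd => p.2.2.1 := FP.fst' (FP.snd' h2)
  have hr : FP fun p : List Bool × Nd => p.2.2.2 := FP.snd' (FP.snd' h2)
  exact FP.fit h1 (FP.cd (FP.cons (FP.const true) (FP.cd hs (FP.cd hr (FP.tw hT)))) (FP.const []))

theorem decN_fp : FP G.decN := by
  have hx : FP fun p : List Bool × List Bool => p.1 := FP.fst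
  have hw : FP fun p : List Bool × List Bool => p.2 := FP.snd
  have hc : FP fun p : List Bool × List Bool => cf p.2 := FP.cf hw
  have ht : FP fun p : List Bool × List Bool => (cf p.2).tail := FP.tail hc
  have hz : FP G.z0 := FP.cons (FP.const false) (FP.zr (lam_fp G))
  exact FP.ite (FP.isEmpty hc) (FP.pair (G.s0_fp.comp hx) (FP.pair (FP.const []) (hz.comp hx)))
    (FP.pair (FP.cf ht) (FP.pair (FP.wt (FP.cs (FP.cs ht))) (FP.cf (FP.cs ht))))

theorem encC_fp : FP G.encC := by
  have h1 : FP fun p : List Bool × (List Bool × List Bool) => un (G.ga p.1) := (ga_fp G).comp FP.fst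
  have h2 : FP fun p : List Bool × (List Bool × List Bool) => p.2 := FP.snd
  exact FP.fit h1 (FP.cd (FP.fst' h2) (FP.cd (FP.snd' h2) (FP.const [])))

end Game

end Pool.Agent.APX
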