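import Pool.Agent.APX.NodeCode

set_option autoImplicit false

/-!
# APX-GInst: the CPLS instance of a game
-/

namespace Pool.Agent.APX

open Pool.Agent.Helper22 N487b59b3

namespace Game

variable {Q : Problem} (G : Game Q)

/-- the oracle of the CPLS instance of the game on input `x` -/
def PP (X : Oracle) (p : List Bool × List Bool) : Bool :=
  if (cf p.2).headD false then
    !(G.active X (p.1, (cf (cs p.2), G.decN (p.1, cf (cs (cs p.2)))))) ||
      G.has X (p.1, (G.decN (p.1, cf (cs (cs p.2))), decC (cs (cs (cs p.2)))))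
  else if (cf p.2).tail.headD false then
    (G.encC (p.1, G.last X (p.1, G.decN (p.1, cf (cs (cs p.2)))))).getD
      (cs (cs (cs p.2))).length false
  else
    (G.encN (p.1, G.next X (p.1, G.decN (p.1, cf (cs (cs p.2)))))).getD
      (cs (cs (cs p.2))).length false

/-- the solution read off a solution of the instance -/
def gg (X : Oracle) (p : List Bool × List Bool) : List Bool :=
  G.sol X (p.1, ((G.decN (p.1, cf (cs (cs p.2)))).1, (G.decN (p.1, cf (cs (cs p.2)))).2.1))

/-- the next node of the instance -/
theorem nxt_PP (X : Oracle) (x : List Bool) (i v : ℕ) :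
    bin (G.be x) (nxt (fun q => G.PP X (x, q)) (2 ^ G.al x) (2 ^ G.be x) i v) =
      G.encN (x, G.next X (x, G.decN (x, bin (G.be x) v))) := by
  have hl : (G.encN (x, G.next X (x, G.decN (x, bin (G.be x) v)))).length = G.be x :=
    G.length_encN _
  have h1 : nxt (fun q => G.PP X (x, q)) (2 ^ G.al x) (2 ^ G.be x) i v =
      val (G.encN (x, G.next X (x, G.decN (x, bin (G.be x) v)))) := by
    rw [nxt, dig_two_pow, dig_two_pow]
    have h2 := rdn_eq (fun q => G.PP X (x, q))
      (G.encN (x, G.next X (x, G.decN (x, bin (G.be x) v))))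
      (fun j => qry [false, false] (bin (G.al x) i) (bin (G.be x) v) j) (by
        intro j _
        show G.PP X (x, qry [false, false] (bin (G.al x) i) (bin (G.be x) v) (un j)) = _
        simp [PP, qry])
    rw [hl] at h2
    rw [h2]
    refine Nat.mod_eq_of_lt ?_
    have h3 := val_lt (G.encN (x, G.next X (x, G.decN (x, bin (G.be x) v))))
    rwa [hl] at h3
  rw [h1]
  have h4 := bin_val (G.encN (x, G.next X (x, G.decN (x, bin (G.be x) v))))
  rwa [hl] at h4

/-- the last colour of the instance -/
theorem lst_PP (X : Oracle) (x : List Bool) (v : ℕ) :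
    bin (G.ga x) (lst (fun q => G.PP X (x, q)) (2 ^ G.be x) (2 ^ G.ga x) v) =
      G.encC (x, G.last X (x, G.decN (x, bin (G.be x) v))) := by
  have hl : (G.encC (x, G.last X (x, G.decN (x, bin (G.be x) v)))).length = G.ga x :=
    G.length_encC _
  have h1 : lst (fun q => G.PP X (x, q)) (2 ^ G.be x) (2 ^ G.ga x) v =
      val (G.encC (x, G.last X (x, G.decN (x, bin (G.be x) v)))) := by
    rw [lst, dig_two_pow, dig_two_pow]
    have h2 := rdn_eq (fun q => G.PP X (x, q))
      (G.encC (x, G.last X (x, G.decN (x, bin (G.be x) v))))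
      (fun j => qry [false, true] [] (bin (G.be x) v) j) (by
        intro j _
        show G.PP X (x, qry [false, true] [] (bin (G.be x) v) (un j)) = _
        simp [PP, qry])
    rw [hl] at h2
    rw [h2]
    refine Nat.mod_eq_of_lt ?_
    have h3 := val_lt (G.encC (x, G.last X (x, G.decN (x, bin (G.be x) v))))
    rwa [hl] at h3
  rw [h1]
  have h4 := bin_val (G.encC (x, G.last X (x, G.decN (x, bin (G.be x) v))))
  rwa [hl] at h4

/-- the colours of the instance -/
theorem clr_PP (X : Oracle) (x : List Bool) (i v c : ℕ) :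
    clr (fun q => G.PP X (x, q)) (2 ^ G.al x) (2 ^ G.be x) (2 ^ G.ga x) i v c ↔
      (G.active X (x, (bin (G.al x) i, G.decN (x, bin (G.be x) v))) = false ∨
        G.has X (x, (G.decN (x, bin (G.be x) v), decC (bin (G.ga x) c))) = true) := by
  rw [clr, dig_two_pow, dig_two_pow, dig_two_pow]
  simp [PP, qry]

end Game

end Pool.Agent.APX
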