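import Pool.Agent.APX.GCore
import Pool.Agent.APX.GFPB
import Pool.Agent.APX.GFPC

set_option autoImplicit false

/-!
# APX-GMain: a problem with a game is reducible to CPLS
-/

namespace Pool.Agent.APX

open Pool.Agent.Helper22 N487b59b3

namespace Game

variable {Q : Problem} (G : Game Q)

theorem PP_ofp : OFP G.PP := by
  have hx : FP fun p : List Bool × List Bool => p.1 := FP.fst
  have hq : FP fun p : List Bool × List Bool => p.2 := FP.snd
  have hd : FP fun p : List Bool × List Bool => G.decN (p.1, cf (cs (cs p.2))) :=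
    G.decN_fp.comp (hx.pair (FP.cf (FP.cs (FP.cs hq))))
  have hk : FP fun p : List Bool × List Bool => cs (cs (cs p.2)) := FP.cs (FP.cs (FP.cs hq))
  have h1 : OFP fun X (p : List Bool × List Bool) =>
      G.active X (p.1, (cf (cs p.2), G.decN (p.1, cf (cs (cs p.2))))) :=
    G.active_ofp.on (hx.pair ((FP.cf (FP.cs hq)).pair hd))
  have h2 : OFP fun X (p : List Bool × List Bool) =>
      G.has X (p.1, (G.decN (p.1, cf (cs (cs p.2))), decC (cs (cs (cs p.2))))) :=
    G.has_ofp.on (hx.pair (hd.pair ((FP.cf hk).pair (FP.cf (FP.cs hk)))))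
  have h3 : OFP fun X (p : List Bool × List Bool) =>
      (p.1, G.last X (p.1, G.decN (p.1, cf (cs (cs p.2))))) :=
    (OFP.of_fp hx).pair (G.last_ofp.on (hx.pair hd))
  have h4 : OFP fun X (p : List Bool × List Bool) =>
      (p.1, G.next X (p.1, G.decN (p.1, cf (cs (cs p.2))))) :=
    (OFP.of_fp hx).pair (G.next_ofp.on (hx.pair hd))
  have h5 : OFP fun X (p : List Bool × List Bool) =>
      (G.encC (p.1, G.last X (p.1, G.decN (p.1, cf (cs (cs p.2)))))).getD
        (cs (cs (cs p.2))).length false :=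
    OFP.map2 (f := fun z : List Bool × List Bool => z.1.getD z.2.length false)
      (FP.getU FP.fst FP.snd) (OFP.map (f := G.encC) G.encC_fp h3) (OFP.of_fp hk)
  have h6 : OFP fun X (p : List Bool × List Bool) =>
      (G.encN (p.1, G.next X (p.1, G.decN (p.1, cf (cs (cs p.2)))))).getD
        (cs (cs (cs p.2))).length false :=
    OFP.map2 (f := fun z : List Bool × List Bool => z.1.getD z.2.length false)
      (FP.getU FP.fst FP.snd) (OFP.map (f := G.encN) G.encN_fp h4) (OFP.of_fp hk)
  exact (OFP.ite (OFP.of_fp (FP.headD (FP.cf hq) false)) ((OFP.not h1).or h2)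
    (OFP.ite (OFP.of_fp (FP.headD (FP.tail (FP.cf hq)) false)) h5 h6)).congr fun X p => rfl

theorem gg_ofp : OFP G.gg := by
  have hx : FP fun p : List Bool × List Bool => p.1 := FP.fst
  have hq : FP fun p : List Bool × List Bool => p.2 := FP.snd
  have hd : FP fun p : List Bool × List Bool => G.decN (p.1, cf (cs (cs p.2))) :=
    G.decN_fp.comp (hx.pair (FP.cf (FP.cs (FP.cs hq))))
  exact (G.sol_ofp.on (hx.pair ((FP.fst' hd).pair (FP.fst' (FP.snd' hd))))).congr fun X p => rfl

/-- PLAN. `f x = (1^al, (1^be, 1^ga))` (`val_ones`), `P` from `PP_ofp`, `g` from `gg_ofp`, and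
`core`. -/
theorem reducible (G : Game Q) : ReducibleToCPLS Q := by
  obtain ⟨P, hP⟩ := G.PP_ofp
  obtain ⟨g, hg⟩ := G.gg_ofp
  obtain ⟨f, hf⟩ := OFP.of_fp (G.al_fp.pair (G.be_fp.pair G.ga_fp))
  refine ⟨f, P, g, fun X x w h => ?_⟩
  rw [hf X x] at h
  have e : (fun q => P.run X (x, q)) = fun q => G.PP X (x, q) := funext fun q => hP X (x, q)
  rw [e] at h
  have h' : CPLSSol (fun q => G.PP X (x, q)) (val (un (G.al x)) + 1) (val (un (G.be x)) + 1)
      (val (un (G.ga x)) + 1) w := h
  unfold un at h'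
  rw [val_ones, val_ones, val_ones] at h'
  rw [hg X (x, w)]
  exact G.core X x w h'

end Game

end Pool.Agent.APX
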