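import Pool.Agent.APX.WordsFP
import Pool.Agent.APX.Tw
import Pool.Agent.APX.OFold

set_option autoImplicit false

/-!
# Games: states, violations, and a strategy asking for violations of larger states

A game for `Q` proves `Q` total: the first state has no violation, and from violations of larger
states the strategy computes a violation of the given state or a solution of `Q`.
-/

namespace Pool.Agent.APX

open Pool.Agent.Helper22 N487b59b3

/-- A game for `Q`. All lengths are given by unary words. -/
structure Game (Q : Problem) where
  /-- bound for the length of the states -/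
  ls : List Bool → List Bool
  ls_fp : FP ls
  /-- bound for the length of the violations -/
  lv : List Bool → List Bool
  lv_fp : FP lv
  /-- bound for the number of requests -/
  R : List Bool → List Bool
  R_fp : FP R
  /-- length of the ranks -/
  lr : List Bool → List Bool
  lr_fp : FP lr
  /-- the rank of a state -/
  rk : List Bool × List Bool → List Bool
  rk_fp : FP rk
  rk_length : ∀ x s, (rk (x, s)).length = (lr x).length
  /-- the states -/
  wf : List Bool × List Bool → Bool
  wf_fp : FP wf
  wf_length : ∀ x s, wf (x, s) = true → s.length ≤ (ls x).length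
  /-- the first state -/
  s0 : List Bool → List Bool
  s0_fp : FP s0
  s0_wf : ∀ x, wf (x, s0 x) = true
  /-- `y` is a violation of the state `s` -/
  V : Oracle → List Bool × (List Bool × List Bool) → Bool
  V_ofp : OFP V
  V_s0 : ∀ X x y, V X (x, (s0 x, y)) = false
  V_length : ∀ X x s y, V X (x, (s, y)) = true → y.length ≤ (lv x).length
  /-- the strategy: the next request, or done -/
  ask : Oracle → List Bool × (List Bool × List (List Bool)) → List Bool
  ask_ofp : OFP ask
  dn : Oracle → List Bool × (List Bool × List (List Bool)) → Bool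
  dn_ofp : OFP dn
  fin : Oracle → List Bool × (List Bool × List (List Bool)) → List Bool
  fin_ofp : OFP fin
  sol : Oracle → List Bool × (List Bool × List (List Bool)) → List Bool
  sol_ofp : OFP sol
  ask_ok : ∀ X x s T, wf (x, s) = true →
    (∀ j < T.length, dn X (x, (s, T.take j)) = false ∧
      V X (x, (ask X (x, (s, T.take j)), T.getD j [])) = true) →
    dn X (x, (s, T)) = false →
    wf (x, ask X (x, (s, T))) = true ∧ val (rk (x, s)) < val (rk (x, ask X (x, (s, T)))) ∧
      T.length < (R x).length
  fin_ok : ∀ X x s T, wf (x, s) = true →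
    (∀ j < T.length, dn X (x, (s, T.take j)) = false ∧
      V X (x, (ask X (x, (s, T.take j)), T.getD j [])) = true) →
    dn X (x, (s, T)) = true →
    V X (x, (s, fin X (x, (s, T)))) = true ∨ Q X x (sol X (x, (s, T)))

variable {Q : Problem} (G : Game Q)

namespace Game

/-- the answers `T` are violations of the requests made in the state `s` -/
def Good (X : Oracle) (x s : List Bool) (T : List (List Bool)) : Prop :=
  ∀ j < T.length, G.dn X (x, (s, T.take j)) = false ∧
    G.V X (x, (G.ask X (x, (s, T.take j)), T.getD j [])) = true

/-- the test for `Good` -/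
def good (X : Oracle) (p : List Bool × (List Bool × List (List Bool))) : Bool :=
  (p.2.2.foldl (fun b y => (b.1 && !G.dn X (p.1, (p.2.1, b.2)) &&
    G.V X (p.1, (G.ask X (p.1, (p.2.1, b.2)), y)), b.2 ++ [y])) (true, ([] : List (List Bool)))).1

/-- length of the words which code the violations (unary) -/
def lam (x : List Bool) : List Bool := true :: (G.lv x ++ G.lv x)

/-- A node is `(s, (T, r))`: a state, the answers obtained so far, and a counter with one digit
more than `lam`. -/
abbrev Nd : Type := List Bool × (List (List Bool) × List Bool)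

/-- the counter zero -/
def z0 (x : List Bool) : List Bool := false :: zr (G.lam x)

/-- the next node -/
def next (X : Oracle) (p : List Bool × Nd) : Nd :=
  if G.dn X (p.1, (p.2.1, p.2.2.1)) then p.2
  else if p.2.2.2.headD false then (G.ask X (p.1, (p.2.1, p.2.2.1)), ([], G.z0 p.1))
  else if G.V X (p.1, (G.ask X (p.1, (p.2.1, p.2.2.1)), cf p.2.2.2.tail)) then
    (p.2.1, (p.2.2.1 ++ [cf p.2.2.2.tail], G.z0 p.1))
  else (p.2.1, (p.2.2.1, incw p.2.2.2))

/-- the nodes in use -/
def valid (X : Oracle) (p : List Bool × Nd) : Bool :=
  G.wf (p.1, p.2.1) && G.good X (p.1, (p.2.1, p.2.2.1)) &&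
    Helper22.weq (zr p.2.2.2) (zr (G.z0 p.1))

/-- the rank of a node, as a word of length `lr + R + lam + 2` -/
def rank (p : List Bool × Nd) : List Bool :=
  false :: (G.rk (p.1, p.2.1) ++ (fit (G.R p.1) (un p.2.2.1.length) ++ p.2.2.2))

/-- the nodes in use on the level `i` (a word of length `lr + R + lam + 2`) -/
def active (X : Oracle) (p : List Bool × (List Bool × Nd)) : Bool :=
  G.valid X (p.1, p.2.2) &&
    (G.dn X (p.1, (p.2.2.1, p.2.2.2.1)) || !(ltb (G.rank (p.1, p.2.2)) p.2.1))

/-- the node has the colour `(σ, ρ)` -/
def has (X : Oracle) (p : List Bool × (Nd × (List Bool × List Bool))) : Bool :=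
  G.V X (p.1, (p.2.2.1, cf p.2.2.2)) && Helper22.weq (zr p.2.2.2) (zr (G.lam p.1)) &&
    (Helper22.weq p.2.2.1 p.2.1.1 ||
      (!G.dn X (p.1, (p.2.1.1, p.2.1.2.1)) &&
        Helper22.weq p.2.2.1 (G.ask X (p.1, (p.2.1.1, p.2.1.2.1))) &&
        ltb (false :: p.2.2.2) p.2.1.2.2))

/-- the colour of a last node -/
def last (X : Oracle) (p : List Bool × Nd) : List Bool × List Bool :=
  (p.2.1, fit (G.lam p.1) (cd (G.fin X (p.1, (p.2.1, p.2.2.1))) []))

end Game

end Pool.Agent.APX
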