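import Mathlib
import Pool.Agent.Helper22.Tools
import Pool.Agent.Helper22.Lists
import Pool.Agent.Helper22.OracleTools

set_option autoImplicit false

/-!
# Polynomial time functions with oracle: the class `OFP`

`OFP F` says that `F : Oracle → α → β` is computed by one polynomial time oracle procedure, the
same for all oracles.
-/

namespace Pool.Agent.APX

open Pool.Agent.Helper22 N487b59b3 N68a2faeb

/-- polynomial time with oracle -/
def OFP {α β : Type} [N487b59b3 α] [N487b59b3 β] (F : Oracle → α → β) : Prop :=
  ∃ M : OracleProc α β, ∀ (X : Oracle) (a : α), M.run X a = F X a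

section

variable {α β γ δ : Type} [N487b59b3 α] [N487b59b3 β] [N487b59b3 γ] [N487b59b3 δ]

theorem OFP.proc (M : OracleProc α β) : OFP fun X a => M.run X a := ⟨M, fun _ _ => rfl⟩

theorem OFP.congr {F G : Oracle → α → β} (h : OFP F) (e : ∀ X a, F X a = G X a) : OFP G := by
  obtain ⟨M, hM⟩ := h
  exact ⟨M, fun X a => (hM X a).trans (e X a)⟩

theorem OFP.of_fp {f : α → β} (h : FP f) : OFP fun _ a => f a :=
  ⟨{ clock := fun _ => []
     query := fun _ => []
     out := fun p => f p.1
     clock_poly := (isPolyTime_iff _).2 (FP.const _)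
     query_poly := (isPolyTime_iff _).2 (FP.const _)
     out_poly := (isPolyTime_iff _).2 (h.comp FP.fst) }, fun _ _ => rfl⟩

/-- one query -/
theorem OFP.orc : OFP fun X (q : List Bool) => X q :=
  ⟨{ clock := fun _ => [true]
     query := fun p => p.1
     out := fun p => p.2.headD false
     clock_poly := (isPolyTime_iff _).2 (FP.const _)
     query_poly := (isPolyTime_iff _).2 FP.fst
     out_poly := (isPolyTime_iff _).2 (FP.headD FP.snd _) }, fun _ _ => rfl⟩

theorem enc_FP : FP fun a : α => (bitEncode a : List Bool) :=
  PT.quote.mono (by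
    rintro x z ⟨a, rfl, rfl⟩
    exact enc_bits _)

end

end Pool.Agent.APX
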