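import Pool.Agent.APX.NodeSemA

set_option autoImplicit false

/-!
# APX-NodeCode: nodes and colours as words
-/

namespace Pool.Agent.APX

open Pool.Agent.Helper22 N487b59b3

namespace Game

variable {Q : Problem} (G : Game Q)

/-- number of digits of the levels -/
def al (x : List Bool) : ℕ := (G.lr x).length + (G.R x).length + (G.lam x).length + 2

/-- number of digits of the nodes -/
def be (x : List Bool) : ℕ :=
  2 * (2 * (G.ls x).length + 1 + (2 * (G.lam x).length + 3) +
    (G.R x).length * (2 * (G.lv x).length + 1)) + 3

/-- number of digits of the colours -/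
def ga (x : List Bool) : ℕ := 2 * (G.ls x).length + 1 + (2 * (G.lam x).length + 1)

/-- the word of a node -/
def encN (p : List Bool × Nd) : List Bool :=
  fit (un (G.be p.1)) (cd (true :: cd p.2.1 (cd p.2.2.2 (tw p.2.2.1))) [])

/-- the node of a word -/
def decN (p : List Bool × List Bool) : Nd :=
  if (cf p.2).isEmpty then (G.s0 p.1, ([], G.z0 p.1))
  else (cf (cf p.2).tail, (wt (cs (cs (cf p.2).tail)), cf (cs (cf p.2).tail)))

/-- the word of a colour -/
def encC (p : List Bool × (List Bool × List Bool)) : List Bool :=
  fit (un (G.ga p.1)) (cd p.2.1 (cd p.2.2 []))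

/-- the colour of a word -/
def decC (w : List Bool) : List Bool × List Bool := (cf w, cf (cs w))

@[simp] theorem length_encN (p : List Bool × Nd) : (G.encN p).length = G.be p.1 := by
  rw [encN, length_fit, un_length]

@[simp] theorem length_encC (p : List Bool × (List Bool × List Bool)) :
    (G.encC p).length = G.ga p.1 := by
  rw [encC, length_fit, un_length]

private theorem nc_cd_append (a b c : List Bool) : cd a b ++ c = cd a (b ++ c) := by
  simp [cd]

private theorem nc_fit {l w : List Bool} (h : w.length ≤ l.length) :
    ∃ z : List Bool, fit l w = w ++ z := ⟨_, fit_eq h⟩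

/-- The word before `fit` is short enough: `wf_length`, `Good.length_le`,
`Good.mem_length`, `length_tw_le`; then `fit_eq`, and `cf (cd a [] ++ z) = a`. -/
theorem decN_encN {X : Oracle} {x : List Bool} {nd : Nd} (h : G.valid X (x, nd) = true) :
    G.decN (x, G.encN (x, nd)) = nd := by
  obtain ⟨s, T, r⟩ := nd
  have h1 : (G.wf (x, s) = true ∧ G.good X (x, (s, T)) = true) ∧
      Helper22.weq (zr r) (zr (G.z0 x)) = true := by
    have h0 : (G.wf (x, s) && G.good X (x, (s, T)) && Helper22.weq (zr r) (zr (G.z0 x))) = true := h
    simpa only [Bool.and_eq_true] using h0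
  obtain ⟨⟨hw, hg⟩, hr⟩ := h1
  rw [weq_iff] at hr
  rw [good_iff] at hg
  have hrl : r.length = (G.lam x).length + 1 := by
    have h2 := congrArg List.length hr
    simpa [zr, z0] using h2
  have hs := G.wf_length x s hw
  have hT := length_tw_le T (G.lv x).length (G.R x).length (Good.length_le G hw hg)
    (Good.mem_length G hg)
  have hlen : (cd (true :: cd s (cd r (tw T))) []).length ≤ (un (G.be x)).length := by
    rw [un_length, cd_length, List.length_cons, cd_length, cd_length, be, List.length_nil, hrl]
    omega
  obtain ⟨z, hz⟩ := nc_fit hlen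
  have he : G.encN (x, (s, (T, r))) = cd (true :: cd s (cd r (tw T))) z := by
    show fit (un (G.be x)) (cd (true :: cd s (cd r (tw T))) []) = _
    rw [hz, nc_cd_append, List.nil_append]
  rw [he, decN]
  simp only [cf_cd, List.isEmpty_cons, Bool.false_eq_true, if_false, List.tail_cons, cs_cd, wt_tw]

theorem decN_zero (x : List Bool) (l : ℕ) :
    G.decN (x, List.replicate l false) = (G.s0 x, ([], G.z0 x)) := by
  have h : cf (List.replicate l false) = [] := by
    cases l with
    | zero => simp [cf]
    | succ l => simp [List.replicate_succ, cf]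
  rw [decN]
  simp only [h, List.isEmpty_nil, if_true]

theorem decC_encC {x σ ρ : List Bool} (h : σ.length ≤ (G.ls x).length)
    (h' : ρ.length ≤ (G.lam x).length) : decC (G.encC (x, (σ, ρ))) = (σ, ρ) := by
  have hlen : (cd σ (cd ρ [])).length ≤ (un (G.ga x)).length := by
    rw [un_length, cd_length, cd_length, ga, List.length_nil]
    omega
  obtain ⟨z, hz⟩ := nc_fit hlen
  have he : G.encC (x, (σ, ρ)) = cd σ (cd ρ z) := by
    show fit (un (G.ga x)) (cd σ (cd ρ [])) = _
    rw [hz, nc_cd_append, nc_cd_append, List.nil_append]
  rw [he, decC, cf_cd, cs_cd, cf_cd]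

end Game

end Pool.Agent.APX
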