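import Pool.Agent.APX.Game

set_option autoImplicit false

/-!
# APX-NodeSemA: the answers of a node
-/

namespace Pool.Agent.APX

open Pool.Agent.Helper22 N487b59b3

namespace Game

variable {Q : Problem} (G : Game Q)

private theorem nodeSemA_good_append (X : Oracle) (x s : List Bool) (T : List (List Bool)) (y : List Bool) :
    G.Good X x s (T ++ [y]) ↔ G.Good X x s T ∧ G.dn X (x, (s, T)) = false ∧
      G.V X (x, (G.ask X (x, (s, T)), y)) = true := by
  unfold Good
  constructor
  · intro h
    refine ⟨fun j hj => ?_, ?_⟩
    · have h1 := h j (by rw [List.length_append]; omega)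
      rw [List.take_append_of_le_length hj.le, List.getD_append _ _ _ _ hj] at h1
      exact h1
    · have h1 := h T.length (by simp)
      rw [List.take_append_of_le_length le_rfl, List.take_length,
        List.getD_append_right _ _ _ _ le_rfl] at h1
      simpa using h1
  · rintro ⟨h1, h2, h3⟩ j hj
    rw [List.length_append, List.length_singleton] at hj
    rcases Nat.lt_or_ge j T.length with h | h
    · rw [List.take_append_of_le_length h.le, List.getD_append _ _ _ _ h]
      exact h1 j h
    · have h4 : j = T.length := by omega
      subst h4
      rw [List.take_append_of_le_length le_rfl, List.take_length,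
        List.getD_append_right _ _ _ _ le_rfl]
      simpa using ⟨h2, h3⟩

private theorem nodeSemA_fold (X : Oracle) (x s : List Bool) (T : List (List Bool)) :
    (T.foldl (fun b y => (b.1 && !G.dn X (x, (s, b.2)) &&
      G.V X (x, (G.ask X (x, (s, b.2)), y)), b.2 ++ [y])) (true, ([] : List (List Bool)))).2 = T ∧
    ((T.foldl (fun b y => (b.1 && !G.dn X (x, (s, b.2)) &&
      G.V X (x, (G.ask X (x, (s, b.2)), y)), b.2 ++ [y])) (true, ([] : List (List Bool)))).1 = true ↔
      G.Good X x s T) := by
  induction T using List.reverseRecOn with
  | nil =>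
    refine ⟨rfl, ?_⟩
    simp [Good]
  | append_singleton T y ih =>
    obtain ⟨h1, h2⟩ := ih
    rw [List.foldl_append, List.foldl_cons, List.foldl_nil, nodeSemA_good_append, h1, ← h2]
    refine ⟨rfl, ?_⟩
    simp [and_assoc]

/-- PLAN. Induction on `T` from the right (`List.reverseRecOn`): the fold over `T ++ [y]`. -/
theorem good_iff (X : Oracle) (x s : List Bool) (T : List (List Bool)) :
    G.good X (x, (s, T)) = true ↔ G.Good X x s T :=
  (nodeSemA_fold G X x s T).2

/-- PLAN. If `T ≠ []` apply `ask_ok` to `T.take (T.length - 1)`. -/
theorem Good.length_le {X : Oracle} {x s : List Bool} {T : List (List Bool)}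
    (hs : G.wf (x, s) = true) (h : G.Good X x s T) : T.length ≤ (G.R x).length := by
  induction T using List.reverseRecOn with
  | nil => simp
  | append_singleton T y ih =>
    obtain ⟨h1, h2, h3⟩ := (nodeSemA_good_append G X x s T y).1 h
    have h4 := (G.ask_ok X x s T hs h1 h2).2.2
    rw [List.length_append, List.length_singleton]
    omega

/-- PLAN. `V_length`. -/
theorem Good.mem_length {X : Oracle} {x s : List Bool} {T : List (List Bool)}
    (h : G.Good X x s T) : ∀ y ∈ T, y.length ≤ (G.lv x).length := by
  intro y hy
  obtain ⟨j, hj, rfl⟩ := List.getElem_of_mem hy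
  have h1 := (h j hj).2
  rw [List.getD_eq_getElem _ _ hj] at h1
  exact G.V_length X x _ _ h1

/-- the length of the ranks of the valid nodes -/
theorem length_rank {X : Oracle} {x : List Bool} {nd : Nd} (h : G.valid X (x, nd) = true) :
    (G.rank (x, nd)).length = (G.lr x).length + (G.R x).length + (G.lam x).length + 2 := by
  unfold valid at h
  rw [Bool.and_eq_true, weq_iff] at h
  have h1 := congrArg List.length h.2
  simp only [zr, List.length_replicate, z0, List.length_cons] at h1
  change (false :: (G.rk (x, nd.1) ++ (fit (G.R x) (un nd.2.1.length) ++ nd.2.2))).length = _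
  rw [List.length_cons, List.length_append, List.length_append, G.rk_length, length_fit]
  rw [h1]
  omega

end Game

end Pool.Agent.APX
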