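import Pool.Agent.APX.NodeSemA

set_option autoImplicit false

/-!
# APX-NodeSemB: the next node is valid
-/

namespace Pool.Agent.APX

open Pool.Agent.Helper22 N487b59b3

namespace Game

variable {Q : Problem} (G : Game Q)

private theorem zr_eq_zr_private {β γ : Type} (l : List β) (l' : List γ) :
    zr l = zr l' ↔ l.length = l'.length := by
  unfold zr
  constructor
  · intro h
    simpa using congrArg List.length h
  · intro h
    rw [h]

private theorem valid_iff_private {X : Oracle} {x s : List Bool} {T : List (List Bool)}
    {r : List Bool} : G.valid X (x, (s, (T, r))) = true ↔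
      G.wf (x, s) = true ∧ G.Good X x s T ∧ r.length = (G.z0 x).length := by
  unfold valid
  dsimp only
  rw [Bool.and_eq_true, Bool.and_eq_true, weq_iff, zr_eq_zr_private, G.good_iff, and_assoc]

/-- PLAN. Three cases of the definition of `next` (`dn = false`): `(ask, [], 0)` (use `ask_ok`),
`(s, T ++ [y], 0)` (`Good` extends), `(s, T, incw r)`. -/
theorem valid_next {X : Oracle} {x : List Bool} {nd : Nd} (h : G.valid X (x, nd) = true) :
    G.valid X (x, G.next X (x, nd)) = true := by
  obtain ⟨s, T, r⟩ := nd
  rw [valid_iff_private] at h
  obtain ⟨hw, hg, hr⟩ := h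
  unfold next
  dsimp only
  split_ifs with hd hh hv
  · rw [valid_iff_private]
    exact ⟨hw, hg, hr⟩
  · rw [valid_iff_private]
    refine ⟨(G.ask_ok X x s T hw hg ?_).1, ?_, rfl⟩
    · simpa using hd
    · intro j hj
      simp at hj
  · rw [valid_iff_private]
    refine ⟨hw, ?_, rfl⟩
    intro j hj
    rw [List.length_append, List.length_singleton] at hj
    rcases Nat.lt_or_ge j T.length with hj' | hj'
    · have e1 : (T ++ [cf r.tail]).take j = T.take j := by
        rw [List.take_append_of_le_length hj'.le]
      have e2 : (T ++ [cf r.tail]).getD j [] = T.getD j [] := by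
        rw [List.getD_append _ _ _ _ hj']
      rw [e1, e2]
      exact hg j hj'
    · have ej : j = T.length := by omega
      subst ej
      have e1 : (T ++ [cf r.tail]).take T.length = T := by
        rw [List.take_left']
        rfl
      have e2 : (T ++ [cf r.tail]).getD T.length [] = cf r.tail := by
        rw [List.getD_append_right _ _ _ _ le_rfl]
        simp
      rw [e1, e2]
      exact ⟨by simpa using hd, hv⟩
  · rw [valid_iff_private]
    refine ⟨hw, hg, ?_⟩
    rw [length_incw]
    exact hr

theorem valid_first (X : Oracle) (x : List Bool) :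
    G.valid X (x, (G.s0 x, ([], G.z0 x))) = true := by
  rw [valid_iff_private]
  refine ⟨G.s0_wf x, ?_, rfl⟩
  intro j hj
  simp at hj

/-- PLAN. `V_s0`, and nothing is below the counter `0`. -/
theorem has_first (X : Oracle) (x : List Bool) (c : List Bool × List Bool) :
    G.has X (x, ((G.s0 x, ([], G.z0 x)), c)) = false := by
  by_contra hne
  rw [Bool.not_eq_false] at hne
  unfold has at hne
  dsimp only at hne
  simp only [Bool.and_eq_true, Bool.or_eq_true] at hne
  obtain ⟨⟨hV, hl⟩, h⟩ := hne
  rw [weq_iff, zr_eq_zr_private] at hl
  rcases h with h | ⟨_, h⟩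
  · rw [weq_iff] at h
    rw [h, G.V_s0] at hV
    exact Bool.false_ne_true hV
  · have hlen : (false :: c.2).length = (G.z0 x).length := by
      unfold z0
      simp [zr, hl]
    rw [ltb_iff hlen] at h
    have e : G.z0 x = List.replicate ((G.lam x).length + 1) false := by
      unfold z0 zr
      rw [List.replicate_succ]
    rw [e, val_zeros] at h
    exact Nat.not_lt_zero _ h

end Game

end Pool.Agent.APX
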