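import Pool.Agent.APX.Lib

set_option autoImplicit false

/-!
# APX-OComp: composition of polynomial time functions with oracle
-/

namespace Pool.Agent.APX

open Pool.Agent.Helper22 N487b59b3 N68a2faeb

variable {α β γ : Type} [N487b59b3 α] [N487b59b3 β] [N487b59b3 γ]

/-- the oldest answers -/
private def ocO (n : List Bool) (as : List Bool) : List Bool := as.drop (as.drop n.length).length

private theorem ocO_fp {δ : Type} [N487b59b3 δ] {f g : δ → List Bool} (hf : FP f) (hg : FP g) :
    FP fun p => ocO (f p) (g p) := by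
  unfold ocO
  fun_prop

private def ocB (M₁ : OracleProc α β) (p : α × List Bool) : β := M₁.out (p.1, ocO (M₁.clock p.1) p.2)

private def ocA (M₁ : OracleProc α β) (p : α × List Bool) : List Bool :=
  p.2.take (p.2.drop (M₁.clock p.1).length).length

private theorem ocB_fp (M₁ : OracleProc α β) : FP (ocB M₁) := by
  have hc : FP fun p : α × List Bool => M₁.clock p.1 := ((isPolyTime_iff _).1 M₁.clock_poly).comp FP.fst
  exact ((isPolyTime_iff _).1 M₁.out_poly).comp (FP.fst.pair (ocO_fp hc FP.snd))

private theorem ocA_fp (M₁ : OracleProc α β) : FP (ocA M₁) := by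
  have hc : FP fun p : α × List Bool => M₁.clock p.1 := ((isPolyTime_iff _).1 M₁.clock_poly).comp FP.fst
  unfold ocA
  fun_prop

/-- the composite procedure -/
private noncomputable def ocM (M₁ : OracleProc α β) (M₂ : OracleProc β γ) (q : Polynomial ℕ) : OracleProc α γ where
  clock a := M₁.clock a ++ un (q.eval (bitEncode a : List Bool).length)
  query p := if decide ((M₁.clock p.1).length ≤ p.2.length) = true then M₂.query (ocB M₁ p, ocA M₁ p)
    else M₁.query p
  out p := M₂.out (ocB M₁ p, ocO (M₂.clock (ocB M₁ p)) (ocA M₁ p))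
  clock_poly := (isPolyTime_iff _).2
    (FP.append ((isPolyTime_iff _).1 M₁.clock_poly) (FP.un_poly enc_FP q))
  query_poly := (isPolyTime_iff _).2 (by
    have hc : FP fun p : α × List Bool => M₁.clock p.1 := ((isPolyTime_iff _).1 M₁.clock_poly).comp FP.fst
    exact FP.ite (hc.length_le FP.snd) (((isPolyTime_iff _).1 M₂.query_poly).comp ((ocB_fp M₁).pair (ocA_fp M₁)))
      ((isPolyTime_iff _).1 M₁.query_poly))
  out_poly := (isPolyTime_iff _).2 (by
    have hc : FP fun p : α × List Bool => M₂.clock (ocB M₁ p) := ((isPolyTime_iff _).1 M₂.clock_poly).comp (ocB_fp M₁)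
    exact ((isPolyTime_iff _).1 M₂.out_poly).comp ((ocB_fp M₁).pair (ocO_fp hc (ocA_fp M₁))))

private theorem oc_len (M : OracleProc α β) (X : Oracle) (a : α) (n : ℕ) : (M.answers X a n).length = n := by
  induction n with
  | zero => rfl
  | succ n ih => rw [OracleProc.answers, List.length_cons, ih]

private theorem oc_old (M : OracleProc α β) (X : Oracle) (a : α) {c k : ℕ} (h : c ≤ k) :
    (M.answers X a k).drop (k - c) = M.answers X a c := by
  induction k with
  | zero =>
    have h1 : c = 0 := by omega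
    subst h1
    rfl
  | succ k ih =>
    rcases Nat.lt_or_ge k c with h1 | h1
    · have h2 : c = k + 1 := by omega
      subst h2
      rw [Nat.sub_self, List.drop_zero]
    · have h2 : k + 1 - c = (k - c) + 1 := by omega
      rw [h2, OracleProc.answers, List.drop_succ_cons, ih h1]

private theorem oc_first (M₁ : OracleProc α β) (M₂ : OracleProc β γ) (q : Polynomial ℕ) (X : Oracle) (a : α) {n : ℕ}
    (h : n ≤ (M₁.clock a).length) : (ocM M₁ M₂ q).answers X a n = M₁.answers X a n := by
  induction n with
  | zero => rfl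
  | succ n ih =>
    have h1 : (ocM M₁ M₂ q).query (a, M₁.answers X a n) = M₁.query (a, M₁.answers X a n) := by
      show (if decide ((M₁.clock a).length ≤ (M₁.answers X a n).length) = true then _ else _) = _
      rw [if_neg]
      rw [oc_len, decide_eq_true_iff]
      omega
    rw [OracleProc.answers, OracleProc.answers, ih (by omega), h1]

private theorem oc_split (M₁ : OracleProc α β) (X : Oracle) (a : α) {l : List Bool} {k : ℕ} (hl : l.length = k) :
    ocB M₁ (a, l ++ M₁.answers X a (M₁.clock a).length) = M₁.run X a ∧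
      ocA M₁ (a, l ++ M₁.answers X a (M₁.clock a).length) = l := by
  have h1 : ((l ++ M₁.answers X a (M₁.clock a).length).drop (M₁.clock a).length).length = k := by
    rw [List.length_drop, List.length_append, oc_len, hl]
    omega
  constructor
  · show M₁.out (a, (l ++ M₁.answers X a (M₁.clock a).length).drop
      ((l ++ M₁.answers X a (M₁.clock a).length).drop (M₁.clock a).length).length) = _
    rw [h1, ← hl, List.drop_left]
    rfl
  · show (l ++ M₁.answers X a (M₁.clock a).length).take
      ((l ++ M₁.answers X a (M₁.clock a).length).drop (M₁.clock a).length).length = _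
    rw [h1, ← hl, List.take_left]

private theorem oc_second (M₁ : OracleProc α β) (M₂ : OracleProc β γ) (q : Polynomial ℕ) (X : Oracle) (a : α) (k : ℕ) :
    (ocM M₁ M₂ q).answers X a ((M₁.clock a).length + k) =
      M₂.answers X (M₁.run X a) k ++ M₁.answers X a (M₁.clock a).length := by
  induction k with
  | zero => exact oc_first M₁ M₂ q X a le_rfl
  | succ k ih =>
    obtain ⟨h1, h2⟩ := oc_split M₁ X a (oc_len M₂ X (M₁.run X a) k)
    have h3 : (ocM M₁ M₂ q).query (a, M₂.answers X (M₁.run X a) k ++ M₁.answers X a (M₁.clock a).length) =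
        M₂.query (M₁.run X a, M₂.answers X (M₁.run X a) k) := by
      show (if decide ((M₁.clock a).length ≤
        (M₂.answers X (M₁.run X a) k ++ M₁.answers X a (M₁.clock a).length).length) = true then _ else _) = _
      rw [if_pos]
      · rw [h1, h2]
      · rw [decide_eq_true_iff, List.length_append, oc_len, oc_len]
        omega
    rw [← Nat.add_assoc, OracleProc.answers, ih, h3, OracleProc.answers, List.cons_append]

private theorem oc_run (M₁ : OracleProc α β) (M₂ : OracleProc β γ) (q : Polynomial ℕ) (X : Oracle) (a : α)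
    (h : (M₂.clock (M₁.run X a)).length ≤ q.eval (sz a)) : (ocM M₁ M₂ q).run X a = M₂.run X (M₁.run X a) := by
  have h0 : ((ocM M₁ M₂ q).clock a).length = (M₁.clock a).length + q.eval (sz a) := by
    show (M₁.clock a ++ un (q.eval (bitEncode a : List Bool).length)).length = _
    rw [List.length_append, un_length]
    rfl
  rw [OracleProc.run, h0, oc_second]
  obtain ⟨h1, h2⟩ := oc_split M₁ X a (oc_len M₂ X (M₁.run X a) (q.eval (sz a)))
  show M₂.out (ocB M₁ _, ocO (M₂.clock (ocB M₁ _)) (ocA M₁ _)) = _
  rw [h1, h2]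
  unfold ocO
  rw [List.length_drop, oc_len, oc_old M₂ X _ h]
  rfl

theorem OFP.comp {F : Oracle → β → γ} {G : Oracle → α → β} (hF : OFP F) (hG : OFP G) :
    OFP fun X a => F X (G X a) := by
  obtain ⟨M₂, hM₂⟩ := hF
  obtain ⟨M₁, hM₁⟩ := hG
  obtain ⟨B₁, hB₁, hm₁, hb₁⟩ := ((isPolyTime_iff _).1 M₁.clock_poly).bound
  obtain ⟨B₂, hB₂, hm₂, hb₂⟩ := ((isPolyTime_iff _).1 M₁.out_poly).bound
  obtain ⟨B₃, hB₃, hm₃, hb₃⟩ := ((isPolyTime_iff _).1 M₂.clock_poly).bound
  have hP : PB fun n => B₃ (B₂ ((2 * n + 1) + 3 * B₁ n)) :=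
    hB₃.comp (hB₂.comp (((((PB.const 2).mul PB.id).add (PB.const 1))).add ((PB.const 3).mul hB₁)))
  obtain ⟨q, hq⟩ := hP
  refine ⟨ocM M₁ M₂ q, fun X a => ?_⟩
  rw [oc_run M₁ M₂ q X a, hM₂, hM₁]
  refine le_trans ?_ (hq (sz a))
  have h1 : (M₁.clock a).length ≤ B₁ (sz a) := (length_le_sz _).trans (hb₁ a)
  have h2 : sz (M₁.run X a) ≤ B₂ ((2 * sz a + 1) + 3 * B₁ (sz a)) := by
    refine (hb₂ _).trans (hm₂ ?_)
    rw [sz_pair, sz_bits, oc_len]
    omega
  exact (length_le_sz _).trans ((hb₃ _).trans (hm₃ h2))

end Pool.Agent.APX
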