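import Pool.Agent.APX.Lib

set_option autoImplicit false

/-!
# APX-OMach: oracle machines given by configurations
-/

namespace Pool.Agent.APX

open Pool.Agent.Helper22 N487b59b3 N68a2faeb

variable {α β γ : Type} [N487b59b3 α] [N487b59b3 β] [N487b59b3 γ]

private def revStep (acc : List Bool) (b : Bool) : List Bool := b :: acc

private theorem foldl_revStep (l acc : List Bool) : l.foldl revStep acc = l.reverse ++ acc := by
  induction l generalizing acc with
  | nil => rfl
  | cons b l ih => rw [List.foldl_cons, ih, List.reverse_cons, revStep]; simp

private theorem FP_rev {f : α → List Bool} (hf : FP f) : FP fun a => (f a).reverse := by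
  have h : FP fun p : List Bool × List Bool => p.1.foldl revStep p.2 := by
    refine FP.foldl (g := revStep) ?_ (B := fun n => n) (by fun_prop) ?_
    · unfold revStep
      exact FP.cons FP.snd FP.fst
    · intro l a
      rw [foldl_revStep]
      simp only [sz_bits, List.length_append, List.length_reverse]
      omega
  have h2 := h.comp (hf.pair (FP.const ([] : List Bool)))
  refine (congrArg FP (funext fun a => ?_)).mp h2
  simp only [foldl_revStep, List.append_nil]

/-- one guarded step; the state is the bound in unary and the configuration -/
private def gStep (nx : γ × Bool → γ) (s : List Bool × γ) (b : Bool) : List Bool × γ :=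
  (s.1, if decide ((bitEncode (nx (s.2, b)) : List Bool).length ≤ s.1.length) then nx (s.2, b)
    else s.2)

private theorem gStep_inv (nx : γ × Bool → γ) (l : List Bool) (s : List Bool × γ) :
    (l.foldl (gStep nx) s).1 = s.1 ∧ sz (l.foldl (gStep nx) s).2 ≤ max (sz s.2) s.1.length := by
  induction l generalizing s with
  | nil => exact ⟨rfl, le_max_left _ _⟩
  | cons b l ih =>
    rw [List.foldl_cons]
    obtain ⟨h1, h2⟩ := ih (gStep nx s b)
    refine ⟨h1, h2.trans ?_⟩
    have e1 : (gStep nx s b).1 = s.1 := rfl
    rw [e1]
    refine max_le ?_ (le_max_right _ _)
    unfold gStep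
    by_cases h : (bitEncode (nx (s.2, b)) : List Bool).length ≤ s.1.length
    · simp only [h, decide_true, if_true]
      exact le_trans h (le_max_right _ _)
    · simp only [h, decide_false]
      exact le_max_left _ _

private theorem FP_gfold {nx : γ × Bool → γ} (hn : FP nx) :
    FP fun p : List Bool × (List Bool × γ) => p.1.foldl (gStep nx) p.2 := by
  refine FP.foldl (g := gStep nx) ?_ (B := fun n => 2 * n + 1) (by fun_prop) ?_
  · have h1 : FP fun p : (List Bool × γ) × Bool => nx (p.1.2, p.2) :=
      hn.comp (FP.pair (FP.snd' FP.fst) FP.snd)
    unfold gStep
    exact FP.pair (FP.fst' FP.fst)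
      (FP.ite (FP.length_le (enc_FP.comp h1) (FP.fst' FP.fst)) h1 (FP.snd' FP.fst))
  · intro l s
    obtain ⟨h1, h2⟩ := gStep_inv nx l s
    rcases hr : l.foldl (gStep nx) s with ⟨c, d⟩
    rw [hr] at h1 h2
    obtain ⟨a1, a2⟩ := s
    simp only [sz_pair, sz_bits] at *
    subst h1
    have h3 : max (sz a2) c.length ≤ sz a2 + c.length := by omega
    omega

/-- PLAN. Let `p` be a polynomial bounding `B` (`PB` gives it; make it monotone with
`PB.exists_mono`). The procedure: `clock := clk`, and the configuration after the answers `as`
(latest first) is recomputed from the word by a GUARDED fold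
`as.foldr (fun b c => let c' := nx (c, b); if sz c' ≤ p (sz a) then c' else c) (ini a)`
(the guard compares the length of `bitEncode c'` (`enc_FP`) with a unary word of length
`p.eval (sz a)` (`FP.un_poly` applied to `bitEncode a`), `FP.length_le`). The guard keeps all
configurations of size `≤ max (sz (ini a)) (p (sz a))`, so the fold is `FP` (`FP.foldl` on the
reversed list; if there is no `FP.reverse` in Helper22, prove it here with `FP.foldl` and
`FP.cons`). The guard is never active along a true computation by `hb`. `query` is `qr` of this
configuration and `out` is `out` of it. By induction on `k ≤ (clk a).length` the answers after `k`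
queries lead to the configuration `(fun c => nx (c, X (qr c)))^[k] (ini a)`. -/
theorem OFP.of_machine {ini : α → γ} {qr : γ → List Bool} {nx : γ × Bool → γ} {out : γ → β}
    {clk : α → List Bool} (hi : FP ini) (hq : FP qr) (hn : FP nx) (ho : FP out) (hc : FP clk)
    {B : ℕ → ℕ} (hB : PB B)
    (hb : ∀ (X : Oracle) (a : α) (k : ℕ), k ≤ (clk a).length →
      sz ((fun c => nx (c, X (qr c)))^[k] (ini a)) ≤ B (sz a)) :
    OFP fun X a => out ((fun c => nx (c, X (qr c)))^[(clk a).length] (ini a)) := by
  obtain ⟨p, hp⟩ := hB
  let st : α × List Bool → List Bool × γ := fun x =>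
    x.2.reverse.foldl (gStep nx) (un (p.eval (bitEncode x.1 : List Bool).length), ini x.1)
  have hst : FP st := by
    have h1 : FP fun x : α × List Bool =>
        un (p.eval (bitEncode x.1 : List Bool).length) :=
      FP.un_poly (enc_FP.comp FP.fst) p
    exact (FP_gfold hn).comp
      (FP.pair (FP_rev FP.snd) (FP.pair h1 (hi.comp FP.fst)))
  refine ⟨{ clock := clk
            query := fun x => qr (st x).2
            out := fun x => out (st x).2
            clock_poly := (isPolyTime_iff _).2 hc
            query_poly := (isPolyTime_iff _).2 (hq.comp (FP.snd' hst))
            out_poly := (isPolyTime_iff _).2 (ho.comp (FP.snd' hst)) }, ?_⟩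
  intro X a
  set M : OracleProc α β := { clock := clk
                              query := fun x => qr (st x).2
                              out := fun x => out (st x).2
                              clock_poly := (isPolyTime_iff _).2 hc
                              query_poly := (isPolyTime_iff _).2 (hq.comp (FP.snd' hst))
                              out_poly := (isPolyTime_iff _).2 (ho.comp (FP.snd' hst)) } with hM
  have key : ∀ k, k ≤ (clk a).length → st (a, M.answers X a k) =
      (un (p.eval (sz a)), (fun c => nx (c, X (qr c)))^[k] (ini a)) := by
    intro k
    induction k with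
    | zero => intro _; rfl
    | succ k ih =>
      intro hk
      have h1 := ih (by omega)
      have h2 : M.answers X a (k + 1) = X (qr (st (a, M.answers X a k)).2) :: M.answers X a k := rfl
      have h3 : st (a, M.answers X a (k + 1)) =
          gStep nx (st (a, M.answers X a k)) (X (qr (st (a, M.answers X a k)).2)) := by
        rw [h2]
        show ((X (qr (st (a, M.answers X a k)).2) :: M.answers X a k).reverse).foldl (gStep nx) _ = _
        rw [List.reverse_cons, List.foldl_append]
        rfl
      rw [h3, h1, Function.iterate_succ_apply']
      have h4 := (hb X a (k + 1) hk).trans (hp (sz a))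
      rw [Function.iterate_succ_apply'] at h4
      unfold gStep
      have h5 : (bitEncode (nx ((fun c => nx (c, X (qr c)))^[k] (ini a),
          X (qr ((fun c => nx (c, X (qr c)))^[k] (ini a))))) : List Bool).length ≤
          (un (p.eval (sz a))).length := by
        rw [un_length]; exact h4
      simp only [h5, decide_true, if_true]
  show out (st (a, M.answers X a (clk a).length)).2 = _
  rw [key _ le_rfl]

end Pool.Agent.APX
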