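import Pool.Agent.APX.Lib

set_option autoImplicit false

/-!
# APX-OPairA: pairing of polynomial time functions with oracle
-/

namespace Pool.Agent.APX

open Pool.Agent.Helper22 N487b59b3 N68a2faeb

variable {α β γ : Type} [N487b59b3 α] [N487b59b3 β] [N487b59b3 γ]

/-- part 2 of the answers -/
private def pA (M₁ : OracleProc α β) (p : α × List Bool) : List Bool :=
  p.2.take (p.2.drop (M₁.clock p.1).length).length

/-- part 1 of the answers -/
private def pB (M₁ : OracleProc α β) (p : α × List Bool) : List Bool :=
  p.2.drop (p.2.drop (M₁.clock p.1).length).length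

private theorem pA_fp (M₁ : OracleProc α β) : FP (pA M₁) := by
  have hc : FP M₁.clock := (isPolyTime_iff _).1 M₁.clock_poly
  exact FP.take FP.snd (FP.drop FP.snd (hc.comp FP.fst))

private theorem pB_fp (M₁ : OracleProc α β) : FP (pB M₁) := by
  have hc : FP M₁.clock := (isPolyTime_iff _).1 M₁.clock_poly
  exact FP.drop FP.snd (FP.drop FP.snd (hc.comp FP.fst))

private theorem pA_app (M₁ : OracleProc α β) (a : α) (u v : List Bool)
    (h : v.length = (M₁.clock a).length) : pA M₁ (a, u ++ v) = u := by
  unfold pA
  simp only [List.length_drop, List.length_append, h]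
  rw [Nat.add_sub_cancel]
  simp

private theorem pB_app (M₁ : OracleProc α β) (a : α) (u v : List Bool)
    (h : v.length = (M₁.clock a).length) : pB M₁ (a, u ++ v) = v := by
  unfold pB
  simp only [List.length_drop, List.length_append, h]
  rw [Nat.add_sub_cancel]
  simp

/-- the combined query -/
private def pQ (M₁ : OracleProc α β) (M₂ : OracleProc α γ) (p : α × List Bool) : List Bool :=
  if decide ((M₁.clock p.1).length ≤ p.2.length) = true then M₂.query (p.1, pA M₁ p)
  else M₁.query p

private theorem pQ_fp (M₁ : OracleProc α β) (M₂ : OracleProc α γ) : FP (pQ M₁ M₂) := by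
  have hc : FP M₁.clock := (isPolyTime_iff _).1 M₁.clock_poly
  have h1 : FP M₁.query := (isPolyTime_iff _).1 M₁.query_poly
  have h2 : FP M₂.query := (isPolyTime_iff _).1 M₂.query_poly
  exact FP.ite (FP.length_le (hc.comp FP.fst) FP.snd)
    (h2.comp (FP.pair FP.fst (pA_fp M₁))) h1

/-- the combined procedure -/
private def pM (M₁ : OracleProc α β) (M₂ : OracleProc α γ) : OracleProc α (β × γ) where
  clock a := M₁.clock a ++ M₂.clock a
  query := pQ M₁ M₂
  out p := (M₁.out (p.1, pB M₁ p), M₂.out (p.1, pA M₁ p))
  clock_poly := (isPolyTime_iff _).2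
    (FP.append ((isPolyTime_iff _).1 M₁.clock_poly) ((isPolyTime_iff _).1 M₂.clock_poly))
  query_poly := (isPolyTime_iff _).2 (pQ_fp M₁ M₂)
  out_poly := (isPolyTime_iff _).2
    (FP.pair (FP.comp ((isPolyTime_iff _).1 M₁.out_poly) (FP.pair FP.fst (pB_fp M₁)))
      (FP.comp ((isPolyTime_iff _).1 M₂.out_poly) (FP.pair FP.fst (pA_fp M₁))))

private theorem ans_len (M : OracleProc α β) (X : Oracle) (a : α) (n : ℕ) :
    (M.answers X a n).length = n := by
  induction n with
  | zero => rfl
  | succ n ih => simp [OracleProc.answers, ih]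

private theorem ans_one (M₁ : OracleProc α β) (M₂ : OracleProc α γ) (X : Oracle) (a : α) (k : ℕ)
    (hk : k ≤ (M₁.clock a).length) : (pM M₁ M₂).answers X a k = M₁.answers X a k := by
  induction k with
  | zero => rfl
  | succ k ih =>
    have ih' := ih (by omega)
    simp only [OracleProc.answers]
    rw [ih']
    have : (pM M₁ M₂).query (a, M₁.answers X a k) = M₁.query (a, M₁.answers X a k) := by
      show pQ M₁ M₂ (a, M₁.answers X a k) = _
      unfold pQ
      rw [if_neg]
      rw [decide_eq_true_eq, ans_len]
      show ¬ (M₁.clock a).length ≤ k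
      omega
    rw [this]

private theorem ans_two (M₁ : OracleProc α β) (M₂ : OracleProc α γ) (X : Oracle) (a : α) (k : ℕ) :
    (pM M₁ M₂).answers X a ((M₁.clock a).length + k) =
      M₂.answers X a k ++ M₁.answers X a (M₁.clock a).length := by
  induction k with
  | zero =>
    rw [Nat.add_zero, ans_one M₁ M₂ X a _ le_rfl]
    rfl
  | succ k ih =>
    rw [← Nat.add_assoc]
    simp only [OracleProc.answers]
    rw [ih]
    have : (pM M₁ M₂).query (a, M₂.answers X a k ++ M₁.answers X a (M₁.clock a).length) =
        M₂.query (a, M₂.answers X a k) := by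
      show pQ M₁ M₂ (a, _) = _
      unfold pQ
      rw [if_pos]
      · rw [pA_app M₁ a _ _ (ans_len M₁ X a _)]
      · rw [decide_eq_true_eq]
        simp only [List.length_append, ans_len]
        omega
    rw [this]
    rfl

/-- PLAN. `M₁` computes `F`, `M₂` computes `G`. The new procedure on `(a, as)` (answers latest
first), `m = (M₁.clock a).length`: if `as.length < m` ask `M₁.query (a, as)`, otherwise ask
`M₂.query (a, as.take (as.length - m))` (`as.length - m` = length of `as.drop m`). The clock is
`M₁.clock a ++ M₂.clock a`. The output is `(M₁.out (a, last m elements of as), M₂.out (a, the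
others))`. Key lemma (induction on `k`): `answers X a (m + k) = answers₂ X a k ++ answers₁ X a m`,
and `answers X a k = answers₁ X a k` for `k ≤ m`. -/
theorem OFP.pair {F : Oracle → α → β} {G : Oracle → α → γ} (hF : OFP F) (hG : OFP G) :
    OFP fun X a => (F X a, G X a) := by
  obtain ⟨M₁, h₁⟩ := hF
  obtain ⟨M₂, h₂⟩ := hG
  refine ⟨pM M₁ M₂, fun X a => ?_⟩
  show (pM M₁ M₂).out (a, (pM M₁ M₂).answers X a (M₁.clock a ++ M₂.clock a).length) = _
  rw [List.length_append, ans_two]
  show (M₁.out (a, pB M₁ (a, _)), M₂.out (a, pA M₁ (a, _))) = _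
  rw [pA_app M₁ a _ _ (ans_len M₁ X a _), pB_app M₁ a _ _ (ans_len M₁ X a _)]
  exact Prod.ext (h₁ X a) (h₂ X a)

end Pool.Agent.APX
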