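import Pool.Agent.APX.OComp
import Pool.Agent.APX.OPairA

set_option autoImplicit false

/-!
# Consequences of composition and pairing
-/

namespace Pool.Agent.APX

open Pool.Agent.Helper22 N487b59b3 N68a2faeb

variable {α β γ δ ε ζ : Type} [N487b59b3 α] [N487b59b3 β] [N487b59b3 γ] [N487b59b3 δ]
  [N487b59b3 ε] [N487b59b3 ζ]

theorem OFP.map {f : β → γ} {F : Oracle → α → β} (hf : FP f) (hF : OFP F) :
    OFP fun X a => f (F X a) := (OFP.of_fp hf).comp hF

theorem OFP.map2 {f : β × γ → δ} {F : Oracle → α → β} {G : Oracle → α → γ} (hf : FP f)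
    (hF : OFP F) (hG : OFP G) : OFP fun X a => f (F X a, G X a) := OFP.map hf (hF.pair hG)

theorem OFP.map3 {f : β × (γ × δ) → ε} {F : Oracle → α → β} {G : Oracle → α → γ}
    {H : Oracle → α → δ} (hf : FP f) (hF : OFP F) (hG : OFP G) (hH : OFP H) :
    OFP fun X a => f (F X a, (G X a, H X a)) := OFP.map2 hf hF (hG.pair hH)

theorem OFP.on {F : Oracle → β → γ} (hF : OFP F) {f : α → β} (hf : FP f) :
    OFP fun X a => F X (f a) := hF.comp (OFP.of_fp hf)

theorem OFP.fst' {F : Oracle → α → β × γ} (hF : OFP F) : OFP fun X a => (F X a).1 :=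
  OFP.map FP.fst hF

theorem OFP.snd' {F : Oracle → α → β × γ} (hF : OFP F) : OFP fun X a => (F X a).2 :=
  OFP.map FP.snd hF

theorem OFP.ite {c : Oracle → α → Bool} {F G : Oracle → α → β} (hc : OFP c) (hF : OFP F)
    (hG : OFP G) : OFP fun X a => if c X a then F X a else G X a :=
  OFP.map3 (f := fun p : Bool × (β × β) => if p.1 then p.2.1 else p.2.2)
    (FP.ite FP.fst (FP.fst' FP.snd) (FP.snd' FP.snd)) hc hF hG

theorem OFP.and {c d : Oracle → α → Bool} (hc : OFP c) (hd : OFP d) :
    OFP fun X a => c X a && d X a :=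
  OFP.map2 (f := fun p : Bool × Bool => p.1 && p.2) (FP.and FP.fst FP.snd) hc hd

theorem OFP.or {c d : Oracle → α → Bool} (hc : OFP c) (hd : OFP d) :
    OFP fun X a => c X a || d X a :=
  OFP.map2 (f := fun p : Bool × Bool => p.1 || p.2) (FP.or FP.fst FP.snd) hc hd

theorem OFP.not {c : Oracle → α → Bool} (hc : OFP c) : OFP fun X a => !(c X a) :=
  OFP.map (f := fun b : Bool => !b) (FP.not FP.id) hc

theorem OFP.cons {F : Oracle → α → β} {G : Oracle → α → List β} (hF : OFP F) (hG : OFP G) :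
    OFP fun X a => F X a :: G X a :=
  OFP.map2 (f := fun p : β × List β => p.1 :: p.2) (FP.cons FP.fst FP.snd) hF hG

theorem OFP.append {F G : Oracle → α → List β} (hF : OFP F) (hG : OFP G) :
    OFP fun X a => F X a ++ G X a :=
  OFP.map2 (f := fun p : List β × List β => p.1 ++ p.2) (FP.append FP.fst FP.snd) hF hG

theorem OFP.weq {F G : Oracle → α → List Bool} (hF : OFP F) (hG : OFP G) :
    OFP fun X a => Helper22.weq (F X a) (G X a) :=
  OFP.map2 (f := fun p : List Bool × List Bool => Helper22.weq p.1 p.2) (FP.weq FP.fst FP.snd) hF hG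

end Pool.Agent.APX
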