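import Pool.Agent.APX.RamDefs

set_option autoImplicit false

/-!
# APX-RamA: equal rows give a monochromatic bipartite graph
-/

namespace Pool.Agent.APX

open Pool.Agent.Helper22 N487b59b3 N68a2faeb

theorem length_row (X : Oracle) (x v : List Bool) : (row X (x, v)).length = (qU x).length := by
  show ((List.range (qU x).length).map _).length = _
  rw [List.length_map, List.length_range]

/-- `fit` is injective on words of the same length `≤ l.length` -/
theorem fit_inj {l u v : List Bool} (h : u.length ≤ l.length) (h' : u.length = v.length)
    (e : fit l u = fit l v) : u = v := by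
  rw [fit_eq h, fit_eq (h' ▸ h)] at e
  exact List.append_inj_left e h'

/-- different initial segments of ones give different words -/
theorem fit_un_inj {l : List Bool} {i j : ℕ} (hi : i ≤ l.length) (hj : j ≤ l.length)
    (e : fit l (un i) = fit l (un j)) : i = j := by
  rw [fit_eq (by rw [un_length]; exact hi), fit_eq (by rw [un_length]; exact hj)] at e
  have h1 : ∀ a b : ℕ, List.count true (un a ++ List.replicate b false) = a := by
    intro a b
    rw [List.count_append, un, List.count_replicate_self, List.count_replicate]
    simp
  have h2 := congrArg (List.count true) e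
  rw [h1, h1] at h2
  exact h2

/-- PLAN. The two sides have `r.length` elements together. -/
theorem length_maj (x r : List Bool) : (r.length + 1) / 2 ≤ (maj x r).length := by
  have h1 : (side true x r).length + (side false x r).length = r.length := by
    unfold side
    rw [List.length_map, List.length_map]
    have h2 := List.length_eq_length_filter_add (l := List.range r.length)
      (fun i => r.getD i false == true)
    rw [List.length_range] at h2
    have h3 : (fun i => !(r.getD i false == true)) = fun i => r.getD i false == false := by
      funext i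
      cases r.getD i false <;> rfl
    rw [h3] at h2
    omega
  unfold maj
  split_ifs with h <;> omega

/-- PLAN. `q = n / dig t - 1`, `dig t * (q + 1) ≤ n`, `q ≤ n`. With `r` the common row and `c` the
majority colour, `X (cd (fit _ (un i)) (fit _ v)) = r_i = c` for the left vertices of `maj`. -/
theorem isMono_of_rows {X : Oracle} {x : List Bool} {l : List (List Bool)}
    (h2 : 2 ≤ (cf x).length) (h : 2 * dig (cf x).length ≤ (cs x).length)
    (hl : l.length = (cf x).length) (hn : l.Nodup)
    (hv : ∀ v ∈ l, v.length = dig (cf x).length * ((qU x).length + 1))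
    (he : ∀ v ∈ l, ∀ w ∈ l, row X (x, v) = row X (x, w)) :
    IsMono X (cf x).length (cs x).length (wt (cf (ramSol X (x, l)))) (wt (cs (ramSol X (x, l)))) := by
  have hK : 1 ≤ dig (cf x).length := by
    unfold dig
    rw [Nat.one_le_iff_ne_zero]
    intro h0
    rw [Nat.size_eq_zero] at h0
    omega
  have hq : (qU x).length = (cs x).length / dig (cf x).length - 1 := by
    unfold qU
    rw [List.length_cons, un_length]
    have h3 : 2 ≤ (cs x).length / dig (cf x).length := by
      rw [Nat.le_div_iff_mul_le (by omega)]
      exact h
    omega
  have hq1 : dig (cf x).length * ((qU x).length + 1) ≤ (cs x).length := by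
    have h3 : 2 ≤ (cs x).length / dig (cf x).length := by
      rw [Nat.le_div_iff_mul_le (by omega)]
      exact h
    have h4 : (qU x).length + 1 = (cs x).length / dig (cf x).length := by omega
    rw [h4]
    exact Nat.mul_div_le _ _
  have hq2 : (qU x).length ≤ (cs x).length := by
    have h5 : 1 * ((qU x).length + 1) ≤ dig (cf x).length * ((qU x).length + 1) :=
      Nat.mul_le_mul_right _ hK
    omega
  have e1 : wt (cf (ramSol X (x, l))) = maj x (row X (x, l.headD [])) := by
    show wt (cf (cd _ _)) = _
    rw [cf_cd, wt_tw]
  have e2 : wt (cs (ramSol X (x, l))) = l.map fun v => fit (cs x) v := by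
    show wt (cs (cd _ _)) = _
    rw [cs_cd, wt_tw]
  rw [e1, e2]
  have hr : (row X (x, l.headD [])).length = (qU x).length := length_row X x _
  have hcol : ∃ c : Bool, maj x (row X (x, l.headD [])) = side c x (row X (x, l.headD [])) := by
    unfold maj
    split_ifs
    · exact ⟨true, rfl⟩
    · exact ⟨false, rfl⟩
  obtain ⟨c, hc⟩ := hcol
  have hmem : ∀ a ∈ maj x (row X (x, l.headD [])), ∃ i < (qU x).length,
      (row X (x, l.headD [])).getD i false = c ∧ a = fit (cs x) (un i) := by
    intro a ha
    rw [hc] at ha
    unfold side at ha
    obtain ⟨i, hi, rfl⟩ := List.mem_map.1 ha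
    obtain ⟨hi1, hi2⟩ := List.mem_filter.1 hi
    rw [List.mem_range, hr] at hi1
    exact ⟨i, hi1, beq_iff_eq.1 hi2, rfl⟩
  refine ⟨?_, ?_, ?_, ?_, ?_, ?_, c, ?_⟩
  · have h6 := length_maj x (row X (x, l.headD []))
    rw [hr, hq] at h6
    exact h6
  · rw [List.length_map, hl]
  · rw [hc]
    unfold side
    refine List.Nodup.map_on ?_ (List.nodup_range.filter _)
    intro i hi j hj e
    have hi1 := List.mem_range.1 (List.mem_filter.1 hi).1
    have hj1 := List.mem_range.1 (List.mem_filter.1 hj).1
    rw [hr] at hi1 hj1
    exact fit_un_inj (by omega) (by omega) e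
  · refine List.Nodup.map_on ?_ hn
    intro u hu v hv' e
    exact fit_inj (by rw [hv u hu]; exact hq1) (by rw [hv u hu, hv v hv']) e
  · intro a ha
    obtain ⟨i, _, _, rfl⟩ := hmem a ha
    exact length_fit _ _
  · intro b hb
    obtain ⟨v, _, rfl⟩ := List.mem_map.1 hb
    exact length_fit _ _
  · intro a ha b hb
    obtain ⟨i, hi, hi2, rfl⟩ := hmem a ha
    obtain ⟨v, hv1, rfl⟩ := List.mem_map.1 hb
    have hhd : l.headD [] ∈ l := by
      cases l with
      | nil => exact absurd hv1 List.not_mem_nil
      | cons w l => exact List.mem_cons_self
    rw [← he v hv1 _ hhd] at hi2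
    rw [← hi2]
    show _ = ((List.range (qU x).length).map fun i => X (cd (fit (cs x) (un i)) (fit (cs x) v))).getD i
      false
    rw [List.getD_eq_getElem _ _ (by rw [List.length_map, List.length_range]; exact hi),
      List.getElem_map, List.getElem_range]

end Pool.Agent.APX
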