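import Pool.Agent.APX.RamDefs
import Pool.Agent.APX.FoldA
import Pool.Agent.APX.WordsFP
import Pool.Agent.APX.OTab

set_option autoImplicit false

/-!
# APX-RamB: bipartite Ramsey, polynomial time
-/

namespace Pool.Agent.APX

open Pool.Agent.Helper22 N487b59b3 N68a2faeb

/-- one step of the division: `(divisor, (rest, quotient))` -/
private def ramB_ds (s : List Bool × (List Bool × List Bool)) : List Bool × (List Bool × List Bool) :=
  if s.1.isEmpty then s else
    if decide (s.1.length ≤ s.2.1.length) then (s.1, (s.2.1.drop s.1.length, true :: s.2.2)) else s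

private theorem ramB_ds_sz (s : List Bool × (List Bool × List Bool)) (i : ℕ) :
    sz (ramB_ds^[i] s) ≤ sz s + 3 * i := by
  induction i generalizing s with
  | zero => simp
  | succ i ih =>
    rw [Function.iterate_succ_apply]
    refine (ih _).trans ?_
    have h1 : sz (ramB_ds s) ≤ sz s + 3 := by
      obtain ⟨g, r, q⟩ := s
      unfold ramB_ds
      split_ifs
      · omega
      · have h2 := sz_drop r g.length
        simp only [sz_pair, sz_bits, List.length_cons] at h2 ⊢
        omega
      · omega
    omega

private theorem ramB_ds_len (g : List Bool) (hg : g ≠ []) (k : ℕ) :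
    ∀ r q : List Bool, (ramB_ds^[k] (g, (r, q))).2.2.length =
      q.length + min k (r.length / g.length) := by
  have hpos : 0 < g.length := List.length_pos_iff.2 hg
  have hne : g.isEmpty = false := by
    cases g with
    | nil => exact absurd rfl hg
    | cons b g => rfl
  induction k with
  | zero => intro r q; simp
  | succ k ih =>
    intro r q
    rw [Function.iterate_succ_apply]
    by_cases h : g.length ≤ r.length
    · have h1 : ramB_ds (g, (r, q)) = (g, (r.drop g.length, true :: q)) := by
        unfold ramB_ds
        simp only [hne]
        rw [if_neg (by decide), if_pos (decide_eq_true h)]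
      rw [h1, ih, List.length_drop, List.length_cons]
      have h2 : r.length / g.length = (r.length - g.length) / g.length + 1 := by
        conv_lhs => rw [← Nat.sub_add_cancel h]
        exact Nat.add_div_right _ hpos
      rw [h2]
      omega
    · have h1 : ramB_ds (g, (r, q)) = (g, (r, q)) := by
        unfold ramB_ds
        simp only [hne]
        rw [if_neg (by decide), if_neg (by simpa using h)]
      have h2 : r.length / g.length = 0 := Nat.div_eq_of_lt (by omega)
      rw [h1, ih, h2]
      omega

/-- PLAN. Unary division: `f.length` times subtract `g` from the rest (if possible and `g` is not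
empty) and count (`FP.iterate` or `FP.foldl`). -/
theorem divU_fp {α : Type} [N487b59b3 α] {f g : α → List Bool} (hf : FP f) (hg : FP g) :
    FP fun a => un ((f a).length / (g a).length) := by
  have h1 : FP ramB_ds := by
    unfold ramB_ds
    have h2 : FP fun s : List Bool × (List Bool × List Bool) => s.2.1.drop s.1.length :=
      FP.drop (by fun_prop) (by fun_prop)
    have h3 : FP fun s : List Bool × (List Bool × List Bool) => decide (s.1.length ≤ s.2.1.length) :=
      FP.length_le (by fun_prop) (by fun_prop)
    fun_prop
  have h2 : FP fun p : List Bool × (List Bool × (List Bool × List Bool)) => ramB_ds^[p.1.length] p.2 := by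
    refine FP.iterate (f := ramB_ds) h1 (B := fun n => 3 * n) (by fun_prop) ?_
    intro l a i hi
    have h3 := ramB_ds_sz a i
    have h4 := length_le_sz l
    omega
  have h3 := h2.comp (hf.pair (hg.pair (hf.pair (FP.const ([] : List Bool)))))
  have h4 := FP.un_length (FP.snd.comp (FP.snd.comp h3))
  refine (congrArg FP (funext fun a => ?_)).mp h4
  congr 1
  by_cases hga : g a = []
  · have h5 : ∀ k : ℕ, ramB_ds^[k] (g a, (f a, ([] : List Bool))) = (g a, (f a, [])) := by
      intro k
      induction k with
      | zero => rfl
      | succ k ih =>
        rw [Function.iterate_succ_apply]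
        have h6 : ramB_ds (g a, (f a, ([] : List Bool))) = (g a, (f a, [])) := by
          unfold ramB_ds
          rw [hga]
          rfl
        rw [h6, ih]
    show (ramB_ds^[(f a).length] (g a, (f a, ([] : List Bool)))).2.2.length = _
    rw [h5, hga]
    simp
  · show (ramB_ds^[(f a).length] (g a, (f a, ([] : List Bool)))).2.2.length = _
    rw [ramB_ds_len _ hga]
    have h5 : (f a).length / (g a).length ≤ (f a).length := Nat.div_le_self _ _
    simp only [List.length_nil, zero_add]
    omega

/-- PLAN. `divU_fp`, `dgU_fp`, `length_dgU`. -/
theorem qU_fp : FP qU := by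
  have h1 : FP fun x : List Bool => un ((cs x).length / (dgU (cf x)).length) :=
    divU_fp (FP.cs FP.id) (dgU_fp (FP.cf FP.id))
  have h2 : FP fun x : List Bool => true :: (un ((cs x).length / (dgU (cf x)).length)).tail.tail :=
    FP.cons (FP.const true) (FP.tail (FP.tail h1))
  refine (congrArg FP (funext fun x => ?_)).mp h2
  unfold qU
  rw [length_dgU]
  congr 1
  unfold un
  rw [List.tail_replicate, List.tail_replicate]
  congr 1

/-- PLAN. `OFP.tab`. -/
theorem row_ofp : OFP row := by
  have h1 : FP fun p : (List Bool × List Bool) × List Bool =>
      cd (fit (cs p.1.1) p.2) (fit (cs p.1.1) p.1.2) := by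
    have e1 : FP fun p : (List Bool × List Bool) × List Bool => cs p.1.1 := FP.cs (by fun_prop)
    exact FP.cd (FP.fit e1 (by fun_prop)) (FP.fit e1 (by fun_prop))
  have h2 : OFP fun X (p : (List Bool × List Bool) × List Bool) =>
      X (cd (fit (cs p.1.1) p.2) (fit (cs p.1.1) p.1.2)) := OFP.orc.on h1
  have h3 : FP fun p : List Bool × List Bool => (p, qU p.1) := FP.pair FP.id (qU_fp.comp FP.fst)
  exact (OFP.tab h2).on h3

/-- one step of the computation of a side -/
private def ramB_ss (c : Bool) (s : List Bool × (List Bool × List (List Bool))) (b : Bool) :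
    List Bool × (List Bool × List (List Bool)) :=
  (s.1, (true :: s.2.1, if b == c then s.2.2 ++ [fit s.1 s.2.1] else s.2.2))

private theorem ramB_ss_fold (c : Bool) (u : List Bool) (r : List Bool) :
    ∀ (k : ℕ) (acc : List (List Bool)),
      r.foldl (ramB_ss c) (u, (un k, acc)) =
        (u, (un (k + r.length), acc ++ ((List.range r.length).filter fun i => r.getD i false == c).map
          fun i => fit u (un (k + i)))) := by
  induction r with
  | nil => intro k acc; simp
  | cons b r ih =>
    intro k acc
    have h1 : ramB_ss c (u, (un k, acc)) b =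
        (u, (un (k + 1), if b == c then acc ++ [fit u (un k)] else acc)) := by
      unfold ramB_ss
      have h2 : un (k + 1) = true :: un k := rfl
      rw [h2]
    rw [List.foldl_cons, h1, ih, List.length_cons, List.range_succ_eq_map]
    have h3 : ((0 :: (List.range r.length).map Nat.succ).filter fun i => (b :: r).getD i false == c) =
        (if b == c then [0] else []) ++
          ((List.range r.length).filter fun i => r.getD i false == c).map Nat.succ := by
      rw [List.filter_cons, List.filter_map]
      have h4 : ((fun i => (b :: r).getD i false == c) ∘ Nat.succ) = fun i => r.getD i false == c := by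
        funext i
        simp
      rw [h4]
      by_cases hb : (b == c) = true
      · simp [hb]
      · simp only [Bool.not_eq_true] at hb
        simp [hb]
    rw [h3]
    have h5 : k + 1 + r.length = k + (r.length + 1) := by omega
    rw [h5, List.map_append, List.map_map]
    have h6 : ((fun i => fit u (un (k + i))) ∘ Nat.succ) = fun i => fit u (un (k + 1 + i)) := by
      funext i
      show fit u (un (k + (i + 1))) = fit u (un (k + 1 + i))
      congr 2
      omega
    rw [h6]
    by_cases hb : (b == c) = true
    · simp [hb]
    · simp only [Bool.not_eq_true] at hb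
      simp [hb]

private theorem ramB_ss_sz (c : Bool) (l : List Bool) (s : List Bool × (List Bool × List (List Bool))) :
    (l.foldl (ramB_ss c) s).1 = s.1 ∧
      sz (l.foldl (ramB_ss c) s) ≤ sz s + l.length * (6 * s.1.length + 7) := by
  induction l generalizing s with
  | nil => simp
  | cons b l ih =>
    rw [List.foldl_cons]
    obtain ⟨i1, i2⟩ := ih (ramB_ss c s b)
    have h1 : (ramB_ss c s b).1 = s.1 := rfl
    have h2 : sz (ramB_ss c s b) ≤ sz s + (6 * s.1.length + 7) := by
      obtain ⟨u, k, acc⟩ := s
      unfold ramB_ss
      by_cases hb : (b == c) = true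
      · rw [if_pos hb]
        simp only [sz_pair, sz_bits, sz_append, sz_cons, sz_nil, sz_bool, length_fit]
        omega
      · rw [if_neg hb]
        simp only [sz_pair, sz_bits, List.length_cons]
        omega
    rw [h1] at i1 i2
    refine ⟨i1, ?_⟩
    rw [List.length_cons, Nat.add_mul]
    omega

/-- PLAN. A fold over `r` with the state `(counter, list)`. -/
theorem side_fp (c : Bool) : FP fun p : List Bool × List Bool => side c p.1 p.2 := by
  have h1 : FP fun p : List Bool × (List Bool × (List Bool × List (List Bool))) =>
      p.1.foldl (ramB_ss c) p.2 := by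
    refine FP.foldl (g := ramB_ss c) ?_ (B := fun n => n + n * (6 * n + 7)) (by fun_prop) ?_
    · unfold ramB_ss
      have e1 : FP fun p : (List Bool × (List Bool × List (List Bool))) × Bool =>
          fit p.1.1 p.1.2.1 := FP.fit (by fun_prop) (by fun_prop)
      have e2 : FP fun p : (List Bool × (List Bool × List (List Bool))) × Bool => p.2 == c :=
        FP.beq (by fun_prop) (FP.const c)
      have e3 : FP fun p : (List Bool × (List Bool × List (List Bool))) × Bool =>
          p.1.2.2 ++ [fit p.1.1 p.1.2.1] :=
        FP.append (by fun_prop) (FP.cons e1 (FP.const []))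
      exact FP.pair (by fun_prop) (FP.pair (by fun_prop) (FP.ite e2 e3 (by fun_prop)))
    · intro l a
      have h2 := (ramB_ss_sz c l a).2
      have h3 := length_le_sz l
      have h4 : a.1.length ≤ sz a := by
        obtain ⟨u, t⟩ := a
        simp only [sz_pair, sz_bits]
        omega
      have h5 : l.length * (6 * a.1.length + 7) ≤ (sz l + sz a) * (6 * (sz l + sz a) + 7) := by
        apply Nat.mul_le_mul
        · omega
        · omega
      omega
  have h2 : FP fun p : List Bool × List Bool =>
      (p.2, (cs p.1, (([] : List Bool), ([] : List (List Bool))))) :=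
    FP.pair (by fun_prop) (FP.pair (FP.cs (by fun_prop)) (FP.const _))
  have h3 := FP.snd.comp (FP.snd.comp (h1.comp h2))
  refine (congrArg FP (funext fun p => ?_)).mp h3
  have h4 := ramB_ss_fold c (cs p.1) p.2 0 []
  have h5 : un 0 = [] := rfl
  rw [h5] at h4
  show (p.2.foldl (ramB_ss c) (cs p.1, (([] : List Bool), ([] : List (List Bool))))).2.2 = _
  rw [h4]
  unfold side
  simp

theorem maj_fp : FP fun p : List Bool × List Bool => maj p.1 p.2 := by
  have h1 : FP fun p : List Bool × List Bool =>
      decide ((side false p.1 p.2).length ≤ (side true p.1 p.2).length) :=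
    FP.length_le (side_fp false) (side_fp true)
  have h2 := FP.ite h1 (side_fp true) (side_fp false)
  refine (congrArg FP (funext fun p => ?_)).mp h2
  unfold maj
  by_cases h : (side false p.1 p.2).length ≤ (side true p.1 p.2).length
  · rw [if_pos h, if_pos (decide_eq_true h)]
  · rw [if_neg h, if_neg (by simpa using h)]

theorem ramSol_ofp : OFP ramSol := by
  have h1 : FP fun p : List Bool × List (List Bool) => (p.1, p.2.headD []) :=
    FP.pair (by fun_prop) (FP.headD (by fun_prop) _)
  have h2 : OFP fun X (p : List Bool × List (List Bool)) => row X (p.1, p.2.headD []) := row_ofp.on h1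
  have h3 : FP fun q : (List Bool × List (List Bool)) × List Bool =>
      cd (tw (maj q.1.1 q.2)) (tw (q.1.2.map fun v => fit (cs q.1.1) v)) := by
    have e1 : FP fun q : (List Bool × List (List Bool)) × List Bool => maj q.1.1 q.2 :=
      maj_fp.comp (f := fun q : (List Bool × List (List Bool)) × List Bool => (q.1.1, q.2)) (by fun_prop)
    have e2 : FP fun r : List Bool × List Bool => fit r.1 r.2 := FP.fit (by fun_prop) (by fun_prop)
    have e3 : FP fun q : List Bool × List (List Bool) => q.2.map fun v => fit q.1 v := FP.map_ctx e2
    have e4 : FP fun q : (List Bool × List (List Bool)) × List Bool => (cs q.1.1, q.1.2) :=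
      FP.pair (FP.cs (by fun_prop)) (by fun_prop)
    exact FP.cd (FP.tw e1) (FP.tw (e3.comp e4))
  exact OFP.map2 h3 (OFP.of_fp FP.id) h2

end Pool.Agent.APX
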