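import Pool.Agent.APX.Bits
import Pool.Agent.APX.Lib

set_option autoImplicit false

/-!
# APX-Words: operations on binary words
-/

namespace Pool.Agent.APX

open Pool.Agent.Helper22 N487b59b3

/-- comparison of words of the same length, most significant digit first: `val u < val v` -/
def ltb : List Bool → List Bool → Bool
  | a :: u, b :: v => (!a && b) || ((a == b) && ltb u v)
  | _, _ => false

/-- the next binary word of the same length -/
def incw : List Bool → List Bool
  | [] => []
  | a :: u => if u.all (fun b => b) then (!a) :: u.map (fun _ => false) else a :: incw u

private theorem val_cons (a : Bool) (u : List Bool) : val (a :: u) = a.toNat * 2 ^ u.length + val u := by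
  have h := val_append [a] u
  have h1 : val [a] = a.toNat := by
    show 2 * 0 + a.toNat = a.toNat
    omega
  rw [h1] at h
  exact h

theorem ltb_iff {u v : List Bool} (h : u.length = v.length) : ltb u v = true ↔ val u < val v := by
  induction u generalizing v with
  | nil =>
    cases v with
    | nil =>
      show false = true ↔ val [] < val []
      simp
    | cons b v => simp at h
  | cons a u ih =>
    cases v with
    | nil => simp at h
    | cons b v =>
      have hl : u.length = v.length := by simpa using h
      have h1 := val_lt u
      have h2 := val_lt v
      rw [val_cons, val_cons, ← hl]
      rw [← hl] at h2
      have h3 := ih hl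
      show ((!a && b) || ((a == b) && ltb u v)) = true ↔ _
      cases a <;> cases b
      · simp only [Bool.not_false, Bool.and_false, beq_self_eq_true, Bool.true_and, Bool.false_or, h3,
          Bool.toNat_false]
        omega
      · simp only [Bool.not_false, Bool.and_true, Bool.true_or, Bool.toNat_false, Bool.toNat_true, true_iff]
        omega
      · simp only [Bool.not_true, Bool.and_false, Bool.false_or, Bool.toNat_false, Bool.toNat_true]
        have h4 : (true == false) = false := rfl
        rw [h4, Bool.false_and]
        constructor
        · intro h5
          exact absurd h5 (by decide)
        · intro h5
          omega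
      · simp only [Bool.not_true, Bool.false_and, beq_self_eq_true, Bool.true_and, Bool.false_or, h3,
          Bool.toNat_true]
        omega

@[simp] theorem length_incw (u : List Bool) : (incw u).length = u.length := by
  induction u with
  | nil => rfl
  | cons a u ih =>
    unfold incw
    split_ifs
    · simp
    · simp [ih]

private theorem all_eq (u : List Bool) (h : u.all (fun b => b) = true) : u = List.replicate u.length true := by
  rw [List.eq_replicate_iff]
  refine ⟨rfl, fun b hb => ?_⟩
  exact List.all_eq_true.1 h b hb

private theorem val_incw0 (u : List Bool) (h : ¬ u.all (fun b => b) = true) : val (incw u) = val u + 1 := by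
  induction u with
  | nil => exact absurd rfl h
  | cons a u ih =>
    by_cases h1 : u.all (fun b => b) = true
    · have h2 : incw (a :: u) = (!a) :: u.map (fun _ => false) := if_pos h1
      have h3 : a = false := by
        cases a
        · rfl
        · exact absurd (by simp [h1]) h
      have h4 : u.map (fun _ => false) = List.replicate u.length false := by simp
      rw [h2, h3, val_cons, val_cons, h4, val_zeros, List.length_replicate]
      have h5 := val_ones u.length
      rw [← all_eq u h1] at h5
      simp only [Bool.not_false, Bool.toNat_true, Bool.toNat_false]
      omega
    · have h2 : incw (a :: u) = a :: incw u := if_neg h1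
      rw [h2, val_cons, val_cons, ih h1, length_incw]
      omega

theorem val_incw {u : List Bool} (h : u.headD true = false) : val (incw u) = val u + 1 := by
  refine val_incw0 u ?_
  cases u with
  | nil => exact absurd h (by decide)
  | cons a u =>
    have h1 : a = false := h
    rw [h1]
    simp

/-- zeros of the length of a given list -/
def zr {β : Type} (l : List β) : List Bool := List.replicate l.length false

/-- the word of the length of `l` which starts with `w` (cut or filled with zeros) -/
def fit (l w : List Bool) : List Bool := (w ++ zr l).take l.length

@[simp] theorem length_fit (l w : List Bool) : (fit l w).length = l.length := by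
  unfold fit zr
  rw [List.length_take, List.length_append, List.length_replicate]
  omega

theorem fit_eq {l w : List Bool} (h : w.length ≤ l.length) :
    fit l w = w ++ List.replicate (l.length - w.length) false := by
  unfold fit zr
  rw [List.take_append, List.take_of_length_le h, List.take_replicate]
  congr 2
  omega

end Pool.Agent.APX
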