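import Pool.Agent.APX.AppDefs
import Pool.Agent.APX.Tw
import Pool.Agent.APX.Words

set_option autoImplicit false

/-!
# Bipartite Ramsey

Let `K = ⌈log₂ t⌉ ≥ 1`, `q + 1 = ⌊n / K⌋ ≥ 2`. The left vertices are `1^i 0^(n-i)`, `i < q`; the right
vertices are the words `v` of length `K (q + 1) ≤ n` filled with zeros. Among `t` right vertices
with the same row of `q` colours the majority colour gives a monochromatic graph.
-/

namespace Pool.Agent.APX

open Pool.Agent.Helper22 N487b59b3 N68a2faeb

/-- the bipartite Ramsey problem; the input codes `t` and `n` in unary; the solution codes the two
sides -/
def RamP : Problem := fun X x y =>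
  2 ≤ (cf x).length → 2 * dig (cf x).length ≤ (cs x).length →
    IsMono X (cf x).length (cs x).length (wt (cf y)) (wt (cs y))

/-- `q` in unary -/
def qU (x : List Bool) : List Bool :=
  true :: un ((cs x).length / dig (cf x).length - 2)

/-- the row of a right vertex -/
def row (X : Oracle) (p : List Bool × List Bool) : List Bool :=
  (List.range (qU p.1).length).map fun i => X (cd (fit (cs p.1) (un i)) (fit (cs p.1) p.2))

/-- the left vertices where the row `r` has the colour `c` -/
def side (c : Bool) (x r : List Bool) : List (List Bool) :=
  ((List.range r.length).filter fun i => r.getD i false == c).map fun i => fit (cs x) (un i)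

/-- the left vertices with the majority colour -/
def maj (x r : List Bool) : List (List Bool) :=
  if (side false x r).length ≤ (side true x r).length then side true x r else side false x r

/-- the solution from a list of right vertices with the same row -/
def ramSol (X : Oracle) (p : List Bool × List (List Bool)) : List Bool :=
  cd (tw (maj p.1 (row X (p.1, p.2.headD [])))) (tw (p.2.map fun v => fit (cs p.1) v))

end Pool.Agent.APX
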