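import Pool.Agent.APX.FoldM
import Pool.Agent.APX.RamA
import Pool.Agent.APX.RamB

set_option autoImplicit false

/-!
# APX-RamM: bipartite Ramsey is reducible to CPLS
-/

namespace Pool.Agent.APX

open Pool.Agent.Helper22 N487b59b3 N68a2faeb

/-- PLAN. `Fold.reducible` with `t = cf x`, `n = qU x`, `f = row`, `sol = ramSol`. -/
theorem ram_reducible : ReducibleToCPLS RamP := by
  obtain ⟨fp, hf⟩ := row_ofp
  obtain ⟨so, hso⟩ := ramSol_ofp
  have T : Fold RamP :=
    { t := cf
      t_poly := (isPolyTime_iff _).2 (FP.cf FP.id)
      n := qU
      n_poly := (isPolyTime_iff _).2 qU_fp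
      n_pos := fun x => by simp [qU]
      f := fp
      sol := so
      f_length := by
        intro X x v
        rw [hf]
        exact length_row X x v
      sol_ok := by
        intro X x l hl hn hv he
        rw [hso]
        intro h2 h
        refine isMono_of_rows h2 h hl hn hv ?_
        intro v hv' w hw'
        have e := he v hv' w hw'
        rw [hf, hf] at e
        exact e }
  exact T.reducible

end Pool.Agent.APX
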