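import Pool.Agent.APX.Cert

set_option autoImplicit false

/-!
# States and violations of the game of a combining scheme

Notation: `K = (S.K x).length`, `N = (S.n x).length`. A state is `(J, (P, es))`: `J` a unary word
(`j ≤ K` blocks), `P` a prefix of `j (N + 1)` digits, `es` a list of `N` entries; an entry is a word
of length `N + 1`, a flag and a word of length `N`. The state claims that `P` contains no object of
level `K - j`, and for every `k` with flag `true` (with word `y_k`) that no chain along the entries
`e_k, ..., e_1` ends in a point whose first `k - 1` digits are the flags of `e_1, ..., e_{k-1}` and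
whose `k`-th digit is `false`.
-/

namespace Pool.Agent.APX

open Pool.Agent.Helper22 N487b59b3

/-- the flag of an entry -/
def flg (e : List Bool) : Bool := e.headD false

/-- the state with components `J`, `P`, `es` -/
def mkS (J P : List Bool) (es : List (List Bool)) : List Bool := cd J (cd P (tw es))

def sJ (s : List Bool) : List Bool := cf s
def sP (s : List Bool) : List Bool := cf (cs s)
def sE (s : List Bool) : List (List Bool) := wt (cs (cs s))

@[simp] theorem sJ_mkS (J P : List Bool) (es : List (List Bool)) : sJ (mkS J P es) = J := by
  simp [sJ, mkS]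
@[simp] theorem sP_mkS (J P : List Bool) (es : List (List Bool)) : sP (mkS J P es) = P := by
  simp [sP, mkS]
@[simp] theorem sE_mkS (J P : List Bool) (es : List (List Bool)) : sE (mkS J P es) = es := by
  simp [sE, mkS, wt_tw]

/-- the violation with components `kd` (kind), `k` (unary), `p` (point or object), `cs` (items) -/
def mkY (kd : Bool) (k p : List Bool) (c : List (List Bool)) : List Bool :=
  cd [kd] (cd k (cd p (tw c)))

def yk (y : List Bool) : Bool := (cf y).headD false
def yl (y : List Bool) : List Bool := cf (cs y)
def yo (y : List Bool) : List Bool := cf (cs (cs y))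
def yc (y : List Bool) : List (List Bool) := wt (cs (cs (cs y)))

@[simp] theorem yk_mkY (kd : Bool) (k p : List Bool) (c : List (List Bool)) :
    yk (mkY kd k p c) = kd := by simp [yk, mkY]
@[simp] theorem yl_mkY (kd : Bool) (k p : List Bool) (c : List (List Bool)) :
    yl (mkY kd k p c) = k := by simp [yl, mkY]
@[simp] theorem yo_mkY (kd : Bool) (k p : List Bool) (c : List (List Bool)) :
    yo (mkY kd k p c) = p := by simp [yo, mkY]
@[simp] theorem yc_mkY (kd : Bool) (k p : List Bool) (c : List (List Bool)) :
    yc (mkY kd k p c) = c := by simp [yc, mkY, wt_tw]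

namespace Scheme

variable {Q : Problem} (S : Scheme Q)

/-- number of levels of the scheme -/
abbrev k (x : List Bool) : ℕ := (S.K x).length

/-- length of the codes -/
abbrev N (x : List Bool) : ℕ := (S.n x).length

/-- bound for the length of the objects -/
abbrev L (x : List Bool) : ℕ := S.p.eval x.length

/-- the entry with flag `false` -/
def e0 (x : List Bool) : List Bool := false :: zr (S.n x)

/-- the well formed states -/
def wfS (p : List Bool × List Bool) : Bool :=
  Helper22.weq p.2 (mkS (sJ p.2) (sP p.2) (sE p.2)) &&
    (decide ((sJ p.2).length ≤ S.k p.1) &&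
      (Helper22.weq (sJ p.2) (un (sJ p.2).length) &&
        (decide ((sP p.2).length = (sJ p.2).length * (S.N p.1 + 1)) &&
          (decide ((sE p.2).length = S.N p.1) &&
            (sE p.2).all fun e => decide (e.length = S.N p.1 + 1)))))

/-- the rank of a state -/
def rkS (p : List Bool × List Bool) : List Bool :=
  fit (S.K p.1) (sJ p.2) ++ fit (un (S.N p.1 * (S.N p.1 + 1))) (sE p.2).flatten

/-- bound for the length of the states -/
def lsb (x : List Bool) : ℕ :=
  2 * S.k x + 1 + (2 * (S.k x * (S.N x + 1)) + 1 + S.N x * (2 * (S.N x + 1) + 1))

/-- the first state -/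
def st0 (x : List Bool) : List Bool := mkS [] [] (List.replicate (S.N x) (S.e0 x))

/-- bound for the length of the items -/
def itb (x : List Bool) : ℕ := 2 * S.N x + 1 + S.N x * (2 * S.L x + 1)

/-- bound for the length of the violations -/
def lvb (x : List Bool) : ℕ := 8 + 4 * S.N x + 2 * S.L x + S.N x * (2 * S.itb x + 1)

/-- the digits `v` start with the `k - 1` flags of `es` and continue with `false`; `k` in unary -/
def low (es : List (List Bool)) (k v : List Bool) : Bool :=
  Helper22.weq (v.take k.tail.length) ((es.map flg).take k.tail.length) &&
    !(v.getD k.tail.length true)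

/-- `y` is a violation of the state `s` -/
def vio (X : Oracle) (p : List Bool × (List Bool × List Bool)) : Bool :=
  decide (p.2.2.length ≤ S.lvb p.1) &&
    (if yk p.2.2 then
      decide ((sJ p.2.1).length < S.k p.1) && (!(yl p.2.2).isEmpty &&
        (decide ((yl p.2.2).length ≤ S.N p.1) &&
          (flg ((sE p.2.1).getD (yl p.2.2).tail.length []) &&
            (decide ((yo p.2.2).length = S.N p.1) &&
              (S.okC X p.1 (S.k p.1 - (sJ p.2.1).length - 1) (sP p.2.1)
                ((sE p.2.1).take (yl p.2.2).length).reverse (yo p.2.2) (yc p.2.2) &&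
                low (sE p.2.1) (yl p.2.2)
                  (S.vaC X p.1 (S.k p.1 - (sJ p.2.1).length - 1) (sP p.2.1)
                    ((sE p.2.1).take (yl p.2.2).length).reverse (yo p.2.2) (yc p.2.2)))))))
    else !(sJ p.2.1).isEmpty &&
      S.okU X p.1 (S.k p.1 - (sJ p.2.1).length) (sP p.2.1) (yo p.2.2))

/-- the request for an object in the subcube `P c` -/
def cellR (x s c : List Bool) : List Bool :=
  mkS (sJ s ++ [true]) (sP s ++ c) (List.replicate (S.N x) (S.e0 x))

/-- the request for a violation at level `l` with the word `p`: the entry `e_l` is replaced by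
`true :: p` and the entries `e_{l+1}, ...` by `e0`; `l` is the length of `l.tail` plus one -/
def entR (x s l p : List Bool) : List Bool :=
  mkS (sJ s) (sP s) ((sE s).take l.tail.length ++ ((true :: p) ::
    List.replicate (S.N x - l.length) (S.e0 x)))

end Scheme

end Pool.Agent.APX
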