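import Pool.Agent.APX.StateA

set_option autoImplicit false

/-!
# APX-StateB: the ranks of the requests
-/

namespace Pool.Agent.APX

open Pool.Agent.Helper22 N487b59b3

private theorem stB_flip (u r r' : List Bool) (h : r.length = r'.length) :
    val (u ++ false :: r) < val (u ++ true :: r') := by
  have hf : val (false :: r) = val r := by
    have h1 := val_append [false] r
    have h2 : val [false] = 0 := rfl
    rw [h2, zero_mul, zero_add] at h1
    exact h1
  have ht : val (true :: r') = 2 ^ r'.length + val r' := by
    have h1 := val_append [true] r'
    have h2 : val [true] = 1 := rfl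
    rw [h2, one_mul] at h1
    exact h1
  rw [val_append, val_append, hf, ht, List.length_cons, List.length_cons, h]
  have h3 := val_lt r
  rw [h] at h3
  omega

private theorem stB_len (n : ℕ) (es : List (List Bool)) (h : ∀ e ∈ es, e.length = n) :
    es.flatten.length = es.length * n := by
  induction es with
  | nil => simp
  | cons a es ih =>
    rw [List.flatten_cons, List.length_append, List.length_cons, h a List.mem_cons_self,
      ih fun e he => h e (List.mem_cons_of_mem _ he)]
    ring

private theorem stB_fit {l w : List Bool} (h : w.length = l.length) : fit l w = w := by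
  rw [fit_eq h.le, h, Nat.sub_self]
  exact List.append_nil _

namespace Scheme

variable {Q : Problem} (S : Scheme Q)

/-- PLAN. The first `K` digits of the rank are `1 ^ j 0 ^ (K - j)` and `1 ^ (j + 1) 0 ^ (K - j - 1)`
(`val_append`, `val_lt`). -/
theorem cellR_rk {x s c : List Bool} (h : S.wfS (x, s) = true) (hj : (sJ s).length < S.k x) :
    val (S.rkS (x, s)) < val (S.rkS (x, S.cellR x s c)) := by
  have hj' : (sJ s).length < (S.K x).length := hj
  have h1 : fit (S.K x) (sJ s) =
      sJ s ++ false :: List.replicate ((S.K x).length - (sJ s).length - 1) false := by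
    rw [fit_eq hj'.le, ← List.replicate_succ]
    have h4 : (S.K x).length - (sJ s).length - 1 + 1 = (S.K x).length - (sJ s).length := by omega
    rw [h4]
  have h2 : fit (S.K x) (sJ s ++ [true]) =
      sJ s ++ true :: List.replicate ((S.K x).length - (sJ s).length - 1) false := by
    rw [fit_eq (by rw [List.length_append, List.length_singleton]; exact hj'), List.append_assoc,
      List.length_append, List.length_singleton, Nat.sub_sub]
    rfl
  show val (fit (S.K x) (sJ s) ++ _) < val (fit (S.K x) (sJ (S.cellR x s c)) ++ _)
  have h3 : sJ (S.cellR x s c) = sJ s ++ [true] := by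
    unfold cellR
    exact sJ_mkS _ _ _
  rw [h3, h1, h2, List.append_assoc, List.append_assoc, List.cons_append, List.cons_append]
  apply stB_flip
  rw [List.length_append, List.length_append, length_fit, length_fit]

/-- PLAN. The digits of the entries before `e_l` agree, and the flag of `e_l` changes from `false`
to `true`. -/
theorem entR_rk {x s l p : List Bool} (h : S.wfS (x, s) = true) (hl : l ≠ [])
    (hl' : l.length ≤ S.N x) (hp : p.length = S.N x)
    (hf : flg ((sE s).getD l.tail.length []) = false) :
    val (S.rkS (x, s)) < val (S.rkS (x, S.entR x s l p)) := by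
  obtain ⟨j, P, es, rfl, hj, hP, hes, hen⟩ := (S.wfS_iff x s).1 h
  rw [sE_mkS] at hf
  have hl1 : l.tail.length + 1 = l.length := by
    cases l with
    | nil => exact absurd rfl hl
    | cons a l => rfl
  have ht : l.tail.length < es.length := by omega
  have he0 : ∀ e ∈ List.replicate (S.N x - l.length) (S.e0 x), e.length = S.N x + 1 := by
    intro e he
    rw [(List.mem_replicate.1 he).2]
    show (false :: zr (S.n x)).length = _
    rw [List.length_cons]
    unfold zr
    rw [List.length_replicate]
  -- the old digits
  rw [List.getD_eq_getElem _ _ ht] at hf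
  have hmem : es[l.tail.length] ∈ es := List.getElem_mem ht
  obtain ⟨w, hw⟩ : ∃ w, es[l.tail.length] = false :: w := by
    have h2 := hen _ hmem
    cases hc : es[l.tail.length] with
    | nil =>
      rw [hc] at h2
      simp at h2
    | cons b w =>
      rw [hc] at hf
      have h3 : b = false := hf
      rw [h3]
      exact ⟨w, rfl⟩
  have hwl : w.length = S.N x := by
    have h2 := hen _ hmem
    rw [hw, List.length_cons] at h2
    omega
  have hsplit : es = es.take l.tail.length ++ ((false :: w) :: es.drop (l.tail.length + 1)) := by
    conv_lhs => rw [← List.take_append_drop l.tail.length es]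
    rw [List.drop_eq_getElem_cons ht, hw]
  have hfl1 : (sE (mkS (un j) P es)).flatten =
      (es.take l.tail.length).flatten ++ (false :: (w ++ (es.drop (l.tail.length + 1)).flatten)) := by
    rw [sE_mkS]
    conv_lhs => rw [hsplit]
    rw [List.flatten_append, List.flatten_cons, List.cons_append]
  have hfl2 : (sE (S.entR x (mkS (un j) P es) l p)).flatten =
      (es.take l.tail.length).flatten ++
        (true :: (p ++ (List.replicate (S.N x - l.length) (S.e0 x)).flatten)) := by
    unfold entR
    rw [sE_mkS, sE_mkS, List.flatten_append, List.flatten_cons, List.cons_append]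
  have hd : (es.drop (l.tail.length + 1)).flatten.length = (S.N x - l.length) * (S.N x + 1) := by
    rw [stB_len (S.N x + 1) _ fun e he => hen e (List.mem_of_mem_drop he), List.length_drop, hes, hl1]
  have hr : (List.replicate (S.N x - l.length) (S.e0 x)).flatten.length =
      (S.N x - l.length) * (S.N x + 1) := by
    rw [stB_len (S.N x + 1) _ he0, List.length_replicate]
  have htk : (es.take l.tail.length).flatten.length = l.tail.length * (S.N x + 1) := by
    rw [stB_len (S.N x + 1) _ fun e he => hen e (List.mem_of_mem_take he), List.length_take,
      min_eq_left ht.le]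
  have hsum : l.tail.length * (S.N x + 1) + ((S.N x + 1) + (S.N x - l.length) * (S.N x + 1)) =
      S.N x * (S.N x + 1) := by
    have h3 : S.N x = l.tail.length + 1 + (S.N x - l.length) := by omega
    conv_rhs => rw [h3]
    have h4 : l.tail.length + 1 + (S.N x - l.length) + 1 = S.N x + 1 := by omega
    rw [h4]
    ring
  have hJ : sJ (S.entR x (mkS (un j) P es) l p) = sJ (mkS (un j) P es) := by
    unfold entR
    rw [sJ_mkS]
  show val (fit (S.K x) (sJ (mkS (un j) P es)) ++
      fit (un (S.N x * (S.N x + 1))) (sE (mkS (un j) P es)).flatten) <
    val (fit (S.K x) (sJ (S.entR x (mkS (un j) P es) l p)) ++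
      fit (un (S.N x * (S.N x + 1))) (sE (S.entR x (mkS (un j) P es) l p)).flatten)
  have hA : fit (un (S.N x * (S.N x + 1))) ((es.take l.tail.length).flatten ++
      (false :: (w ++ (es.drop (l.tail.length + 1)).flatten))) = (es.take l.tail.length).flatten ++
      (false :: (w ++ (es.drop (l.tail.length + 1)).flatten)) := by
    apply stB_fit
    rw [List.length_append, List.length_cons, List.length_append, hwl, hd, htk, un_length]
    omega
  have hB : fit (un (S.N x * (S.N x + 1))) ((es.take l.tail.length).flatten ++
      (true :: (p ++ (List.replicate (S.N x - l.length) (S.e0 x)).flatten))) =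
      (es.take l.tail.length).flatten ++
      (true :: (p ++ (List.replicate (S.N x - l.length) (S.e0 x)).flatten)) := by
    apply stB_fit
    rw [List.length_append, List.length_cons, List.length_append, hp, hr, htk, un_length]
    omega
  rw [hJ, hfl1, hfl2, hA, hB, ← List.append_assoc, ← List.append_assoc]
  apply stB_flip
  rw [List.length_append, List.length_append, hwl, hp, hd, hr]

end Scheme

end Pool.Agent.APX
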