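import Pool.Agent.APX.ChainR
import Pool.Agent.APX.StateB

set_option autoImplicit false

/-!
# APX-StratA: the requests are correct
-/

namespace Pool.Agent.APX

open Pool.Agent.Helper22 N487b59b3

namespace Scheme

variable {Q : Problem} (S : Scheme Q)

/-- For `t < T.length` with `t < M1` the request is `askC` for the first chain, otherwise for
the second one. -/
theorem good_split {X : Oracle} {x s : List Bool} {T : List (List Bool)}
    (hT : ∀ j < T.length, S.dnS (x, (s, T.take j)) = false ∧
      S.vio X (x, (S.askS X (x, (s, T.take j)), T.getD j [])) = true) :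
    S.GoodC X x s (S.pt x false) (T.take (S.M1 x s).length) ∧
      S.GoodC X x s (S.pt x true) (T.drop (S.M1 x s).length) ∧
      (T ≠ [] → (sJ s).length < S.k x) ∧ T.length ≤ (S.M1 x s).length + (S.M1 x s).length := by
  have hdn : ∀ j < T.length, (sJ s).length < S.k x ∧
      j < (S.M1 x s).length + (S.M1 x s).length := by
    intro j hj
    have h1 := (hT j hj).1
    simp only [dnS, Bool.or_eq_false_iff, decide_eq_false_iff_not, not_le, List.length_append,
      List.length_take] at h1
    exact ⟨h1.1, by have := h1.2; omega⟩
  refine ⟨?_, ?_, ?_, ?_⟩
  · intro t ht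
    have ht' : t < (S.M1 x s).length ∧ t < T.length := by
      simp only [List.length_take] at ht
      omega
    have h1 := (hT t ht'.2).2
    have e1 : (T.take (S.M1 x s).length).take t = T.take t := by
      rw [List.take_take, min_eq_left ht'.1.le]
    have e2 : (T.take (S.M1 x s).length).getD t [] = T.getD t [] := by
      rw [List.getD_eq_getElem?_getD, List.getD_eq_getElem?_getD, List.getElem?_take,
        if_pos ht'.1]
    have e3 : S.askS X (x, (s, T.take t)) = S.askC X x s (S.pt x false) (T.take t) := by
      have hl : (T.take t).length < (S.M1 x s).length := by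
        simp only [List.length_take]; omega
      simp only [askS]
      rw [if_pos hl]
    rw [e1, e2, ← e3]
    exact h1
  · intro t ht
    have ht' : (S.M1 x s).length + t < T.length := by
      simp only [List.length_drop] at ht
      omega
    have h1 := (hT _ ht').2
    have e2 : (T.drop (S.M1 x s).length).getD t [] = T.getD ((S.M1 x s).length + t) [] := by
      rw [List.getD_eq_getElem?_getD, List.getD_eq_getElem?_getD, List.getElem?_drop]
    have e1 : (T.drop (S.M1 x s).length).take t
        = (T.take ((S.M1 x s).length + t)).drop (S.M1 x s).length := by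
      rw [List.drop_take, Nat.add_sub_cancel_left]
    have e3 : S.askS X (x, (s, T.take ((S.M1 x s).length + t))) = S.askC X x s (S.pt x true)
        ((T.take ((S.M1 x s).length + t)).drop (S.M1 x s).length) := by
      have hl : ¬ (T.take ((S.M1 x s).length + t)).length < (S.M1 x s).length := by
        simp only [List.length_take]; omega
      simp only [askS]
      rw [if_neg hl]
    rw [e1, e2, ← e3]
    exact h1
  · intro hne
    have : 0 < T.length := List.length_pos_iff.2 hne
    exact (hdn 0 this).1
  · by_contra hcon
    push Not at hcon
    have h0 : 0 < T.length := by omega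
    have := (hdn (T.length - 1) (by omega)).2
    omega

private theorem askC_ok (X : Oracle) {x s z : List Bool} {T : List (List Bool)}
    (h : S.wfS (x, s) = true) (hj : (sJ s).length < S.k x) (hz : z.length = S.N x)
    (hT : S.GoodC X x s z T) (hl : T.length < (S.M1 x s).length) :
    S.wfS (x, S.askC X x s z T) = true ∧
      val (S.rkS (x, s)) < val (S.rkS (x, S.askC X x s z T)) := by
  obtain ⟨h1, h2, h3, h4, h5⟩ := S.topE_spec h
  by_cases hc : T.length < (Yb s).length
  · have hcur := S.length_cur h hj hz hT (le_refl T.length) hc.le
    rw [List.take_length] at hcur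
    simp only [askC, if_pos hc]
    exact ⟨S.cellR_wf h hj (by simp [hcur]), S.cellR_rk h hj⟩
  · have hM : (S.M1 x s).length = (Yb s).length + min 1 (S.lv1 x s).length := by
      simp [M1]
    have hlv : S.lv1 x s ≠ [] := by
      intro h0
      rw [hM, h0] at hl
      simp at hl
      omega
    have hTl : T.length = (Yb s).length := by
      have : min 1 (S.lv1 x s).length ≤ 1 := min_le_left _ _
      omega
    have hcur := S.length_cur h hj hz hT (le_refl T.length) hTl.le
    rw [List.take_length] at hcur
    have hll : (S.lv1 x s).length ≤ S.N x := by
      rw [S.length_lv1]; omega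
    simp only [askC, if_neg hc]
    exact ⟨S.entR_wf h hlv hll hcur, S.entR_rk h hlv hll hcur (h4 hlv)⟩

/-- The number of answers already obtained in the current chain is less than `M1`; `length_cur`
and `topE_spec` give the lengths for the requests, and `M1` is at most `N * N + 1`. -/
theorem ask_ok (X : Oracle) (x s : List Bool) (T : List (List Bool))
    (h : S.wfS (x, s) = true)
    (hT : ∀ j < T.length, S.dnS (x, (s, T.take j)) = false ∧
      S.vio X (x, (S.askS X (x, (s, T.take j)), T.getD j [])) = true)
    (hd : S.dnS (x, (s, T)) = false) :
    S.wfS (x, S.askS X (x, (s, T))) = true ∧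
      val (S.rkS (x, s)) < val (S.rkS (x, S.askS X (x, (s, T)))) ∧
      T.length < 2 * (S.N x * S.N x + 1) := by
  obtain ⟨g1, g2, g3, g4⟩ := S.good_split hT
  obtain ⟨h1, h2, h3, h4, h5⟩ := S.topE_spec h
  have hd' : (sJ s).length < S.k x ∧ T.length < (S.M1 x s).length + (S.M1 x s).length := by
    simp only [dnS, Bool.or_eq_false_iff, decide_eq_false_iff_not, not_le,
      List.length_append] at hd
    exact hd
  have hM : (S.M1 x s).length ≤ S.N x * S.N x + 1 := by
    have e : (S.M1 x s).length = (Yb s).length + min 1 (S.lv1 x s).length := by
      simp [M1]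
    have e1 : min 1 (S.lv1 x s).length ≤ 1 := min_le_left _ _
    have e2 : (topE s).length * S.N x ≤ S.N x * S.N x := Nat.mul_le_mul_right _ h1
    omega
  have key : S.wfS (x, S.askS X (x, (s, T))) = true ∧
      val (S.rkS (x, s)) < val (S.rkS (x, S.askS X (x, (s, T)))) := by
    by_cases hc : T.length < (S.M1 x s).length
    · have e : S.askS X (x, (s, T)) = S.askC X x s (S.pt x false) T := by
        simp only [askS, if_pos hc]
      rw [List.take_of_length_le hc.le] at g1
      rw [e]
      exact S.askC_ok X h hd'.1 (S.length_pt x false) g1 hc
    · have e : S.askS X (x, (s, T)) = S.askC X x s (S.pt x true)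
          (T.drop (S.M1 x s).length) := by
        simp only [askS, if_neg hc]
      rw [e]
      exact S.askC_ok X h hd'.1 (S.length_pt x true) g2 (by
        simp only [List.length_drop]; omega)
  exact ⟨key.1, key.2, by omega⟩

end Scheme

end Pool.Agent.APX
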