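import Pool.Agent.APX.StudDefs

set_option autoImplicit false

/-!
# APX-StudA: the combining scheme of a student is correct
-/

namespace Pool.Agent.APX

open Pool.Agent.Helper22 N487b59b3 N68a2faeb

namespace Student

variable {Q : Problem} (T : Student Q)

private lemma all_snoc (X : Oracle) (x v : List Bool) (Z : List (List Bool)) (z : List Bool) :
    (∀ j < (Z ++ [z]).length, T.ref.run X (x, (v, ((Z ++ [z]).take j, (Z ++ [z]).getD j []))) = true) ↔
      (∀ j < Z.length, T.ref.run X (x, (v, (Z.take j, Z.getD j []))) = true) ∧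
        T.ref.run X (x, (v, (Z, z))) = true := by
  have e1 : ∀ j < Z.length, (Z ++ [z]).take j = Z.take j := fun j hj =>
    List.take_append_of_le_length hj.le
  have e2 : ∀ j < Z.length, (Z ++ [z]).getD j [] = Z.getD j [] := fun j hj =>
    List.getD_append _ _ _ _ hj
  have e3 : (Z ++ [z]).take Z.length = Z := by
    rw [List.take_append_of_le_length le_rfl, List.take_length]
  have e4 : (Z ++ [z]).getD Z.length [] = z := by
    rw [List.getD_append_right _ _ _ _ le_rfl, Nat.sub_self]
    rfl
  constructor
  · intro h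
    refine ⟨fun j hj => ?_, ?_⟩
    · have h2 := h j (by rw [List.length_append]; omega)
      rw [e1 j hj, e2 j hj] at h2
      exact h2
    · have h2 := h Z.length (by simp)
      rw [e3, e4] at h2
      exact h2
  · rintro ⟨h2, h3⟩ j hj
    rw [List.length_append, List.length_singleton] at hj
    rcases Nat.lt_or_ge j Z.length with hlt | hge
    · rw [e1 j hlt, e2 j hlt]
      exact h2 j hlt
    · have e : j = Z.length := by omega
      rw [e, e3, e4]
      exact h3

private lemma fold_snd (X : Oracle) (x v : List Bool) (Z : List (List Bool))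
    (b : Bool × List (List Bool)) :
    (Z.foldl (fun b z => (b.1 && T.ref.run X (x, (v, (b.2, z))), b.2 ++ [z])) b).2 = b.2 ++ Z := by
  induction Z generalizing b with
  | nil => simp
  | cons z Z ih =>
    rw [List.foldl_cons, ih]
    simp

private lemma rfs_snoc (X : Oracle) (x v : List Bool) (Z : List (List Bool)) (z : List Bool) :
    T.rfs X (x, (v, Z ++ [z])) = (T.rfs X (x, (v, Z)) && T.ref.run X (x, (v, (Z, z)))) := by
  have h := T.fold_snd X x v Z (true, [])
  rw [List.nil_append] at h
  simp only [rfs, List.foldl_append, List.foldl_cons, List.foldl_nil]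
  rw [h]

theorem rfs_iff (X : Oracle) (x v : List Bool) (Z : List (List Bool)) :
    T.rfs X (x, (v, Z)) = true ↔
      ∀ j < Z.length, T.ref.run X (x, (v, (Z.take j, Z.getD j []))) = true := by
  induction Z using List.reverseRecOn with
  | nil => simp [rfs]
  | append_singleton Z z ih =>
    rw [T.rfs_snoc, Bool.and_eq_true, ih, T.all_snoc]

theorem okO_iff (X : Oracle) (x i P O : List Bool) :
    T.okO X (x, (i, (P, O))) = true ↔ ∃ (v : List Bool) (Z : List (List Bool)),
      O = cd v (tw Z) ∧ v.take P.length = P ∧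
      v.length = (T.K x).length * ((T.n x).length + 1) ∧ Z.length = i.length ∧
      i.length ≤ (T.K x).length ∧
      ∀ j < Z.length, T.ref.run X (x, (v, (Z.take j, Z.getD j []))) = true := by
  simp only [okO, Bool.and_eq_true, weq_iff, decide_eq_true_iff, T.rfs_iff]
  constructor
  · rintro ⟨h1, h2, h3, h4, h5, h6⟩
    exact ⟨cf O, wt (cs O), h1, h2, h3, h4, h5, h6⟩
  · rintro ⟨v, Z, rfl, h2, h3, h4, h5, h6⟩
    rw [cf_cd, cs_cd, wt_tw]
    exact ⟨rfl, h2, h3, h4, h5, h6⟩

theorem okO_start (X : Oracle) (x v : List Bool)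
    (h : v.length = (T.K x).length * ((T.n x).length + 1)) :
    T.okO X (x, (un 0, (v, staO (x, v)))) = true := by
  rw [T.okO_iff]
  refine ⟨v, [], rfl, List.take_length, h, ?_, ?_, fun j hj => absurd hj (by simp)⟩
  · simp
  · simp

theorem okO_length {X : Oracle} {x i P O : List Bool} (h : T.okO X (x, (i, (P, O))) = true) :
    O.length ≤ 2 * ((T.K x).length * ((T.n x).length + 1)) + 1 +
      (T.K x).length * (2 * T.p.eval x.length + 1) := by
  obtain ⟨v, Z, rfl, _, h3, h4, h5, h6⟩ := (T.okO_iff X x i P O).1 h
  rw [cd_length, h3]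
  have h7 := length_tw_le Z (T.p.eval x.length) (T.K x).length (by omega) (by
    intro w hw
    obtain ⟨j, hj, rfl⟩ := List.getElem_of_mem hw
    have h8 := T.ref_length X x v _ _ (h6 j hj)
    rw [List.getD_eq_getElem _ _ hj] at h8
    exact h8)
  omega

theorem codO_length (X : Oracle) (x O : List Bool) :
    (T.codO X (x, O)).length = (T.n x).length := by
  exact T.cand_length X x _ _

private lemma ext_ok {X : Oracle} {x P c v z : List Bool} {Z : List (List Bool)} {i : ℕ}
    (hi : i < (T.K x).length) (h2 : v.take (P ++ c).length = P ++ c)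
    (h3 : v.length = (T.K x).length * ((T.n x).length + 1)) (h4 : Z.length = (un i).length)
    (h6 : ∀ j < Z.length, T.ref.run X (x, (v, (Z.take j, Z.getD j []))) = true)
    (h7 : T.ref.run X (x, (v, (Z, z))) = true) :
    T.okO X (x, (un (i + 1), (P, cd v (tw (Z ++ [z]))))) = true := by
  rw [T.okO_iff]
  refine ⟨v, Z ++ [z], rfl, ?_, h3, ?_, ?_, (T.all_snoc X x v Z z).2 ⟨h6, h7⟩⟩
  · have h8 := congrArg (List.take P.length) h2
    rw [List.take_take, List.take_append_of_le_length le_rfl, List.take_length,
      List.length_append, Nat.min_eq_left (Nat.le_add_right _ _)] at h8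
    exact h8
  · rw [List.length_append, h4]
    simp
  · rw [un_length]
    omega

theorem okO_comb {X : Oracle} {x P c c' O O' : List Bool} {i : ℕ} (hi : i < (T.K x).length)
    (hc : c.length = (T.n x).length + 1) (hc' : c'.length = (T.n x).length + 1) (hne : c ≠ c')
    (h : T.okO X (x, (un i, (P ++ c, O))) = true)
    (h' : T.okO X (x, (un i, (P ++ c', O'))) = true)
    (he : T.codO X (x, O) = T.codO X (x, O')) :
    T.okO X (x, (un (i + 1), (P, T.cmbO X (x, (P, (O, O')))))) = true := by
  obtain ⟨v, Z, rfl, h2, h3, h4, h5, h6⟩ := (T.okO_iff X x _ _ O).1 h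
  obtain ⟨v', Z', rfl, h2', h3', h4', h5', h6'⟩ := (T.okO_iff X x _ _ O').1 h'
  have hne' : v ≠ v' := by
    rintro rfl
    have e : (P ++ c).length = (P ++ c').length := by
      rw [List.length_append, List.length_append, hc, hc']
    rw [← e, h2] at h2'
    exact hne (List.append_cancel_left h2')
  have he' : T.cand.run X (x, (v, Z)) = T.cand.run X (x, (v', Z')) := by
    have e := he
    simp only [codO, cf_cd, cs_cd, wt_tw] at e
    exact e
  have hl : Z.length < (T.K x).length := by
    rw [h4, un_length]
    exact hi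
  have hl' : Z'.length < (T.K x).length := by
    rw [h4', un_length]
    exact hi
  have key := T.clash_ok X x v v' Z Z' h3 h3' hne' hl hl' h6 h6' he'
  simp only [cmbO, cf_cd, cs_cd, wt_tw]
  by_cases hb : (T.clash.run X (x, ((v, Z), (v', Z')))).1 = true
  · rw [if_pos hb] at key ⊢
    exact T.ext_ok hi h2 h3 h4 h6 key
  · rw [if_neg hb] at key ⊢
    exact T.ext_ok hi h2' h3' h4' h6' key

theorem okO_sol {X : Oracle} {x O : List Bool}
    (h : T.okO X (x, (un (T.K x).length, ([], O))) = true) : Q X x (T.solO X (x, O)) := by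
  obtain ⟨v, Z, rfl, h2, h3, h4, h5, h6⟩ := (T.okO_iff X x _ _ O).1 h
  simp only [solO, cf_cd, cs_cd, wt_tw]
  exact T.sol_ok X x v Z h3 (by rw [h4, un_length]) h6

end Student

end Pool.Agent.APX
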