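import Pool.Agent.APX.StudDefs
import Pool.Agent.APX.WordsFP
import Pool.Agent.APX.OFold

set_option autoImplicit false

/-!
# APX-StudB: the combining scheme of a student is polynomial time with oracle
-/

namespace Pool.Agent.APX

open Pool.Agent.Helper22 N487b59b3 N68a2faeb

/-- the prefix of the fold -/
private lemma apx_studB_fold (g : List (List Bool) → List Bool → Bool)
    (l : List (List Bool)) (b : Bool × List (List Bool)) :
    (l.foldl (fun b z => (b.1 && g b.2 z, b.2 ++ [z])) b).2 = b.2 ++ l := by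
  induction l generalizing b with
  | nil => simp
  | cons z l ih => rw [List.foldl_cons, ih]; simp

private theorem FP.apx_len_eq {α β γ : Type} [N487b59b3 α] [N487b59b3 β] [N487b59b3 γ]
    {f : α → List β} {g : α → List γ} (hf : FP f) (hg : FP g) :
    FP fun a => decide ((f a).length = (g a).length) := by
  have h : FP fun a => decide ((f a).length ≤ (g a).length) &&
      decide ((g a).length ≤ (f a).length) := (FP.length_le hf hg).and (FP.length_le hg hf)
  refine (congrArg FP (funext fun a => ?_)).mp h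
  rw [Bool.eq_iff_iff]
  simp only [Bool.and_eq_true, decide_eq_true_eq]
  omega

namespace Student

variable {Q : Problem} (T : Student Q)

theorem rfs_ofp : OFP T.rfs := by
  have hg : OFP fun (X : Oracle) (q : (List Bool × List Bool) ×
      ((Bool × List (List Bool)) × List Bool)) =>
      (q.2.1.1 && T.ref.run X (q.1.1, (q.1.2, (q.2.1.2, q.2.2))), q.2.1.2 ++ [q.2.2]) := by
    refine OFP.pair (OFP.and (OFP.of_fp (by fun_prop)) ((OFP.proc T.ref).on ?_)) (OFP.of_fp ?_)
    · fun_prop
    · exact FP.append (by fun_prop) (FP.cons (by fun_prop) (FP.const []))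
  have h1 := OFP.foldl_ctx hg (B := fun n => 2 * n + 3) (by fun_prop) (by
    intro X c l b
    have h2 := apx_studB_fold (fun Z z => T.ref.run X (c.1, (c.2, (Z, z)))) l b
    rw [← Prod.mk.eta (p := l.foldl _ b), sz_pair, h2, sz_append, sz_bool]
    obtain ⟨b1, b2⟩ := b
    simp only [sz_pair, sz_bool]
    omega)
  have h3 : FP fun p : List Bool × (List Bool × List (List Bool)) =>
      ((p.1, p.2.1), (p.2.2, (true, ([] : List (List Bool))))) :=
    FP.pair (FP.pair FP.fst (FP.fst' FP.snd)) (FP.pair (FP.snd' FP.snd)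
      (FP.pair (FP.const true) (FP.const [])))
  exact (OFP.fst' (h1.on h3)).congr fun X p => rfl

theorem okO_ofp : OFP T.okO := by
  have hK : FP T.K := (isPolyTime_iff _).1 T.K_poly
  have hn : FP T.n := (isPolyTime_iff _).1 T.n_poly
  have h1 : FP fun p : List Bool × (List Bool × (List Bool × List Bool)) => p.1 := FP.fst
  have h2 : FP fun p : List Bool × (List Bool × (List Bool × List Bool)) => p.2.1 :=
    FP.fst' FP.snd
  have h3 : FP fun p : List Bool × (List Bool × (List Bool × List Bool)) => p.2.2.1 :=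
    FP.fst' (FP.snd' FP.snd)
  have h4 : FP fun p : List Bool × (List Bool × (List Bool × List Bool)) => p.2.2.2 :=
    FP.snd' (FP.snd' FP.snd)
  have hZ := FP.wt (FP.cs h4)
  have hKx := hK.comp h1
  have hnx := hn.comp h1
  have a1 := FP.weq h4 (FP.cd (FP.cf h4) (FP.tw hZ))
  have a2 := FP.weq (FP.take (FP.cf h4) h3) h3
  have a3 : FP fun p : List Bool × (List Bool × (List Bool × List Bool)) =>
      decide ((cf p.2.2.2).length = (T.K p.1).length * ((T.n p.1).length + 1)) := by
    have h5 := FP.apx_len_eq (FP.cf h4) (FP.unMul hKx (FP.cons (FP.const true) hnx))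
    refine (congrArg FP (funext fun p => ?_)).mp h5
    rw [Helper22.un_length, List.length_cons]
  have a4 := FP.apx_len_eq hZ h2
  have a5 := FP.length_le h2 hKx
  have a6 : FP fun p : List Bool × (List Bool × (List Bool × List Bool)) =>
      (p.1, (cf p.2.2.2, wt (cs p.2.2.2))) := FP.pair h1 (FP.pair (FP.cf h4) hZ)
  exact OFP.and (OFP.of_fp a1) (OFP.and (OFP.of_fp a2) (OFP.and (OFP.of_fp a3)
    (OFP.and (OFP.of_fp a4) (OFP.and (OFP.of_fp a5) (T.rfs_ofp.on a6)))))

theorem staO_fp : FP staO := by
  exact FP.cd FP.snd (FP.const [])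

theorem codO_ofp : OFP T.codO := by
  exact (OFP.proc T.cand).on (FP.pair FP.fst (FP.pair (FP.cf FP.snd) (FP.wt (FP.cs FP.snd))))

theorem cmbO_ofp : OFP T.cmbO := by
  have h1 : FP fun p : List Bool × (List Bool × (List Bool × List Bool)) => p.1 := FP.fst
  have h3 : FP fun p : List Bool × (List Bool × (List Bool × List Bool)) => p.2.2.1 :=
    FP.fst' (FP.snd' FP.snd)
  have h4 : FP fun p : List Bool × (List Bool × (List Bool × List Bool)) => p.2.2.2 :=
    FP.snd' (FP.snd' FP.snd)
  have hZ := FP.wt (FP.cs h3)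
  have hZ' := FP.wt (FP.cs h4)
  have hc := (OFP.proc T.clash).on
    (FP.pair h1 (FP.pair (FP.pair (FP.cf h3) hZ) (FP.pair (FP.cf h4) hZ')))
  have key : FP fun q : (List Bool × List (List Bool)) × List Bool =>
      cd q.1.1 (tw (q.1.2 ++ [q.2])) :=
    FP.cd (FP.fst' FP.fst) (FP.tw (FP.append (FP.snd' FP.fst) (FP.cons FP.snd (FP.const []))))
  exact OFP.ite (OFP.fst' hc)
    (OFP.map2 key (OFP.of_fp (FP.pair (FP.cf h3) hZ)) (OFP.snd' hc))
    (OFP.map2 key (OFP.of_fp (FP.pair (FP.cf h4) hZ')) (OFP.snd' hc))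

theorem solO_ofp : OFP T.solO := by
  exact (OFP.proc T.sol).on (FP.pair FP.fst (FP.pair (FP.cf FP.snd) (FP.wt (FP.cs FP.snd))))

end Student

end Pool.Agent.APX
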