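import Pool.Agent.APX.AppDefs
import Pool.Agent.APX.Tw

set_option autoImplicit false

/-!
# The combining scheme of a student

An object of level `i` in the subcube `P` is a word `cd v (tw Z)`: a point `v` with the prefix `P`
and a list `Z` of `i ≤ K` refutations (oldest first) of the successive claims about `v`. Its code is
the next candidate.
-/

namespace Pool.Agent.APX

open Pool.Agent.Helper22 N487b59b3 N68a2faeb

namespace Student

variable {Q : Problem} (T : Student Q)

/-- every element of the list refutes the claim made before it -/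
def rfs (X : Oracle) (p : List Bool × (List Bool × List (List Bool))) : Bool :=
  (p.2.2.foldl (fun b z => (b.1 && T.ref.run X (p.1, (p.2.1, (b.2, z))), b.2 ++ [z]))
    (true, ([] : List (List Bool)))).1

/-- the objects; the level is the length of `p.2.1` -/
def okO (X : Oracle) (p : List Bool × (List Bool × (List Bool × List Bool))) : Bool :=
  Helper22.weq p.2.2.2 (cd (cf p.2.2.2) (tw (wt (cs p.2.2.2)))) &&
    (Helper22.weq ((cf p.2.2.2).take p.2.2.1.length) p.2.2.1 &&
      (decide ((cf p.2.2.2).length = (T.K p.1).length * ((T.n p.1).length + 1)) &&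
        (decide ((wt (cs p.2.2.2)).length = p.2.1.length) &&
          (decide (p.2.1.length ≤ (T.K p.1).length) &&
            T.rfs X (p.1, (cf p.2.2.2, wt (cs p.2.2.2)))))))

/-- the first object of a point -/
def staO (p : List Bool × List Bool) : List Bool := cd p.2 []

/-- the code of an object -/
def codO (X : Oracle) (p : List Bool × List Bool) : List Bool :=
  T.cand.run X (p.1, (cf p.2, wt (cs p.2)))

/-- the combination of two objects -/
def cmbO (X : Oracle) (p : List Bool × (List Bool × (List Bool × List Bool))) : List Bool :=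
  if (T.clash.run X (p.1, ((cf p.2.2.1, wt (cs p.2.2.1)), (cf p.2.2.2, wt (cs p.2.2.2))))).1 then
    cd (cf p.2.2.1) (tw (wt (cs p.2.2.1) ++
      [(T.clash.run X (p.1, ((cf p.2.2.1, wt (cs p.2.2.1)), (cf p.2.2.2, wt (cs p.2.2.2))))).2]))
  else cd (cf p.2.2.2) (tw (wt (cs p.2.2.2) ++
      [(T.clash.run X (p.1, ((cf p.2.2.1, wt (cs p.2.2.1)), (cf p.2.2.2, wt (cs p.2.2.2))))).2]))

/-- the solution -/
def solO (X : Oracle) (p : List Bool × List Bool) : List Bool :=
  T.sol.run X (p.1, (cf p.2, wt (cs p.2)))

end Student

end Pool.Agent.APX
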