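import Pool.Agent.APX.StudA
import Pool.Agent.APX.StudB
import Pool.Agent.APX.Comb

set_option autoImplicit false

/-!
# APX-StudM: problems with a student are reducible to CPLS
-/

namespace Pool.Agent.APX

open Pool.Agent.Helper22 N487b59b3 N68a2faeb

/-- the length of a polynomial time function is bounded by a polynomial -/
theorem exists_poly_length {f : List Bool → List Bool} (h : IsPolyTime f) :
    ∃ p : Polynomial ℕ, ∀ x, (f x).length ≤ p.eval x.length := by
  obtain ⟨B, ⟨p, hp⟩, -, hB⟩ := ((isPolyTime_iff _).1 h).bound
  refine ⟨p.comp (3 * Polynomial.X), fun x => ?_⟩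
  have h1 := hB x
  rw [sz_bits, sz_bits] at h1
  have h2 := hp (3 * x.length)
  rw [Polynomial.eval_comp, Polynomial.eval_mul, Polynomial.eval_X, Polynomial.eval_ofNat]
  omega

/-- **Problems with a student are reducible to CPLS.** -/
theorem Student.reducible {Q : Problem} (T : Student Q) : ReducibleToCPLS Q := by
  obtain ⟨pK, hK⟩ := exists_poly_length T.K_poly
  obtain ⟨pn, hn⟩ := exists_poly_length T.n_poly
  obtain ⟨ok, hok⟩ := T.okO_ofp
  obtain ⟨st, hst⟩ := OFP.of_fp Student.staO_fp
  obtain ⟨code, hcode⟩ := T.codO_ofp
  obtain ⟨comb, hcomb⟩ := T.cmbO_ofp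
  obtain ⟨sol, hsol⟩ := T.solO_ofp
  let S : Scheme Q :=
    { K := T.K
      K_poly := T.K_poly
      n := T.n
      n_poly := T.n_poly
      n_pos := T.n_pos
      p := 2 * (pK * (pn + 1)) + 1 + pK * (2 * T.p + 1)
      ok := ok
      start := st
      code := code
      comb := comb
      sol := sol
      ok_length := by
        intro X x P O i h
        rw [hok] at h
        refine (T.okO_length h).trans ?_
        simp only [Polynomial.eval_add, Polynomial.eval_mul, Polynomial.eval_ofNat, Polynomial.eval_one]
        have h1 := hK x
        have h2 := hn x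
        gcongr
      ok_start := by
        intro X x v h
        rw [hok, hst]
        exact T.okO_start X x v h
      code_length := by
        intro X x P O i h
        rw [hcode]
        exact T.codO_length X x O
      ok_comb := by
        intro X x P c c' O O' i hi hc hc' hne h h' he
        rw [hok] at h h'
        rw [hcode, hcode] at he
        rw [hok, hcomb]
        exact T.okO_comb hi hc hc' hne h h' he
      ok_sol := by
        intro X x O h
        rw [hok] at h
        rw [hsol]
        exact T.okO_sol h }
  exact S.reducible

end Pool.Agent.APX
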