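import Pool.Agent.APX.TriDefs

set_option autoImplicit false

/-!
# APX-TriA: affine maps on words
-/

namespace Pool.Agent.APX

open Pool.Agent.Helper22 N487b59b3 N68a2faeb

private theorem tra_xr_cons (a b : Bool) (u v : List Bool) :
    xr (a :: u) (b :: v) = (a != b) :: xr u v := rfl

private theorem tra_aff_nil (b z : List Bool) : aff b [] z = b := by
  cases z <;> rfl

private theorem tra_aff_nil' (b : List Bool) (cs : List (List Bool)) : aff b cs [] = b := by
  cases cs <;> rfl

private theorem tra_aff_cons (b a : List Bool) (cs : List (List Bool)) (t : Bool) (z : List Bool) :
    aff b (a :: cs) (t :: z) = aff (if t then xr b a else b) cs z := rfl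

private theorem tra_rmv_nil (z z' : List Bool) : rmv [] z z' = [] := by
  cases z <;> cases z' <;> rfl

private theorem tra_rmv_cons (a : List Bool) (cs : List (List Bool)) (t t' : Bool)
    (z z' : List Bool) :
    rmv (a :: cs) (t :: z) (t' :: z') = if t == t' then a :: rmv cs z z' else cs := rfl

theorem length_xr {u v : List Bool} (h : u.length = v.length) : (xr u v).length = u.length := by
  unfold xr
  rw [List.length_zipWith, h, min_self]

theorem xr_right_cancel {u u' v : List Bool} (h : u.length = v.length)
    (h' : u'.length = v.length) (e : xr u v = xr u' v) : u = u' := by
  induction v generalizing u u' with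
  | nil =>
    rw [List.eq_nil_of_length_eq_zero h, List.eq_nil_of_length_eq_zero h']
  | cons b v ih =>
    cases u with
    | nil => simp at h
    | cons a u =>
      cases u' with
      | nil => simp at h'
      | cons a' u' =>
        rw [tra_xr_cons, tra_xr_cons] at e
        injection e with e1 e2
        have h1 : u = u' := ih (by simpa using h) (by simpa using h') e2
        have h2 : a = a' := by
          cases a <;> cases a' <;> cases b <;> simp at e1 <;> rfl
        rw [h1, h2]

theorem xr_left_cancel {u v v' : List Bool} (h : v.length = u.length)
    (h' : v'.length = u.length) (e : xr u v = xr u v') : v = v' := by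
  induction u generalizing v v' with
  | nil =>
    rw [List.eq_nil_of_length_eq_zero h, List.eq_nil_of_length_eq_zero h']
  | cons b u ih =>
    cases v with
    | nil => simp at h
    | cons a v =>
      cases v' with
      | nil => simp at h'
      | cons a' v' =>
        rw [tra_xr_cons, tra_xr_cons] at e
        injection e with e1 e2
        have h1 : v = v' := ih (by simpa using h) (by simpa using h') e2
        have h2 : a = a' := by
          cases a <;> cases a' <;> cases b <;> simp at e1 <;> rfl
        rw [h1, h2]

theorem length_aff {k : ℕ} {b : List Bool} {cs : List (List Bool)} (z : List Bool)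
    (hb : b.length = k) (hc : ∀ a ∈ cs, a.length = k) : (aff b cs z).length = k := by
  induction cs generalizing b z with
  | nil => rw [tra_aff_nil, hb]
  | cons a cs ih =>
    cases z with
    | nil => rw [tra_aff_nil', hb]
    | cons t z =>
      rw [tra_aff_cons]
      refine ih z ?_ fun a' ha' => hc a' (List.mem_cons_of_mem _ ha')
      have ha : a.length = k := hc a List.mem_cons_self
      split_ifs
      · rw [length_xr (by rw [hb, ha]), hb]
      · exact hb

/-- an affine map is injective in the constant -/
theorem aff_inj {k : ℕ} {b b' : List Bool} {cs : List (List Bool)} {z : List Bool}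
    (hb : b.length = k) (hb' : b'.length = k) (hc : ∀ a ∈ cs, a.length = k)
    (e : aff b cs z = aff b' cs z) : b = b' := by
  induction cs generalizing b b' z with
  | nil => rwa [tra_aff_nil, tra_aff_nil] at e
  | cons a cs ih =>
    cases z with
    | nil => rwa [tra_aff_nil', tra_aff_nil'] at e
    | cons t z =>
      rw [tra_aff_cons, tra_aff_cons] at e
      have ha : a.length = k := hc a List.mem_cons_self
      cases t with
      | false => exact ih hb hb' (fun a' ha' => hc a' (List.mem_cons_of_mem _ ha')) e
      | true =>
        have h1 : xr b a = xr b' a := by
          refine ih ?_ ?_ (fun a' ha' => hc a' (List.mem_cons_of_mem _ ha')) e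
          · rw [length_xr (by rw [hb, ha]), hb]
          · rw [length_xr (by rw [hb', ha]), hb']
        exact xr_right_cancel (by rw [hb, ha]) (by rw [hb', ha]) h1

theorem rmv_comm (cs : List (List Bool)) (z z' : List Bool) : rmv cs z z' = rmv cs z' z := by
  induction cs generalizing z z' with
  | nil => rw [tra_rmv_nil, tra_rmv_nil]
  | cons a cs ih =>
    cases z with
    | nil => cases z' <;> rfl
    | cons t z =>
      cases z' with
      | nil => rfl
      | cons t' z' =>
        rw [tra_rmv_cons, tra_rmv_cons, ih]
        cases t <;> cases t' <;> rfl

theorem length_rmv {cs : List (List Bool)} {z z' : List Bool} {m : ℕ} (h : cs.length = m + 1)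
    (hz : z.length = m + 1) (hz' : z'.length = m + 1) (hne : z ≠ z') :
    (rmv cs z z').length = m := by
  induction cs generalizing z z' m with
  | nil => simp at h
  | cons a cs ih =>
    cases z with
    | nil => simp at hz
    | cons t z =>
      cases z' with
      | nil => simp at hz'
      | cons t' z' =>
        have h1 : cs.length = m := by simpa using h
        have h2 : z.length = m := by simpa using hz
        have h3 : z'.length = m := by simpa using hz'
        rw [tra_rmv_cons]
        by_cases ht : t = t'
        · have h4 : z ≠ z' := fun h => hne (by rw [h, ht])
          rw [if_pos (by rw [ht]; exact beq_self_eq_true t'), List.length_cons]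
          cases m with
          | zero =>
            exact absurd ((List.eq_nil_of_length_eq_zero h2).trans
              (List.eq_nil_of_length_eq_zero h3).symm) h4
          | succ m => rw [ih h1 h2 h3 h4]
        · rw [if_neg (by rw [beq_iff_eq]; exact ht)]
          exact h1

theorem mem_rmv {cs : List (List Bool)} {z z' a : List Bool} (h : a ∈ rmv cs z z') : a ∈ cs := by
  induction cs generalizing z z' with
  | nil => rwa [tra_rmv_nil] at h
  | cons c cs ih =>
    cases z with
    | nil => cases z' <;> exact absurd h List.not_mem_nil
    | cons t z =>
      cases z' with
      | nil => exact absurd h List.not_mem_nil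
      | cons t' z' =>
        rw [tra_rmv_cons] at h
        split_ifs at h
        · rcases List.mem_cons.1 h with h1 | h1
          · rw [h1]
            exact List.mem_cons_self
          · exact List.mem_cons_of_mem _ (ih h1)
        · exact List.mem_cons_of_mem _ h

/-- PLAN. Induction on `cs`. If the first digits of `z`, `z'` agree, then the first columns agree
(equality of `rmv`) and the constants are `b` or `xr b a`, `b'` or `xr b' a`: induction hypothesis
and `xr_right_cancel`. If they differ, the other columns agree, and `aff_inj` gives `b = b'` and
`xr b a = xr b' a'`, so `a = a'` (`xr_left_cancel`). -/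
theorem aff_ext {k : ℕ} {b b' : List Bool} {cs cs' : List (List Bool)} {z z' : List Bool}
    (hb : b.length = k) (hb' : b'.length = k) (hc : ∀ a ∈ cs, a.length = k)
    (hc' : ∀ a ∈ cs', a.length = k) (hl : cs.length = cs'.length) (hz : z.length = cs.length)
    (hz' : z'.length = cs.length) (hne : z ≠ z') (er : rmv cs z z' = rmv cs' z z')
    (e : aff b cs z = aff b' cs' z) (e' : aff b cs z' = aff b' cs' z') : b = b' ∧ cs = cs' := by
  induction cs generalizing b b' cs' z z' with
  | nil =>
    exact absurd ((List.eq_nil_of_length_eq_zero hz).trans
      (List.eq_nil_of_length_eq_zero hz').symm) hne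
  | cons a cs ih =>
    cases cs' with
    | nil => simp at hl
    | cons a' cs' =>
      cases z with
      | nil => simp at hz
      | cons t z =>
        cases z' with
        | nil => simp at hz'
        | cons t' z' =>
          have h1 : cs.length = cs'.length := by simpa using hl
          have h2 : z.length = cs.length := by simpa using hz
          have h3 : z'.length = cs.length := by simpa using hz'
          have ha : a.length = k := hc a List.mem_cons_self
          have ha' : a'.length = k := hc' a' List.mem_cons_self
          have hcs : ∀ a ∈ cs, a.length = k := fun a ha => hc a (List.mem_cons_of_mem _ ha)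
          have hcs' : ∀ a ∈ cs', a.length = k := fun a ha => hc' a (List.mem_cons_of_mem _ ha)
          have hx : (xr b a).length = k := by rw [length_xr (by rw [hb, ha]), hb]
          have hx' : (xr b' a').length = k := by rw [length_xr (by rw [hb', ha']), hb']
          rw [tra_rmv_cons, tra_rmv_cons] at er
          rw [tra_aff_cons, tra_aff_cons] at e e'
          by_cases ht : t = t'
          · subst ht
            have h4 : z ≠ z' := fun h => hne (by rw [h])
            have hb0 : (t == t) = true := beq_self_eq_true t
            rw [if_pos hb0, if_pos hb0] at er
            injection er with er1 er2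
            subst er1
            cases t with
            | false =>
              obtain ⟨h5, h6⟩ := ih hb hb' hcs hcs' h1 h2 h3 h4 er2 e e'
              rw [h5, h6]
              exact ⟨rfl, rfl⟩
            | true =>
              obtain ⟨h5, h6⟩ := ih hx hx' hcs hcs' h1 h2 h3 h4 er2 e e'
              rw [xr_right_cancel (by rw [hb, ha]) (by rw [hb', ha]) h5, h6]
              exact ⟨rfl, rfl⟩
          · have hb0 : ¬ ((t == t') = true) := by
              rw [beq_iff_eq]
              exact ht
            rw [if_neg hb0, if_neg hb0] at er
            subst er
            have h7 : b = b' ∧ xr b a = xr b' a' := by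
              cases t with
              | false =>
                cases t' with
                | false => exact absurd rfl ht
                | true => exact ⟨aff_inj hb hb' hcs e, aff_inj hx hx' hcs e'⟩
              | true =>
                cases t' with
                | false => exact ⟨aff_inj hb hb' hcs e', aff_inj hx hx' hcs e⟩
                | true => exact absurd rfl ht
            obtain ⟨h8, h9⟩ := h7
            subst h8
            rw [xr_left_cancel (by rw [hb, ha]) (by rw [hb, ha']) h9]
            exact ⟨rfl, rfl⟩

theorem length_chk (k m : ℕ) (w : List Bool) : (chk k m w).length = m := by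
  induction m generalizing w with
  | zero => rfl
  | succ m ih =>
    show (w.take k :: chk k m (w.drop k)).length = m + 1
    rw [List.length_cons, ih]

theorem mem_chk {k m : ℕ} {w a : List Bool} (h : w.length = k * m) (ha : a ∈ chk k m w) :
    a.length = k := by
  induction m generalizing w with
  | zero => exact absurd ha List.not_mem_nil
  | succ m ih =>
    have h0 : k * (m + 1) = k * m + k := by ring
    have h1 : a ∈ w.take k :: chk k m (w.drop k) := ha
    rcases List.mem_cons.1 h1 with h2 | h2
    · rw [h2, List.length_take, h]
      omega
    · exact ih (by rw [List.length_drop, h]; omega) h2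

theorem chk_inj {k m : ℕ} {w w' : List Bool} (h : w.length = k * m) (h' : w'.length = k * m)
    (e : chk k m w = chk k m w') : w = w' := by
  induction m generalizing w w' with
  | zero =>
    have h1 : w = [] := List.eq_nil_of_length_eq_zero (by rw [h, mul_zero])
    have h2 : w' = [] := List.eq_nil_of_length_eq_zero (by rw [h', mul_zero])
    rw [h1, h2]
  | succ m ih =>
    have h0 : k * (m + 1) = k * m + k := by ring
    have e1 : w.take k :: chk k m (w.drop k) = w'.take k :: chk k m (w'.drop k) := e
    injection e1 with e2 e3
    have h1 : w.drop k = w'.drop k :=
      ih (by rw [List.length_drop, h]; omega) (by rw [List.length_drop, h']; omega) e3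
    rw [← List.take_append_drop k w, e2, h1, List.take_append_drop]

/-- lists of words of length `k` are determined by their concatenation -/
theorem flatten_inj {k : ℕ} {l l' : List (List Bool)} (hl : l.length = l'.length)
    (h : ∀ a ∈ l, a.length = k) (h' : ∀ a ∈ l', a.length = k)
    (e : l.flatten = l'.flatten) : l = l' := by
  induction l generalizing l' with
  | nil =>
    rw [List.eq_nil_of_length_eq_zero hl.symm]
  | cons a l ih =>
    cases l' with
    | nil => simp at hl
    | cons a' l' =>
      rw [List.flatten_cons, List.flatten_cons] at e
      obtain ⟨h1, h2⟩ := List.append_inj e (by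
        rw [h a List.mem_cons_self, h' a' List.mem_cons_self])
      rw [h1, ih (by simpa using hl) (fun a ha => h a (List.mem_cons_of_mem _ ha))
        (fun a ha => h' a (List.mem_cons_of_mem _ ha)) h2]

theorem length_flatten_k {k : ℕ} {l : List (List Bool)} (h : ∀ a ∈ l, a.length = k) :
    l.flatten.length = k * l.length := by
  induction l with
  | nil => rfl
  | cons a l ih =>
    rw [List.flatten_cons, List.length_append, h a List.mem_cons_self,
      ih fun a ha => h a (List.mem_cons_of_mem _ ha), List.length_cons]
    ring

end Pool.Agent.APX
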