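import Pool.Agent.APX.TriA

set_option autoImplicit false

/-!
# APX-TriB: objects for threefold collisions
-/

namespace Pool.Agent.APX

open Pool.Agent.Helper22 N487b59b3 N68a2faeb

private theorem TriB_weqf (a b : List Bool) : Helper22.weq a b = false ↔ a ≠ b := by
  rw [← Bool.not_eq_true, weq_iff]

theorem length_nU (x : List Bool) : (nU x).length = x.length + 1 := by
  simp [nU, zr]

theorem length_kU (x : List Bool) : (kU x).length = ((nU x).length + 2) / 2 := by
  simp [kU, un]

/-- `n < 2 k` -/
theorem nU_lt (x : List Bool) : (nU x).length < 2 * (kU x).length := by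
  rw [length_kU]
  omega

theorem nU_lt_rT (x : List Bool) : (nU x).length + 2 ≤ rT x := by
  unfold rT
  refine Nat.le_mul_of_pos_left _ ?_
  rw [length_kU]
  omega

theorem length_nT (x : List Bool) : (nT x).length + 1 = rT x := by
  have h := nU_lt_rT x
  have h1 : (nT x).length = rT x - 1 := by simp [nT, un]
  omega

theorem length_vlT (X : Oracle) (x v : List Bool) : (vlT X x v).length = (nU x).length := by
  simp [vlT, orf]

theorem length_pnt {x I z : List Bool} (h : I.length = rT x)
    (hz : z.length = (nU x).length + 1) :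
    (pnt x I z).length = (nU x).length + 1 + (kU x).length := by
  unfold pnt
  have h1 : (kU x).length ≤ I.length := by
    rw [h]
    unfold rT
    exact Nat.le_mul_of_pos_right _ (by omega)
  have h2 : (I.drop (kU x).length).length = (kU x).length * ((nU x).length + 1) := by
    rw [List.length_drop, h]
    unfold rT
    rw [show (nU x).length + 2 = (nU x).length + 1 + 1 by omega, Nat.mul_succ]
    omega
  rw [List.length_append, hz, length_aff (k := (kU x).length) z ?_ ?_]
  · rw [List.length_take]
    omega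
  · intro a ha
    exact mem_chk h2 ha

/-- PLAN. `weq_iff`, `cf (cd a b) = a`, `cs (cd a b) = b`. -/
theorem ok0_iff (x P O : List Bool) :
    ok0 (x, (P, O)) = true ↔ O = cd [] P ∧ P.length = 2 * rT x := by
  unfold ok0
  rw [Bool.and_eq_true, weq_iff, decide_eq_true_iff]

theorem ok1_iff (X : Oracle) (x P O : List Bool) :
    ok1 X (x, (P, O)) = true ↔ ∃ z z' : List Bool, O = cd [true] (cd P (cd z z')) ∧
      P.length = rT x ∧ z.length = (nU x).length + 1 ∧ z'.length = (nU x).length + 1 ∧ z ≠ z' ∧
      vlT X x (pnt x P z) = vlT X x (pnt x P z') := by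
  unfold ok1
  simp only [Bool.and_eq_true, weq_iff, decide_eq_true_iff, Bool.not_eq_true', TriB_weqf]
  constructor
  · rintro ⟨h1, h2, h3, h4, h5, h6⟩
    exact ⟨_, _, h1, h2, h3, h4, h5, h6⟩
  · rintro ⟨z, z', rfl, h2, h3, h4, h5, h6⟩
    simp only [cs_cd, cf_cd]
    exact ⟨trivial, h2, h3, h4, h5, h6⟩

theorem ok2_iff (X : Oracle) (x P O : List Bool) :
    ok2 X (x, (P, O)) = true ↔ ∃ a b c : List Bool, O = cd [true, true] (cd a (cd b c)) ∧
      P = [] ∧ a.length = (nU x).length + 1 + (kU x).length ∧
      b.length = (nU x).length + 1 + (kU x).length ∧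
      c.length = (nU x).length + 1 + (kU x).length ∧ a ≠ b ∧ a ≠ c ∧ b ≠ c ∧
      vlT X x a = vlT X x b ∧ vlT X x a = vlT X x c := by
  unfold ok2
  simp only [Bool.and_eq_true, weq_iff, decide_eq_true_iff, Bool.not_eq_true', TriB_weqf,
    List.isEmpty_iff]
  constructor
  · rintro ⟨h1, h2, h3, h4, h5, h6, h7, h8, h9, h10⟩
    exact ⟨_, _, _, h1, h2, h3, h4, h5, h6, h7, h8, h9, h10⟩
  · rintro ⟨a, b, c, rfl, h2, h3, h4, h5, h6, h7, h8, h9, h10⟩
    simp only [cs_cd, cf_cd]
    exact ⟨trivial, h2, h3, h4, h5, h6, h7, h8, h9, h10⟩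

theorem codT_length (X : Oracle) (x O : List Bool) : (codT X (x, O)).length = (nT x).length := by
  unfold codT
  rw [length_fit]

theorem okT_start (X : Oracle) (x v : List Bool) (h : v.length = 2 * rT x) :
    okT X (x, (un 0, (v, staT (x, v)))) = true := by
  have h1 : okT X (x, (un 0, (v, staT (x, v)))) = ok0 (x, (v, staT (x, v))) := rfl
  rw [h1, ok0_iff]
  exact ⟨rfl, h⟩

/-- PLAN. `rT x ≤ (n + 2) ^ 2`, `n = x.length + 1`; the three levels. -/
theorem okT_length {X : Oracle} {x i P O : List Bool} (h : okT X (x, (i, (P, O))) = true) :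
    O.length ≤ 20 * (x.length + 3) ^ 2 := by
  have hm : rT x ≤ (x.length + 3) ^ 2 := by
    unfold rT
    rw [length_kU, length_nU, pow_two]
    refine Nat.mul_le_mul ?_ (by omega)
    omega
  have hn : (nU x).length + 1 ≤ x.length + 3 := by
    rw [length_nU]
    omega
  have hk : (kU x).length ≤ x.length + 3 := by
    rw [length_kU, length_nU]
    omega
  have hq : 3 * (x.length + 3) ≤ (x.length + 3) ^ 2 := by
    rw [pow_two]
    exact Nat.mul_le_mul_right _ (by omega)
  unfold okT at h
  by_cases h1 : i.isEmpty = true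
  · have h2 : ok0 (x, (P, O)) = true := by simpa [h1] using h
    obtain ⟨rfl, h3⟩ := (ok0_iff x P O).1 h2
    rw [cd_length, List.length_nil]
    omega
  · by_cases h2 : i.tail.isEmpty = true
    · have h3 : ok1 X (x, (P, O)) = true := by simpa [h1, h2] using h
      obtain ⟨z, z', rfl, h4, h5, h6, -, -⟩ := (ok1_iff X x P O).1 h3
      rw [cd_length, cd_length, cd_length, List.length_singleton]
      omega
    · have h3 : ok2 X (x, (P, O)) = true := by
        have h4 : (i.tail.tail.isEmpty && ok2 X (x, (P, O))) = true := by simpa [h1, h2] using h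
        exact (Bool.and_eq_true_iff.1 h4).2
      obtain ⟨a, b, c, rfl, -, h4, h5, h6, -⟩ := (ok2_iff X x P O).1 h3
      rw [cd_length, cd_length, cd_length]
      have h7 : ([true, true] : List Bool).length = 2 := rfl
      rw [h7]
      omega

theorem okT_sol {X : Oracle} {x O : List Bool} (h : okT X (x, (un 2, ([], O))) = true) :
    TriP X x (solT (x, O)) := by
  have h1 : okT X (x, (un 2, ([], O))) = ok2 X (x, ([], O)) := rfl
  rw [h1] at h
  obtain ⟨a, b, c, rfl, -, h2, h3, h4, h5, h6, h7, h8, h9⟩ := (ok2_iff X x [] O).1 h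
  have h10 : solT (x, cd [true, true] (cd a (cd b c))) = tw [a, b, c] := by
    simp only [solT, cs_cd, cf_cd]
  have h11 : (nU x).length = x.length + 1 := length_nU x
  have h12 : (kU x).length = (x.length + 1 + 2) / 2 := by rw [length_kU, h11]
  rw [h11, h12] at h2 h3 h4
  unfold vlT at h8 h9
  rw [h11] at h8 h9
  show IsTri X (x.length + 1) (wt (solT (x, cd [true, true] (cd a (cd b c)))))
  rw [h10, wt_tw]
  refine ⟨rfl, ?_, ?_, ?_⟩
  · simp [h5, h6, h7]
  · intro v hv
    simp only [List.mem_cons, List.not_mem_nil, or_false] at hv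
    rcases hv with rfl | rfl | rfl
    · exact h2
    · exact h3
    · exact h4
  · have h13 : ∀ v ∈ [a, b, c], orf X (x.length + 1) v = orf X (x.length + 1) a := by
      intro v hv
      simp only [List.mem_cons, List.not_mem_nil, or_false] at hv
      rcases hv with rfl | rfl | rfl
      · rfl
      · exact h8.symm
      · exact h9.symm
    intro v hv w hw
    rw [h13 v hv, h13 w hw]

end Pool.Agent.APX
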