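import Pool.Agent.APX.TriB

set_option autoImplicit false

/-!
# APX-TriC: two points with the same value
-/

namespace Pool.Agent.APX

open Pool.Agent.Helper22 N487b59b3 N68a2faeb

private theorem TriC_cod {X : Oracle} {x P c : List Bool} (hP : P.length = rT x)
    (hc : c.length = rT x) :
    codT X (x, cd [] (P ++ c)) =
      vlT X x (pnt x P (c.take ((nU x).length + 1))) ++ c.drop ((nU x).length + 1) := by
  have h1 := nU_lt_rT x
  have h2 := length_nT x
  have h3 : (P ++ c).take (rT x) = P := by rw [← hP, List.take_left]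
  have h4 : (P ++ c).drop (rT x) = c := by rw [← hP, List.drop_left]
  have h5 : cod0 X (x, cd [] (P ++ c)) =
      vlT X x (pnt x P (c.take ((nU x).length + 1))) ++ c.drop ((nU x).length + 1) := by
    simp only [cod0, cs_cd, h3, h4]
  have h6 : codT X (x, cd [] (P ++ c)) = fit (nT x) (cod0 X (x, cd [] (P ++ c))) := by
    simp only [codT, cf_cd, List.isEmpty_nil, if_true]
  have h7 : (cod0 X (x, cd [] (P ++ c))).length = (nT x).length := by
    rw [h5, List.length_append, length_vlT, List.length_drop, hc]
    omega
  rw [h6, fit_eq (by omega), h7, h5]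
  simp

/-- PLAN. `P.length = rT x` by `ok0_iff`; both codes have length `rT x - 1`, so `fit` does not
change them (`fit_eq`); the values agree and the digits `c.drop (n + 1)`, `c'.drop (n + 1)` agree,
hence `c.take (n + 1) ≠ c'.take (n + 1)`. -/
theorem cmb0_ok {X : Oracle} {x P c c' O O' : List Bool} (hc : c.length = rT x)
    (hc' : c'.length = rT x) (hne : c ≠ c') (h : ok0 (x, (P ++ c, O)) = true)
    (h' : ok0 (x, (P ++ c', O')) = true) (he : codT X (x, O) = codT X (x, O')) :
    ok1 X (x, (P, cmb0 (x, (P, (O, O'))))) = true := by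
  obtain ⟨rfl, h1⟩ := (ok0_iff x (P ++ c) O).1 h
  obtain ⟨rfl, -⟩ := (ok0_iff x (P ++ c') O').1 h'
  have hP : P.length = rT x := by
    rw [List.length_append, hc] at h1
    omega
  have h2 := nU_lt_rT x
  rw [TriC_cod hP hc, TriC_cod hP hc'] at he
  obtain ⟨h3, h4⟩ := List.append_inj he (by rw [length_vlT, length_vlT])
  have h5 : (P ++ c).drop (rT x) = c := by rw [← hP, List.drop_left]
  have h6 : (P ++ c').drop (rT x) = c' := by rw [← hP, List.drop_left]
  rw [ok1_iff]
  refine ⟨c.take ((nU x).length + 1), c'.take ((nU x).length + 1), ?_, hP, ?_, ?_, ?_, h3⟩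
  · simp only [cmb0, cs_cd, h5, h6]
  · rw [List.length_take]
    omega
  · rw [List.length_take]
    omega
  · intro h7
    apply hne
    rw [← List.take_append_drop ((nU x).length + 1) c,
      ← List.take_append_drop ((nU x).length + 1) c', h7, h4]

end Pool.Agent.APX
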