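import Pool.Agent.APX.TriC

set_option autoImplicit false

/-!
# APX-TriD: two pairs with the same value
-/

namespace Pool.Agent.APX

open Pool.Agent.Helper22 N487b59b3 N68a2faeb

private theorem TriD_take {x I z : List Bool} (hz : z.length = (nU x).length + 1) :
    (pnt x I z).take ((nU x).length + 1) = z := List.take_left' hz

private theorem TriD_drop {x I z : List Bool} (hz : z.length = (nU x).length + 1) :
    (pnt x I z).drop ((nU x).length + 1) = aff (I.take (kU x).length)
      (chk (kU x).length ((nU x).length + 1) (I.drop (kU x).length)) z := List.drop_left' hz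

private theorem TriD_inj {x I I' z z' : List Bool} (hz : z.length = (nU x).length + 1)
    (hz' : z'.length = (nU x).length + 1) (e : pnt x I z = pnt x I' z') : z = z' := by
  have h := congrArg (List.take ((nU x).length + 1)) e
  rwa [TriD_take hz, TriD_take hz'] at h

private theorem TriD_k_le (x : List Bool) : (kU x).length ≤ rT x :=
  Nat.le_mul_of_pos_right _ (Nat.succ_pos _)

private theorem TriD_lt {x I : List Bool} (h : I.length = rT x) :
    (I.take (kU x).length).length = (kU x).length := by
  rw [List.length_take, h]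
  exact min_eq_left (TriD_k_le x)

private theorem TriD_ld {x I : List Bool} (h : I.length = rT x) :
    (I.drop (kU x).length).length = (kU x).length * ((nU x).length + 1) := by
  rw [List.length_drop, h]
  unfold rT
  rw [Nat.mul_succ]
  omega

private theorem TriD_key {x I I' z₁ z₂ : List Bool} (h : I.length = rT x)
    (h' : I'.length = rT x) (h₁ : z₁.length = (nU x).length + 1)
    (h₂ : z₂.length = (nU x).length + 1) (hne : z₁ ≠ z₂)
    (er : rmv (chk (kU x).length ((nU x).length + 1) (I.drop (kU x).length)) z₁ z₂ =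
      rmv (chk (kU x).length ((nU x).length + 1) (I'.drop (kU x).length)) z₁ z₂)
    (e₁ : pnt x I' z₁ = pnt x I z₁) (e₂ : pnt x I' z₂ = pnt x I z₂) : I = I' := by
  have f₁ := congrArg (List.drop ((nU x).length + 1)) e₁
  have f₂ := congrArg (List.drop ((nU x).length + 1)) e₂
  rw [TriD_drop h₁, TriD_drop h₁] at f₁
  rw [TriD_drop h₂, TriD_drop h₂] at f₂
  obtain ⟨g₁, g₂⟩ := aff_ext (k := (kU x).length) (TriD_lt h) (TriD_lt h')
    (fun a ha => mem_chk (TriD_ld h) ha) (fun a ha => mem_chk (TriD_ld h') ha)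
    (by rw [length_chk, length_chk]) (by rw [length_chk, h₁]) (by rw [length_chk, h₂]) hne er
    f₁.symm f₂.symm
  have g₃ := chk_inj (TriD_ld h) (TriD_ld h') g₂
  rw [← List.take_append_drop (kU x).length I, g₁, g₃, List.take_append_drop]

/-- PLAN. The first `n + 1` digits of `pnt x I z` are `z`. So `{z₁', z₂'} = {z₁, z₂}`, and the two
affine maps agree at `z₁` and at `z₂`; `rmv_comm`, `aff_ext`, `chk_inj`. -/
theorem pair_ext {x I I' z₁ z₂ z₁' z₂' : List Bool} (h : I.length = rT x)
    (h' : I'.length = rT x) (h₁ : z₁.length = (nU x).length + 1)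
    (h₂ : z₂.length = (nU x).length + 1) (hne : z₁ ≠ z₂) (hne' : z₁' ≠ z₂')
    (h₁' : z₁'.length = (nU x).length + 1) (h₂' : z₂'.length = (nU x).length + 1)
    (er : rmv (chk (kU x).length ((nU x).length + 1) (I.drop (kU x).length)) z₁ z₂ =
      rmv (chk (kU x).length ((nU x).length + 1) (I'.drop (kU x).length)) z₁' z₂')
    (e₁ : pnt x I' z₁' = pnt x I z₁ ∨ pnt x I' z₁' = pnt x I z₂)
    (e₂ : pnt x I' z₂' = pnt x I z₁ ∨ pnt x I' z₂' = pnt x I z₂) : I = I' := by
  rcases e₁ with e₁ | e₁ <;> rcases e₂ with e₂ | e₂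
  · exact absurd ((TriD_inj h₁' h₁ e₁).trans (TriD_inj h₂' h₁ e₂).symm) hne'
  · have a₁ := TriD_inj h₁' h₁ e₁
    have a₂ := TriD_inj h₂' h₂ e₂
    rw [a₁] at e₁ er
    rw [a₂] at e₂ er
    exact TriD_key h h' h₁ h₂ hne er e₁ e₂
  · have a₁ := TriD_inj h₁' h₂ e₁
    have a₂ := TriD_inj h₂' h₁ e₂
    rw [a₁] at e₁ er
    rw [a₂] at e₂ er
    rw [rmv_comm _ z₂ z₁] at er
    exact TriD_key h h' h₁ h₂ hne er e₂ e₁
  · exact absurd ((TriD_inj h₁' h₂ e₁).trans (TriD_inj h₂' h₂ e₂).symm) hne'

private theorem TriD_fit {l w w' : List Bool} (h : w.length ≤ l.length)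
    (h' : w'.length = w.length) (e : fit l w = fit l w') : w = w' := by
  rw [fit_eq h, fit_eq (h'.le.trans h)] at e
  exact (List.append_inj e h'.symm).1

private theorem TriD_cod (X : Oracle) (x c z z' : List Bool) :
    codT X (x, cd [true] (cd c (cd z z'))) = fit (nT x) (vlT X x (pnt x c z) ++
      (rmv (chk (kU x).length ((nU x).length + 1) (c.drop (kU x).length)) z z').flatten) := by
  unfold codT cod1
  simp only [cf_cd, cs_cd, List.isEmpty_cons, Bool.false_eq_true, if_false]

private theorem TriD_rl {x c z z' : List Bool} (hz : z.length = (nU x).length + 1)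
    (hz' : z'.length = (nU x).length + 1) (hne : z ≠ z') :
    (rmv (chk (kU x).length ((nU x).length + 1) (c.drop (kU x).length)) z z').length =
      (nU x).length := length_rmv (length_chk _ _ _) hz hz' hne

private theorem TriD_rk {x c z z' : List Bool} (hc : c.length = rT x) :
    ∀ a ∈ rmv (chk (kU x).length ((nU x).length + 1) (c.drop (kU x).length)) z z',
      a.length = (kU x).length := fun _ ha => mem_chk (TriD_ld hc) (mem_rmv ha)

private theorem TriD_cl {X : Oracle} {x c z z' : List Bool} (hc : c.length = rT x)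
    (hz : z.length = (nU x).length + 1) (hz' : z'.length = (nU x).length + 1) (hne : z ≠ z') :
    (vlT X x (pnt x c z) ++
      (rmv (chk (kU x).length ((nU x).length + 1) (c.drop (kU x).length)) z z').flatten).length =
      (nU x).length + (kU x).length * (nU x).length := by
  rw [List.length_append, length_vlT, length_flatten_k (TriD_rk hc), TriD_rl hz hz' hne]

/-- PLAN. `ok1_iff` gives `P = []` (lengths), `c = I`, `c' = I'`. The codes have length
`n + n k ≤ rT x - 1` (`nU_lt`) before `fit`, so they agree before `fit` (`fit_eq`, same lengths); the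
values agree, and the columns agree (`flatten_inj`, `length_rmv`, `mem_rmv`, `mem_chk`). If both
points of the second pair occur in the first one, `pair_ext` gives `I = I'`. -/
theorem cmb1_ok {X : Oracle} {x P c c' O O' : List Bool} (hc : c.length = rT x)
    (hc' : c'.length = rT x) (hne : c ≠ c') (h : ok1 X (x, (P ++ c, O)) = true)
    (h' : ok1 X (x, (P ++ c', O')) = true) (he : codT X (x, O) = codT X (x, O')) :
    ok2 X (x, (P, cmb1 (x, (P, (O, O'))))) = true := by
  obtain ⟨z, z', hO, hl, hz, hz', hzz, hv⟩ := (ok1_iff X x (P ++ c) O).1 h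
  obtain ⟨w, w', hO', -, hw, hw', hww, hv'⟩ := (ok1_iff X x (P ++ c') O').1 h'
  have hP : P = [] := by
    rw [List.length_append, hc] at hl
    exact List.length_eq_zero_iff.1 (by omega)
  subst hP
  rw [List.nil_append] at hO hO' hv hv'
  subst hO hO'
  clear h h' hl
  rw [TriD_cod, TriD_cod] at he
  have l1 := TriD_cl (X := X) hc hz hz' hzz
  have l2 := TriD_cl (X := X) hc' hw hw' hww
  have he2 := TriD_fit (by
    rw [l1]
    have h1 := length_nT x
    have h2 := nU_lt x
    have h3 : rT x = (kU x).length * (nU x).length + 2 * (kU x).length := by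
      unfold rT
      ring
    omega) (l2.trans l1.symm) he
  obtain ⟨hval, hfl⟩ := List.append_inj he2 (by rw [length_vlT, length_vlT])
  have hr := flatten_inj (k := (kU x).length) (by rw [TriD_rl hz hz' hzz, TriD_rl hw hw' hww])
    (TriD_rk hc) (TriD_rk hc') hfl
  have hab : pnt x c z ≠ pnt x c z' := fun e => hzz (TriD_inj hz hz' e)
  rw [ok2_iff]
  by_cases hd : pnt x c' w = pnt x c z ∨ pnt x c' w = pnt x c z'
  · have hd' : ¬ (pnt x c' w' = pnt x c z ∨ pnt x c' w' = pnt x c z') := fun hd2 =>
      hne (pair_ext hc hc' hz hz' hzz hww hw hw' hr hd hd2)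
    refine ⟨pnt x c z, pnt x c z', pnt x c' w', ?_, rfl, length_pnt hc hz, length_pnt hc hz',
      length_pnt hc' hw', hab, fun e => hd' (Or.inl e.symm), fun e => hd' (Or.inr e.symm), hv,
      hval.trans hv'⟩
    unfold cmb1
    simp only [cf_cd, cs_cd, Bool.or_eq_true, weq_iff]
    rw [if_pos hd]
  · refine ⟨pnt x c z, pnt x c z', pnt x c' w, ?_, rfl, length_pnt hc hz, length_pnt hc hz',
      length_pnt hc' hw, hab, fun e => hd (Or.inl e.symm), fun e => hd (Or.inr e.symm), hv,
      hval⟩
    unfold cmb1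
    simp only [cf_cd, cs_cd, Bool.or_eq_true, weq_iff]
    rw [if_neg hd]

/-- PLAN. `i = 0`: `cmb0_ok`; `i = 1`: `cmb1_ok`. -/
theorem okT_comb {X : Oracle} {x P c c' O O' : List Bool} {i : ℕ} (hi : i < 2)
    (hc : c.length = rT x) (hc' : c'.length = rT x) (hne : c ≠ c')
    (h : okT X (x, (un i, (P ++ c, O))) = true) (h' : okT X (x, (un i, (P ++ c', O'))) = true)
    (he : codT X (x, O) = codT X (x, O')) :
    okT X (x, (un (i + 1), (P, cmbT (x, (P, (O, O')))))) = true := by
  have u0 : un 0 = [] := rfl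
  have u1 : un 1 = [true] := rfl
  have u2 : un 2 = [true, true] := rfl
  interval_cases i
  · have h0 : ok0 (x, (P ++ c, O)) = true := h
    have h0' : ok0 (x, (P ++ c', O')) = true := h'
    have h1 := cmb0_ok hc hc' hne h0 h0' he
    have hO := ((ok0_iff x (P ++ c) O).1 h0).1
    have h2 : cmbT (x, (P, (O, O'))) = cmb0 (x, (P, (O, O'))) := by
      unfold cmbT
      simp only [hO, cf_cd, List.isEmpty_nil, if_true]
    rw [h2]
    exact h1
  · have h0 : ok1 X (x, (P ++ c, O)) = true := h
    have h0' : ok1 X (x, (P ++ c', O')) = true := h'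
    have h1 := cmb1_ok hc hc' hne h0 h0' he
    obtain ⟨z, z', hO, -⟩ := (ok1_iff X x (P ++ c) O).1 h0
    have h2 : cmbT (x, (P, (O, O'))) = cmb1 (x, (P, (O, O'))) := by
      unfold cmbT
      simp only [hO, cf_cd, List.isEmpty_cons, Bool.false_eq_true, if_false]
    rw [h2]
    exact h1

end Pool.Agent.APX
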