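import Pool.Agent.APX.AppDefs
import Pool.Agent.APX.Tw
import Pool.Agent.APX.Words

set_option autoImplicit false

/-!
# Threefold collisions of functions from `3 (n + 1) / 2` bits to `n` bits

Let `n` be positive and `k = ⌈(n + 1) / 2⌉`. A word `I` of length `k (n + 2)` gives an affine map
`h_I` from `n + 1` to `k` bits and the set `D_I` of all words `z ++ h_I z`. In every `D_I` there are
two words with the same value (level 1). The code of such a pair is the value together with all
columns of `I` except the constant and one column; so two different `I`, `I'` with the same code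
have two different pairs, and together at least three words, with the same value (level 2).
-/

namespace Pool.Agent.APX

open Pool.Agent.Helper22 N487b59b3 N68a2faeb

/-! ## Affine maps -/

/-- sum of words -/
def xr (u v : List Bool) : List Bool := List.zipWith (fun a b => a != b) u v

/-- the value of the affine map with the constant `b` and the columns `cs` at `z` -/
def aff : List Bool → List (List Bool) → List Bool → List Bool
  | b, a :: cs, t :: z => aff (if t then xr b a else b) cs z
  | b, _, _ => b

/-- the columns without the first one where the two words differ -/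
def rmv : List (List Bool) → List Bool → List Bool → List (List Bool)
  | a :: cs, t :: z, t' :: z' => if t == t' then a :: rmv cs z z' else cs
  | _, _, _ => []

/-- the first `m` chunks of length `k` of a word -/
def chk (k : ℕ) : ℕ → List Bool → List (List Bool)
  | 0, _ => []
  | m + 1, w => w.take k :: chk k m (w.drop k)

/-! ## The instance -/

/-- `n` in unary -/
def nU (x : List Bool) : List Bool := true :: zr x

/-- `k = ⌈(n + 1) / 2⌉` in unary -/
def kU (x : List Bool) : List Bool := un (((nU x).length + 2) / 2)

/-- the length of the instances of an affine map -/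
def rT (x : List Bool) : ℕ := (kU x).length * ((nU x).length + 2)

/-- `l` is a threefold collision of the function given by the oracle, from `n + 1 + ⌈(n + 1) / 2⌉`
bits to `n` bits -/
def IsTri (X : Oracle) (n : ℕ) (l : List (List Bool)) : Prop :=
  l.length = 3 ∧ l.Nodup ∧ (∀ v ∈ l, v.length = n + 1 + (n + 2) / 2) ∧
    ∀ v ∈ l, ∀ w ∈ l, orf X n v = orf X n w

/-- threefold collisions; the input has length `n - 1` -/
def TriP : Problem := fun X x y => IsTri X (x.length + 1) (wt y)

/-- the point of `D_I` with the index `z` -/
def pnt (x I z : List Bool) : List Bool :=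
  z ++ aff (I.take (kU x).length) (chk (kU x).length ((nU x).length + 1) (I.drop (kU x).length)) z

/-- the value of the function -/
def vlT (X : Oracle) (x v : List Bool) : List Bool := orf X (nU x).length v

/-- test for level 0: `w` is a word of length `2 r` -/
def ok0 (p : List Bool × (List Bool × List Bool)) : Bool :=
  Helper22.weq p.2.2 (cd [] p.2.1) && decide (p.2.1.length = 2 * rT p.1)

/-- test for level 1: a pair in `D_P` -/
def ok1 (X : Oracle) (p : List Bool × (List Bool × List Bool)) : Bool :=
  Helper22.weq p.2.2 (cd [true] (cd p.2.1 (cd (cf (cs (cs p.2.2))) (cs (cs (cs p.2.2)))))) &&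
    (decide (p.2.1.length = rT p.1) &&
      (decide ((cf (cs (cs p.2.2))).length = (nU p.1).length + 1) &&
        (decide ((cs (cs (cs p.2.2))).length = (nU p.1).length + 1) &&
          (!Helper22.weq (cf (cs (cs p.2.2))) (cs (cs (cs p.2.2))) &&
            Helper22.weq (vlT X p.1 (pnt p.1 p.2.1 (cf (cs (cs p.2.2)))))
              (vlT X p.1 (pnt p.1 p.2.1 (cs (cs (cs p.2.2)))))))))

/-- test for level 2: three different words with the same value -/
def ok2 (X : Oracle) (p : List Bool × (List Bool × List Bool)) : Bool :=
  Helper22.weq p.2.2 (cd [true, true] (cd (cf (cs p.2.2)) (cd (cf (cs (cs p.2.2)))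
    (cs (cs (cs p.2.2)))))) && (p.2.1.isEmpty &&
      (decide ((cf (cs p.2.2)).length = (nU p.1).length + 1 + (kU p.1).length) &&
        (decide ((cf (cs (cs p.2.2))).length = (nU p.1).length + 1 + (kU p.1).length) &&
          (decide ((cs (cs (cs p.2.2))).length = (nU p.1).length + 1 + (kU p.1).length) &&
            (!Helper22.weq (cf (cs p.2.2)) (cf (cs (cs p.2.2))) &&
              (!Helper22.weq (cf (cs p.2.2)) (cs (cs (cs p.2.2))) &&
                (!Helper22.weq (cf (cs (cs p.2.2))) (cs (cs (cs p.2.2))) &&
                  (Helper22.weq (vlT X p.1 (cf (cs p.2.2))) (vlT X p.1 (cf (cs (cs p.2.2)))) &&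
                    Helper22.weq (vlT X p.1 (cf (cs p.2.2)))
                      (vlT X p.1 (cs (cs (cs p.2.2))))))))))))

/-- the objects; the level is the length of `p.2.1` -/
def okT (X : Oracle) (p : List Bool × (List Bool × (List Bool × List Bool))) : Bool :=
  if p.2.1.isEmpty then ok0 (p.1, p.2.2)
  else if p.2.1.tail.isEmpty then ok1 X (p.1, p.2.2)
  else p.2.1.tail.tail.isEmpty && ok2 X (p.1, p.2.2)

/-- the length of the codes, in unary -/
def nT (x : List Bool) : List Bool := un (rT x - 1)

/-- the code of an object `cd [] v` of level 0: the value of the point, and the digits of the second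
half of `v` which are not used -/
def cod0 (X : Oracle) (p : List Bool × List Bool) : List Bool :=
  vlT X p.1 (pnt p.1 ((cs p.2).take (rT p.1)) (((cs p.2).drop (rT p.1)).take ((nU p.1).length + 1))) ++
    ((cs p.2).drop (rT p.1)).drop ((nU p.1).length + 1)

/-- the code of an object of level 1: the value, and the columns without one of them -/
def cod1 (X : Oracle) (p : List Bool × List Bool) : List Bool :=
  vlT X p.1 (pnt p.1 (cf (cs p.2)) (cf (cs (cs p.2)))) ++
    (rmv (chk (kU p.1).length ((nU p.1).length + 1) ((cf (cs p.2)).drop (kU p.1).length))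
      (cf (cs (cs p.2))) (cs (cs (cs p.2)))).flatten

/-- the code -/
def codT (X : Oracle) (p : List Bool × List Bool) : List Bool :=
  fit (nT p.1) (if (cf p.2).isEmpty then cod0 X p else cod1 X p)

/-- the first object of a point -/
def staT (p : List Bool × List Bool) : List Bool := cd [] p.2

/-- the combination of two objects of level 0 -/
def cmb0 (p : List Bool × (List Bool × (List Bool × List Bool))) : List Bool :=
  cd [true] (cd p.2.1 (cd (((cs p.2.2.1).drop (rT p.1)).take ((nU p.1).length + 1))
    (((cs p.2.2.2).drop (rT p.1)).take ((nU p.1).length + 1))))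

/-- the four points of two objects of level 1; the third one of the collision is a point of the
second pair which does not occur in the first pair -/
def cmb1 (p : List Bool × (List Bool × (List Bool × List Bool))) : List Bool :=
  cd [true, true] (cd (pnt p.1 (cf (cs p.2.2.1)) (cf (cs (cs p.2.2.1))))
    (cd (pnt p.1 (cf (cs p.2.2.1)) (cs (cs (cs p.2.2.1))))
      (if Helper22.weq (pnt p.1 (cf (cs p.2.2.2)) (cf (cs (cs p.2.2.2))))
          (pnt p.1 (cf (cs p.2.2.1)) (cf (cs (cs p.2.2.1)))) ||
        Helper22.weq (pnt p.1 (cf (cs p.2.2.2)) (cf (cs (cs p.2.2.2))))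
          (pnt p.1 (cf (cs p.2.2.1)) (cs (cs (cs p.2.2.1)))) then
        pnt p.1 (cf (cs p.2.2.2)) (cs (cs (cs p.2.2.2)))
      else pnt p.1 (cf (cs p.2.2.2)) (cf (cs (cs p.2.2.2))))))

/-- the combination of two objects -/
def cmbT (p : List Bool × (List Bool × (List Bool × List Bool))) : List Bool :=
  if (cf p.2.2.1).isEmpty then cmb0 p else cmb1 p

/-- the solution -/
def solT (p : List Bool × List Bool) : List Bool :=
  tw [cf (cs p.2), cf (cs (cs p.2)), cs (cs (cs p.2))]

end Pool.Agent.APX
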