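import Pool.Agent.APX.TriDefs
import Pool.Agent.APX.WordsFP

set_option autoImplicit false

/-!
# APX-TriE: affine maps in polynomial time
-/

namespace Pool.Agent.APX

open Pool.Agent.Helper22 N487b59b3 N68a2faeb

variable {α : Type} [N487b59b3 α]

private theorem triE_fold_sz {β γ : Type} [N487b59b3 β] [N487b59b3 γ] (g : β → γ → β)
    (h : ∀ s a, sz (g s a) ≤ sz s + (2 * sz a + 1)) (l : List γ) (s : β) :
    sz (l.foldl g s) ≤ sz l + sz s := by
  induction l generalizing s with
  | nil => simp
  | cons a l ih =>
    rw [List.foldl_cons, sz_cons]
    have h1 := ih (g s a)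
    have h2 := h s a
    omega

private theorem triE_fold {β γ : Type} [N487b59b3 β] [N487b59b3 γ] [Inhabited γ] {g : β → γ → β}
    (hg : FP fun p : β × γ => g p.1 p.2)
    (h : ∀ s a, sz (g s a) ≤ sz s + (2 * sz a + 1)) {l : α → List γ} {s : α → β} (hl : FP l)
    (hs : FP s) : FP fun a => (l a).foldl g (s a) := by
  have h1 : FP fun p : List γ × β => p.1.foldl g p.2 :=
    FP.foldl hg (B := fun n => n) (by fun_prop) (triE_fold_sz g h)
  exact h1.comp (hl.pair hs)

/-- one step of the sum of two words -/
private def triE_xs (s : List Bool × List Bool) (a : Bool) : List Bool × List Bool :=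
  if s.1.isEmpty then s else (s.1.tail, s.2 ++ [!(a == s.1.headD false)])

private theorem triE_xs_eq (u v r : List Bool) :
    u.foldl triE_xs (v, r) = (v.drop u.length, r ++ xr u v) := by
  induction u generalizing v r with
  | nil => simp [xr]
  | cons a u ih =>
    cases v with
    | nil =>
      have h : triE_xs ([], r) a = ([], r) := by simp [triE_xs]
      rw [List.foldl_cons, h, ih]
      simp [xr]
    | cons b v =>
      have h : triE_xs (b :: v, r) a = (v, r ++ [!(a == b)]) := by simp [triE_xs]
      rw [List.foldl_cons, h, ih]
      simp [xr, bne]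

/-- PLAN. A fold over the first word, the state is `(rest of the second word, result)`. -/
theorem xr_fp {f g : α → List Bool} (hf : FP f) (hg : FP g) : FP fun a => xr (f a) (g a) := by
  have hstep : FP fun p : (List Bool × List Bool) × Bool => triE_xs p.1 p.2 := by
    unfold triE_xs
    have h2 : FP fun p : (List Bool × List Bool) × Bool => p.1.1.headD false :=
      FP.headD (by fun_prop) _
    fun_prop
  have hsz : ∀ (s : List Bool × List Bool) (a : Bool),
      sz (triE_xs s a) ≤ sz s + (2 * sz a + 1) := by
    rintro ⟨v, r⟩ a
    unfold triE_xs
    split_ifs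
    · omega
    · simp only [sz_pair, sz_append, sz_bits, sz_bool, List.length_tail, List.length_cons,
        List.length_nil]
      omega
  have h3 := FP.snd.comp (triE_fold hstep hsz hf (hg.pair (FP.const ([] : List Bool))))
  refine (congrArg FP (funext fun a => ?_)).mp h3
  rw [triE_xs_eq, List.nil_append]

private theorem triE_xr_length (u v : List Bool) : (xr u v).length ≤ u.length := by
  unfold xr
  rw [List.length_zipWith]
  exact min_le_left _ _

/-- one step of the affine map -/
private def triE_as (s : List (List Bool) × List Bool) (t : Bool) :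
    List (List Bool) × List Bool :=
  if s.1.isEmpty then s else (s.1.tail, if t then xr s.2 (s.1.headD []) else s.2)

private theorem triE_as_eq (z : List Bool) (cs : List (List Bool)) (b : List Bool) :
    z.foldl triE_as (cs, b) = (cs.drop z.length, aff b cs z) := by
  induction z generalizing cs b with
  | nil => simp [aff]
  | cons t z ih =>
    cases cs with
    | nil =>
      have h : triE_as ([], b) t = ([], b) := by simp [triE_as]
      rw [List.foldl_cons, h, ih]
      simp [aff]
    | cons a cs =>
      have h : triE_as (a :: cs, b) t = (cs, if t then xr b a else b) := by simp [triE_as]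
      rw [List.foldl_cons, h, ih]
      simp [aff]

/-- PLAN. A fold over `z`, the state is `(rest of the columns, constant)`; if there are no columns
left the state does not change. -/
theorem aff_fp {b z : α → List Bool} {cs : α → List (List Bool)} (hb : FP b) (hc : FP cs)
    (hz : FP z) : FP fun a => aff (b a) (cs a) (z a) := by
  have hstep : FP fun p : (List (List Bool) × List Bool) × Bool => triE_as p.1 p.2 := by
    unfold triE_as
    have h2 : FP fun p : (List (List Bool) × List Bool) × Bool => p.1.1.headD [] :=
      FP.headD (by fun_prop) _
    have h3 : FP fun p : (List (List Bool) × List Bool) × Bool => xr p.1.2 (p.1.1.headD []) :=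
      xr_fp (by fun_prop) h2
    have h4 : FP fun p : (List (List Bool) × List Bool) × Bool =>
        if p.2 then xr p.1.2 (p.1.1.headD []) else p.1.2 := FP.ite (by fun_prop) h3 (by fun_prop)
    have h5 : FP fun p : (List (List Bool) × List Bool) × Bool => p.1.1.isEmpty := by fun_prop
    exact FP.ite h5 (by fun_prop) (FP.pair (by fun_prop) h4)
  have hsz : ∀ (s : List (List Bool) × List Bool) (a : Bool),
      sz (triE_as s a) ≤ sz s + (2 * sz a + 1) := by
    rintro ⟨cs, b⟩ t
    unfold triE_as
    split_ifs
    · omega
    · have h1 : sz cs.tail ≤ sz cs := by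
        have := sz_drop cs 1
        rwa [List.drop_one] at this
      have h2 := triE_xr_length b (cs.headD [])
      simp only [sz_pair, sz_bits, sz_bool]
      omega
    · have h1 : sz cs.tail ≤ sz cs := by
        have := sz_drop cs 1
        rwa [List.drop_one] at this
      simp only [sz_pair, sz_bits, sz_bool]
      omega
  have h3 := FP.snd.comp (triE_fold hstep hsz hz (hc.pair hb))
  refine (congrArg FP (funext fun a => ?_)).mp h3
  rw [triE_as_eq]

/-- one step of the removal of a column -/
private def triE_rs (s : Bool × (List Bool × (List Bool × List (List Bool)))) (a : List Bool) :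
    Bool × (List Bool × (List Bool × List (List Bool))) :=
  if s.1 then (true, (s.2.1, (s.2.2.1, s.2.2.2 ++ [a])))
  else if s.2.1.isEmpty || s.2.2.1.isEmpty then s
  else if s.2.1.headD false == s.2.2.1.headD false then
    (false, (s.2.1.tail, (s.2.2.1.tail, s.2.2.2 ++ [a])))
  else (true, s.2)

private theorem triE_rs_true (cs : List (List Bool)) (z z' : List Bool) (r : List (List Bool)) :
    cs.foldl triE_rs (true, (z, (z', r))) = (true, (z, (z', r ++ cs))) := by
  induction cs generalizing r with
  | nil => simp
  | cons a cs ih =>
    have h : triE_rs (true, (z, (z', r))) a = (true, (z, (z', r ++ [a]))) := by simp [triE_rs]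
    rw [List.foldl_cons, h, ih]
    simp

private theorem triE_rs_stop (cs : List (List Bool)) (z z' : List Bool) (r : List (List Bool))
    (h0 : (z.isEmpty || z'.isEmpty) = true) :
    cs.foldl triE_rs (false, (z, (z', r))) = (false, (z, (z', r))) := by
  induction cs with
  | nil => rfl
  | cons a cs ih =>
    have h : triE_rs (false, (z, (z', r))) a = (false, (z, (z', r))) := by
      unfold triE_rs
      rw [if_neg (by simp), if_pos h0]
    rw [List.foldl_cons, h, ih]

private theorem triE_rs_eq (cs : List (List Bool)) (z z' : List Bool) (r : List (List Bool)) :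
    (cs.foldl triE_rs (false, (z, (z', r)))).2.2.2 = r ++ rmv cs z z' := by
  induction cs generalizing z z' r with
  | nil => simp [rmv]
  | cons a cs ih =>
    cases z with
    | nil =>
      rw [triE_rs_stop _ _ _ _ (by simp)]
      simp [rmv]
    | cons t z =>
      cases z' with
      | nil =>
        rw [triE_rs_stop _ _ _ _ (by simp)]
        simp [rmv]
      | cons t' z' =>
        by_cases htt : t = t'
        · have h : triE_rs (false, (t :: z, (t' :: z', r))) a =
              (false, (z, (z', r ++ [a]))) := by simp [triE_rs, htt]
          rw [List.foldl_cons, h, ih]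
          simp [rmv, htt]
        · have h : triE_rs (false, (t :: z, (t' :: z', r))) a =
              (true, (t :: z, (t' :: z', r))) := by simp [triE_rs, htt]
          rw [List.foldl_cons, h, triE_rs_true]
          simp [rmv, htt]

/-- PLAN. A fold over the columns, the state is `(found?, (rest of z, (rest of z', result)))`. -/
theorem rmv_fp {z z' : α → List Bool} {cs : α → List (List Bool)} (hc : FP cs) (hz : FP z)
    (hz' : FP z') : FP fun a => rmv (cs a) (z a) (z' a) := by
  have hstep : FP fun p : (Bool × (List Bool × (List Bool × List (List Bool)))) × List Bool =>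
      triE_rs p.1 p.2 := by
    unfold triE_rs
    have h2 : FP fun p : (Bool × (List Bool × (List Bool × List (List Bool)))) × List Bool =>
        p.1.2.1.headD false := FP.headD (by fun_prop) _
    have h3 : FP fun p : (Bool × (List Bool × (List Bool × List (List Bool)))) × List Bool =>
        p.1.2.2.1.headD false := FP.headD (by fun_prop) _
    have h4 : FP fun p : (Bool × (List Bool × (List Bool × List (List Bool)))) × List Bool =>
        p.1.2.2.2 ++ [p.2] := by
      have h5 : FP fun p : (Bool × (List Bool × (List Bool × List (List Bool)))) × List Bool =>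
          [p.2] := FP.cons (by fun_prop) (FP.const [])
      fun_prop
    fun_prop
  have hsz : ∀ (s : Bool × (List Bool × (List Bool × List (List Bool)))) (a : List Bool),
      sz (triE_rs s a) ≤ sz s + (2 * sz a + 1) := by
    rintro ⟨d, z, z', r⟩ a
    unfold triE_rs
    split_ifs
    · simp only [sz_pair, sz_append, sz_bool, sz_cons, sz_nil]
      omega
    · omega
    · simp only [sz_pair, sz_append, sz_bool, sz_cons, sz_nil, sz_bits, List.length_tail]
      omega
    · simp only [sz_pair, sz_bool]
      omega
  have h3 := FP.snd.comp (FP.snd.comp (FP.snd.comp (triE_fold hstep hsz hc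
    ((FP.const false).pair (hz.pair (hz'.pair (FP.const ([] : List (List Bool)))))))))
  refine (congrArg FP (funext fun a => ?_)).mp h3
  rw [triE_rs_eq, List.nil_append]

/-- one step of the cutting into chunks -/
private def triE_cs (s : List Bool × (List Bool × List (List Bool))) (_ : Bool) :
    List Bool × (List Bool × List (List Bool)) :=
  (s.1, (s.2.1.drop s.1.length, s.2.2 ++ [s.2.1.take s.1.length]))

private theorem triE_cs_eq (m k w : List Bool) (r : List (List Bool)) :
    (m.foldl triE_cs (k, (w, r))).2.2 = r ++ chk k.length m.length w := by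
  induction m generalizing w r with
  | nil => simp [chk]
  | cons a m ih =>
    have h : triE_cs (k, (w, r)) a = (k, (w.drop k.length, r ++ [w.take k.length])) := rfl
    rw [List.foldl_cons, h, ih]
    simp [chk]

/-- PLAN. A fold over the unary word for `m`, the state is `(rest, result)`. -/
theorem chk_fp {k m w : α → List Bool} (hk : FP k) (hm : FP m) (hw : FP w) :
    FP fun a => chk (k a).length (m a).length (w a) := by
  have hstep : FP fun p : (List Bool × (List Bool × List (List Bool))) × Bool =>
      triE_cs p.1 p.2 := by
    unfold triE_cs
    have h4 : FP fun p : (List Bool × (List Bool × List (List Bool))) × Bool =>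
        p.1.2.1.take p.1.1.length := FP.take (by fun_prop) (by fun_prop)
    have h5 : FP fun p : (List Bool × (List Bool × List (List Bool))) × Bool =>
        [p.1.2.1.take p.1.1.length] := FP.cons h4 (FP.const [])
    have h6 : FP fun p : (List Bool × (List Bool × List (List Bool))) × Bool =>
        p.1.2.1.drop p.1.1.length := FP.drop (by fun_prop) (by fun_prop)
    fun_prop
  have hsz : ∀ (s : List Bool × (List Bool × List (List Bool))) (a : Bool),
      sz (triE_cs s a) ≤ sz s + (2 * sz a + 1) := by
    rintro ⟨k, w, r⟩ a
    unfold triE_cs
    simp only [sz_pair, sz_append, sz_bool, sz_cons, sz_nil, sz_bits, List.length_take,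
      List.length_drop]
    omega
  have h3 := FP.snd.comp (FP.snd.comp (triE_fold hstep hsz hm
    (hk.pair (hw.pair (FP.const ([] : List (List Bool)))))))
  refine (congrArg FP (funext fun a => ?_)).mp h3
  rw [triE_cs_eq, List.nil_append]

theorem flattenW_fp {l : α → List (List Bool)} (hl : FP l) : FP fun a => (l a).flatten := by
  have hstep : FP fun p : List Bool × List Bool => p.1 ++ p.2 := by fun_prop
  have hsz : ∀ (s : List Bool) (a : List Bool), sz (s ++ a) ≤ sz s + (2 * sz a + 1) := by
    intro s a
    rw [sz_append]
    omega
  have h3 := triE_fold (g := fun s a : List Bool => s ++ a) hstep hsz hl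
    (FP.const ([] : List Bool))
  refine (congrArg FP (funext fun a => ?_)).mp h3
  have key : ∀ (L : List (List Bool)) (r : List Bool),
      L.foldl (fun s a : List Bool => s ++ a) r = r ++ L.flatten := by
    intro L
    induction L with
    | nil => intro r; simp
    | cons a L ih =>
      intro r
      rw [List.foldl_cons, ih]
      simp
  rw [key, List.nil_append]

theorem nU_fp {f : α → List Bool} (hf : FP f) : FP fun a => nU (f a) := by
  unfold nU
  exact FP.cons (FP.const true) (FP.zr hf)

/-- one step of the halving -/
private def triE_hs (s : Bool × List Bool) (_ : Bool) : Bool × List Bool :=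
  (!s.1, if s.1 then true :: s.2 else s.2)

private theorem triE_hs_eq (w : List Bool) :
    ∀ (k : ℕ), (w.foldl triE_hs (false, un k)).2 = un (k + w.length / 2) ∧
      (w.foldl triE_hs (true, un k)).2 = un (k + (w.length + 1) / 2) := by
  induction w with
  | nil => intro k; simp
  | cons a w ih =>
    intro k
    have h1 : triE_hs (false, un k) a = (true, un k) := rfl
    have h2 : triE_hs (true, un k) a = (false, un (k + 1)) := rfl
    rw [List.foldl_cons, List.foldl_cons, h1, h2, (ih k).2, (ih (k + 1)).1]
    refine ⟨rfl, ?_⟩
    congr 1
    rw [List.length_cons]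
    omega

/-- PLAN. Halving of a unary word: a fold with a flag. -/
theorem kU_fp {f : α → List Bool} (hf : FP f) : FP fun a => kU (f a) := by
  have hstep : FP fun p : (Bool × List Bool) × Bool => triE_hs p.1 p.2 := by
    unfold triE_hs
    fun_prop
  have hsz : ∀ (s : Bool × List Bool) (a : Bool), sz (triE_hs s a) ≤ sz s + (2 * sz a + 1) := by
    rintro ⟨d, r⟩ a
    unfold triE_hs
    cases d
    · simp only [sz_pair, sz_bool, Bool.false_eq_true, if_false]
      omega
    · simp only [sz_pair, sz_bool, if_true, sz_cons]
      omega
  have h3 := FP.snd.comp (triE_fold hstep hsz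
    (FP.cons (FP.const true) (FP.cons (FP.const true) (nU_fp hf)))
    ((FP.const false).pair (FP.const ([] : List Bool))))
  refine (congrArg FP (funext fun a => ?_)).mp h3
  have h4 := (triE_hs_eq (true :: true :: nU (f a)) 0).1
  have h5 : un 0 = [] := rfl
  rw [h5] at h4
  rw [h4]
  unfold kU
  congr 1
  rw [List.length_cons, List.length_cons]
  omega

/-- PLAN. `FP.unMul`. -/
theorem rT_fp {f : α → List Bool} (hf : FP f) : FP fun a => un (rT (f a)) := by
  have h1 := FP.unMul (kU_fp hf) (FP.cons (FP.const true) (FP.cons (FP.const true) (nU_fp hf)))
  refine (congrArg FP (funext fun a => ?_)).mp h1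
  unfold rT
  simp

theorem nT_fp {f : α → List Bool} (hf : FP f) : FP fun a => nT (f a) := by
  have h1 := FP.tail (rT_fp hf)
  refine (congrArg FP (funext fun a => ?_)).mp h1
  unfold nT un
  rw [List.tail_replicate]

theorem pnt_fp {x I z : α → List Bool} (hx : FP x) (hI : FP I) (hz : FP z) :
    FP fun a => pnt (x a) (I a) (z a) := by
  unfold pnt
  have h1 : FP fun a => (I a).take (kU (x a)).length := FP.take hI (kU_fp hx)
  have h2 : FP fun a => (I a).drop (kU (x a)).length := FP.drop hI (kU_fp hx)
  have h3 := chk_fp (kU_fp hx) (FP.cons (FP.const true) (nU_fp hx)) h2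
  have h4 := hz.append (aff_fp h1 h3 hz)
  refine (congrArg FP (funext fun a => ?_)).mp h4
  simp

end Pool.Agent.APX
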