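import Pool.Agent.APX.TriE
import Pool.Agent.APX.OTab

set_option autoImplicit false

/-!
# APX-TriF: the combining scheme for threefold collisions is polynomial time with oracle
-/

namespace Pool.Agent.APX

open Pool.Agent.Helper22 N487b59b3 N68a2faeb

variable {α : Type} [N487b59b3 α]

private theorem triF_len {β : Type} [N487b59b3 β] {f : α → List β} {N : α → ℕ} (hf : FP f)
    (hN : FP fun a => un (N a)) : FP fun a => decide ((f a).length = N a) := by
  have h := FP.weq (FP.un_length hf) hN
  refine (congrArg FP (funext fun a => ?_)).mp h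
  rw [Bool.eq_iff_iff, weq_iff, decide_eq_true_iff]
  constructor
  · intro e
    have := congrArg List.length e
    simpa using this
  · intro e
    rw [e]

private theorem triF_take {f : α → List Bool} {N : α → ℕ} (hf : FP f)
    (hN : FP fun a => un (N a)) : FP fun a => (f a).take (N a) := by
  have h := FP.take hf hN
  simpa only [un_length] using h

private theorem triF_drop {f : α → List Bool} {N : α → ℕ} (hf : FP f)
    (hN : FP fun a => un (N a)) : FP fun a => (f a).drop (N a) := by
  have h := FP.drop hf hN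
  simpa only [un_length] using h

private theorem triF_n1 {x : α → List Bool} (hx : FP x) : FP fun a => un ((nU (x a)).length + 1) :=
  FP.un_length (f := fun a => true :: nU (x a)) (FP.cons (FP.const true) (nU_fp hx))

private theorem triF_k {x : α → List Bool} (hx : FP x) : FP fun a => un (kU (x a)).length :=
  FP.un_length (kU_fp hx)

private theorem triF_nk {x : α → List Bool} (hx : FP x) :
    FP fun a => un ((nU (x a)).length + 1 + (kU (x a)).length) := by
  have h := FP.append (triF_n1 hx) (triF_k hx)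
  refine (congrArg FP (funext fun a => ?_)).mp h
  rw [← un_add]

private theorem triF_2r {x : α → List Bool} (hx : FP x) : FP fun a => un (2 * rT (x a)) := by
  have h := FP.append (rT_fp hx) (rT_fp hx)
  refine (congrArg FP (funext fun a => ?_)).mp h
  rw [← un_add, two_mul]

/-- values of the function -/
theorem vlT_ofp {x v : α → List Bool} (hx : FP x) (hv : FP v) :
    OFP fun X (a : α) => vlT X (x a) (v a) :=
  orf_ofp.on (f := fun a => (nU (x a), v a)) (FP.pair (nU_fp hx) hv)

theorem ok0_fp : FP ok0 := by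
  have h1 : FP fun p : List Bool × (List Bool × List Bool) => p.1 := FP.fst
  have h2 : FP fun p : List Bool × (List Bool × List Bool) => p.2.1 := FP.fst' FP.snd
  have h3 : FP fun p : List Bool × (List Bool × List Bool) => p.2.2 := FP.snd' FP.snd
  exact FP.and (FP.weq h3 (FP.cd (FP.const []) h2)) (triF_len h2 (triF_2r h1))

theorem ok1_ofp : OFP ok1 := by
  have h1 : FP fun p : List Bool × (List Bool × List Bool) => p.1 := FP.fst
  have h2 : FP fun p : List Bool × (List Bool × List Bool) => p.2.1 := FP.fst' FP.snd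
  have h3 : FP fun p : List Bool × (List Bool × List Bool) => p.2.2 := FP.snd' FP.snd
  have hz : FP fun p : List Bool × (List Bool × List Bool) => cf (cs (cs p.2.2)) :=
    FP.cf (FP.cs (FP.cs h3))
  have hz' : FP fun p : List Bool × (List Bool × List Bool) => cs (cs (cs p.2.2)) :=
    FP.cs (FP.cs (FP.cs h3))
  exact OFP.and (OFP.of_fp (FP.weq h3 (FP.cd (FP.const [true]) (FP.cd h2 (FP.cd hz hz')))))
    (OFP.and (OFP.of_fp (triF_len h2 (rT_fp h1)))
      (OFP.and (OFP.of_fp (triF_len hz (triF_n1 h1)))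
        (OFP.and (OFP.of_fp (triF_len hz' (triF_n1 h1)))
          (OFP.and (OFP.of_fp (FP.not (FP.weq hz hz')))
            (OFP.weq (vlT_ofp h1 (pnt_fp h1 h2 hz)) (vlT_ofp h1 (pnt_fp h1 h2 hz')))))))

theorem ok2_ofp : OFP ok2 := by
  have h1 : FP fun p : List Bool × (List Bool × List Bool) => p.1 := FP.fst
  have h2 : FP fun p : List Bool × (List Bool × List Bool) => p.2.1 := FP.fst' FP.snd
  have h3 : FP fun p : List Bool × (List Bool × List Bool) => p.2.2 := FP.snd' FP.snd
  have ha : FP fun p : List Bool × (List Bool × List Bool) => cf (cs p.2.2) := FP.cf (FP.cs h3)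
  have hb : FP fun p : List Bool × (List Bool × List Bool) => cf (cs (cs p.2.2)) :=
    FP.cf (FP.cs (FP.cs h3))
  have hc : FP fun p : List Bool × (List Bool × List Bool) => cs (cs (cs p.2.2)) :=
    FP.cs (FP.cs (FP.cs h3))
  exact OFP.and (OFP.of_fp (FP.weq h3 (FP.cd (FP.const [true, true]) (FP.cd ha (FP.cd hb hc)))))
    (OFP.and (OFP.of_fp (FP.isEmpty h2))
      (OFP.and (OFP.of_fp (triF_len ha (triF_nk h1)))
        (OFP.and (OFP.of_fp (triF_len hb (triF_nk h1)))
          (OFP.and (OFP.of_fp (triF_len hc (triF_nk h1)))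
            (OFP.and (OFP.of_fp (FP.not (FP.weq ha hb)))
              (OFP.and (OFP.of_fp (FP.not (FP.weq ha hc)))
                (OFP.and (OFP.of_fp (FP.not (FP.weq hb hc)))
                  (OFP.and (OFP.weq (vlT_ofp h1 ha) (vlT_ofp h1 hb))
                    (OFP.weq (vlT_ofp h1 ha) (vlT_ofp h1 hc))))))))))

theorem okT_ofp : OFP okT := by
  have h1 : FP fun p : List Bool × (List Bool × (List Bool × List Bool)) => p.1 := FP.fst
  have h2 : FP fun p : List Bool × (List Bool × (List Bool × List Bool)) => p.2.1 := FP.fst' FP.snd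
  have h3 : FP fun p : List Bool × (List Bool × (List Bool × List Bool)) => p.2.2 := FP.snd' FP.snd
  have hp : FP fun p : List Bool × (List Bool × (List Bool × List Bool)) => (p.1, p.2.2) :=
    FP.pair h1 h3
  exact OFP.ite (OFP.of_fp (FP.isEmpty h2)) (OFP.of_fp (ok0_fp.comp hp))
    (OFP.ite (OFP.of_fp (FP.isEmpty (FP.tail h2))) (ok1_ofp.on hp)
      (OFP.and (OFP.of_fp (FP.isEmpty (FP.tail (FP.tail h2)))) (ok2_ofp.on hp)))

theorem cod0_ofp : OFP cod0 := by
  have h1 : FP fun p : List Bool × List Bool => p.1 := FP.fst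
  have h2 : FP fun p : List Bool × List Bool => cs p.2 := FP.cs FP.snd
  have h3 : FP fun p : List Bool × List Bool => (cs p.2).take (rT p.1) := triF_take h2 (rT_fp h1)
  have h4 : FP fun p : List Bool × List Bool => (cs p.2).drop (rT p.1) := triF_drop h2 (rT_fp h1)
  exact OFP.append (vlT_ofp h1 (pnt_fp h1 h3 (triF_take h4 (triF_n1 h1))))
    (OFP.of_fp (triF_drop h4 (triF_n1 h1)))

theorem cod1_ofp : OFP cod1 := by
  have h1 : FP fun p : List Bool × List Bool => p.1 := FP.fst
  have h2 : FP fun p : List Bool × List Bool => cs p.2 := FP.cs FP.snd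
  have hP : FP fun p : List Bool × List Bool => cf (cs p.2) := FP.cf h2
  have hz : FP fun p : List Bool × List Bool => cf (cs (cs p.2)) := FP.cf (FP.cs h2)
  have hz' : FP fun p : List Bool × List Bool => cs (cs (cs p.2)) := FP.cs (FP.cs h2)
  have hk : FP fun p : List Bool × List Bool => kU p.1 := kU_fp h1
  have hn : FP fun p : List Bool × List Bool => true :: nU p.1 := FP.cons (FP.const true) (nU_fp h1)
  have hc : FP fun p : List Bool × List Bool =>
      chk (kU p.1).length ((nU p.1).length + 1) ((cf (cs p.2)).drop (kU p.1).length) :=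
    chk_fp hk hn (FP.drop hP hk)
  exact OFP.append (vlT_ofp h1 (pnt_fp h1 hP hz)) (OFP.of_fp (flattenW_fp (rmv_fp hc hz hz')))

theorem codT_ofp : OFP codT := by
  have h1 : FP fun p : List Bool × List Bool => p.1 := FP.fst
  exact OFP.map2 (f := fun q : List Bool × List Bool => fit q.1 q.2) (FP.fit FP.fst FP.snd)
    (OFP.of_fp (nT_fp h1)) (OFP.ite (OFP.of_fp (FP.isEmpty (FP.cf FP.snd))) cod0_ofp cod1_ofp)

theorem staT_fp : FP staT := FP.cd (FP.const []) FP.snd

theorem cmb0_fp : FP cmb0 := by
  have h1 : FP fun p : List Bool × (List Bool × (List Bool × List Bool)) => p.1 := FP.fst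
  have h2 : FP fun p : List Bool × (List Bool × (List Bool × List Bool)) => p.2.1 := FP.fst' FP.snd
  have h3 : FP fun p : List Bool × (List Bool × (List Bool × List Bool)) => cs p.2.2.1 :=
    FP.cs (FP.fst' (FP.snd' FP.snd))
  have h4 : FP fun p : List Bool × (List Bool × (List Bool × List Bool)) => cs p.2.2.2 :=
    FP.cs (FP.snd' (FP.snd' FP.snd))
  exact FP.cd (FP.const [true]) (FP.cd h2 (FP.cd
    (triF_take (triF_drop h3 (rT_fp h1)) (triF_n1 h1))
    (triF_take (triF_drop h4 (rT_fp h1)) (triF_n1 h1))))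

theorem cmb1_fp : FP cmb1 := by
  have h1 : FP fun p : List Bool × (List Bool × (List Bool × List Bool)) => p.1 := FP.fst
  have h3 : FP fun p : List Bool × (List Bool × (List Bool × List Bool)) => cs p.2.2.1 :=
    FP.cs (FP.fst' (FP.snd' FP.snd))
  have h4 : FP fun p : List Bool × (List Bool × (List Bool × List Bool)) => cs p.2.2.2 :=
    FP.cs (FP.snd' (FP.snd' FP.snd))
  have a1 : FP fun p : List Bool × (List Bool × (List Bool × List Bool)) =>
      pnt p.1 (cf (cs p.2.2.1)) (cf (cs (cs p.2.2.1))) := pnt_fp h1 (FP.cf h3) (FP.cf (FP.cs h3))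
  have a2 : FP fun p : List Bool × (List Bool × (List Bool × List Bool)) =>
      pnt p.1 (cf (cs p.2.2.1)) (cs (cs (cs p.2.2.1))) := pnt_fp h1 (FP.cf h3) (FP.cs (FP.cs h3))
  have b1 : FP fun p : List Bool × (List Bool × (List Bool × List Bool)) =>
      pnt p.1 (cf (cs p.2.2.2)) (cf (cs (cs p.2.2.2))) := pnt_fp h1 (FP.cf h4) (FP.cf (FP.cs h4))
  have b2 : FP fun p : List Bool × (List Bool × (List Bool × List Bool)) =>
      pnt p.1 (cf (cs p.2.2.2)) (cs (cs (cs p.2.2.2))) := pnt_fp h1 (FP.cf h4) (FP.cs (FP.cs h4))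
  exact FP.cd (FP.const [true, true]) (FP.cd a1 (FP.cd a2
    (FP.ite (FP.or (FP.weq b1 a1) (FP.weq b1 a2)) b2 b1)))

theorem cmbT_fp : FP cmbT := by
  have h3 : FP fun p : List Bool × (List Bool × (List Bool × List Bool)) => cf p.2.2.1 :=
    FP.cf (FP.fst' (FP.snd' FP.snd))
  exact FP.ite (FP.isEmpty h3) cmb0_fp cmb1_fp

theorem solT_fp : FP solT := by
  have h2 : FP fun p : List Bool × List Bool => cs p.2 := FP.cs FP.snd
  exact FP.tw (FP.cons (FP.cf h2) (FP.cons (FP.cf (FP.cs h2)) (FP.cons (FP.cs (FP.cs h2)) (FP.const []))))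

end Pool.Agent.APX
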