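import Pool.Agent.APX.Comb
import Pool.Agent.APX.TriD
import Pool.Agent.APX.TriF

set_option autoImplicit false

/-!
# APX-TriM: threefold collisions are reducible to CPLS
-/

namespace Pool.Agent.APX

open Pool.Agent.Helper22 N487b59b3 N68a2faeb

/-- PLAN. A `Scheme TriP` with `K x = [true, true]`, `n = nT` (`length_nT`, `nT_fp`),
`p = 20 (X + 3) ^ 2` (`okT_length`) and the procedures of `okT_ofp`, `staT_fp`, `codT_ofp`,
`cmbT_fp`, `solT_fp`; `okT_start`, `codT_length`, `okT_comb`, `okT_sol`. -/
theorem tri_reducible : ReducibleToCPLS TriP := by
  obtain ⟨mok, hok⟩ := okT_ofp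
  obtain ⟨mst, hst⟩ := OFP.of_fp staT_fp
  obtain ⟨mco, hco⟩ := codT_ofp
  obtain ⟨mcb, hcb⟩ := OFP.of_fp cmbT_fp
  obtain ⟨mso, hso⟩ := OFP.of_fp solT_fp
  have hK : FP fun _ : List Bool => ([true, true] : List Bool) := FP.const _
  have hn : FP fun x : List Bool => nT x := nT_fp FP.id
  have S : Scheme TriP :=
    { K := fun _ => [true, true]
      K_poly := (isPolyTime_iff _).2 hK
      n := fun x => nT x
      n_poly := (isPolyTime_iff _).2 hn
      n_pos := by
        intro x
        have h1 := length_nT x
        have h2 := nU_lt_rT x
        show 0 < (nT x).length
        omega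
      p := Polynomial.C 20 * (Polynomial.X + Polynomial.C 3) ^ 2
      ok := mok
      start := mst
      code := mco
      comb := mcb
      sol := mso
      ok_length := by
        intro X x P O i h
        rw [hok] at h
        have h1 := okT_length h
        simpa using h1
      ok_start := by
        intro X x v h
        rw [hok, hst]
        refine okT_start X x v ?_
        rw [h]
        show 2 * ((nT x).length + 1) = _
        rw [length_nT]
      code_length := by
        intro X x P O i _
        rw [hco]
        exact codT_length X x O
      ok_comb := by
        intro X x P c c' O O' i hi hc hc' hne h h' he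
        rw [hok] at h h' ⊢
        rw [hco, hco] at he
        rw [hcb]
        have e1 : c.length = rT x := by
          rw [hc]; exact length_nT x
        have e2 : c'.length = rT x := by
          rw [hc']; exact length_nT x
        exact okT_comb hi e1 e2 hne h h' he
      ok_sol := by
        intro X x O h
        rw [hok] at h
        rw [hso]
        exact okT_sol h }
  exact S.reducible

end Pool.Agent.APX
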